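import Pool.Agent.Helper19.Maxwell.TriDefs

set_option autoImplicit false

namespace Pool.Agent.Helper19.Maxwell


lemma cosh_mul (x y : ℝ) : 2 * (Real.exp x * Real.exp y) * Real.cosh (x - y) =
    Real.exp x ^ 2 + Real.exp y ^ 2 := by
  rw [Real.cosh_eq, neg_sub, Real.exp_sub, Real.exp_sub]
  have := (Real.exp_pos x).ne'
  have := (Real.exp_pos y).ne'
  field_simp

lemma sinh_mul (x y : ℝ) : 2 * (Real.exp x * Real.exp y) * Real.sinh (x - y) =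
    Real.exp x ^ 2 - Real.exp y ^ 2 := by
  rw [Real.sinh_eq, neg_sub, Real.exp_sub, Real.exp_sub]
  have := (Real.exp_pos x).ne'
  have := (Real.exp_pos y).ne'
  field_simp

lemma amp_cube_b (Q l : ℝ) : amp Q l ^ 3 = Q ^ 2 * l ^ 4 := by
  unfold amp
  have h : 0 ≤ |Q| * l ^ 2 := by positivity
  rw [← Real.rpow_natCast, ← Real.rpow_mul h]
  norm_num
  rw [mul_pow, sq_abs]
  ring

lemma exp_third (x : ℝ) : Real.exp (x / 3) ^ 3 = Real.exp x := by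
  rw [← Real.exp_nat_mul]
  congr 1
  push_cast
  ring

lemma cube_eq {Δ lam Q l x : ℝ} (h : Δ = lam * (amp Q l * Real.exp (x / 3))) :
    Δ ^ 3 = lam ^ 3 * (Q ^ 2 * l ^ 4) * Real.exp x := by
  rw [h, mul_pow, mul_pow, amp_cube_b, exp_third]
  ring

lemma alg_core {k1 k2 k3 t1 t2 t3 : ℝ} (q2 : k2 ^ 2 + t2 ^ 2 = 1)
    (q3 : k3 ^ 2 + t3 ^ 2 = 1)
    (ck1 : k1 = t2 * t3 - k2 * k3) (ck2 : k2 = t3 * t1 - k3 * k1) (ck3 : k3 = t1 * t2 - k1 * k2)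
    {b1 b2 b3 N1 N2 N3 : ℝ} (hN1 : N1 = b2 ^ 2 + b3 ^ 2 + 2 * b2 * b3 * k1)
    (hN2 : N2 = b1 ^ 2 + b3 ^ 2 + 2 * b1 * b3 * k2) (hN3 : N3 = b1 ^ 2 + b2 ^ 2 + 2 * b1 * b2 * k3)
    (n1 : N1 ≠ 0) (n2 : N2 ≠ 0) (n3 : N3 ≠ 0)
    (hS : -((b2 ^ 2 - b3 ^ 2) / N1 * ((b3 ^ 2 - b1 ^ 2) / N2) +
      (b3 ^ 2 - b1 ^ 2) / N2 * ((b1 ^ 2 - b2 ^ 2) / N3) +
      (b2 ^ 2 - b3 ^ 2) / N1 * ((b1 ^ 2 - b2 ^ 2) / N3)) = 1 / 9) :
    t1 * t2 * (b1 * b2 * b3 ^ 2) / (N1 * N2) + t2 * t3 * (b2 * b3 * b1 ^ 2) / (N2 * N3) +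
      t1 * t3 * (b1 * b3 * b2 ^ 2) / (N1 * N3) = 2 / 9 := by
  have e1 : t2 * t3 = k1 + k2 * k3 := by linarith
  have e2 : t1 * t3 = k2 + k1 * k3 := by linarith
  have e3 : t1 * t2 = k3 + k1 * k2 := by linarith
  have hR : k1 ^ 2 + k2 ^ 2 + k3 ^ 2 + 2 * k1 * k2 * k3 = 1 := by
    have h : (t2 * t3) ^ 2 = (k1 + k2 * k3) ^ 2 := by rw [e1]
    have h2 : t2 ^ 2 = 1 - k2 ^ 2 := by linarith
    have h3 : t3 ^ 2 = 1 - k3 ^ 2 := by linarith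
    rw [mul_pow, h2, h3] at h
    linear_combination -h
  have hpoly : 4 * (b3 ^ 2 * b1 * b2 * (k3 + k1 * k2) * N3 + b1 ^ 2 * b2 * b3 * (k1 + k2 * k3) * N1 +
      b2 ^ 2 * b1 * b3 * (k2 + k1 * k3) * N2) - ((b2 ^ 2 - b3 ^ 2) * (b3 ^ 2 - b1 ^ 2) * N3 +
      (b3 ^ 2 - b1 ^ 2) * (b1 ^ 2 - b2 ^ 2) * N1 + (b2 ^ 2 - b3 ^ 2) * (b1 ^ 2 - b2 ^ 2) * N2) =
      N1 * N2 * N3 := by
    rw [hN1, hN2, hN3]
    linear_combination (8 * b1 ^ 2 * b2 ^ 2 * b3 ^ 2) * hR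
  rw [e1, e2, e3]
  have hS' : -((b2 ^ 2 - b3 ^ 2) * (b3 ^ 2 - b1 ^ 2) * N3 +
      (b3 ^ 2 - b1 ^ 2) * (b1 ^ 2 - b2 ^ 2) * N1 + (b2 ^ 2 - b3 ^ 2) * (b1 ^ 2 - b2 ^ 2) * N2) * 9 =
      N1 * N2 * N3 := by
    field_simp at hS
    linear_combination hS
  field_simp
  linear_combination (9 / 4) * hpoly - (1 / 4) * hS'

lemma gram {E : Type*} [NormedAddCommGroup E] [InnerProductSpace ℝ E] (u w : E) (p q r s : ℝ) :
    inner ℝ (p • u + q • w) (p • u + q • w) * inner ℝ (r • u + s • w) (r • u + s • w) -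
      inner ℝ (p • u + q • w) (r • u + s • w) ^ 2 =
      (p * s - q * r) ^ 2 * (inner ℝ u u * inner ℝ w w - inner ℝ u w ^ 2) := by
  simp only [inner_add_left, inner_add_right, real_inner_smul_left, real_inner_smul_right]
  rw [real_inner_comm u w]
  ring

lemma inner_comb {E : Type*} [NormedAddCommGroup E] [InnerProductSpace ℝ E] (u w : E) (p q : ℝ) :
    inner ℝ (p • u + q • w) (p • u + q • w) =
      p ^ 2 * inner ℝ u u + 2 * p * q * inner ℝ u w + q ^ 2 * inner ℝ w w := by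
  simp only [inner_add_left, inner_add_right, real_inner_smul_left, real_inner_smul_right]
  rw [real_inner_comm u w]
  ring

lemma dist_sq_inner {E : Type*} [NormedAddCommGroup E] [InnerProductSpace ℝ E] (x y : E) :
    dist x y ^ 2 = inner ℝ (x - y) (x - y) := by
  rw [dist_eq_norm, real_inner_self_eq_norm_sq]

lemma eq_of_sq_eq_of_mul_pos {x y : ℝ} (h : x ^ 2 = y ^ 2) (h2 : 0 < x * y) : x = y := by
  rcases sq_eq_sq_iff_eq_or_eq_neg.1 h with h3 | h3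
  · exact h3
  · exfalso
    rw [h3] at h2
    nlinarith [sq_nonneg y]


set_option maxHeartbeats 4000000 in
/-- A solution of the system with `ff = 1/9` comes from an equilibrium whose in-plane Hessian
is degenerate. -/
theorem backward {a : Fin 3 → EuclideanSpace ℝ (Fin 3)} (D : TriData a)
    (hcol : ¬ Collinear ℝ (Set.range a)) (q : Fin 3 → ℝ) (hq : ∀ j, q j ≠ 0)
    (hs : 0 < q 1 * q 2) (g : ℝ) (hg : g ^ 2 = 1) (hg0 : 0 < g * (q 0 * q 1))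
    (p : ℝ × ℝ)
    (hp : p ∈ Sol (shapeOf D g hg) (amp (q 0) D.l1) (amp (q 1) D.l2) (amp (q 2) D.l3))
    (hf : ff (shapeOf D g hg) p.1 p.2 = 1 / 9) :
    ∃ (x : EuclideanSpace ℝ (Fin 3)) (β : Fin 3 → ℝ) (c : ℝ), x ∉ Set.range a ∧ c ≠ 0 ∧
      (∀ j, β j ≠ 0) ∧ ∑ j, β j = 1 ∧ ∑ j, β j • (x - a j) = 0 ∧
      (∀ j, q j / dist x (a j) ^ 3 = c * β j) ∧
      β 0 * β 1 * (1 - inner ℝ (x - a 0) (x - a 1) ^ 2 / (dist x (a 0) ^ 2 * dist x (a 1) ^ 2))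
      + β 1 * β 2 * (1 - inner ℝ (x - a 1) (x - a 2) ^ 2 / (dist x (a 1) ^ 2 * dist x (a 2) ^ 2))
      + β 0 * β 2 * (1 - inner ℝ (x - a 0) (x - a 2) ^ 2 / (dist x (a 0) ^ 2 * dist x (a 2) ^ 2))
      = 2 / 9 := by
  obtain ⟨X, v⟩ := p
  obtain ⟨lam, hlam, h1, h2, h3⟩ := hp
  simp only [D1, D2, D3, Del, shapeOf] at h1 h2 h3
  simp only [ff, SS, shapeOf] at hf
  obtain ⟨l1, l2, l3, k1, k2, k3, t1, t2, t3, e1, e2, e3, pl1, pl2, pl3, pt1, pt2, pt3, qq1, qq2,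
    qq3, ck1, ck2, ck3, ct1, ct2, ct3, i1, i2, i3, sn1, sn2⟩ := D
  simp only at h1 h2 h3 hf
  have cc1 := cosh_mul v (-v)
  rw [show v - -v = 2 * v by ring] at cc1
  have cc2 := cosh_mul (-v) X
  have cc3 := cosh_mul X v
  have ss1 := sinh_mul v (-v)
  rw [show v - -v = 2 * v by ring] at ss1
  have ss2 := sinh_mul (-v) X
  have ss3 := sinh_mul X v
  have dd1 := cube_eq h1
  have dd2 := cube_eq h2
  have dd3 := cube_eq h3
  have ch1 := Real.one_le_cosh (2 * v)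
  have ch2 := Real.one_le_cosh (-v - X)
  have ch3 := Real.one_le_cosh (X - v)
  have P1 := Real.exp_pos X
  have P2 := Real.exp_pos v
  have P3 := Real.exp_pos (-v)
  clear h1 h2 h3
  have kk : ∀ k t : ℝ, 0 < t → k ^ 2 + t ^ 2 = 1 → -1 < k := by
    intro k t ht h
    nlinarith [sq_nonneg (k + 1), mul_pos ht ht]
  have g1 : -1 < k1 := kk _ _ pt1 qq1
  have g2 : -1 < g * k2 := kk _ t2 pt2 (by rw [mul_pow, hg, one_mul]; exact qq2)
  have g3 : -1 < g * k3 := kk _ t3 pt3 (by rw [mul_pow, hg, one_mul]; exact qq3)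
  generalize Real.exp X = B1 at *
  generalize Real.exp v = B2 at *
  generalize Real.exp (-v) = B3 at *
  generalize Real.cosh (2 * v) = C1 at *
  generalize Real.cosh (-v - X) = C2 at *
  generalize Real.cosh (X - v) = C3 at *
  generalize Real.sinh (2 * v) = S1 at *
  generalize Real.sinh (-v - X) = S2 at *
  generalize Real.sinh (X - v) = S3 at *
  have hg' : g ≠ 0 := by
    rintro rfl
    norm_num at hg
  obtain ⟨b1, hb1⟩ : ∃ b1, b1 = g * B1 := ⟨_, rfl⟩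
  have hb1s : b1 ^ 2 = B1 ^ 2 := by rw [hb1, mul_pow, hg, one_mul]
  have hb1n : b1 ≠ 0 := by rw [hb1]; exact mul_ne_zero hg' P1.ne'
  obtain ⟨N1, hN1⟩ : ∃ N1, N1 = B2 ^ 2 + B3 ^ 2 + 2 * B2 * B3 * k1 := ⟨_, rfl⟩
  obtain ⟨N2, hN2⟩ : ∃ N2, N2 = b1 ^ 2 + B3 ^ 2 + 2 * b1 * B3 * k2 := ⟨_, rfl⟩
  obtain ⟨N3, hN3⟩ : ∃ N3, N3 = b1 ^ 2 + B2 ^ 2 + 2 * b1 * B2 * k3 := ⟨_, rfl⟩
  have m1 : N1 = 2 * (B2 * B3) * (C1 + k1) := by rw [hN1]; linear_combination -cc1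
  have m2 : N2 = 2 * (B3 * B1) * (C2 + g * k2) := by
    rw [hN2, hb1s, hb1]; linear_combination -cc2
  have m3 : N3 = 2 * (B1 * B2) * (C3 + g * k3) := by
    rw [hN3, hb1s, hb1]; linear_combination -cc3
  have pD1 : 0 < C1 + k1 := by linarith
  have pD2 : 0 < C2 + g * k2 := by linarith
  have pD3 : 0 < C3 + g * k3 := by linarith
  have pN1 : 0 < N1 := by rw [m1]; positivity
  have pN2 : 0 < N2 := by rw [m2]; positivity
  have pN3 : 0 < N3 := by rw [m3]; positivity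
  have r1 : S1 / (C1 + k1) = (B2 ^ 2 - B3 ^ 2) / N1 := by
    rw [m1, ← ss1, mul_div_mul_left _ _ (by positivity)]
  have r2 : S2 / (C2 + g * k2) = (B3 ^ 2 - b1 ^ 2) / N2 := by
    rw [m2, hb1s, ← ss2, mul_div_mul_left _ _ (by positivity)]
  have r3 : S3 / (C3 + g * k3) = (b1 ^ 2 - B2 ^ 2) / N3 := by
    rw [m3, hb1s, ← ss3, mul_div_mul_left _ _ (by positivity)]
  rw [r1, r2, r3] at hf
  have hsum := alg_core qq2 qq3 ck1 ck2 ck3 hN1 hN2 hN3 pN1.ne' pN2.ne' pN3.ne' hf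
  -- sigma
  have hM : t1 * t2 * B3 * N3 + t2 * t3 * b1 * N1 + t1 * t3 * B2 * N2 =
      (t1 * b1 + t2 * B2 + t3 * B3) * (t1 * B2 * B3 + t2 * b1 * B3 + t3 * b1 * B2) := by
    rw [hN1, hN2, hN3]
    linear_combination (-(b1 * B2 * B3) * t1) * ct1 - (b1 * B2 * B3 * t2) * ct2 -
      (b1 * B2 * B3 * t3) * ct3
  have hs' : t1 * b1 + t2 * B2 + t3 * B3 ≠ 0 := by
    intro h0
    rw [h0, zero_mul] at hM
    have hsum' := hsum
    field_simp at hsum'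
    have : (2 : ℝ) * (N1 * N2 * N3) = 0 := by
      linear_combination (-1 : ℝ) * hsum' + (9 * b1 * B2 * B3) * hM
    have hpos : 0 < 2 * (N1 * N2 * N3) := by positivity
    linarith
  have sn3 : l1 * t3 = l3 * t1 := by
    have : t2 * (l1 * t3 - l3 * t1) = 0 := by linear_combination t3 * sn1 + t1 * sn2
    rcases mul_eq_zero.1 this with h | h
    · exact absurd h pt2.ne'
    · linarith
  obtain ⟨σ, hσ⟩ : ∃ σ, σ = l1 * b1 + l2 * B2 + l3 * B3 := ⟨_, rfl⟩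
  have hσ0 : σ ≠ 0 := by
    intro h0
    have h : t1 * σ = l1 * (t1 * b1 + t2 * B2 + t3 * B3) := by
      rw [hσ]; linear_combination (-B2) * sn1 - B3 * sn3
    rw [h0, mul_zero] at h
    exact (mul_ne_zero pl1.ne' hs') h.symm
  obtain ⟨β0, hβ0⟩ : ∃ β0, β0 = l1 * b1 / σ := ⟨_, rfl⟩
  obtain ⟨β1, hβ1⟩ : ∃ β1, β1 = l2 * B2 / σ := ⟨_, rfl⟩
  obtain ⟨β2, hβ2⟩ : ∃ β2, β2 = l3 * B3 / σ := ⟨_, rfl⟩
  have nβ0 : β0 ≠ 0 := by rw [hβ0]; exact div_ne_zero (mul_ne_zero pl1.ne' hb1n) hσ0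
  have nβ1 : β1 ≠ 0 := by rw [hβ1]; exact div_ne_zero (mul_ne_zero pl2.ne' P2.ne') hσ0
  have nβ2 : β2 ≠ 0 := by rw [hβ2]; exact div_ne_zero (mul_ne_zero pl3.ne' P3.ne') hσ0
  have hβs : β0 + β1 + β2 = 1 := by
    rw [hβ0, hβ1, hβ2, ← add_div, ← add_div, ← hσ, div_self hσ0]
  have hβ0' : β0 = 1 - β1 - β2 := by linarith
  obtain ⟨x, hx⟩ : ∃ x, x = β0 • a 0 + β1 • a 1 + β2 • a 2 := ⟨_, rfl⟩
  have d0 : x - a 0 = β1 • (a 1 - a 0) + β2 • (a 2 - a 0) := by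
    rw [hx, hβ0']; module
  have d1 : x - a 1 = (β1 - 1) • (a 1 - a 0) + β2 • (a 2 - a 0) := by
    rw [hx, hβ0']; module
  have d2 : x - a 2 = β1 • (a 1 - a 0) + (β2 - 1) • (a 2 - a 0) := by
    rw [hx, hβ0']; module
  have d1' : x - a 1 = β0 • (a 0 - a 1) + β2 • (a 2 - a 1) := by
    rw [hx, hβ0']; module
  have d2' : x - a 2 = β0 • (a 0 - a 2) + β1 • (a 1 - a 2) := by
    rw [hx, hβ0']; module
  have n10 : inner ℝ (a 1 - a 0) (a 1 - a 0) = l3 ^ 2 := by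
    rw [← dist_sq_inner, dist_comm, e3]
  have n01 : inner ℝ (a 0 - a 1) (a 0 - a 1) = l3 ^ 2 := by
    rw [← dist_sq_inner, e3]
  have n20 : inner ℝ (a 2 - a 0) (a 2 - a 0) = l2 ^ 2 := by
    rw [← dist_sq_inner, dist_comm, e2]
  have n02 : inner ℝ (a 0 - a 2) (a 0 - a 2) = l2 ^ 2 := by
    rw [← dist_sq_inner, e2]
  have n21 : inner ℝ (a 2 - a 1) (a 2 - a 1) = l1 ^ 2 := by
    rw [← dist_sq_inner, dist_comm, e1]
  have n12 : inner ℝ (a 1 - a 2) (a 1 - a 2) = l1 ^ 2 := by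
    rw [← dist_sq_inner, e1]
  have X0 : dist x (a 0) ^ 2 = l2 ^ 2 * l3 ^ 2 * N1 / σ ^ 2 := by
    rw [dist_sq_inner, d0, inner_comb, n10, n20, i1, hβ1, hβ2, hN1]
    field_simp
    ring
  have X1 : dist x (a 1) ^ 2 = l1 ^ 2 * l3 ^ 2 * N2 / σ ^ 2 := by
    rw [dist_sq_inner, d1', inner_comb, n01, n21, i2, hβ0, hβ2, hN2]
    field_simp
    ring
  have X2 : dist x (a 2) ^ 2 = l1 ^ 2 * l2 ^ 2 * N3 / σ ^ 2 := by
    rw [dist_sq_inner, d2', inner_comb, n02, n12, i3, hβ0, hβ1, hN3]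
    field_simp
    ring
  have pos_of : ∀ j, 0 < dist x (a j) ^ 2 → 0 < dist x (a j) := by
    intro j h
    rcases (dist_nonneg (x := x) (y := a j)).lt_or_eq with h2 | h2
    · exact h2
    · rw [← h2] at h; norm_num at h
  have pX0 : 0 < dist x (a 0) := pos_of 0 (by rw [X0]; positivity)
  have pX1 : 0 < dist x (a 1) := pos_of 1 (by rw [X1]; positivity)
  have pX2 : 0 < dist x (a 2) := pos_of 2 (by rw [X2]; positivity)
  -- the charges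
  obtain ⟨K, hK⟩ : ∃ K, K = 8 * lam ^ 3 * (l1 * l2 * l3) ^ 6 * (B1 * B2 * B3) ^ 3 / σ ^ 8 := ⟨_, rfl⟩
  have y0 : (dist x (a 0) ^ 3 * β0) ^ 2 = K * q 0 ^ 2 := by
    have : (dist x (a 0) ^ 3 * β0) ^ 2 = (dist x (a 0) ^ 2) ^ 3 * β0 ^ 2 := by ring
    rw [this, X0, hβ0, hK, div_pow, div_pow, mul_pow, mul_pow, mul_pow l1, hb1s, m1, mul_pow _ (C1 + k1),
      dd1]
    field_simp
    try ring
  have y1 : (dist x (a 1) ^ 3 * β1) ^ 2 = K * q 1 ^ 2 := by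
    have : (dist x (a 1) ^ 3 * β1) ^ 2 = (dist x (a 1) ^ 2) ^ 3 * β1 ^ 2 := by ring
    rw [this, X1, hβ1, hK, div_pow, div_pow, mul_pow, mul_pow, mul_pow l2, m2,
      mul_pow _ (C2 + g * k2), dd2]
    field_simp
    try ring
  have y2 : (dist x (a 2) ^ 3 * β2) ^ 2 = K * q 2 ^ 2 := by
    have : (dist x (a 2) ^ 3 * β2) ^ 2 = (dist x (a 2) ^ 2) ^ 3 * β2 ^ 2 := by ring
    rw [this, X2, hβ2, hK, div_pow, div_pow, mul_pow, mul_pow, mul_pow l3, m3,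
      mul_pow _ (C3 + g * k3), dd3]
    field_simp
    try ring
  have sg01 : 0 < (q 0 * q 1) * (β0 * β1) := by
    have : (q 0 * q 1) * (β0 * β1) = (g * (q 0 * q 1)) * (l1 * l2 * B1 * B2 / σ ^ 2) := by
      rw [hβ0, hβ1, hb1]; field_simp
    rw [this]
    have : 0 < σ ^ 2 := by positivity
    positivity
  have sg12 : 0 < (q 1 * q 2) * (β1 * β2) := by
    have : (q 1 * q 2) * (β1 * β2) = (q 1 * q 2) * (l2 * l3 * B2 * B3 / σ ^ 2) := by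
      rw [hβ1, hβ2]; field_simp
    rw [this]
    have : 0 < σ ^ 2 := by positivity
    positivity
  have f01 : q 0 * (dist x (a 1) ^ 3 * β1) = q 1 * (dist x (a 0) ^ 3 * β0) := by
    apply eq_of_sq_eq_of_mul_pos
    · rw [mul_pow (q 0), mul_pow (q 1), y0, y1]; ring
    · have : q 0 * (dist x (a 1) ^ 3 * β1) * (q 1 * (dist x (a 0) ^ 3 * β0)) =
        ((q 0 * q 1) * (β0 * β1)) * (dist x (a 1) ^ 3 * dist x (a 0) ^ 3) := by ring
      rw [this]; positivity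
  have f21 : q 2 * (dist x (a 1) ^ 3 * β1) = q 1 * (dist x (a 2) ^ 3 * β2) := by
    apply eq_of_sq_eq_of_mul_pos
    · rw [mul_pow (q 2), mul_pow (q 1), y2, y1]; ring
    · have : q 2 * (dist x (a 1) ^ 3 * β1) * (q 1 * (dist x (a 2) ^ 3 * β2)) =
        ((q 1 * q 2) * (β1 * β2)) * (dist x (a 1) ^ 3 * dist x (a 2) ^ 3) := by ring
      rw [this]; positivity
  -- Gram determinants
  have hGr : inner ℝ (a 1 - a 0) (a 1 - a 0) * inner ℝ (a 2 - a 0) (a 2 - a 0) -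
      inner ℝ (a 1 - a 0) (a 2 - a 0) ^ 2 = (l2 * l3 * t1) ^ 2 := by
    rw [n10, n20, i1]
    linear_combination (-(l3 ^ 2 * l2 ^ 2)) * qq1
  have G01 : dist x (a 0) ^ 2 * dist x (a 1) ^ 2 - inner ℝ (x - a 0) (x - a 1) ^ 2 =
      β2 ^ 2 * (l2 * l3 * t1) ^ 2 := by
    rw [dist_sq_inner, dist_sq_inner, d0, d1, gram, hGr]; ring
  have G02 : dist x (a 0) ^ 2 * dist x (a 2) ^ 2 - inner ℝ (x - a 0) (x - a 2) ^ 2 =
      β1 ^ 2 * (l2 * l3 * t1) ^ 2 := by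
    rw [dist_sq_inner, dist_sq_inner, d0, d2, gram, hGr]; ring
  have G12 : dist x (a 1) ^ 2 * dist x (a 2) ^ 2 - inner ℝ (x - a 1) (x - a 2) ^ 2 =
      β0 ^ 2 * (l2 * l3 * t1) ^ 2 := by
    rw [dist_sq_inner, dist_sq_inner, d1, d2, gram, hGr, hβ0']; ring
  have key : ∀ A B I G : ℝ, A ≠ 0 → B ≠ 0 → A * B - I = G → 1 - I / (A * B) = G / (A * B) := by
    intro A B I G hA hB h
    rw [← h]; field_simp
  have T01 : β0 * β1 * (1 - inner ℝ (x - a 0) (x - a 1) ^ 2 / (dist x (a 0) ^ 2 * dist x (a 1) ^ 2))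
      = t1 * t2 * (b1 * B2 * B3 ^ 2) / (N1 * N2) := by
    rw [key _ _ _ _ (by positivity) (by positivity) G01, X0, X1, hβ0, hβ1, hβ2]
    field_simp
    linear_combination (-1 : ℝ) * sn1
  have T02 : β0 * β2 * (1 - inner ℝ (x - a 0) (x - a 2) ^ 2 / (dist x (a 0) ^ 2 * dist x (a 2) ^ 2))
      = t1 * t3 * (b1 * B3 * B2 ^ 2) / (N1 * N3) := by
    rw [key _ _ _ _ (by positivity) (by positivity) G02, X0, X2, hβ0, hβ1, hβ2]
    field_simp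
    linear_combination (-1 : ℝ) * sn3
  have T12 : β1 * β2 * (1 - inner ℝ (x - a 1) (x - a 2) ^ 2 / (dist x (a 1) ^ 2 * dist x (a 2) ^ 2))
      = t2 * t3 * (B2 * B3 * b1 ^ 2) / (N2 * N3) := by
    rw [key _ _ _ _ (by positivity) (by positivity) G12, X1, X2, hβ0, hβ1, hβ2]
    field_simp
    linear_combination (-l3 * t1) * sn1 - (l1 * t2) * sn3
  have hy1 : dist x (a 1) ^ 3 * β1 ≠ 0 := by positivity
  refine ⟨x, ![β0, β1, β2], q 1 / (dist x (a 1) ^ 3 * β1), ?_, ?_, ?_, ?_, ?_, ?_, ?_⟩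
  · rintro ⟨j, hj⟩
    fin_cases j
    · rw [← hj] at pX0; simp at pX0
    · rw [← hj] at pX1; simp at pX1
    · rw [← hj] at pX2; simp at pX2
  · exact div_ne_zero (hq 1) hy1
  · intro j
    fin_cases j
    · exact nβ0
    · exact nβ1
    · exact nβ2
  · rw [Fin.sum_univ_three]
    exact hβs
  · rw [Fin.sum_univ_three]
    show β0 • (x - a 0) + β1 • (x - a 1) + β2 • (x - a 2) = 0
    rw [hx, hβ0']
    module
  · intro j
    fin_cases j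
    · show q 0 / dist x (a 0) ^ 3 = q 1 / (dist x (a 1) ^ 3 * β1) * β0
      rw [div_mul_eq_mul_div, div_eq_div_iff (by positivity) hy1]
      linear_combination f01
    · show q 1 / dist x (a 1) ^ 3 = q 1 / (dist x (a 1) ^ 3 * β1) * β1
      field_simp
    · show q 2 / dist x (a 2) ^ 3 = q 1 / (dist x (a 1) ^ 3 * β1) * β2
      rw [div_mul_eq_mul_div, div_eq_div_iff (by positivity) hy1]
      linear_combination f21
  · show β0 * β1 * (1 - inner ℝ (x - a 0) (x - a 1) ^ 2 / (dist x (a 0) ^ 2 * dist x (a 1) ^ 2))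
      + β1 * β2 * (1 - inner ℝ (x - a 1) (x - a 2) ^ 2 / (dist x (a 1) ^ 2 * dist x (a 2) ^ 2))
      + β0 * β2 * (1 - inner ℝ (x - a 0) (x - a 2) ^ 2 / (dist x (a 0) ^ 2 * dist x (a 2) ^ 2))
      = 2 / 9
    rw [T01, T12, T02]
    exact hsum

end Pool.Agent.Helper19.Maxwell
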