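import Pool.Agent.Helper19.Maxwell.Backward

set_option autoImplicit false

namespace Pool.Agent.Helper19.Maxwell

set_option maxHeartbeats 4000000 in
theorem backward_gen_aux {a : Fin 3 → EuclideanSpace ℝ (Fin 3)} (D : TriData a)
    (q : Fin 3 → ℝ) (hq : ∀ j, q j ≠ 0)
    (hs : 0 < q 1 * q 2) (g : ℝ) (hg : g ^ 2 = 1) (hg0 : 0 < g * (q 0 * q 1))
    (p : ℝ × ℝ)
    (hp : p ∈ Sol (shapeOf D g hg) (amp (q 0) D.l1) (amp (q 1) D.l2) (amp (q 2) D.l3))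
    (σ : ℝ) (hσ : σ = D.l1 * (g * Real.exp p.1) + D.l2 * Real.exp p.2 + D.l3 * Real.exp (-p.2))
    (hσ0 : σ ≠ 0) :
    ∃ x : EuclideanSpace ℝ (Fin 3), x ∉ Set.range a ∧
      ∑ j, (q j / dist x (a j) ^ 3) • (x - a j) = 0 ∧
      x = (D.l1 * (g * Real.exp p.1) / σ) • a 0 + (D.l2 * Real.exp p.2 / σ) • a 1 +
        (D.l3 * Real.exp (-p.2) / σ) • a 2 := by
  obtain ⟨X, v⟩ := p
  obtain ⟨lam, hlam, h1, h2, h3⟩ := hp
  simp only [D1, D2, D3, Del, shapeOf] at h1 h2 h3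
  obtain ⟨l1, l2, l3, k1, k2, k3, t1, t2, t3, e1, e2, e3, pl1, pl2, pl3, pt1, pt2, pt3, qq1, qq2,
    qq3, ck1, ck2, ck3, ct1, ct2, ct3, i1, i2, i3, sn1, sn2⟩ := D
  simp only at h1 h2 h3 hσ ⊢
  have cc1 := cosh_mul v (-v)
  rw [show v - -v = 2 * v by ring] at cc1
  have cc2 := cosh_mul (-v) X
  have cc3 := cosh_mul X v
  have dd1 := cube_eq h1
  have dd2 := cube_eq h2
  have dd3 := cube_eq h3
  have ch1 := Real.one_le_cosh (2 * v)
  have ch2 := Real.one_le_cosh (-v - X)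
  have ch3 := Real.one_le_cosh (X - v)
  have P1 := Real.exp_pos X
  have P2 := Real.exp_pos v
  have P3 := Real.exp_pos (-v)
  clear h1 h2 h3
  have kk : ∀ k t : ℝ, 0 < t → k ^ 2 + t ^ 2 = 1 → -1 < k := by
    intro k t ht h
    nlinarith [sq_nonneg (k + 1), mul_pos ht ht]
  have g1 : -1 < k1 := kk _ _ pt1 qq1
  have g2 : -1 < g * k2 := kk _ t2 pt2 (by rw [mul_pow, hg, one_mul]; exact qq2)
  have g3 : -1 < g * k3 := kk _ t3 pt3 (by rw [mul_pow, hg, one_mul]; exact qq3)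
  generalize Real.exp X = B1 at *
  generalize Real.exp v = B2 at *
  generalize Real.exp (-v) = B3 at *
  generalize Real.cosh (2 * v) = C1 at *
  generalize Real.cosh (-v - X) = C2 at *
  generalize Real.cosh (X - v) = C3 at *
  have hg' : g ≠ 0 := by
    rintro rfl
    norm_num at hg
  obtain ⟨b1, hb1⟩ : ∃ b1, b1 = g * B1 := ⟨_, rfl⟩
  have hb1s : b1 ^ 2 = B1 ^ 2 := by rw [hb1, mul_pow, hg, one_mul]
  have hb1n : b1 ≠ 0 := by rw [hb1]; exact mul_ne_zero hg' P1.ne'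
  obtain ⟨N1, hN1⟩ : ∃ N1, N1 = B2 ^ 2 + B3 ^ 2 + 2 * B2 * B3 * k1 := ⟨_, rfl⟩
  obtain ⟨N2, hN2⟩ : ∃ N2, N2 = b1 ^ 2 + B3 ^ 2 + 2 * b1 * B3 * k2 := ⟨_, rfl⟩
  obtain ⟨N3, hN3⟩ : ∃ N3, N3 = b1 ^ 2 + B2 ^ 2 + 2 * b1 * B2 * k3 := ⟨_, rfl⟩
  have m1 : N1 = 2 * (B2 * B3) * (C1 + k1) := by rw [hN1]; linear_combination -cc1
  have m2 : N2 = 2 * (B3 * B1) * (C2 + g * k2) := by
    rw [hN2, hb1s, hb1]; linear_combination -cc2
  have m3 : N3 = 2 * (B1 * B2) * (C3 + g * k3) := by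
    rw [hN3, hb1s, hb1]; linear_combination -cc3
  have pD1 : 0 < C1 + k1 := by linarith
  have pD2 : 0 < C2 + g * k2 := by linarith
  have pD3 : 0 < C3 + g * k3 := by linarith
  have pN1 : 0 < N1 := by rw [m1]; positivity
  have pN2 : 0 < N2 := by rw [m2]; positivity
  have pN3 : 0 < N3 := by rw [m3]; positivity
  have hσb : σ = l1 * b1 + l2 * B2 + l3 * B3 := by rw [hσ, hb1]
  obtain ⟨β0, hβ0⟩ : ∃ β0, β0 = l1 * b1 / σ := ⟨_, rfl⟩
  obtain ⟨β1, hβ1⟩ : ∃ β1, β1 = l2 * B2 / σ := ⟨_, rfl⟩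
  obtain ⟨β2, hβ2⟩ : ∃ β2, β2 = l3 * B3 / σ := ⟨_, rfl⟩
  have nβ0 : β0 ≠ 0 := by rw [hβ0]; exact div_ne_zero (mul_ne_zero pl1.ne' hb1n) hσ0
  have nβ1 : β1 ≠ 0 := by rw [hβ1]; exact div_ne_zero (mul_ne_zero pl2.ne' P2.ne') hσ0
  have nβ2 : β2 ≠ 0 := by rw [hβ2]; exact div_ne_zero (mul_ne_zero pl3.ne' P3.ne') hσ0
  have hβs : β0 + β1 + β2 = 1 := by
    rw [hβ0, hβ1, hβ2, ← add_div, ← add_div, ← hσb, div_self hσ0]
  have hβ0' : β0 = 1 - β1 - β2 := by linarith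
  obtain ⟨x, hx⟩ : ∃ x, x = β0 • a 0 + β1 • a 1 + β2 • a 2 := ⟨_, rfl⟩
  have d0 : x - a 0 = β1 • (a 1 - a 0) + β2 • (a 2 - a 0) := by
    rw [hx, hβ0']; module
  have d1 : x - a 1 = (β1 - 1) • (a 1 - a 0) + β2 • (a 2 - a 0) := by
    rw [hx, hβ0']; module
  have d2 : x - a 2 = β1 • (a 1 - a 0) + (β2 - 1) • (a 2 - a 0) := by
    rw [hx, hβ0']; module
  have d1' : x - a 1 = β0 • (a 0 - a 1) + β2 • (a 2 - a 1) := by
    rw [hx, hβ0']; module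
  have d2' : x - a 2 = β0 • (a 0 - a 2) + β1 • (a 1 - a 2) := by
    rw [hx, hβ0']; module
  have n10 : inner ℝ (a 1 - a 0) (a 1 - a 0) = l3 ^ 2 := by
    rw [← dist_sq_inner, dist_comm, e3]
  have n01 : inner ℝ (a 0 - a 1) (a 0 - a 1) = l3 ^ 2 := by
    rw [← dist_sq_inner, e3]
  have n20 : inner ℝ (a 2 - a 0) (a 2 - a 0) = l2 ^ 2 := by
    rw [← dist_sq_inner, dist_comm, e2]
  have n02 : inner ℝ (a 0 - a 2) (a 0 - a 2) = l2 ^ 2 := by
    rw [← dist_sq_inner, e2]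
  have n21 : inner ℝ (a 2 - a 1) (a 2 - a 1) = l1 ^ 2 := by
    rw [← dist_sq_inner, dist_comm, e1]
  have n12 : inner ℝ (a 1 - a 2) (a 1 - a 2) = l1 ^ 2 := by
    rw [← dist_sq_inner, e1]
  have X0 : dist x (a 0) ^ 2 = l2 ^ 2 * l3 ^ 2 * N1 / σ ^ 2 := by
    rw [dist_sq_inner, d0, inner_comb, n10, n20, i1, hβ1, hβ2, hN1]
    field_simp
    ring
  have X1 : dist x (a 1) ^ 2 = l1 ^ 2 * l3 ^ 2 * N2 / σ ^ 2 := by
    rw [dist_sq_inner, d1', inner_comb, n01, n21, i2, hβ0, hβ2, hN2]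
    field_simp
    ring
  have X2 : dist x (a 2) ^ 2 = l1 ^ 2 * l2 ^ 2 * N3 / σ ^ 2 := by
    rw [dist_sq_inner, d2', inner_comb, n02, n12, i3, hβ0, hβ1, hN3]
    field_simp
    ring
  have pos_of : ∀ j, 0 < dist x (a j) ^ 2 → 0 < dist x (a j) := by
    intro j h
    rcases (dist_nonneg (x := x) (y := a j)).lt_or_eq with h2 | h2
    · exact h2
    · rw [← h2] at h; norm_num at h
  have pX0 : 0 < dist x (a 0) := pos_of 0 (by rw [X0]; positivity)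
  have pX1 : 0 < dist x (a 1) := pos_of 1 (by rw [X1]; positivity)
  have pX2 : 0 < dist x (a 2) := pos_of 2 (by rw [X2]; positivity)
  -- the charges
  obtain ⟨K, hK⟩ : ∃ K, K = 8 * lam ^ 3 * (l1 * l2 * l3) ^ 6 * (B1 * B2 * B3) ^ 3 / σ ^ 8 := ⟨_, rfl⟩
  have y0 : (dist x (a 0) ^ 3 * β0) ^ 2 = K * q 0 ^ 2 := by
    have : (dist x (a 0) ^ 3 * β0) ^ 2 = (dist x (a 0) ^ 2) ^ 3 * β0 ^ 2 := by ring
    rw [this, X0, hβ0, hK, div_pow, div_pow, mul_pow, mul_pow, mul_pow l1, hb1s, m1, mul_pow _ (C1 + k1),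
      dd1]
    field_simp
    try ring
  have y1 : (dist x (a 1) ^ 3 * β1) ^ 2 = K * q 1 ^ 2 := by
    have : (dist x (a 1) ^ 3 * β1) ^ 2 = (dist x (a 1) ^ 2) ^ 3 * β1 ^ 2 := by ring
    rw [this, X1, hβ1, hK, div_pow, div_pow, mul_pow, mul_pow, mul_pow l2, m2,
      mul_pow _ (C2 + g * k2), dd2]
    field_simp
    try ring
  have y2 : (dist x (a 2) ^ 3 * β2) ^ 2 = K * q 2 ^ 2 := by
    have : (dist x (a 2) ^ 3 * β2) ^ 2 = (dist x (a 2) ^ 2) ^ 3 * β2 ^ 2 := by ring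
    rw [this, X2, hβ2, hK, div_pow, div_pow, mul_pow, mul_pow, mul_pow l3, m3,
      mul_pow _ (C3 + g * k3), dd3]
    field_simp
    try ring
  have sg01 : 0 < (q 0 * q 1) * (β0 * β1) := by
    have : (q 0 * q 1) * (β0 * β1) = (g * (q 0 * q 1)) * (l1 * l2 * B1 * B2 / σ ^ 2) := by
      rw [hβ0, hβ1, hb1]; field_simp
    rw [this]
    have : 0 < σ ^ 2 := by positivity
    positivity
  have sg12 : 0 < (q 1 * q 2) * (β1 * β2) := by
    have : (q 1 * q 2) * (β1 * β2) = (q 1 * q 2) * (l2 * l3 * B2 * B3 / σ ^ 2) := by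
      rw [hβ1, hβ2]; field_simp
    rw [this]
    have : 0 < σ ^ 2 := by positivity
    positivity
  have f01 : q 0 * (dist x (a 1) ^ 3 * β1) = q 1 * (dist x (a 0) ^ 3 * β0) := by
    apply eq_of_sq_eq_of_mul_pos
    · rw [mul_pow (q 0), mul_pow (q 1), y0, y1]; ring
    · have : q 0 * (dist x (a 1) ^ 3 * β1) * (q 1 * (dist x (a 0) ^ 3 * β0)) =
        ((q 0 * q 1) * (β0 * β1)) * (dist x (a 1) ^ 3 * dist x (a 0) ^ 3) := by ring
      rw [this]; positivity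
  have f21 : q 2 * (dist x (a 1) ^ 3 * β1) = q 1 * (dist x (a 2) ^ 3 * β2) := by
    apply eq_of_sq_eq_of_mul_pos
    · rw [mul_pow (q 2), mul_pow (q 1), y2, y1]; ring
    · have : q 2 * (dist x (a 1) ^ 3 * β1) * (q 1 * (dist x (a 2) ^ 3 * β2)) =
        ((q 1 * q 2) * (β1 * β2)) * (dist x (a 1) ^ 3 * dist x (a 2) ^ 3) := by ring
      rw [this]; positivity
  have hy1 : dist x (a 1) ^ 3 * β1 ≠ 0 := by positivity
  refine ⟨x, ?_, ?_, ?_⟩
  · rintro ⟨j, hj⟩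
    fin_cases j
    · rw [← hj] at pX0; simp at pX0
    · rw [← hj] at pX1; simp at pX1
    · rw [← hj] at pX2; simp at pX2
  · rw [Fin.sum_univ_three]
    have w0 : q 0 / dist x (a 0) ^ 3 = q 1 / (dist x (a 1) ^ 3 * β1) * β0 := by
      rw [div_mul_eq_mul_div, div_eq_div_iff (by positivity) hy1]
      linear_combination f01
    have w1 : q 1 / dist x (a 1) ^ 3 = q 1 / (dist x (a 1) ^ 3 * β1) * β1 := by
      field_simp
    have w2 : q 2 / dist x (a 2) ^ 3 = q 1 / (dist x (a 1) ^ 3 * β1) * β2 := by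
      rw [div_mul_eq_mul_div, div_eq_div_iff (by positivity) hy1]
      linear_combination f21
    have hz : β0 • (x - a 0) + β1 • (x - a 1) + β2 • (x - a 2) = 0 := by
      rw [hx, hβ0']
      module
    rw [w0, w1, w2, mul_smul, mul_smul, mul_smul, ← smul_add, ← smul_add, hz, smul_zero]
  · rw [hx, hβ0, hβ1, hβ2, hb1]

/-- TARGET: a solution with `sigma ≠ 0` gives an equilibrium with known barycentric coordinates. -/
theorem backward_gen {a : Fin 3 → EuclideanSpace ℝ (Fin 3)} (D : TriData a)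
    (q : Fin 3 → ℝ) (hq : ∀ j, q j ≠ 0)
    (hs : 0 < q 1 * q 2) (g : ℝ) (hg : g ^ 2 = 1) (hg0 : 0 < g * (q 0 * q 1))
    (p : ℝ × ℝ)
    (hp : p ∈ Sol (shapeOf D g hg) (amp (q 0) D.l1) (amp (q 1) D.l2) (amp (q 2) D.l3))
    (σ : ℝ) (hσ : σ = D.l1 * (g * Real.exp p.1) + D.l2 * Real.exp p.2 + D.l3 * Real.exp (-p.2))
    (hσ0 : σ ≠ 0) :
    ∃ x : EuclideanSpace ℝ (Fin 3), x ∉ Set.range a ∧
      ∑ j, (q j / dist x (a j) ^ 3) • (x - a j) = 0 ∧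
      x = (D.l1 * (g * Real.exp p.1) / σ) • a 0 + (D.l2 * Real.exp p.2 / σ) • a 1 +
        (D.l3 * Real.exp (-p.2) / σ) • a 2 := by
  exact backward_gen_aux D q hq hs g hg hg0 p hp σ hσ hσ0

/-- TARGET 2: the barycentric coordinates determine the point `p` (easy). -/
theorem backward_gen_inj {a : Fin 3 → EuclideanSpace ℝ (Fin 3)} (D : TriData a)
    (hcol : ¬ Collinear ℝ (Set.range a)) (g : ℝ) (hg : g ^ 2 = 1) (p r : ℝ × ℝ) (σ τ : ℝ)
    (hσ : σ = D.l1 * (g * Real.exp p.1) + D.l2 * Real.exp p.2 + D.l3 * Real.exp (-p.2))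
    (hτ : τ = D.l1 * (g * Real.exp r.1) + D.l2 * Real.exp r.2 + D.l3 * Real.exp (-r.2))
    (hσ0 : σ ≠ 0) (hτ0 : τ ≠ 0)
    (h : (D.l1 * (g * Real.exp p.1) / σ) • a 0 + (D.l2 * Real.exp p.2 / σ) • a 1 +
        (D.l3 * Real.exp (-p.2) / σ) • a 2 =
      (D.l1 * (g * Real.exp r.1) / τ) • a 0 + (D.l2 * Real.exp r.2 / τ) • a 1 +
        (D.l3 * Real.exp (-r.2) / τ) • a 2) : p = r := by
  have pl1 := D.pl1
  have pl2 := D.pl2
  have pl3 := D.pl3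
  have hli : LinearIndependent ℝ ![a 1 - a 0, a 2 - a 0] := by
    have h1 : AffineIndependent ℝ a := by
      rw [affineIndependent_iff_not_collinear]
      exact hcol
    rw [affineIndependent_iff_linearIndependent_vsub ℝ a 0] at h1
    let e : Fin 2 → {x : Fin 3 // x ≠ 0} := ![⟨1, by decide⟩, ⟨2, by decide⟩]
    have he : Function.Injective e := by
      intro i j hij
      fin_cases i <;> fin_cases j <;> simp [e] at hij ⊢
    have h2 := h1.comp e he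
    have h2' : ((fun i : {x : Fin 3 // x ≠ 0} => a i -ᵥ a 0) ∘ e) = ![a 1 - a 0, a 2 - a 0] := by
      funext i
      fin_cases i <;> simp [e]
    rw [h2'] at h2
    exact h2
  obtain ⟨A1, hA1⟩ : ∃ A1, A1 = D.l1 * (g * Real.exp p.1) / σ := ⟨_, rfl⟩
  obtain ⟨A2, hA2⟩ : ∃ A2, A2 = D.l2 * Real.exp p.2 / σ := ⟨_, rfl⟩
  obtain ⟨A3, hA3⟩ : ∃ A3, A3 = D.l3 * Real.exp (-p.2) / σ := ⟨_, rfl⟩
  obtain ⟨B1, hB1⟩ : ∃ B1, B1 = D.l1 * (g * Real.exp r.1) / τ := ⟨_, rfl⟩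
  obtain ⟨B2, hB2⟩ : ∃ B2, B2 = D.l2 * Real.exp r.2 / τ := ⟨_, rfl⟩
  obtain ⟨B3, hB3⟩ : ∃ B3, B3 = D.l3 * Real.exp (-r.2) / τ := ⟨_, rfl⟩
  have hAs : A1 + A2 + A3 = 1 := by
    rw [hA1, hA2, hA3, ← add_div, ← add_div, ← hσ, div_self hσ0]
  have hBs : B1 + B2 + B3 = 1 := by
    rw [hB1, hB2, hB3, ← add_div, ← add_div, ← hτ, div_self hτ0]
  rw [← hA1, ← hA2, ← hA3, ← hB1, ← hB2, ← hB3] at h
  have hA1' : A1 = 1 - A2 - A3 := by linarith
  have hB1' : B1 = 1 - B2 - B3 := by linarith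
  have h3 : (A2 - B2) • (a 1 - a 0) + (A3 - B3) • (a 2 - a 0) = 0 := by
    rw [hA1', hB1'] at h
    have h4 : (A2 - B2) • (a 1 - a 0) + (A3 - B3) • (a 2 - a 0) =
      ((1 - A2 - A3) • a 0 + A2 • a 1 + A3 • a 2) - ((1 - B2 - B3) • a 0 + B2 • a 1 + B3 • a 2) := by
      module
    rw [h4, h, sub_self]
  have h5 := LinearIndependent.pair_iff.mp hli _ _ h3
  have hA2 : D.l2 * Real.exp p.2 / σ = D.l2 * Real.exp r.2 / τ := by
    rw [← hA2, ← hB2]; linarith [h5.1]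
  have hA3 : D.l3 * Real.exp (-p.2) / σ = D.l3 * Real.exp (-r.2) / τ := by
    rw [← hA3, ← hB3]; linarith [h5.2]
  have hA1 : D.l1 * (g * Real.exp p.1) / σ = D.l1 * (g * Real.exp r.1) / τ := by
    rw [← hA1, ← hB1]; linarith [h5.1, h5.2]
  have hg' : g ≠ 0 := by
    rintro rfl
    norm_num at hg
  rw [div_eq_div_iff hσ0 hτ0] at hA1 hA2 hA3
  have k2 : Real.exp p.2 * τ = Real.exp r.2 * σ := by
    have : D.l2 * (Real.exp p.2 * τ) = D.l2 * (Real.exp r.2 * σ) := by linarith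
    exact mul_left_cancel₀ pl2.ne' this
  have k3 : Real.exp (-p.2) * τ = Real.exp (-r.2) * σ := by
    have : D.l3 * (Real.exp (-p.2) * τ) = D.l3 * (Real.exp (-r.2) * σ) := by linarith
    exact mul_left_cancel₀ pl3.ne' this
  have k1 : Real.exp p.1 * τ = Real.exp r.1 * σ := by
    have : (D.l1 * g) * (Real.exp p.1 * τ) = (D.l1 * g) * (Real.exp r.1 * σ) := by linarith
    exact mul_left_cancel₀ (mul_ne_zero pl1.ne' hg') this
  have k4 : Real.exp (p.2 - r.2) * Real.exp (p.2 - r.2) = 1 := by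
    have a1 : Real.exp p.2 * Real.exp (-p.2) = 1 := by rw [← Real.exp_add]; simp
    have a2 : Real.exp r.2 * Real.exp (-r.2) = 1 := by rw [← Real.exp_add]; simp
    have a3 : Real.exp (p.2 - r.2) = Real.exp p.2 * Real.exp (-r.2) := by
      rw [← Real.exp_add]; ring_nf
    have a4 : (Real.exp p.2 * Real.exp (-r.2)) * τ = σ := by
      linear_combination (Real.exp (-r.2)) * k2 + σ * a2
    have a5 : (Real.exp p.2 * Real.exp (-r.2)) * σ = τ := by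
      linear_combination (-Real.exp p.2) * k3 + τ * a1
    rw [a3]
    have a6 : (Real.exp p.2 * Real.exp (-r.2) * (Real.exp p.2 * Real.exp (-r.2)) - 1) * σ = 0 := by
      linear_combination (Real.exp p.2 * Real.exp (-r.2)) * a5 + a4
    rcases mul_eq_zero.mp a6 with h7 | h7
    · linarith
    · exact absurd h7 hσ0
  rw [← Real.exp_add] at k4
  have k5 := (Real.exp_eq_one_iff _).mp k4
  have k6 : p.2 = r.2 := by linarith
  rw [k6] at k2
  have k7 : τ = σ := mul_left_cancel₀ (Real.exp_pos _).ne' k2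
  rw [k7] at k1
  have k8 : Real.exp p.1 = Real.exp r.1 := mul_right_cancel₀ hσ0 k1
  exact Prod.ext (Real.exp_injective k8) k6

end Pool.Agent.Helper19.Maxwell

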