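import Pool.Agent.Helper19.Maxwell.Line

set_option autoImplicit false

namespace Pool.Agent.Helper19.Maxwell

open Real



theorem EE_bound {c s k : ℝ} (u : ℝ) (hc : -1 < c) (h : c ^ 2 + s ^ 2 = 1) (hk0 : 0 < k)
    (hk1 : k ≤ 1) (hkc : k ≤ 1 + c) : |EE c s u| ≤ 2 / k * exp (-|u|) := by
  have hd := del_pos hc u
  have hs : |s| ≤ 1 := by
    rw [abs_le_one_iff_mul_self_le_one]
    nlinarith [sq_nonneg c]
  have hcosh := one_le_cosh u
  have h1 : k * cosh u ≤ cosh u + c := by nlinarith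
  have h2 : exp |u| / 2 ≤ cosh u := by
    rw [← cosh_abs u, cosh_eq]
    have := exp_pos (-|u|)
    linarith
  unfold EE
  rw [abs_div, abs_of_pos hd]
  have he : 0 < exp |u| := exp_pos _
  calc |s| / (cosh u + c) ≤ 1 / (k * (exp |u| / 2)) := by
        apply div_le_div₀ zero_le_one hs (by positivity)
        refine le_trans ?_ h1
        gcongr
    _ = 2 / k * exp (-|u|) := by
        rw [exp_neg]
        field_simp

/-- TARGET: the region `fz ≤ 1/9` is bounded. -/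
theorem bounded_region (T : Shape) : ∃ M : ℝ, 1 < M ∧ ∀ z1 z2 : ℝ, 0 < z1 → 0 < z2 →
    fz T z1 z2 1 ≤ 1 / 9 → 1 / M ≤ z1 ∧ z1 ≤ M ∧ 1 / M ≤ z2 ∧ z2 ≤ M := by
  have g1 := T.c1_gt
  have g2 := T.c2_gt
  have g3 := T.c3_gt
  obtain ⟨k, hk0, hk1, k1, k2, k3⟩ : ∃ k : ℝ, 0 < k ∧ k ≤ 1 ∧ k ≤ 1 + T.c1 ∧ k ≤ 1 + T.c2 ∧
      k ≤ 1 + T.c3 := by
    refine ⟨min 1 (min (1 + T.c1) (min (1 + T.c2) (1 + T.c3))), ?_, min_le_left _ _, ?_, ?_, ?_⟩
    · apply lt_min one_pos
      apply lt_min (by linarith)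
      exact lt_min (by linarith) (by linarith)
    · exact (min_le_right _ _).trans (min_le_left _ _)
    · exact (min_le_right _ _).trans ((min_le_right _ _).trans (min_le_left _ _))
    · exact (min_le_right _ _).trans ((min_le_right _ _).trans (min_le_right _ _))
  set M : ℝ := 27 / (2 * k ^ 2) with hM
  have hM1 : 1 < M := by
    rw [hM, lt_div_iff₀ (by positivity)]
    nlinarith
  have hM0 : 0 < M := by linarith
  refine ⟨M, hM1, ?_⟩
  intro z1 z2 hz1 hz2 hf
  set u1 := uu z2 1 with hu1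
  set u2 := uu 1 z1 with hu2
  set u3 := uu z1 z2 with hu3
  have hsum : u1 + u2 + u3 = 0 := uu_sum z1 z2 1
  have hti := tan_ident T u1 u2 u3 hsum
  have hfz : fz T z1 z2 1 = -(SS T.c1 u1 * SS T.c2 u2 + SS T.c2 u2 * SS T.c3 u3 +
      SS T.c1 u1 * SS T.c3 u3) := rfl
  have he2 : 8 / 9 ≤ EE T.c1 T.s1 u1 * EE T.c2 T.s2 u2 + EE T.c2 T.s2 u2 * EE T.c3 T.s3 u3 +
      EE T.c1 T.s1 u1 * EE T.c3 T.s3 u3 := by linarith
  have b1 := EE_bound u1 g1 T.h1 hk0 hk1 k1
  have b2 := EE_bound u2 g2 T.h2 hk0 hk1 k2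
  have b3 := EE_bound u3 g3 T.h3 hk0 hk1 k3
  have hprod : ∀ {A B x y w : ℝ}, |A| ≤ 2 / k * exp (-x) → |B| ≤ 2 / k * exp (-y) → w ≤ x + y →
      A * B ≤ 4 / k ^ 2 * exp (-w) := by
    intro A B x y w hA hB hw
    calc A * B ≤ |A * B| := le_abs_self _
      _ = |A| * |B| := abs_mul _ _
      _ ≤ (2 / k * exp (-x)) * (2 / k * exp (-y)) := by
          apply mul_le_mul hA hB (abs_nonneg _) (by positivity)
      _ = 4 / k ^ 2 * exp (-(x + y)) := by
          rw [show -(x + y) = -x + -y by ring, exp_add]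
          field_simp
          norm_num
      _ ≤ 4 / k ^ 2 * exp (-w) := by
          gcongr
  have hkey : ∀ w : ℝ, w ≤ |u1| + |u2| → w ≤ |u2| + |u3| → w ≤ |u1| + |u3| → exp w ≤ M := by
    intro w h12 h23 h13
    have p12 := hprod b1 b2 h12
    have p23 := hprod b2 b3 h23
    have p13 := hprod b1 b3 h13
    have h8 : 8 / 9 ≤ 12 / k ^ 2 * exp (-w) := by
      have : 12 / k ^ 2 * exp (-w) = 4 / k ^ 2 * exp (-w) + 4 / k ^ 2 * exp (-w) +
          4 / k ^ 2 * exp (-w) := by ring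
      rw [this]; linarith
    rw [exp_neg] at h8
    have he : 0 < exp w := exp_pos w
    have h9 : 8 / 9 * (k ^ 2 * exp w) ≤ 12 := by
      have := mul_le_mul_of_nonneg_right h8 (show 0 ≤ k ^ 2 * exp w by positivity)
      have e : 12 / k ^ 2 * (exp w)⁻¹ * (k ^ 2 * exp w) = 12 := by field_simp
      rwa [e] at this
    rw [hM, le_div_iff₀ (by positivity)]
    linarith
  have t1 : |u1| ≤ |u2| + |u3| := by
    have : u1 = -(u2 + u3) := by linarith
    rw [this, abs_neg]; exact abs_add_le _ _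
  have t2 : |u2| ≤ |u1| + |u3| := by
    have : u2 = -(u1 + u3) := by linarith
    rw [this, abs_neg]; exact abs_add_le _ _
  have n1 := abs_nonneg u1
  have n2 := abs_nonneg u2
  have n3 := abs_nonneg u3
  have w1 := hkey |u1| (by linarith) t1 (by linarith)
  have w2 := hkey |u2| (by linarith) (by linarith) t2
  have hlog : ∀ z : ℝ, 0 < z → exp (|3 * log z|) ≤ M → 1 / M ≤ z ∧ z ≤ M := by
    intro z hz h
    have h1 : |3 * log z| ≤ log M := by
      rw [← log_exp (|3 * log z|)]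
      exact log_le_log (exp_pos _) h
    rw [abs_mul, abs_of_pos (show (0:ℝ) < 3 by norm_num)] at h1
    have h2 : |log z| ≤ log M := by
      have := abs_nonneg (log z)
      linarith
    rw [abs_le] at h2
    constructor
    · rw [← log_le_log_iff (by positivity) hz, one_div, log_inv]
      exact h2.1
    · rw [← log_le_log_iff hz hM0]
      exact h2.2
  have e1 : |3 * log z2| = |u1| := by
    rw [hu1]; unfold uu; rw [log_one, sub_zero]
  have e2 : |3 * log z1| = |u2| := by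
    rw [hu2]; unfold uu; rw [log_one, zero_sub, mul_neg, abs_neg]
  obtain ⟨a1, a2⟩ := hlog z1 hz1 (by rw [e2]; exact w2)
  obtain ⟨a3, a4⟩ := hlog z2 hz2 (by rw [e1]; exact w1)
  exact ⟨a1, a2, a3, a4⟩

end Pool.Agent.Helper19.Maxwell
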