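import Pool.Agent.Helper19.Maxwell.Line

set_option autoImplicit false

namespace Pool.Agent.Helper19.Maxwell

open Real




theorem line_crit (T : Shape) (p : ℝ × ℝ) (h1 : 0 < p.1) (h2 : 0 < p.2)
    (hm : IsLocalMin (fun p : ℝ × ℝ => fz T p.1 p.2 1) p) (b1 b2 : ℝ) :
    (Ray.mk p.1 b1 p.2 b2 1 0).g T 0 = 0 := by
  set L : Ray := Ray.mk p.1 b1 p.2 b2 1 0 with hL
  have hpos : L.Pos 0 := by
    refine ⟨?_, ?_, ?_⟩
    · simp [Ray.z1, hL, h1]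
    · simp [Ray.z2, hL, h2]
    · simp [Ray.z3, hL]
  have hd := Ray.hasDerivAt_f (L := L) T hpos
  have hc : ContinuousAt (fun t : ℝ => ((p.1 + b1 * t, p.2 + b2 * t) : ℝ × ℝ)) 0 := by
    fun_prop
  have hp : (fun t : ℝ => ((p.1 + b1 * t, p.2 + b2 * t) : ℝ × ℝ)) 0 = p := by
    simp
  have hm2 : IsLocalMin (L.f T) 0 := by
    have hm3 : IsLocalMin (fun p : ℝ × ℝ => fz T p.1 p.2 1)
      ((fun t : ℝ => ((p.1 + b1 * t, p.2 + b2 * t) : ℝ × ℝ)) 0) := by rw [hp]; exact hm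
    have := IsLocalMin.comp_continuous (g := fun t : ℝ => ((p.1 + b1 * t, p.2 + b2 * t) : ℝ × ℝ))
      (b := (0 : ℝ)) hm3 hc
    have e : ((fun p : ℝ × ℝ => fz T p.1 p.2 1) ∘
        fun t : ℝ => ((p.1 + b1 * t, p.2 + b2 * t) : ℝ × ℝ)) = L.f T := by
      funext t
      simp [Ray.f, Ray.z1, Ray.z2, Ray.z3, hL]
    rw [e] at this
    exact this
  exact hm2.hasDerivAt_eq_zero hd

theorem core_alg {E1 E2 E3 S1 S2 S3 : ℝ} (h2 : 0 < E2) (h3 : 0 < E3)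
    (he : 0 < E1 * E2 + E2 * E3 + E1 * E3)
    (t1 : (E1 * E2 + E2 * E3 + E1 * E3) - (S1 * S2 + S2 * S3 + S1 * S3) = 1)
    (t2 : E1 * (S2 + S3) + E2 * (S1 + S3) + E3 * (S1 + S2) = 0)
    (d1 : (1 + E1 ^ 2 - S1 ^ 2) / 2 * (S2 + S3) = (1 + E2 ^ 2 - S2 ^ 2) / 2 * (S1 + S3))
    (d2 : (1 + E1 ^ 2 - S1 ^ 2) / 2 * (S2 + S3) = (1 + E3 ^ 2 - S3 ^ 2) / 2 * (S1 + S2)) :
    S1 = 0 ∧ S2 = 0 ∧ S3 = 0 := by
  obtain ⟨p2, p3⟩ := pair_pos he h2 h3
  have p1 : 0 < E2 + E3 := by linarith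
  have k1 : (E1 + E2) * ((E1 + E3) * (S2 + S3) - (E2 + E3) * (S1 + S3)) = 0 := by
    linear_combination 2 * d1 + ((S2 + S3) - (S1 + S3)) * t1
  have k2 : (E1 + E3) * ((E1 + E2) * (S2 + S3) - (E2 + E3) * (S1 + S2)) = 0 := by
    linear_combination 2 * d2 + ((S2 + S3) - (S1 + S2)) * t1
  have m1 := (mul_eq_zero.mp k1).resolve_left p3.ne'
  have m2 := (mul_eq_zero.mp k2).resolve_left p2.ne'
  obtain ⟨lam, hlam⟩ : ∃ lam : ℝ, S2 + S3 = lam * (E2 + E3) :=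
    ⟨(S2 + S3) / (E2 + E3), by field_simp⟩
  have q2 : S1 + S3 = lam * (E1 + E3) := by
    have : (E2 + E3) * ((S1 + S3) - lam * (E1 + E3)) = 0 := by
      linear_combination -m1 + (E1 + E3) * hlam
    have := (mul_eq_zero.mp this).resolve_left p1.ne'
    linarith
  have q3 : S1 + S2 = lam * (E1 + E2) := by
    have : (E2 + E3) * ((S1 + S2) - lam * (E1 + E2)) = 0 := by
      linear_combination -m2 + (E1 + E2) * hlam
    have := (mul_eq_zero.mp this).resolve_left p1.ne'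
    linarith
  have hz : lam * (E1 * E2 + E2 * E3 + E1 * E3) = 0 := by
    rw [hlam, q2, q3] at t2
    linarith
  have hl0 : lam = 0 := (mul_eq_zero.mp hz).resolve_right he.ne'
  rw [hl0] at hlam q2 q3
  refine ⟨by linarith, by linarith, by linarith⟩

theorem SS_eq_zero {c : ℝ} (hc : -1 < c) {u : ℝ} (h : SS c u = 0) : u = 0 := by
  unfold SS at h
  have := (div_eq_zero_iff.mp h).resolve_right (del_pos hc u).ne'
  exact Real.sinh_eq_zero.mp this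

/-- TARGET: the only local minimum of `fz` in the region is the centre. -/
theorem localMin_center (T : Shape) (p : ℝ × ℝ) (h1 : 0 < p.1) (h2 : 0 < p.2)
    (hf : fz T p.1 p.2 1 < 1 / 9)
    (hm : IsLocalMin (fun p : ℝ × ℝ => fz T p.1 p.2 1) p) : p = (1, 1) := by
  have g1 := line_crit T p h1 h2 hm p.1 0
  have g2 := line_crit T p h1 h2 hm 0 p.2
  have hn1 : p.1 / p.1 = 1 := div_self h1.ne'
  have hn2 : p.2 / p.2 = 1 := div_self h2.ne'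
  simp only [Ray.g, Ray.P1, Ray.P2, Ray.P3, Ray.E1, Ray.E2, Ray.E3, Ray.S1, Ray.S2, Ray.S3,
    Ray.w1, Ray.w2, Ray.w3, Ray.z1, Ray.z2, Ray.z3, mul_zero, add_zero, hn1, hn2, zero_div,
    zero_mul, sub_zero, zero_sub, mul_one, zero_add, sub_self] at g1 g2
  have t1 := tan_ident T (uu p.2 1) (uu 1 p.1) (uu p.1 p.2) (uu_sum p.1 p.2 1)
  have t2 := tan_ident2 T (uu p.2 1) (uu 1 p.1) (uu p.1 p.2) (uu_sum p.1 p.2 1)
  have e2 := EE_pos T.c2_gt T.p2 (uu 1 p.1)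
  have e3 := EE_pos T.c3_gt T.p3 (uu p.1 p.2)
  unfold fz at hf
  have he : 0 < EE T.c1 T.s1 (uu p.2 1) * EE T.c2 T.s2 (uu 1 p.1) +
      EE T.c2 T.s2 (uu 1 p.1) * EE T.c3 T.s3 (uu p.1 p.2) +
      EE T.c1 T.s1 (uu p.2 1) * EE T.c3 T.s3 (uu p.1 p.2) := by linarith
  obtain ⟨s1, s2, s3⟩ := core_alg e2 e3 he t1 t2 (by linarith) (by linarith)
  have u1 := SS_eq_zero T.c1_gt s1
  have u2 := SS_eq_zero T.c2_gt s2
  unfold uu at u1 u2
  rw [Real.log_one] at u1 u2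
  have l2 : Real.log p.2 = 0 := by linarith
  have l1 : Real.log p.1 = 0 := by linarith
  have z1 : p.1 = 1 := Real.eq_one_of_pos_of_log_eq_zero h1 l1
  have z2 : p.2 = 1 := Real.eq_one_of_pos_of_log_eq_zero h2 l2
  exact Prod.ext z1 z2

end Pool.Agent.Helper19.Maxwell
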