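import Mathlib
import Pool.Prelude.Def_F_d420a142

set_option autoImplicit false



namespace MaxwellReal

lemma conv_inv_sq {u1 u3 l : ℝ} (h : 0 < u1 * u3) (hne : u1 ≠ u3) (hl0 : 0 < l) (hl1 : l < 1) :
    1 / (l * u1 + (1 - l) * u3) ^ 2 < l * (1 / u1 ^ 2) + (1 - l) * (1 / u3 ^ 2) := by
  have key : ∀ a b : ℝ, 0 < a → 0 < b → a ≠ b →
      1 / (l * a + (1 - l) * b) ^ 2 < l * (1 / a ^ 2) + (1 - l) * (1 / b ^ 2) := by
    intro a b ha hb hab
    have hs := strictConvexOn_zpow (m := -2) (by norm_num) (by norm_num)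
    have := hs.2 (Set.mem_Ioi.2 ha) (Set.mem_Ioi.2 hb) hab hl0 (sub_pos.2 hl1) (by ring)
    simp only [smul_eq_mul] at this
    have e : ∀ z : ℝ, z ^ (-2 : ℤ) = 1 / z ^ 2 := by
      intro z
      rw [zpow_neg, one_div]
      norm_cast
    rw [e, e, e] at this
    exact this
  rcases lt_or_gt_of_ne (show u1 ≠ 0 by rintro rfl; simp at h) with h1 | h1
  · have h3 : u3 < 0 := by nlinarith
    have := key (-u1) (-u3) (by linarith) (by linarith) (by intro hh; exact hne (by linarith))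
    have e1 : (l * -u1 + (1 - l) * -u3) ^ 2 = (l * u1 + (1 - l) * u3) ^ 2 := by ring
    rw [e1, neg_sq, neg_sq] at this
    exact this
  · have h3 : 0 < u3 := by
      by_contra hh
      push Not at hh
      nlinarith
    exact key u1 u3 h1 h3 hne

/-- three ordered values -/
lemma no_three {A B C α β s1 s2 s3 : ℝ} (hA : 0 < A) (hB : 0 < B) (hα : α ≠ 0)
    (h12 : s1 < s2) (h23 : s2 < s3)
    (ha : 0 < (1 + α * s1) * (1 + α * s3)) (hb : 0 < (1 + β * s1) * (1 + β * s3))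
    (e1 : A * (1 / (1 + α * s1) ^ 2) + B * (1 / (1 + β * s1) ^ 2) = C)
    (e2 : A * (1 / (1 + α * s2) ^ 2) + B * (1 / (1 + β * s2) ^ 2) = C)
    (e3 : A * (1 / (1 + α * s3) ^ 2) + B * (1 / (1 + β * s3) ^ 2) = C) : False := by
  set l : ℝ := (s3 - s2) / (s3 - s1) with hl
  have h31 : 0 < s3 - s1 := by linarith
  have hl0 : 0 < l := div_pos (by linarith) h31
  have hl1 : l < 1 := by rw [hl, div_lt_one h31]; linarith
  have hs2 : s2 = l * s1 + (1 - l) * s3 := by
    rw [hl]; field_simp; ring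
  have c1 : 1 / (1 + α * s2) ^ 2 < l * (1 / (1 + α * s1) ^ 2) + (1 - l) * (1 / (1 + α * s3) ^ 2) := by
    have := conv_inv_sq ha (by
      intro hh
      have : α * (s1 - s3) = 0 := by linarith
      rcases mul_eq_zero.1 this with h | h
      · exact hα h
      · linarith) hl0 hl1
    have e : l * (1 + α * s1) + (1 - l) * (1 + α * s3) = 1 + α * s2 := by rw [hs2]; ring
    rwa [e] at this
  have c2 : 1 / (1 + β * s2) ^ 2 ≤ l * (1 / (1 + β * s1) ^ 2) + (1 - l) * (1 / (1 + β * s3) ^ 2) := by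
    by_cases hβ : 1 + β * s1 = 1 + β * s3
    · have e : 1 + β * s2 = 1 + β * s1 := by
        have : 1 + β * s2 = l * (1 + β * s1) + (1 - l) * (1 + β * s3) := by rw [hs2]; ring
        rw [this, ← hβ]; ring
      rw [e, ← hβ]
      apply le_of_eq; ring
    · have := conv_inv_sq hb hβ hl0 hl1
      have e : l * (1 + β * s1) + (1 - l) * (1 + β * s3) = 1 + β * s2 := by rw [hs2]; ring
      rw [e] at this
      exact this.le
  have := mul_lt_mul_of_pos_left c1 hA
  have := mul_le_mul_of_nonneg_left c2 hB.le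
  nlinarith

lemma three_of_encard {T : Set ℝ} (h : ¬ T.encard ≤ 2) :
    ∃ x ∈ T, ∃ y ∈ T, ∃ z ∈ T, x ≠ y ∧ x ≠ z ∧ y ≠ z := by
  have h3 : (3 : ℕ∞) ≤ T.encard := by
    rw [not_le] at h
    have := Order.add_one_le_of_lt h
    have e : (3 : ℕ∞) = 2 + 1 := by norm_num
    rw [e]; exact this
  obtain ⟨U, hU, hUc⟩ := Set.exists_subset_encard_eq h3
  obtain ⟨x, y, z, hxy, hxz, hyz, rfl⟩ := Set.encard_eq_three.1 hUc
  exact ⟨x, hU (by simp), y, hU (by simp), z, hU (by simp), hxy, hxz, hyz⟩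

/-- region lemma -/
lemma region {A B C x1 x2 x3 : ℝ} (hA : 0 < A) (hB : 0 < B) (h13 : x1 ≠ x3)
    (T : Set ℝ)
    (hT : ∀ t ∈ T, t ≠ x1 ∧ t ≠ x2 ∧ t ≠ x3 ∧
      A * (1 / (t - x1) ^ 2) + B * (1 / (t - x2) ^ 2) = C * (1 / (t - x3) ^ 2))
    (hs : ∀ t ∈ T, ∀ t' ∈ T, 0 < ((t - x1) * (t - x3)) * ((t' - x1) * (t' - x3)) ∧
      0 < ((t - x2) * (t - x3)) * ((t' - x2) * (t' - x3))) : T.encard ≤ 2 := by
  by_contra hcon
  obtain ⟨x, hx, y, hy, z, hz, hxy, hxz, hyz⟩ := three_of_encard hcon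
  set α : ℝ := x3 - x1
  set β : ℝ := x3 - x2
  have hα : α ≠ 0 := sub_ne_zero.2 (Ne.symm h13)
  have hform : ∀ t ∈ T, ∃ s : ℝ, s = 1 / (t - x3) ∧ 1 + α * s = (t - x1) / (t - x3) ∧
      1 + β * s = (t - x2) / (t - x3) ∧
      A * (1 / (1 + α * s) ^ 2) + B * (1 / (1 + β * s) ^ 2) = C := by
    intro t ht
    obtain ⟨h1, h2, h3, he⟩ := hT t ht
    have d1 : t - x1 ≠ 0 := sub_ne_zero.2 h1
    have d2 : t - x2 ≠ 0 := sub_ne_zero.2 h2
    have d3 : t - x3 ≠ 0 := sub_ne_zero.2 h3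
    refine ⟨1 / (t - x3), rfl, ?_, ?_, ?_⟩
    · simp only [α]; field_simp; ring
    · simp only [β]; field_simp; ring
    · have e1 : 1 + α * (1 / (t - x3)) = (t - x1) / (t - x3) := by simp only [α]; field_simp; ring
      have e2 : 1 + β * (1 / (t - x3)) = (t - x2) / (t - x3) := by simp only [β]; field_simp; ring
      rw [e1, e2]
      have : A * (1 / ((t - x1) / (t - x3)) ^ 2) + B * (1 / ((t - x2) / (t - x3)) ^ 2) =
          (A * (1 / (t - x1) ^ 2) + B * (1 / (t - x2) ^ 2)) * (t - x3) ^ 2 := by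
        field_simp
      rw [this, he]
      field_simp
  -- generic contradiction for ordered s
  have main : ∀ t1 ∈ T, ∀ t2 ∈ T, ∀ t3 ∈ T, 1 / (t1 - x3) < 1 / (t2 - x3) →
      1 / (t2 - x3) < 1 / (t3 - x3) → False := by
    intro t1 h1 t2 h2 t3 h3 hlt1 hlt2
    obtain ⟨s1, es1, a1, b1, f1⟩ := hform t1 h1
    obtain ⟨s2, es2, a2, b2, f2⟩ := hform t2 h2
    obtain ⟨s3, es3, a3, b3, f3⟩ := hform t3 h3
    rw [← es1, ← es2] at hlt1
    rw [← es2, ← es3] at hlt2
    have hsg := hs t1 h1 t3 h3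
    have d1 : t1 - x3 ≠ 0 := sub_ne_zero.2 (hT t1 h1).2.2.1
    have d3 : t3 - x3 ≠ 0 := sub_ne_zero.2 (hT t3 h3).2.2.1
    have p1 : 0 < (t1 - x3) ^ 2 := by positivity
    have p3 : 0 < (t3 - x3) ^ 2 := by positivity
    refine no_three hA hB hα hlt1 hlt2 ?_ ?_ f1 f2 f3
    · rw [a1, a3]
      have : (t1 - x1) / (t1 - x3) * ((t3 - x1) / (t3 - x3)) =
          (((t1 - x1) * (t1 - x3)) * ((t3 - x1) * (t3 - x3))) / ((t1 - x3) ^ 2 * (t3 - x3) ^ 2) := by
        field_simp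
      rw [this]
      exact div_pos hsg.1 (by positivity)
    · rw [b1, b3]
      have : (t1 - x2) / (t1 - x3) * ((t3 - x2) / (t3 - x3)) =
          (((t1 - x2) * (t1 - x3)) * ((t3 - x2) * (t3 - x3))) / ((t1 - x3) ^ 2 * (t3 - x3) ^ 2) := by
        field_simp
      rw [this]
      exact div_pos hsg.2 (by positivity)
  have inj : ∀ t1 ∈ T, ∀ t2 ∈ T, t1 ≠ t2 → 1 / (t1 - x3) ≠ 1 / (t2 - x3) := by
    intro t1 h1 t2 h2 hne he
    rw [one_div, one_div] at he
    have := inv_injective he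
    exact hne (by linarith)
  have ixy := inj x hx y hy hxy
  have ixz := inj x hx z hz hxz
  have iyz := inj y hy z hz hyz
  rcases lt_or_gt_of_ne ixy with h1 | h1 <;> rcases lt_or_gt_of_ne ixz with h2 | h2 <;>
    rcases lt_or_gt_of_ne iyz with h3 | h3
  · exact main x hx y hy z hz h1 h3
  · exact main x hx z hz y hy h2 h3
  · exact lt_irrefl _ (h1.trans (h3.trans h2))
  · exact main z hz x hx y hy h2 h1
  · exact main y hy x hx z hz h1 h2
  · exact lt_irrefl _ (h1.trans (h2.trans h3))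
  · exact main y hy z hz x hx h3 h2
  · exact main z hz y hy x hx h3 h1

/-- symmetric region lemma: mixed signs or not, at most two zeros. -/
lemma region3 {e0 e1 e2 b0 b1 b2 : ℝ} (h0 : e0 ≠ 0) (h1 : e1 ≠ 0) (h2 : e2 ≠ 0)
    (h01 : b0 ≠ b1) (h02 : b0 ≠ b2) (T : Set ℝ)
    (hT : ∀ t ∈ T, t ≠ b0 ∧ t ≠ b1 ∧ t ≠ b2 ∧
      e0 * (1 / (t - b0) ^ 2) + e1 * (1 / (t - b1) ^ 2) + e2 * (1 / (t - b2) ^ 2) = 0)
    (hs01 : ∀ t ∈ T, ∀ t' ∈ T, 0 < ((t - b0) * (t - b1)) * ((t' - b0) * (t' - b1)))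
    (hs02 : ∀ t ∈ T, ∀ t' ∈ T, 0 < ((t - b0) * (t - b2)) * ((t' - b0) * (t' - b2)))
    (hs12 : ∀ t ∈ T, ∀ t' ∈ T, 0 < ((t - b1) * (t - b2)) * ((t' - b1) * (t' - b2))) :
    T.encard ≤ 2 := by
  have swap : ∀ (x y : ℝ), (∀ t ∈ T, ∀ t' ∈ T, 0 < ((t - x) * (t - y)) * ((t' - x) * (t' - y))) →
      (∀ t ∈ T, ∀ t' ∈ T, 0 < ((t - y) * (t - x)) * ((t' - y) * (t' - x))) := by
    intro x y h t ht t' ht'
    have := h t ht t' ht'
    rwa [mul_comm (t - y), mul_comm (t' - y)]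
  have empt : (∀ t ∈ T, False) → T.encard ≤ 2 := by
    intro h
    have : T = ∅ := Set.eq_empty_of_forall_notMem h
    rw [this]; simp
  have pos : ∀ t ∈ T, 0 < 1 / (t - b0) ^ 2 ∧ 0 < 1 / (t - b1) ^ 2 ∧ 0 < 1 / (t - b2) ^ 2 := by
    intro t ht
    obtain ⟨a0, a1, a2, _⟩ := hT t ht
    have d0 : t - b0 ≠ 0 := sub_ne_zero.2 a0
    have d1 : t - b1 ≠ 0 := sub_ne_zero.2 a1
    have d2 : t - b2 ≠ 0 := sub_ne_zero.2 a2
    refine ⟨by positivity, by positivity, by positivity⟩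
  rcases lt_or_gt_of_ne h0 with s0 | s0 <;> rcases lt_or_gt_of_ne h1 with s1 | s1 <;>
    rcases lt_or_gt_of_ne h2 with s2 | s2
  · -- ---
    apply empt
    intro t ht
    obtain ⟨p0, p1, p2⟩ := pos t ht
    have := (hT t ht).2.2.2
    nlinarith [mul_pos_of_neg_of_neg s0 (neg_neg_of_pos p0), mul_pos_of_neg_of_neg s1 (neg_neg_of_pos p1), mul_pos_of_neg_of_neg s2 (neg_neg_of_pos p2)]
  · -- --+
    refine region (A := -e0) (B := -e1) (C := e2) (x1 := b0) (x2 := b1) (x3 := b2)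
      (by linarith) (by linarith) h02 T ?_ ?_
    · intro t ht
      obtain ⟨a0, a1, a2, he⟩ := hT t ht
      exact ⟨a0, a1, a2, by linarith⟩
    · intro t ht t' ht'
      exact ⟨hs02 t ht t' ht', hs12 t ht t' ht'⟩
  · -- -+-
    refine region (A := -e0) (B := -e2) (C := e1) (x1 := b0) (x2 := b2) (x3 := b1)
      (by linarith) (by linarith) h01 T ?_ ?_
    · intro t ht
      obtain ⟨a0, a1, a2, he⟩ := hT t ht
      exact ⟨a0, a2, a1, by linarith⟩
    · intro t ht t' ht'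
      exact ⟨hs01 t ht t' ht', swap _ _ hs12 t ht t' ht'⟩
  · -- -++
    refine region (A := e1) (B := e2) (C := -e0) (x1 := b1) (x2 := b2) (x3 := b0)
      (by linarith) (by linarith) h01.symm T ?_ ?_
    · intro t ht
      obtain ⟨a0, a1, a2, he⟩ := hT t ht
      exact ⟨a1, a2, a0, by linarith⟩
    · intro t ht t' ht'
      exact ⟨swap _ _ hs01 t ht t' ht', swap _ _ hs02 t ht t' ht'⟩
  · -- signs: plus, minus, minus
    refine region (A := -e1) (B := -e2) (C := e0) (x1 := b1) (x2 := b2) (x3 := b0)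
      (by linarith) (by linarith) h01.symm T ?_ ?_
    · intro t ht
      obtain ⟨a0, a1, a2, he⟩ := hT t ht
      exact ⟨a1, a2, a0, by linarith⟩
    · intro t ht t' ht'
      exact ⟨swap _ _ hs01 t ht t' ht', swap _ _ hs02 t ht t' ht'⟩
  · -- +-+
    refine region (A := e0) (B := e2) (C := -e1) (x1 := b0) (x2 := b2) (x3 := b1)
      (by linarith) (by linarith) h01 T ?_ ?_
    · intro t ht
      obtain ⟨a0, a1, a2, he⟩ := hT t ht
      exact ⟨a0, a2, a1, by linarith⟩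
    · intro t ht t' ht'
      exact ⟨hs01 t ht t' ht', swap _ _ hs12 t ht t' ht'⟩
  · -- ++-
    refine region (A := e0) (B := e1) (C := -e2) (x1 := b0) (x2 := b1) (x3 := b2)
      (by linarith) (by linarith) h02 T ?_ ?_
    · intro t ht
      obtain ⟨a0, a1, a2, he⟩ := hT t ht
      exact ⟨a0, a1, a2, by linarith⟩
    · intro t ht t' ht'
      exact ⟨hs02 t ht t' ht', hs12 t ht t' ht'⟩
  · -- +++
    apply empt
    intro t ht
    obtain ⟨p0, p1, p2⟩ := pos t ht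
    have := (hT t ht).2.2.2
    nlinarith [mul_pos s0 p0, mul_pos s1 p1, mul_pos s2 p2]


lemma term_pos {t b : ℝ} (h : b < t) : (t - b) / |t - b| ^ 3 = 1 / (t - b) ^ 2 := by
  have : 0 < t - b := by linarith
  rw [abs_of_pos this]; field_simp

lemma term_neg {t b : ℝ} (h : t < b) : (t - b) / |t - b| ^ 3 = -(1 / (t - b) ^ 2) := by
  have : t - b < 0 := by linarith
  have h2 : t - b ≠ 0 := this.ne
  rw [abs_of_neg this]
  have : (-(t - b)) ^ 3 = -((t - b) ^ 3) := by ring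
  rw [this]; field_simp

lemma no_both {b0 b1 b2 c0 c1 c2 t t' : ℝ} (h01 : b0 < b1) (h12 : b1 < b2)
    (p0 : 0 < c0) (p1 : c1 < 0) (p2 : 0 < c2)
    (ht : b0 < t ∧ t < b1) (ht' : b1 < t' ∧ t' < b2)
    (e : c0 * (1 / (t - b0) ^ 2) + c1 * (-(1 / (t - b1) ^ 2)) + c2 * (-(1 / (t - b2) ^ 2)) = 0)
    (e' : c0 * (1 / (t' - b0) ^ 2) + c1 * (1 / (t' - b1) ^ 2) + c2 * (-(1 / (t' - b2) ^ 2)) = 0) :
    False := by
  have d0 : 0 < t - b0 := by linarith
  have d1 : t - b1 ≠ 0 := by intro h; linarith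
  have d2 : 0 < b2 - t := by linarith
  have d0' : 0 < t' - b0 := by linarith
  have d1' : t' - b1 ≠ 0 := by intro h; linarith
  have d2' : 0 < b2 - t' := by linarith
  have q1 : 0 < 1 / (t - b1) ^ 2 := by positivity
  have q1' : 0 < 1 / (t' - b1) ^ 2 := by positivity
  have f1 : c0 * (1 / (t - b0) ^ 2) < c2 * (1 / (t - b2) ^ 2) := by nlinarith
  have f2 : c2 * (1 / (t' - b2) ^ 2) < c0 * (1 / (t' - b0) ^ 2) := by nlinarith
  have r : (t - b2) ^ 2 = (b2 - t) ^ 2 := by ring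
  have r' : (t' - b2) ^ 2 = (b2 - t') ^ 2 := by ring
  rw [r, mul_one_div, mul_one_div, div_lt_div_iff₀ (by positivity) (by positivity)] at f1
  rw [r', mul_one_div, mul_one_div, div_lt_div_iff₀ (by positivity) (by positivity)] at f2
  have g1 : (b2 - b1) ^ 2 < (b2 - t) ^ 2 := by nlinarith
  have g2 : (t - b0) ^ 2 < (b1 - b0) ^ 2 := by nlinarith
  have g3 : (b2 - t') ^ 2 < (b2 - b1) ^ 2 := by nlinarith
  have g4 : (b1 - b0) ^ 2 < (t' - b0) ^ 2 := by nlinarith
  have k1 := mul_lt_mul_of_pos_left g1 p0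
  have k2 := mul_lt_mul_of_pos_left g2 p2
  have k3 := mul_lt_mul_of_pos_left g3 p0
  have k4 := mul_lt_mul_of_pos_left g4 p2
  linarith

lemma count {b0 b1 b2 c0 c1 c2 : ℝ} (h01 : b0 < b1) (h12 : b1 < b2)
    (n0 : c0 ≠ 0) (n1 : c1 ≠ 0) (n2 : c2 ≠ 0) :
    {t : ℝ | t ≠ b0 ∧ t ≠ b1 ∧ t ≠ b2 ∧ c0 * ((t - b0) / |t - b0| ^ 3) +
      c1 * ((t - b1) / |t - b1| ^ 3) + c2 * ((t - b2) / |t - b2| ^ 3) = 0}.encard ≤ 4 := by
  set Z : Set ℝ := {t : ℝ | t ≠ b0 ∧ t ≠ b1 ∧ t ≠ b2 ∧ c0 * ((t - b0) / |t - b0| ^ 3) +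
      c1 * ((t - b1) / |t - b1| ^ 3) + c2 * ((t - b2) / |t - b2| ^ 3) = 0} with hZ
  set O : Set ℝ := {t ∈ Z | t < b0 ∨ b2 < t} with hO
  set L1 : Set ℝ := {t ∈ Z | b0 < t ∧ t < b1} with hL1
  set L2 : Set ℝ := {t ∈ Z | b1 < t ∧ t < b2} with hL2
  have eO : ∀ t ∈ O, t ≠ b0 ∧ t ≠ b1 ∧ t ≠ b2 ∧
      c0 * (1 / (t - b0) ^ 2) + c1 * (1 / (t - b1) ^ 2) + c2 * (1 / (t - b2) ^ 2) = 0 := by
    rintro t ⟨⟨a0, a1, a2, he⟩, ht⟩
    refine ⟨a0, a1, a2, ?_⟩
    rcases ht with ht | ht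
    · rw [term_neg ht, term_neg (ht.trans h01), term_neg (ht.trans (h01.trans h12))] at he
      linarith
    · rw [term_pos ht, term_pos (h12.trans ht), term_pos ((h01.trans h12).trans ht)] at he
      linarith
  have eL1 : ∀ t ∈ L1, t ≠ b0 ∧ t ≠ b1 ∧ t ≠ b2 ∧
      c0 * (1 / (t - b0) ^ 2) + c1 * (-(1 / (t - b1) ^ 2)) + c2 * (-(1 / (t - b2) ^ 2)) = 0 := by
    rintro t ⟨⟨a0, a1, a2, he⟩, ht1, ht2⟩
    refine ⟨a0, a1, a2, ?_⟩
    rw [term_pos ht1, term_neg ht2, term_neg (ht2.trans h12)] at he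
    exact he
  have eL2 : ∀ t ∈ L2, t ≠ b0 ∧ t ≠ b1 ∧ t ≠ b2 ∧
      c0 * (1 / (t - b0) ^ 2) + c1 * (1 / (t - b1) ^ 2) + c2 * (-(1 / (t - b2) ^ 2)) = 0 := by
    rintro t ⟨⟨a0, a1, a2, he⟩, ht1, ht2⟩
    refine ⟨a0, a1, a2, ?_⟩
    rw [term_pos (h01.trans ht1), term_pos ht1, term_neg ht2] at he
    exact he
  have ps : ∀ a b c d : ℝ, 0 < a * b → 0 < c * d → 0 < (a * b) * (c * d) :=
    fun a b c d h1 h2 => mul_pos h1 h2
  have ns : ∀ a b c d : ℝ, a * b < 0 → c * d < 0 → 0 < (a * b) * (c * d) :=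
    fun a b c d h1 h2 => mul_pos_of_neg_of_neg h1 h2
  have bO : O.encard ≤ 2 := by
    have hp : ∀ x y : ℝ, b0 ≤ x → x ≤ b2 → b0 ≤ y → y ≤ b2 → ∀ t ∈ O, 0 < (t - x) * (t - y) := by
      rintro x y hx1 hx2 hy1 hy2 t ⟨_, ht | ht⟩
      · exact mul_pos_of_neg_of_neg (by linarith) (by linarith)
      · exact mul_pos (by linarith) (by linarith)
    refine region3 n0 n1 n2 h01.ne (h01.trans h12).ne O eO ?_ ?_ ?_ <;>
      intro t ht t' ht' <;>
      exact ps _ _ _ _ (hp _ _ (by linarith) (by linarith) (by linarith) (by linarith) t ht)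
        (hp _ _ (by linarith) (by linarith) (by linarith) (by linarith) t' ht')
  have bL1 : L1.encard ≤ 2 := by
    refine region3 (e0 := c0) (e1 := -c1) (e2 := -c2) n0 (neg_ne_zero.2 n1) (neg_ne_zero.2 n2)
      h01.ne (h01.trans h12).ne L1 ?_ ?_ ?_ ?_
    · intro t ht
      obtain ⟨a0, a1, a2, he⟩ := eL1 t ht
      exact ⟨a0, a1, a2, by linarith⟩
    · rintro t ⟨_, h1, h2⟩ t' ⟨_, h1', h2'⟩
      exact ns _ _ _ _ (mul_neg_of_pos_of_neg (by linarith) (by linarith))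
        (mul_neg_of_pos_of_neg (by linarith) (by linarith))
    · rintro t ⟨_, h1, h2⟩ t' ⟨_, h1', h2'⟩
      exact ns _ _ _ _ (mul_neg_of_pos_of_neg (by linarith) (by linarith))
        (mul_neg_of_pos_of_neg (by linarith) (by linarith))
    · rintro t ⟨_, h1, h2⟩ t' ⟨_, h1', h2'⟩
      exact ps _ _ _ _ (mul_pos_of_neg_of_neg (by linarith) (by linarith))
        (mul_pos_of_neg_of_neg (by linarith) (by linarith))
  have bL2 : L2.encard ≤ 2 := by
    refine region3 (e0 := c0) (e1 := c1) (e2 := -c2) n0 n1 (neg_ne_zero.2 n2)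
      h01.ne (h01.trans h12).ne L2 ?_ ?_ ?_ ?_
    · intro t ht
      obtain ⟨a0, a1, a2, he⟩ := eL2 t ht
      exact ⟨a0, a1, a2, by linarith⟩
    · rintro t ⟨_, h1, h2⟩ t' ⟨_, h1', h2'⟩
      exact ps _ _ _ _ (mul_pos (by linarith) (by linarith)) (mul_pos (by linarith) (by linarith))
    · rintro t ⟨_, h1, h2⟩ t' ⟨_, h1', h2'⟩
      exact ns _ _ _ _ (mul_neg_of_pos_of_neg (by linarith) (by linarith))
        (mul_neg_of_pos_of_neg (by linarith) (by linarith))
    · rintro t ⟨_, h1, h2⟩ t' ⟨_, h1', h2'⟩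
      exact ns _ _ _ _ (mul_neg_of_pos_of_neg (by linarith) (by linarith))
        (mul_neg_of_pos_of_neg (by linarith) (by linarith))
  have cover : Z ⊆ O ∪ (L1 ∪ L2) := by
    intro t ht
    rcases lt_or_gt_of_ne ht.1 with h | h
    · exact Or.inl ⟨ht, Or.inl h⟩
    · rcases lt_or_gt_of_ne ht.2.1 with h' | h'
      · exact Or.inr (Or.inl ⟨ht, h, h'⟩)
      · rcases lt_or_gt_of_ne ht.2.2.1 with h'' | h''
        · exact Or.inr (Or.inr ⟨ht, h', h''⟩)
        · exact Or.inl ⟨ht, Or.inr h''⟩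
  have hem : O = ∅ ∨ L1 = ∅ ∨ L2 = ∅ := by
    have pos : ∀ t ∈ Z, 0 < 1 / (t - b0) ^ 2 ∧ 0 < 1 / (t - b1) ^ 2 ∧ 0 < 1 / (t - b2) ^ 2 := by
      rintro t ⟨a0, a1, a2, _⟩
      have d0 : t - b0 ≠ 0 := sub_ne_zero.2 a0
      have d1 : t - b1 ≠ 0 := sub_ne_zero.2 a1
      have d2 : t - b2 ≠ 0 := sub_ne_zero.2 a2
      refine ⟨by positivity, by positivity, by positivity⟩
    rcases lt_or_gt_of_ne n0 with s0 | s0 <;> rcases lt_or_gt_of_ne n1 with s1 | s1 <;>
      rcases lt_or_gt_of_ne n2 with s2 | s2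
    · left
      refine Set.eq_empty_of_forall_notMem fun t ht => ?_
      obtain ⟨p0, p1, p2⟩ := pos t ht.1
      have := (eO t ht).2.2.2
      nlinarith [mul_pos (neg_pos.2 s0) p0, mul_pos (neg_pos.2 s1) p1, mul_pos (neg_pos.2 s2) p2]
    · right; right
      refine Set.eq_empty_of_forall_notMem fun t ht => ?_
      obtain ⟨p0, p1, p2⟩ := pos t ht.1
      have := (eL2 t ht).2.2.2
      nlinarith [mul_pos (neg_pos.2 s0) p0, mul_pos (neg_pos.2 s1) p1, mul_pos s2 p2]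
    · -- - + -
      by_contra hcon
      simp only [not_or] at hcon
      obtain ⟨t, ht⟩ := Set.nonempty_iff_ne_empty.2 hcon.2.1
      obtain ⟨t', ht'⟩ := Set.nonempty_iff_ne_empty.2 hcon.2.2
      refine no_both (c0 := -c0) (c1 := -c1) (c2 := -c2) h01 h12 (by linarith) (by linarith)
        (by linarith) ht.2 ht'.2 ?_ ?_
      · have := (eL1 t ht).2.2.2
        linarith
      · have := (eL2 t' ht').2.2.2
        linarith
    · right; left
      refine Set.eq_empty_of_forall_notMem fun t ht => ?_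
      obtain ⟨p0, p1, p2⟩ := pos t ht.1
      have := (eL1 t ht).2.2.2
      nlinarith [mul_pos (neg_pos.2 s0) p0, mul_pos s1 p1, mul_pos s2 p2]
    · right; left
      refine Set.eq_empty_of_forall_notMem fun t ht => ?_
      obtain ⟨p0, p1, p2⟩ := pos t ht.1
      have := (eL1 t ht).2.2.2
      nlinarith [mul_pos s0 p0, mul_pos (neg_pos.2 s1) p1, mul_pos (neg_pos.2 s2) p2]
    · -- + - +
      by_contra hcon
      simp only [not_or] at hcon
      obtain ⟨t, ht⟩ := Set.nonempty_iff_ne_empty.2 hcon.2.1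
      obtain ⟨t', ht'⟩ := Set.nonempty_iff_ne_empty.2 hcon.2.2
      exact no_both h01 h12 s0 s1 s2 ht.2 ht'.2 (eL1 t ht).2.2.2 (eL2 t' ht').2.2.2
    · right; right
      refine Set.eq_empty_of_forall_notMem fun t ht => ?_
      obtain ⟨p0, p1, p2⟩ := pos t ht.1
      have := (eL2 t ht).2.2.2
      nlinarith [mul_pos s0 p0, mul_pos s1 p1, mul_pos (neg_pos.2 s2) p2]
    · left
      refine Set.eq_empty_of_forall_notMem fun t ht => ?_
      obtain ⟨p0, p1, p2⟩ := pos t ht.1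
      have := (eO t ht).2.2.2
      nlinarith [mul_pos s0 p0, mul_pos s1 p1, mul_pos s2 p2]
  refine (Set.encard_le_encard cover).trans ?_
  have e4 : (4 : ℕ∞) = 2 + 2 := by norm_num
  rcases hem with h | h | h
  · rw [h, Set.empty_union]
    refine (Set.encard_union_le _ _).trans ?_
    rw [e4]; exact add_le_add bL1 bL2
  · rw [h, Set.empty_union]
    refine (Set.encard_union_le _ _).trans ?_
    rw [e4]; exact add_le_add bO bL2
  · rw [h, Set.union_empty]
    refine (Set.encard_union_le _ _).trans ?_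
    rw [e4]; exact add_le_add bO bL1

lemma count' (p c : Fin 3 → ℝ) (hp : Function.Injective p) (hc : ∀ j, c j ≠ 0) :
    {t : ℝ | (∀ j, t ≠ p j) ∧ ∑ j, c j * ((t - p j) / |t - p j| ^ 3) = 0}.encard ≤ 4 := by
  set σ := Tuple.sort p with hσ
  have hm : Monotone (p ∘ σ) := Tuple.monotone_sort p
  have hsm : StrictMono (p ∘ σ) := hm.strictMono_of_injective (hp.comp σ.injective)
  have h01 : p (σ 0) < p (σ 1) := hsm (by decide)
  have h12 : p (σ 1) < p (σ 2) := hsm (by decide)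
  refine le_trans (Set.encard_le_encard ?_) (count (c0 := c (σ 0)) (c1 := c (σ 1)) (c2 := c (σ 2))
    h01 h12 (hc _) (hc _) (hc _))
  rintro t ⟨h1, h2⟩
  refine ⟨h1 _, h1 _, h1 _, ?_⟩
  rw [← Equiv.sum_comp σ, Fin.sum_univ_three] at h2
  exact h2

end MaxwellReal

namespace Pool.Agent.Helper19.Maxwell

open N62f3cee0

/-- The collinear case. `hgrad` and `hhess` are proved elsewhere. -/
theorem collinear_case
    (hgrad : ∀ (q : Fin 3 → ℝ) (a : Fin 3 → EuclideanSpace ℝ (Fin 3))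
      (x : EuclideanSpace ℝ (Fin 3)),
      x ∈ equilibria q a ↔ x ∉ Set.range a ∧ ∑ j, (q j / dist x (a j) ^ 3) • (x - a j) = 0)
    (hhess : ∀ (q : Fin 3 → ℝ) (a : Fin 3 → EuclideanSpace ℝ (Fin 3))
      (x : EuclideanSpace ℝ (Fin 3)), x ∉ Set.range a → ∀ v w : EuclideanSpace ℝ (Fin 3),
      iteratedFDeriv ℝ 2 (potential q a) x ![v, w] =
      ∑ j, q j * (3 * inner ℝ (x - a j) v * inner ℝ (x - a j) w / dist x (a j) ^ 5
        - inner ℝ v w / dist x (a j) ^ 3))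
    (q : Fin 3 → ℝ) (a : Fin 3 → EuclideanSpace ℝ (Fin 3))
    (ha : Function.Injective a) (hq : ∀ j, q j ≠ 0)
    (hcol : Collinear ℝ (Set.range a))
    (hnd : ∀ x ∈ equilibria q a, HasNondegenerateHessianAt (potential q a) x) :
    (equilibria q a).encard ≤ 4 := by
  classical
  -- parametrise the line
  rw [collinear_iff_exists_forall_eq_smul_vadd] at hcol
  obtain ⟨o, v, hv⟩ := hcol
  have hv' : ∀ j, ∃ r : ℝ, a j = r • v +ᵥ o := fun j => hv _ ⟨j, rfl⟩
  choose r hr using hv'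
  simp only [vadd_eq_add] at hr
  have hv0 : v ≠ 0 := by
    rintro rfl
    have : a 0 = a 1 := by rw [hr 0, hr 1]; simp
    exact absurd (ha this) (by decide)
  have hvn : 0 < ‖v‖ := norm_pos_iff.2 hv0
  set e : EuclideanSpace ℝ (Fin 3) := (‖v‖⁻¹ : ℝ) • v with he
  have hen : ‖e‖ = 1 := by
    rw [he, norm_smul, norm_inv, norm_norm]
    exact inv_mul_cancel₀ hvn.ne'
  have hee : inner ℝ e e = (1 : ℝ) := by
    rw [real_inner_self_eq_norm_sq, hen]; norm_num
  set p : Fin 3 → ℝ := fun j => r j * ‖v‖ with hp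
  have hap : ∀ j, a j = o + p j • e := by
    intro j
    rw [hr j, he, hp, smul_smul, mul_assoc, mul_inv_cancel₀ hvn.ne', mul_one, add_comm]
  have hpinj : Function.Injective p := by
    intro i j hij
    apply ha
    rw [hap i, hap j, hij]
  -- all equilibria are on the line
  have hline : ∀ x ∈ equilibria q a, ∃ t : ℝ, x = o + t • e := by
    intro x hx
    set u := x - o with hu
    set t : ℝ := inner ℝ u e with ht
    set ρ := u - t • e with hρ
    refine ⟨t, ?_⟩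
    by_contra hne
    have hρ0 : ρ ≠ 0 := by
      intro h0
      apply hne
      have : x = o + u := by rw [hu]; abel
      rw [this, sub_eq_zero.1 h0]
    have hρe : inner ℝ ρ e = (0 : ℝ) := by
      rw [hρ, inner_sub_left, inner_smul_left, hee]
      simp [ht]
    have hxa : ∀ j, x - a j = ρ + (t - p j) • e := by
      intro j
      rw [hap j, hρ, hu, sub_smul]
      abel
    obtain ⟨hxr, hsum⟩ := (hgrad q a x).1 hx
    have hw : ∑ j, q j / dist x (a j) ^ 3 = 0 := by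
      have h1 : inner ℝ (∑ j, (q j / dist x (a j) ^ 3) • (x - a j)) ρ = (0 : ℝ) := by
        rw [hsum, inner_zero_left]
      rw [sum_inner] at h1
      have h2 : ∀ j, inner ℝ ((q j / dist x (a j) ^ 3) • (x - a j)) ρ =
          (q j / dist x (a j) ^ 3) * ‖ρ‖ ^ 2 := by
        intro j
        rw [inner_smul_left, hxa j, inner_add_left, inner_smul_left, real_inner_self_eq_norm_sq,
          real_inner_comm, hρe]
        simp
      simp only [h2] at h1
      rw [← Finset.sum_mul] at h1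
      rcases mul_eq_zero.1 h1 with h | h
      · exact h
      · exact absurd (norm_eq_zero.1 (pow_eq_zero_iff (two_ne_zero) |>.1 h)) hρ0
    -- a vector orthogonal to e and ρ
    obtain ⟨z, hz0, hze, hzρ⟩ : ∃ z : EuclideanSpace ℝ (Fin 3), z ≠ 0 ∧ inner ℝ e z = (0 : ℝ) ∧
        inner ℝ ρ z = (0 : ℝ) := by
      let S : Submodule ℝ (EuclideanSpace ℝ (Fin 3)) := Submodule.span ℝ {e, ρ}
      have hfin : Module.finrank ℝ S ≤ 2 := by
        have h1 := finrank_span_finset_le_card (R := ℝ) ({e, ρ} : Finset (EuclideanSpace ℝ (Fin 3)))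
        have h2 : ({e, ρ} : Finset (EuclideanSpace ℝ (Fin 3))).card ≤ 2 := Finset.card_le_two
        have h3 : Module.finrank ℝ S ≤ ({e, ρ} : Finset (EuclideanSpace ℝ (Fin 3))).card := by
          have hset : ((({e, ρ} : Finset (EuclideanSpace ℝ (Fin 3))) :
              Set (EuclideanSpace ℝ (Fin 3)))) = {e, ρ} := by ext; simp
          rw [Set.finrank, hset] at h1
          exact h1
        omega
      have hne : S ≠ ⊤ := by
        intro h
        rw [h, finrank_top, finrank_euclideanSpace_fin] at hfin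
        omega
      have horth : Sᗮ ≠ ⊥ := by
        intro h
        exact hne (Submodule.orthogonal_eq_bot_iff.1 h)
      obtain ⟨z, hz, hz0⟩ := Submodule.exists_mem_ne_zero_of_ne_bot horth
      refine ⟨z, hz0, ?_, ?_⟩
      · exact (Submodule.mem_orthogonal _ _).1 hz e (Submodule.subset_span (by simp))
      · exact (Submodule.mem_orthogonal _ _).1 hz ρ (Submodule.subset_span (by simp))
    obtain ⟨w, hwne⟩ := hnd x hx z hz0
    apply hwne
    rw [hhess q a x hxr]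
    have h3 : ∀ j, inner ℝ (x - a j) z = (0 : ℝ) := by
      intro j
      rw [hxa j, inner_add_left, inner_smul_left, hzρ, hze]; simp
    have h4 : ∀ j, q j * (3 * inner ℝ (x - a j) z * inner ℝ (x - a j) w / dist x (a j) ^ 5
        - inner ℝ z w / dist x (a j) ^ 3) = -(inner ℝ z w : ℝ) * (q j / dist x (a j) ^ 3) := by
      intro j
      rw [h3 j]
      simp only [mul_zero, zero_mul, zero_div, zero_sub]
      ring
    simp only [h4]
    rw [← Finset.mul_sum, hw, mul_zero]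
  -- transfer to the line
  have hsub : equilibria q a ⊆ (fun t : ℝ => o + t • e) ''
      {t : ℝ | (∀ j, t ≠ p j) ∧ ∑ j, q j * ((t - p j) / |t - p j| ^ 3) = 0} := by
    intro x hx
    obtain ⟨t, rfl⟩ := hline x hx
    obtain ⟨hxr, hsum⟩ := (hgrad q a _).1 hx
    refine ⟨t, ⟨?_, ?_⟩, rfl⟩
    · intro j htj
      apply hxr
      exact ⟨j, by rw [hap j, htj]⟩
    · have h1 : ∀ j, (o + t • e) - a j = (t - p j) • e := by
        intro j
        rw [hap j, sub_smul]; abel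
      have h2 : ∀ j, dist (o + t • e) (a j) = |t - p j| := by
        intro j
        rw [dist_eq_norm, h1 j, norm_smul, hen, mul_one, Real.norm_eq_abs]
      have h3 : inner ℝ (∑ j, (q j / dist (o + t • e) (a j) ^ 3) • ((o + t • e) - a j)) e
          = (0 : ℝ) := by rw [hsum, inner_zero_left]
      rw [sum_inner] at h3
      rw [← h3]
      refine Finset.sum_congr rfl fun j _ => ?_
      rw [h1 j, h2 j, inner_smul_left, inner_smul_left, hee]
      simp only [conj_trivial]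
      ring
  exact (Set.encard_le_encard hsub).trans ((Set.encard_image_le _ _).trans
    (MaxwellReal.count' p q hpinj hq))

end Pool.Agent.Helper19.Maxwell
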