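import Mathlib
import Pool.Prelude.Def_F_d420a142

set_option autoImplicit false

namespace Pool.Agent.Helper19.Maxwell

open N62f3cee0

theorem norm_aux (ρ z' e : EuclideanSpace ℝ (Fin 3)) (c s k : ℝ) (hcs : c ^ 2 + s ^ 2 = 1)
    (hz'n : ‖z'‖ = ‖ρ‖) (hen : ‖e‖ = 1) (hρe : inner ℝ ρ e = (0 : ℝ))
    (hze' : inner ℝ z' e = (0 : ℝ)) (hzρ' : inner ℝ ρ z' = (0 : ℝ)) :
    ‖(c • ρ + s • z') + k • e‖ ^ 2 = ‖ρ‖ ^ 2 + k ^ 2 := by
  rw [norm_add_sq_real, norm_add_sq_real, norm_smul, norm_smul, norm_smul, hen, hz'n]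
  rw [inner_smul_left, inner_smul_right, hzρ', inner_smul_right, inner_add_left,
    inner_smul_left, inner_smul_left, hρe, hze']
  simp only [Real.norm_eq_abs, mul_pow, sq_abs, mul_zero, add_zero, one_pow, mul_one]
  linear_combination (‖ρ‖ ^ 2) * hcs

/-- TARGET: the collinear case for finite sets of equilibria. `hcount` and `hgrad` are proved elsewhere.
The comment block at the end of this file is the (compiling) proof of a variant with the
hypothesis `hnd` instead of `hfin`; only the part `hline` (all equilibria are on the line) has to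
be changed. -/
theorem collinear_finite
    (hcount : ∀ (p q : Fin 3 → ℝ), Function.Injective p → (∀ j, q j ≠ 0) →
      {t : ℝ | (∀ j, t ≠ p j) ∧ ∑ j, q j * ((t - p j) / |t - p j| ^ 3) = 0}.encard ≤ 4)
    (hgrad : ∀ (q : Fin 3 → ℝ) (a : Fin 3 → EuclideanSpace ℝ (Fin 3))
      (x : EuclideanSpace ℝ (Fin 3)),
      x ∈ equilibria q a ↔ x ∉ Set.range a ∧ ∑ j, (q j / dist x (a j) ^ 3) • (x - a j) = 0)
    (q : Fin 3 → ℝ) (a : Fin 3 → EuclideanSpace ℝ (Fin 3))
    (ha : Function.Injective a) (hq : ∀ j, q j ≠ 0)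
    (hcol : Collinear ℝ (Set.range a)) (hfin : (equilibria q a).Finite) :
    (equilibria q a).encard ≤ 4 := by
  classical
  -- parametrise the line
  rw [collinear_iff_exists_forall_eq_smul_vadd] at hcol
  obtain ⟨o, v, hv⟩ := hcol
  have hv' : ∀ j, ∃ r : ℝ, a j = r • v +ᵥ o := fun j => hv _ ⟨j, rfl⟩
  choose r hr using hv'
  simp only [vadd_eq_add] at hr
  have hv0 : v ≠ 0 := by
    rintro rfl
    have : a 0 = a 1 := by rw [hr 0, hr 1]; simp
    exact absurd (ha this) (by decide)
  have hvn : 0 < ‖v‖ := norm_pos_iff.2 hv0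
  set e : EuclideanSpace ℝ (Fin 3) := (‖v‖⁻¹ : ℝ) • v with he
  have hen : ‖e‖ = 1 := by
    rw [he, norm_smul, norm_inv, norm_norm]
    exact inv_mul_cancel₀ hvn.ne'
  have hee : inner ℝ e e = (1 : ℝ) := by
    rw [real_inner_self_eq_norm_sq, hen]; norm_num
  set p : Fin 3 → ℝ := fun j => r j * ‖v‖ with hp
  have hap : ∀ j, a j = o + p j • e := by
    intro j
    rw [hr j, he, hp, smul_smul, mul_assoc, mul_inv_cancel₀ hvn.ne', mul_one, add_comm]
  have hpinj : Function.Injective p := by
    intro i j hij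
    apply ha
    rw [hap i, hap j, hij]
  -- all equilibria are on the line
  have hline : ∀ x ∈ equilibria q a, ∃ t : ℝ, x = o + t • e := by
    intro x hx
    set u := x - o with hu
    set t : ℝ := inner ℝ u e with ht
    set ρ := u - t • e with hρ
    refine ⟨t, ?_⟩
    by_contra hne
    have hρ0 : ρ ≠ 0 := by
      intro h0
      apply hne
      have : x = o + u := by rw [hu]; abel
      rw [this, sub_eq_zero.1 h0]
    have hρe : inner ℝ ρ e = (0 : ℝ) := by
      rw [hρ, inner_sub_left, inner_smul_left, hee]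
      simp [ht]
    have hxa : ∀ j, x - a j = ρ + (t - p j) • e := by
      intro j
      rw [hap j, hρ, hu, sub_smul]
      abel
    obtain ⟨hxr, hsum⟩ := (hgrad q a x).1 hx
    have hw : ∑ j, q j / dist x (a j) ^ 3 = 0 := by
      have h1 : inner ℝ (∑ j, (q j / dist x (a j) ^ 3) • (x - a j)) ρ = (0 : ℝ) := by
        rw [hsum, inner_zero_left]
      rw [sum_inner] at h1
      have h2 : ∀ j, inner ℝ ((q j / dist x (a j) ^ 3) • (x - a j)) ρ =
          (q j / dist x (a j) ^ 3) * ‖ρ‖ ^ 2 := by
        intro j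
        rw [inner_smul_left, hxa j, inner_add_left, inner_smul_left, real_inner_self_eq_norm_sq,
          real_inner_comm, hρe]
        simp
      simp only [h2] at h1
      rw [← Finset.sum_mul] at h1
      rcases mul_eq_zero.1 h1 with h | h
      · exact h
      · exact absurd (norm_eq_zero.1 (pow_eq_zero_iff (two_ne_zero) |>.1 h)) hρ0
    -- a vector orthogonal to e and ρ
    obtain ⟨z, hz0, hze, hzρ⟩ : ∃ z : EuclideanSpace ℝ (Fin 3), z ≠ 0 ∧ inner ℝ e z = (0 : ℝ) ∧
        inner ℝ ρ z = (0 : ℝ) := by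
      let S : Submodule ℝ (EuclideanSpace ℝ (Fin 3)) := Submodule.span ℝ {e, ρ}
      have hfin : Module.finrank ℝ S ≤ 2 := by
        have h1 := finrank_span_finset_le_card (R := ℝ) ({e, ρ} : Finset (EuclideanSpace ℝ (Fin 3)))
        have h2 : ({e, ρ} : Finset (EuclideanSpace ℝ (Fin 3))).card ≤ 2 := Finset.card_le_two
        have h3 : Module.finrank ℝ S ≤ ({e, ρ} : Finset (EuclideanSpace ℝ (Fin 3))).card := by
          have hset : ((({e, ρ} : Finset (EuclideanSpace ℝ (Fin 3))) :
              Set (EuclideanSpace ℝ (Fin 3)))) = {e, ρ} := by ext; simp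
          rw [Set.finrank, hset] at h1
          exact h1
        omega
      have hne : S ≠ ⊤ := by
        intro h
        rw [h, finrank_top, finrank_euclideanSpace_fin] at hfin
        omega
      have horth : Sᗮ ≠ ⊥ := by
        intro h
        exact hne (Submodule.orthogonal_eq_bot_iff.1 h)
      obtain ⟨z, hz, hz0⟩ := Submodule.exists_mem_ne_zero_of_ne_bot horth
      refine ⟨z, hz0, ?_, ?_⟩
      · exact (Submodule.mem_orthogonal _ _).1 hz e (Submodule.subset_span (by simp))
      · exact (Submodule.mem_orthogonal _ _).1 hz ρ (Submodule.subset_span (by simp))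
    have hzn : 0 < ‖z‖ := norm_pos_iff.2 hz0
    set z' : EuclideanSpace ℝ (Fin 3) := (‖ρ‖ / ‖z‖) • z with hz'
    have hz'n : ‖z'‖ = ‖ρ‖ := by
      rw [hz', norm_smul, Real.norm_eq_abs, abs_of_nonneg (by positivity)]
      field_simp
    have hze' : inner ℝ z' e = (0 : ℝ) := by
      rw [hz', inner_smul_left, real_inner_comm, hze]; simp
    have hzρ' : inner ℝ ρ z' = (0 : ℝ) := by
      rw [hz', inner_smul_right, hzρ]; simp
    set y : ℝ → EuclideanSpace ℝ (Fin 3) := fun θ =>
      o + t • e + (Real.cos θ • ρ + Real.sin θ • z') with hy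
    have hya : ∀ θ j, y θ - a j = (Real.cos θ • ρ + Real.sin θ • z') + (t - p j) • e := by
      intro θ j
      simp only [hy]
      rw [hap j]
      module
    have hnorm1 : ∀ θ j, ‖y θ - a j‖ ^ 2 = ‖ρ‖ ^ 2 + (t - p j) ^ 2 := by
      intro θ j
      rw [hya θ j]
      exact norm_aux ρ z' e _ _ _ (Real.cos_sq_add_sin_sq θ) hz'n hen hρe hze' hzρ'
    have hnorm2 : ∀ j, ‖x - a j‖ ^ 2 = ‖ρ‖ ^ 2 + (t - p j) ^ 2 := by
      intro j
      rw [hxa j, norm_add_sq_real, norm_smul, hen, inner_smul_right, hρe]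
      simp only [Real.norm_eq_abs, mul_one, sq_abs, mul_zero, add_zero]
    have hdist : ∀ θ j, dist (y θ) (a j) = dist x (a j) := by
      intro θ j
      rw [dist_eq_norm, dist_eq_norm]
      have h1 : ‖y θ - a j‖ ^ 2 = ‖x - a j‖ ^ 2 := by rw [hnorm1, hnorm2]
      exact (pow_left_inj₀ (norm_nonneg _) (norm_nonneg _) two_ne_zero).1 h1
    have hρn : 0 < ‖ρ‖ := norm_pos_iff.2 hρ0
    have hsum2 : (∑ j, (q j / dist x (a j) ^ 3) * (t - p j)) • e = 0 := by
      have h1 : ∑ j, (q j / dist x (a j) ^ 3) • (x - a j) =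
          (∑ j, (q j / dist x (a j) ^ 3)) • ρ +
            (∑ j, (q j / dist x (a j) ^ 3) * (t - p j)) • e := by
        rw [Finset.sum_smul, Finset.sum_smul, ← Finset.sum_add_distrib]
        refine Finset.sum_congr rfl fun j _ => ?_
        rw [hxa j, smul_add, smul_smul]
      rw [h1, hw, zero_smul, zero_add] at hsum
      exact hsum
    have hyeq : ∀ θ, y θ ∈ equilibria q a := by
      intro θ
      rw [hgrad]
      refine ⟨?_, ?_⟩
      · rintro ⟨j, hj⟩
        have h1 := hnorm1 θ j
        rw [← hj, sub_self, norm_zero] at h1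
        nlinarith [sq_nonneg (t - p j), pow_pos hρn 2]
      · have h1 : ∑ j, (q j / dist (y θ) (a j) ^ 3) • (y θ - a j) =
            (∑ j, (q j / dist x (a j) ^ 3)) • (Real.cos θ • ρ + Real.sin θ • z') +
              (∑ j, (q j / dist x (a j) ^ 3) * (t - p j)) • e := by
          rw [Finset.sum_smul, Finset.sum_smul, ← Finset.sum_add_distrib]
          refine Finset.sum_congr rfl fun j _ => ?_
          rw [hya θ j, hdist θ j, smul_add, mul_smul]
        rw [h1, hw, hsum2, zero_smul, zero_add]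
    have hinj : Set.InjOn y (Set.Icc 0 Real.pi) := by
      intro θ hθ θ' hθ' h
      apply Real.injOn_cos hθ hθ'
      have h1 : Real.cos θ • ρ + Real.sin θ • z' = Real.cos θ' • ρ + Real.sin θ' • z' := by
        have h2 := h
        simp only [hy] at h2
        exact add_left_cancel h2
      have h3 := congrArg (fun v => inner ℝ v ρ) h1
      simp only [inner_add_left, inner_smul_left, real_inner_self_eq_norm_sq] at h3
      rw [real_inner_comm ρ z', hzρ'] at h3
      simp only [conj_trivial, mul_zero, add_zero] at h3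
      exact mul_right_cancel₀ (pow_pos hρn 2).ne' h3
    have hinf : (equilibria q a).Infinite :=
      Set.infinite_of_injOn_mapsTo hinj (fun θ _ => hyeq θ) (Set.Icc_infinite Real.pi_pos)
    exact hinf hfin
  -- transfer to the line
  have hsub : equilibria q a ⊆ (fun t : ℝ => o + t • e) ''
      {t : ℝ | (∀ j, t ≠ p j) ∧ ∑ j, q j * ((t - p j) / |t - p j| ^ 3) = 0} := by
    intro x hx
    obtain ⟨t, rfl⟩ := hline x hx
    obtain ⟨hxr, hsum⟩ := (hgrad q a _).1 hx
    refine ⟨t, ⟨?_, ?_⟩, rfl⟩
    · intro j htj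
      apply hxr
      exact ⟨j, by rw [hap j, htj]⟩
    · have h1 : ∀ j, (o + t • e) - a j = (t - p j) • e := by
        intro j
        rw [hap j, sub_smul]; abel
      have h2 : ∀ j, dist (o + t • e) (a j) = |t - p j| := by
        intro j
        rw [dist_eq_norm, h1 j, norm_smul, hen, mul_one, Real.norm_eq_abs]
      have h3 : inner ℝ (∑ j, (q j / dist (o + t • e) (a j) ^ 3) • ((o + t • e) - a j)) e
          = (0 : ℝ) := by rw [hsum, inner_zero_left]
      rw [sum_inner] at h3
      rw [← h3]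
      refine Finset.sum_congr rfl fun j _ => ?_
      rw [h1 j, h2 j, inner_smul_left, inner_smul_left, hee]
      simp only [conj_trivial]
      ring
  exact (Set.encard_le_encard hsub).trans ((Set.encard_image_le _ _).trans
    (hcount p q hpinj hq))

end Pool.Agent.Helper19.Maxwell
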