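import Mathlib

set_option autoImplicit false

namespace Pool.Agent.Helper19.Maxwell

theorem kap_id (E1 E2 E3 S1 S2 S3 : ℝ)
    (hB : E1 * (S2 + S3) + E2 * (S1 + S3) + E3 * (S1 + S2) = 0) :
    ((S1 + S3) * (E1 + E2) - (S1 + S2) * (E1 + E3)) ^ 2 =
      4 * (-(S1 * S2 + S2 * S3 + S1 * S3) * ((E1 + E3) * (E1 + E2)) -
        (E1 * E2 + E2 * E3 + E1 * E3) * S1 ^ 2) := by
  linear_combination (E1 * (S2 + S3) + E2 * (S1 + S3) + E3 * (S1 + S2) + 4 * S1 * E1) * hB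

theorem e2_kap (E1 E2 E3 a b S1 S2 S3 p q r u v w Q R k1 k2 k3 : ℝ)
    (h1 : S1 = (E1 + E2) * a) (h2 : S2 = (E1 + E2) * b)
    (h3 : S3 = -((E2 + E3) * a + (E1 + E3) * b))
    (hp : p = E2 + E3) (hq : q = E1 + E3) (hr : r = E1 + E2)
    (hu : u = S2 + S3) (hv : v = S1 + S3) (hw : w = S1 + S2)
    (hQ : Q = E1 * E2 + E2 * E3 + E1 * E3) (hR : R = -(S1 * S2 + S2 * S3 + S1 * S3))
    (hk1 : k1 = v * r - w * q) (hk2 : k2 = w * p - u * r) (hk3 : k3 = u * q - v * p) :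
    k1 * k2 + k2 * k3 + k1 * k3 = -4 * Q * R := by
  subst hk1 hk2 hk3 hQ hR hu hv hw hp hq hr h1 h2 h3
  ring

/-- main identity in parametrised form: `S1 = (E1+E2) a`, `S2 = (E1+E2) b`, `S3 = -((E2+E3) a + (E1+E3) b)` -/
theorem main_id (E1 E2 E3 a b S1 S2 S3 p q r u v w Q R k1 k2 k3 : ℝ)
    (h1 : S1 = (E1 + E2) * a) (h2 : S2 = (E1 + E2) * b)
    (h3 : S3 = -((E2 + E3) * a + (E1 + E3) * b))
    (hp : p = E2 + E3) (hq : q = E1 + E3) (hr : r = E1 + E2)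
    (hu : u = S2 + S3) (hv : v = S1 + S3) (hw : w = S1 + S2)
    (hQ : Q = E1 * E2 + E2 * E3 + E1 * E3) (hR : R = -(S1 * S2 + S2 * S3 + S1 * S3))
    (hk1 : k1 = v * r - w * q) (hk2 : k2 = w * p - u * r) (hk3 : k3 = u * q - v * p) :
    u * S1 * (((q * r - v * w) / 2) + E1 ^ 2) * p ^ 2 * k1 ^ 2 +
    v * S2 * (((p * r - u * w) / 2) + E2 ^ 2) * q ^ 2 * k2 ^ 2 +
    w * S3 * (((p * q - u * v) / 2) + E3 ^ 2) * r ^ 2 * k3 ^ 2 -
    2 * (((q * r - v * w) / 2) * ((p * r - u * w) / 2) * p * q * k1 * k2 +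
      ((p * r - u * w) / 2) * ((p * q - u * v) / 2) * q * r * k2 * k3 +
      ((q * r - v * w) / 2) * ((p * q - u * v) / 2) * p * r * k1 * k3) =
    (2 * Q * R - 4 * R ^ 2) * (p * q * r) ^ 2
      + Q * R * (S1 ^ 2 * p * p * q * r + S2 ^ 2 * q * q * p * r + S3 ^ 2 * r * r * p * q)
      + Q / 4 * ((S1 * k2 + S2 * k1) ^ 2 * p * q + (S2 * k3 + S3 * k2) ^ 2 * q * r
        + (S1 * k3 + S3 * k1) ^ 2 * p * r)
      + Q * R * ((S3 * E1 * E2 + S2 * E1 * E3 - S1 * E2 * E3 - Q * (S3 + S2 - S1)) ^ 2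
        + (S1 * E2 * E3 + S3 * E1 * E2 - S2 * E1 * E3 - Q * (S1 + S3 - S2)) ^ 2
        + (S1 * E2 * E3 + S2 * E1 * E3 - S3 * E1 * E2 - Q * (S1 + S2 - S3)) ^ 2) := by
  subst hk1 hk2 hk3 hQ hR hu hv hw hp hq hr h1 h2 h3
  ring

/-- Key algebraic inequality (numerically verified on random data). -/
theorem second_pos (E1 E2 E3 S1 S2 S3 w1 w2 w3 P1 P2 P3 : ℝ)
    (hE : E1 * E2 + E2 * E3 + E1 * E3 = 8 / 9)
    (hS : S1 * S2 + S2 * S3 + S1 * S3 = -(1 / 9))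
    (hB : E1 * (S2 + S3) + E2 * (S1 + S3) + E3 * (S1 + S2) = 0)
    (he1 : 0 < E2 + E3) (he2 : 0 < E1 + E3) (he3 : 0 < E1 + E2)
    (hP1 : P1 = (1 + E1 ^ 2 - S1 ^ 2) / 2) (hP2 : P2 = (1 + E2 ^ 2 - S2 ^ 2) / 2)
    (hP3 : P3 = (1 + E3 ^ 2 - S3 ^ 2) / 2)
    (hw : ¬ (w1 = w2 ∧ w2 = w3))
    (hT : P1 * (S2 + S3) * (w2 - w3) + P2 * (S1 + S3) * (w3 - w1)
      + P3 * (S1 + S2) * (w1 - w2) = 0) :
    0 < (S2 + S3) * S1 * (P1 + E1 ^ 2) * (w2 - w3) ^ 2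
      + (S1 + S3) * S2 * (P2 + E2 ^ 2) * (w3 - w1) ^ 2
      + (S1 + S2) * S3 * (P3 + E3 ^ 2) * (w1 - w2) ^ 2
      - 2 * (P1 * P2 * (w2 - w3) * (w3 - w1) + P2 * P3 * (w3 - w1) * (w1 - w2)
        + P1 * P3 * (w2 - w3) * (w1 - w2))
      - (1 / 3) * (P1 * (S2 + S3) * (w2 - w3) * w1 + P2 * (S1 + S3) * (w3 - w1) * w2
        + P3 * (S1 + S2) * (w1 - w2) * w3) := by
  obtain ⟨p, hp⟩ : ∃ p, p = E2 + E3 := ⟨_, rfl⟩
  obtain ⟨q, hq⟩ : ∃ q, q = E1 + E3 := ⟨_, rfl⟩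
  obtain ⟨r, hr⟩ : ∃ r, r = E1 + E2 := ⟨_, rfl⟩
  obtain ⟨u, hu⟩ : ∃ u, u = S2 + S3 := ⟨_, rfl⟩
  obtain ⟨v, hv⟩ : ∃ v, v = S1 + S3 := ⟨_, rfl⟩
  obtain ⟨w, hw'⟩ : ∃ w, w = S1 + S2 := ⟨_, rfl⟩
  obtain ⟨k1, hk1⟩ : ∃ k, k = v * r - w * q := ⟨_, rfl⟩
  obtain ⟨k2, hk2⟩ : ∃ k, k = w * p - u * r := ⟨_, rfl⟩
  obtain ⟨k3, hk3⟩ : ∃ k, k = u * q - v * p := ⟨_, rfl⟩
  have hp0 : 0 < p := by rw [hp]; exact he1
  have hq0 : 0 < q := by rw [hq]; exact he2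
  have hr0 : 0 < r := by rw [hr]; exact he3
  have hr' : E1 + E2 ≠ 0 := he3.ne'
  have h1 : S1 = (E1 + E2) * (S1 / (E1 + E2)) := by field_simp
  have h2 : S2 = (E1 + E2) * (S2 / (E1 + E2)) := by field_simp
  have h3 : S3 = -((E2 + E3) * (S1 / (E1 + E2)) + (E1 + E3) * (S2 / (E1 + E2))) := by
    field_simp
    linear_combination hB
  have hQ : (8 / 9 : ℝ) = E1 * E2 + E2 * E3 + E1 * E3 := hE.symm
  have hR : (1 / 9 : ℝ) = -(S1 * S2 + S2 * S3 + S1 * S3) := by rw [hS]; norm_num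
  have hmain := main_id E1 E2 E3 _ _ S1 S2 S3 p q r u v w (8 / 9) (1 / 9) k1 k2 k3 h1 h2 h3 hp hq hr
    hu hv hw' hQ hR hk1 hk2 hk3
  have he2 := e2_kap E1 E2 E3 _ _ S1 S2 S3 p q r u v w (8 / 9) (1 / 9) k1 k2 k3 h1 h2 h3 hp hq hr
    hu hv hw' hQ hR hk1 hk2 hk3
  -- bounds for the k's
  have hk1b : k1 ^ 2 ≤ 4 / 9 * (q * r) := by
    have := kap_id E1 E2 E3 S1 S2 S3 hB
    rw [hE, hS] at this
    rw [hk1, hv, hw', hq, hr, this]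
    linarith [sq_nonneg S1]
  have hk2b : k2 ^ 2 ≤ 4 / 9 * (p * r) := by
    have := kap_id E2 E1 E3 S2 S1 S3 (by linear_combination hB)
    have e1 : E2 * E1 + E1 * E3 + E2 * E3 = 8 / 9 := by linear_combination hE
    have e2 : S2 * S1 + S1 * S3 + S2 * S3 = -(1 / 9) := by linear_combination hS
    rw [e1, e2] at this
    have e3 : k2 = -((S2 + S3) * (E2 + E1) - (S2 + S1) * (E2 + E3)) := by
      rw [hk2, hu, hw', hp, hr]; ring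
    rw [e3, neg_sq, this, hp, hr]
    linarith [sq_nonneg S2]
  have hk3b : k3 ^ 2 ≤ 4 / 9 * (p * q) := by
    have := kap_id E3 E1 E2 S3 S1 S2 (by linear_combination hB)
    have e1 : E3 * E1 + E1 * E2 + E3 * E2 = 8 / 9 := by linear_combination hE
    have e2 : S3 * S1 + S1 * S2 + S3 * S2 = -(1 / 9) := by linear_combination hS
    rw [e1, e2] at this
    have e3 : k3 = ((S3 + S2) * (E3 + E1) - (S3 + S1) * (E3 + E2)) := by
      rw [hk3, hu, hv, hp, hq]; ring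
    rw [e3, this, hp, hq]
    linarith [sq_nonneg S3]
  have hK : (k1 * k2 * k3) ^ 2 ≤ (8 / 27 * (p * q * r)) ^ 2 := by
    have s1 : 0 ≤ k1 ^ 2 := sq_nonneg _
    have s2 : 0 ≤ k2 ^ 2 := sq_nonneg _
    have s3 : 0 ≤ k3 ^ 2 := sq_nonneg _
    calc (k1 * k2 * k3) ^ 2 = k1 ^ 2 * k2 ^ 2 * k3 ^ 2 := by ring
      _ ≤ (4 / 9 * (q * r)) * (4 / 9 * (p * r)) * (4 / 9 * (p * q)) := by
          apply mul_le_mul (mul_le_mul hk1b hk2b s2 (by positivity)) hk3b s3 (by positivity)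
      _ = _ := by ring
  have hK' : -(8 / 27 * (p * q * r)) ≤ k1 * k2 * k3 := (abs_le_of_sq_le_sq' hK (by positivity)).1
  -- lower bound for A
  obtain ⟨A, hA⟩ : ∃ A, A = u * S1 * (((q * r - v * w) / 2) + E1 ^ 2) * p ^ 2 * k1 ^ 2 +
    v * S2 * (((p * r - u * w) / 2) + E2 ^ 2) * q ^ 2 * k2 ^ 2 +
    w * S3 * (((p * q - u * v) / 2) + E3 ^ 2) * r ^ 2 * k3 ^ 2 -
    2 * (((q * r - v * w) / 2) * ((p * r - u * w) / 2) * p * q * k1 * k2 +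
      ((p * r - u * w) / 2) * ((p * q - u * v) / 2) * q * r * k2 * k3 +
      ((q * r - v * w) / 2) * ((p * q - u * v) / 2) * p * r * k1 * k3) := ⟨_, rfl⟩
  rw [← hA] at hmain
  have hAlow : 4 / 27 * (p * q * r) ^ 2 ≤ A := by
    rw [hmain]
    have t1 : 0 ≤ 8 / 9 * (1 / 9) * (S1 ^ 2 * p * p * q * r + S2 ^ 2 * q * q * p * r +
      S3 ^ 2 * r * r * p * q) := by positivity
    have t2 : 0 ≤ (8 / 9 : ℝ) / 4 * ((S1 * k2 + S2 * k1) ^ 2 * p * q + (S2 * k3 + S3 * k2) ^ 2 * q * r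
        + (S1 * k3 + S3 * k1) ^ 2 * p * r) := by positivity
    have t3 : 0 ≤ (8 / 9 : ℝ) * (1 / 9) *
        ((S3 * E1 * E2 + S2 * E1 * E3 - S1 * E2 * E3 - 8 / 9 * (S3 + S2 - S1)) ^ 2
        + (S1 * E2 * E3 + S3 * E1 * E2 - S2 * E1 * E3 - 8 / 9 * (S1 + S3 - S2)) ^ 2
        + (S1 * E2 * E3 + S2 * E1 * E3 - S3 * E1 * E2 - 8 / 9 * (S1 + S2 - S3)) ^ 2) := by positivity
    have e : (2 * (8 / 9 : ℝ) * (1 / 9) - 4 * (1 / 9) ^ 2) * (p * q * r) ^ 2 =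
      4 / 27 * (p * q * r) ^ 2 := by ring
    rw [e]
    linarith
  have hq4 : 0 < A + 1 / 6 * (p * q * r) * (k1 * k2 * k3) := by
    have hpqr : 0 < p * q * r := by positivity
    have h4 : 1 / 6 * (p * q * r) * (-(8 / 27 * (p * q * r))) ≤ 1 / 6 * (p * q * r) * (k1 * k2 * k3) :=
      mul_le_mul_of_nonneg_left hK' (by positivity)
    have h5 : 1 / 6 * (p * q * r) * (-(8 / 27 * (p * q * r))) = -(4 / 81) * (p * q * r) ^ 2 := by ring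
    have h6 : 0 < (p * q * r) ^ 2 := by positivity
    rw [h5] at h4
    linarith
  -- P_i in terms of the new variables
  have e1 : P1 = (q * r - v * w) / 2 := by
    rw [hP1, hq, hr, hv, hw']; linear_combination (-1 / 2) * hE + (1 / 2) * hS
  have e2 : P2 = (p * r - u * w) / 2 := by
    rw [hP2, hp, hr, hu, hw']; linear_combination (-1 / 2) * hE + (1 / 2) * hS
  have e3 : P3 = (p * q - u * v) / 2 := by
    rw [hP3, hp, hq, hu, hv]; linear_combination (-1 / 2) * hE + (1 / 2) * hS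
  rw [← hu, ← hv, ← hw'] at hT ⊢
  rw [← e1, ← e2, ← e3] at hA
  -- nu
  have n1 : P2 * v - P3 * w = p * k1 / 2 := by rw [e2, e3, hk1]; ring
  have n2 : P3 * w - P1 * u = q * k2 / 2 := by rw [e1, e3, hk2]; ring
  have n3 : P1 * u - P2 * v = r * k3 / 2 := by rw [e1, e2, hk3]; ring
  obtain ⟨m1, hm1⟩ : ∃ m, m = p * k1 / 2 := ⟨_, rfl⟩
  obtain ⟨m2, hm2⟩ : ∃ m, m = q * k2 / 2 := ⟨_, rfl⟩
  obtain ⟨m3, hm3⟩ : ∃ m, m = r * k3 / 2 := ⟨_, rfl⟩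
  rw [← hm1] at n1
  rw [← hm2] at n2
  rw [← hm3] at n3
  have hN : 0 < m1 ^ 2 + m2 ^ 2 + m3 ^ 2 := by
    by_contra hcon
    have z1 : m1 = 0 := by
      have := sq_nonneg m1; have := sq_nonneg m2; have := sq_nonneg m3
      exact pow_eq_zero_iff (two_ne_zero) |>.1 (le_antisymm (by linarith) (sq_nonneg m1))
    have z2 : m2 = 0 := by
      have := sq_nonneg m1; have := sq_nonneg m2; have := sq_nonneg m3
      exact pow_eq_zero_iff (two_ne_zero) |>.1 (le_antisymm (by linarith) (sq_nonneg m2))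
    have z3 : m3 = 0 := by
      have := sq_nonneg m1; have := sq_nonneg m2; have := sq_nonneg m3
      exact pow_eq_zero_iff (two_ne_zero) |>.1 (le_antisymm (by linarith) (sq_nonneg m3))
    rw [z1] at hm1
    rw [z2] at hm2
    rw [z3] at hm3
    have y1 : k1 = 0 := by
      have : p * k1 = 0 := by linarith
      exact (mul_eq_zero.1 this).resolve_left hp0.ne'
    have y2 : k2 = 0 := by
      have : q * k2 = 0 := by linarith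
      exact (mul_eq_zero.1 this).resolve_left hq0.ne'
    rw [y1, y2] at he2
    norm_num at he2
  obtain ⟨d1, hd1⟩ : ∃ d, d = w2 - w3 := ⟨_, rfl⟩
  obtain ⟨d2, hd2⟩ : ∃ d, d = w3 - w1 := ⟨_, rfl⟩
  obtain ⟨d3, hd3⟩ : ∃ d, d = w1 - w2 := ⟨_, rfl⟩
  rw [← hd1, ← hd2, ← hd3] at hT ⊢
  have hdsum : d3 = -d1 - d2 := by rw [hd1, hd2, hd3]; ring
  have hmsum : m3 = -m1 - m2 := by rw [← n1, ← n2, ← n3]; ring
  have hcr : m1 * d2 = m2 * d1 := by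
    rw [hdsum] at hT
    rw [← n1, ← n2]
    linear_combination hT
  have hcr3 : m1 * d3 = m3 * d1 := by rw [hdsum, hmsum]; linear_combination (-1) * hcr
  have hcr23 : m2 * d3 = m3 * d2 := by rw [hdsum, hmsum]; linear_combination hcr
  obtain ⟨s, hs⟩ : ∃ s, s = (d1 * m1 + d2 * m2 + d3 * m3) / (m1 ^ 2 + m2 ^ 2 + m3 ^ 2) := ⟨_, rfl⟩
  have hsN : s * (m1 ^ 2 + m2 ^ 2 + m3 ^ 2) = d1 * m1 + d2 * m2 + d3 * m3 := by
    rw [hs, div_mul_cancel₀ _ hN.ne']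
  have f1 : d1 = s * m1 := by
    apply mul_right_cancel₀ hN.ne'
    have : s * m1 * (m1 ^ 2 + m2 ^ 2 + m3 ^ 2) = m1 * (s * (m1 ^ 2 + m2 ^ 2 + m3 ^ 2)) := by ring
    rw [this, hsN]
    linear_combination (-m2) * hcr - m3 * hcr3
  have f2 : d2 = s * m2 := by
    apply mul_right_cancel₀ hN.ne'
    have : s * m2 * (m1 ^ 2 + m2 ^ 2 + m3 ^ 2) = m2 * (s * (m1 ^ 2 + m2 ^ 2 + m3 ^ 2)) := by ring
    rw [this, hsN]
    linear_combination m1 * hcr - m3 * hcr23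
  have f3 : d3 = s * m3 := by rw [hdsum, hmsum, f1, f2]; ring
  have hs0 : s ≠ 0 := by
    intro h0
    rw [h0, zero_mul] at f1 f3
    apply hw
    constructor
    · linarith
    · linarith
  have hspos : 0 < s ^ 2 := by positivity
  have hlast : P1 * u * d1 * w1 + P2 * v * d2 * w2 + P3 * w * d3 * w3 = - (s ^ 2 * (m1 * m2 * m3)) := by
    have g2 : w2 = w1 - d3 := by rw [hd3]; ring
    have g3 : w3 = w1 + d2 := by rw [hd2]; ring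
    rw [g2, g3]
    have : P1 * u * d1 * w1 + P2 * v * d2 * (w1 - d3) + P3 * w * d3 * (w1 + d2) =
      (P1 * u * d1 + P2 * v * d2 + P3 * w * d3) * w1 - (P2 * v - P3 * w) * d2 * d3 := by ring
    rw [this, hT, n1, f2, f3]; ring
  rw [hlast, f1, f2, f3]
  have hfin : u * S1 * (P1 + E1 ^ 2) * (s * m1) ^ 2 + v * S2 * (P2 + E2 ^ 2) * (s * m2) ^ 2
      + w * S3 * (P3 + E3 ^ 2) * (s * m3) ^ 2
      - 2 * (P1 * P2 * (s * m1) * (s * m2) + P2 * P3 * (s * m2) * (s * m3)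
        + P1 * P3 * (s * m1) * (s * m3)) - 1 / 3 * -(s ^ 2 * (m1 * m2 * m3)) =
      s ^ 2 / 4 * (A + 1 / 6 * (p * q * r) * (k1 * k2 * k3)) := by
    rw [hA, hm1, hm2, hm3]; ring
  rw [hfin]
  positivity

end Pool.Agent.Helper19.Maxwell
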