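import Pool.Agent.Helper19.Maxwell.Line
import Pool.Agent.Helper19.Maxwell.Second

set_option autoImplicit false

namespace Pool.Agent.Helper19.Maxwell

open Real Filter Topology Set

theorem continuous_SS {c : ℝ} (hc : -1 < c) : Continuous (SS c) := by
  unfold SS
  exact continuous_sinh.div (continuous_cosh.add continuous_const)
    (fun u => (del_pos hc u).ne')

theorem fz_continuousAt (T : Shape) (p : ℝ × ℝ) (h1 : 0 < p.1) (h2 : 0 < p.2) :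
    ContinuousAt (fun p : ℝ × ℝ => fz T p.1 p.2 1) p := by
  have hl1 : ContinuousAt (fun p : ℝ × ℝ => log p.1) p :=
    (continuousAt_log h1.ne').comp continuousAt_fst
  have hl2 : ContinuousAt (fun p : ℝ × ℝ => log p.2) p :=
    (continuousAt_log h2.ne').comp continuousAt_snd
  have hc : ContinuousAt (fun _ : ℝ × ℝ => log 1) p := continuousAt_const
  have a := (continuous_SS T.c1_gt).continuousAt.comp
    ((hl2.sub hc).const_mul 3 : ContinuousAt (fun p : ℝ × ℝ => 3 * (log p.2 - log 1)) p)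
  have b := (continuous_SS T.c2_gt).continuousAt.comp
    ((hc.sub hl1).const_mul 3 : ContinuousAt (fun p : ℝ × ℝ => 3 * (log 1 - log p.1)) p)
  have c := (continuous_SS T.c3_gt).continuousAt.comp
    ((hl1.sub hl2).const_mul 3 : ContinuousAt (fun p : ℝ × ℝ => 3 * (log p.1 - log p.2)) p)
  exact (((a.mul b).add (b.mul c)).add (a.mul c)).neg

/-- sign of the second derivative at a critical point on the boundary curve -/
theorem h_pos (T : Shape) (L : Ray) {t : ℝ} (ht : L.Pos t) (hb3 : L.b3 = 0)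
    (hb : ¬ (L.b1 = 0 ∧ L.b2 = 0)) (hf : L.f T t = 1 / 9) (hg : L.g T t = 0) :
    0 < L.h T t := by
  have hu := uu_sum (L.z1 t) (L.z2 t) (L.z3 t)
  have i1 := tan_ident T _ _ _ hu
  have i2 := tan_ident2 T _ _ _ hu
  have e2 : 0 < EE T.c2 T.s2 (uu (L.z3 t) (L.z1 t)) := EE_pos T.c2_gt T.p2 _
  have e3 : 0 < EE T.c3 T.s3 (uu (L.z1 t) (L.z2 t)) := EE_pos T.c3_gt T.p3 _
  have hS : L.S1 T t * L.S2 T t + L.S2 T t * L.S3 T t + L.S1 T t * L.S3 T t = -(1 / 9) := by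
    unfold Ray.f fz at hf
    unfold Ray.S1 Ray.S2 Ray.S3
    linarith
  have hE : L.E1 T t * L.E2 T t + L.E2 T t * L.E3 T t + L.E1 T t * L.E3 T t = 8 / 9 := by
    unfold Ray.S1 Ray.S2 Ray.S3 at hS
    unfold Ray.E1 Ray.E2 Ray.E3
    linarith
  have hB : L.E1 T t * (L.S2 T t + L.S3 T t) + L.E2 T t * (L.S1 T t + L.S3 T t) +
      L.E3 T t * (L.S1 T t + L.S2 T t) = 0 := i2
  have e2' : 0 < L.E2 T t := e2
  have e3' : 0 < L.E3 T t := e3
  have pp : 0 < L.E1 T t + L.E3 T t ∧ 0 < L.E1 T t + L.E2 T t :=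
    pair_pos (by rw [hE]; norm_num) e2' e3'
  have hw3 : L.w3 t = 0 := by unfold Ray.w3; rw [hb3, zero_div]
  have hw : ¬ (L.w1 t = L.w2 t ∧ L.w2 t = L.w3 t) := by
    rintro ⟨h1, h2⟩
    apply hb
    have h2' : L.w2 t = 0 := by rw [h2, hw3]
    have h1' : L.w1 t = 0 := by rw [h1, h2']
    unfold Ray.w1 at h1'
    unfold Ray.w2 at h2'
    constructor
    · rcases div_eq_zero_iff.1 h1' with h | h
      · exact h
      · exact absurd h ht.1.ne'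
    · rcases div_eq_zero_iff.1 h2' with h | h
      · exact h
      · exact absurd h ht.2.1.ne'
  have hT : L.P1 T t * (L.S2 T t + L.S3 T t) * (L.w2 t - L.w3 t) +
      L.P2 T t * (L.S1 T t + L.S3 T t) * (L.w3 t - L.w1 t) +
      L.P3 T t * (L.S1 T t + L.S2 T t) * (L.w1 t - L.w2 t) = 0 := by
    unfold Ray.g at hg
    linarith
  have key := second_pos (L.E1 T t) (L.E2 T t) (L.E3 T t) (L.S1 T t) (L.S2 T t) (L.S3 T t)
    (L.w1 t) (L.w2 t) (L.w3 t) (L.P1 T t) (L.P2 T t) (L.P3 T t) hE hS hB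
    (add_pos e2' e3') pp.1 pp.2 rfl rfl rfl hw hT
  have hexp : L.h T t = 9 * ((L.S2 T t + L.S3 T t) * L.S1 T t * (L.P1 T t + L.E1 T t ^ 2) *
        (L.w2 t - L.w3 t) ^ 2
      + (L.S1 T t + L.S3 T t) * L.S2 T t * (L.P2 T t + L.E2 T t ^ 2) * (L.w3 t - L.w1 t) ^ 2
      + (L.S1 T t + L.S2 T t) * L.S3 T t * (L.P3 T t + L.E3 T t ^ 2) * (L.w1 t - L.w2 t) ^ 2
      - 2 * (L.P1 T t * L.P2 T t * (L.w2 t - L.w3 t) * (L.w3 t - L.w1 t)
        + L.P2 T t * L.P3 T t * (L.w3 t - L.w1 t) * (L.w1 t - L.w2 t)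
        + L.P1 T t * L.P3 T t * (L.w2 t - L.w3 t) * (L.w1 t - L.w2 t))
      - (1 / 3) * (L.P1 T t * (L.S2 T t + L.S3 T t) * (L.w2 t - L.w3 t) * L.w1 t
        + L.P2 T t * (L.S1 T t + L.S3 T t) * (L.w3 t - L.w1 t) * L.w2 t
        + L.P3 T t * (L.S1 T t + L.S2 T t) * (L.w1 t - L.w2 t) * L.w3 t)) := by
    unfold Ray.h
    linear_combination (3 * (L.w1 t + L.w2 t + L.w3 t)) * hT
  rw [hexp]
  linarith

/-- no interior maximum with value `1/9` along a line in the chart `z3 = 1` -/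
theorem no_max (T : Shape) (L : Ray) {t : ℝ} (ht : L.Pos t) (hb3 : L.b3 = 0)
    (hb : ¬ (L.b1 = 0 ∧ L.b2 = 0)) (hf : L.f T t = 1 / 9)
    (hmax : IsLocalMax (L.f T) t) : False := by
  have hPos : ∀ᶠ s in 𝓝 t, L.Pos s := by
    have c1 : Continuous L.z1 := by unfold Ray.z1; fun_prop
    have c2 : Continuous L.z2 := by unfold Ray.z2; fun_prop
    have c3 : Continuous L.z3 := by unfold Ray.z3; fun_prop
    have e1 : ∀ᶠ s in 𝓝 t, 0 < L.z1 s := c1.continuousAt.eventually (lt_mem_nhds ht.1)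
    have e2 : ∀ᶠ s in 𝓝 t, 0 < L.z2 s := c2.continuousAt.eventually (lt_mem_nhds ht.2.1)
    have e3 : ∀ᶠ s in 𝓝 t, 0 < L.z3 s := c3.continuousAt.eventually (lt_mem_nhds ht.2.2)
    filter_upwards [e1, e2, e3] with s a b c using ⟨a, b, c⟩
  have hg0 : L.g T t = 0 := hmax.hasDerivAt_eq_zero (Ray.hasDerivAt_f T ht)
  have hh := h_pos T L ht hb3 hb hf hg0
  have hder : deriv (L.f T) =ᶠ[𝓝 t] L.g T := by
    filter_upwards [hPos] with s hs using (Ray.hasDerivAt_f T hs).deriv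
  have hdd : deriv (deriv (L.f T)) t = L.h T t := by
    rw [hder.deriv_eq]
    exact (Ray.hasDerivAt_g T ht).deriv
  have hmin : IsLocalMin (L.f T) t :=
    isLocalMin_of_deriv_deriv_pos (by rw [hdd]; exact hh)
      (by rw [(Ray.hasDerivAt_f T ht).deriv, hg0])
      (Ray.hasDerivAt_f T ht).continuousAt
  have hconst : L.f T =ᶠ[𝓝 t] fun _ => L.f T t := by
    filter_upwards [hmax, hmin] with s h1 h2 using le_antisymm h1 h2
  have hd0 : deriv (L.f T) =ᶠ[𝓝 t] fun _ => 0 := by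
    have h1 : ∀ᶠ s in 𝓝 t, L.f T =ᶠ[𝓝 s] fun _ => L.f T t := hconst.eventually_nhds
    filter_upwards [h1] with s hs
    rw [hs.deriv_eq]
    simp
  have hh0 : deriv (deriv (L.f T)) t = 0 := by
    rw [hd0.deriv_eq]
    simp
  rw [hdd] at hh0
  linarith

/-- the region in the chart `z3 = 1` -/
def DD (T : Shape) : Set (ℝ × ℝ) := {p | 0 < p.1 ∧ 0 < p.2 ∧ fz T p.1 p.2 1 < 1 / 9}

theorem isOpen_DD (T : Shape) : IsOpen (DD T) := by
  rw [isOpen_iff_mem_nhds]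
  rintro p ⟨h1, h2, h3⟩
  have a : ∀ᶠ q : ℝ × ℝ in 𝓝 p, 0 < q.1 := continuousAt_fst.eventually (lt_mem_nhds h1)
  have b : ∀ᶠ q : ℝ × ℝ in 𝓝 p, 0 < q.2 := continuousAt_snd.eventually (lt_mem_nhds h2)
  have c : ∀ᶠ q : ℝ × ℝ in 𝓝 p, fz T q.1 q.2 1 < 1 / 9 :=
    (fz_continuousAt T p h1 h2).eventually (gt_mem_nhds h3)
  filter_upwards [a, b, c] with q x y z using ⟨x, y, z⟩

/-- the points of the region visible from `a` -/
def Vis (T : Shape) (a : ℝ × ℝ) : Set (ℝ × ℝ) :=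
  {b | b ∈ DD T ∧ ∀ t ∈ Icc (0 : ℝ) 1,
    fz T (a.1 + t * (b.1 - a.1)) (a.2 + t * (b.2 - a.2)) 1 < 1 / 9}

theorem seg_pos {a b t : ℝ} (ha : 0 < a) (hb : 0 < b) (ht : t ∈ Icc (0 : ℝ) 1) :
    0 < a + t * (b - a) := by
  obtain ⟨h0, h1⟩ := ht
  rcases eq_or_lt_of_le h0 with h | h
  · rw [← h]; linarith
  · have : 0 < t * b := mul_pos h hb
    have : 0 ≤ (1 - t) * a := mul_nonneg (by linarith) ha.le
    nlinarith

theorem isOpen_Vis (T : Shape) (a : ℝ × ℝ) (ha : a ∈ DD T) : IsOpen (Vis T a) := by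
  rw [isOpen_iff_mem_nhds]
  rintro b ⟨hb, hseg⟩
  have h1 : ∀ᶠ q : ℝ × ℝ in 𝓝 b, q ∈ DD T := (isOpen_DD T).mem_nhds hb
  have h2 : ∀ᶠ q : ℝ × ℝ in 𝓝 b, ∀ t ∈ Icc (0 : ℝ) 1,
      fz T (a.1 + t * (q.1 - a.1)) (a.2 + t * (q.2 - a.2)) 1 < 1 / 9 := by
    apply isCompact_Icc.eventually_forall_of_forall_eventually
    intro t ht
    have hc : ContinuousAt (fun z : (ℝ × ℝ) × ℝ =>
        ((a.1 + z.2 * (z.1.1 - a.1), a.2 + z.2 * (z.1.2 - a.2)) : ℝ × ℝ)) (b, t) := by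
      fun_prop
    have hf := fz_continuousAt T (a.1 + t * (b.1 - a.1), a.2 + t * (b.2 - a.2))
      (seg_pos ha.1 hb.1 ht) (seg_pos ha.2.1 hb.2.1 ht)
    have hcomp : ContinuousAt (fun z : (ℝ × ℝ) × ℝ =>
        fz T (a.1 + z.2 * (z.1.1 - a.1)) (a.2 + z.2 * (z.1.2 - a.2)) 1) (b, t) :=
      ContinuousAt.comp (f := fun z : (ℝ × ℝ) × ℝ =>
        ((a.1 + z.2 * (z.1.1 - a.1), a.2 + z.2 * (z.1.2 - a.2)) : ℝ × ℝ))
        (g := fun p : ℝ × ℝ => fz T p.1 p.2 1) (x := (b, t)) hf hc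
    exact hcomp.eventually (gt_mem_nhds (hseg t ht))
  filter_upwards [h1, h2] with q x y using ⟨x, y⟩

theorem closed_Vis (T : Shape) (a : ℝ × ℝ) (ha : a ∈ DD T) (b : ℝ × ℝ) (hb : b ∈ DD T)
    (hcl : b ∈ closure (Vis T a)) : b ∈ Vis T a := by
  refine ⟨hb, ?_⟩
  have hle : ∀ t ∈ Icc (0 : ℝ) 1,
      fz T (a.1 + t * (b.1 - a.1)) (a.2 + t * (b.2 - a.2)) 1 ≤ 1 / 9 := by
    intro t ht
    have hc : ContinuousAt (fun q : ℝ × ℝ =>
        ((a.1 + t * (q.1 - a.1), a.2 + t * (q.2 - a.2)) : ℝ × ℝ)) b := by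
      fun_prop
    have hf := fz_continuousAt T (a.1 + t * (b.1 - a.1), a.2 + t * (b.2 - a.2))
      (seg_pos ha.1 hb.1 ht) (seg_pos ha.2.1 hb.2.1 ht)
    have hcomp : ContinuousAt (fun q : ℝ × ℝ =>
        fz T (a.1 + t * (q.1 - a.1)) (a.2 + t * (q.2 - a.2)) 1) b :=
      ContinuousAt.comp (f := fun q : ℝ × ℝ =>
        ((a.1 + t * (q.1 - a.1), a.2 + t * (q.2 - a.2)) : ℝ × ℝ))
        (g := fun p : ℝ × ℝ => fz T p.1 p.2 1) (x := b) hf hc
    by_contra hgt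
    push Not at hgt
    have hev := hcomp.eventually (lt_mem_nhds hgt)
    rw [mem_closure_iff_frequently] at hcl
    obtain ⟨q, hq1, hq2⟩ := (hcl.and_eventually hev).exists
    have := hq1.2 t ht
    linarith
  intro t ht
  by_contra hge
  push Not at hge
  have heq : fz T (a.1 + t * (b.1 - a.1)) (a.2 + t * (b.2 - a.2)) 1 = 1 / 9 :=
    le_antisymm (hle t ht) hge
  have ht0 : 0 < t := by
    rcases eq_or_lt_of_le ht.1 with h | h
    · rw [← h] at hge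
      have := ha.2.2
      simp only [zero_mul, add_zero] at hge
      linarith
    · exact h
  have ht1 : t < 1 := by
    rcases eq_or_lt_of_le ht.2 with h | h
    · rw [h] at hge
      have := hb.2.2
      simp only [one_mul, add_sub_cancel] at hge
      linarith
    · exact h
  let L : Ray := ⟨a.1, b.1 - a.1, a.2, b.2 - a.2, 1, 0⟩
  have hz1 : ∀ s, L.z1 s = a.1 + s * (b.1 - a.1) := by
    intro s; show a.1 + (b.1 - a.1) * s = _; ring
  have hz2 : ∀ s, L.z2 s = a.2 + s * (b.2 - a.2) := by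
    intro s; show a.2 + (b.2 - a.2) * s = _; ring
  have hz3 : ∀ s, L.z3 s = 1 := by
    intro s; show (1 : ℝ) + 0 * s = _; ring
  have hLf : ∀ s, L.f T s = fz T (a.1 + s * (b.1 - a.1)) (a.2 + s * (b.2 - a.2)) 1 := by
    intro s
    unfold Ray.f
    rw [hz1, hz2, hz3]
  have hpos : L.Pos t := by
    refine ⟨?_, ?_, ?_⟩
    · rw [hz1]; exact seg_pos ha.1 hb.1 ht
    · rw [hz2]; exact seg_pos ha.2.1 hb.2.1 ht
    · rw [hz3]; exact one_pos
  apply no_max T L hpos rfl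
  · rintro ⟨h1, h2⟩
    have h1' : b.1 - a.1 = 0 := h1
    have h2' : b.2 - a.2 = 0 := h2
    rw [h1', h2'] at heq
    simp only [mul_zero, add_zero] at heq
    have := ha.2.2
    linarith
  · rw [hLf]; exact heq
  · have hI : ∀ᶠ s in 𝓝 t, s ∈ Icc (0 : ℝ) 1 := Icc_mem_nhds ht0 ht1
    filter_upwards [hI] with s hs
    rw [hLf, hLf, heq]
    exact hle s hs

/-- a nonempty relatively clopen subset of the region contains the centre -/
theorem centre_mem (T : Shape)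
    (hbd : ∃ M : ℝ, 1 < M ∧ ∀ z1 z2 : ℝ, 0 < z1 → 0 < z2 →
      fz T z1 z2 1 ≤ 1 / 9 → 1 / M ≤ z1 ∧ z1 ≤ M ∧ 1 / M ≤ z2 ∧ z2 ≤ M)
    (hce : ∀ p : ℝ × ℝ, 0 < p.1 → 0 < p.2 → fz T p.1 p.2 1 < 1 / 9 →
      IsLocalMin (fun p : ℝ × ℝ => fz T p.1 p.2 1) p → p = (1, 1))
    (U : Set (ℝ × ℝ)) (hU : U ⊆ DD T) (ho : IsOpen U) (hne : U.Nonempty)
    (hc : ∀ b ∈ DD T, b ∈ closure U → b ∈ U) : ((1, 1) : ℝ × ℝ) ∈ U := by
  obtain ⟨M, hM, hbox⟩ := hbd
  have hM0 : 0 < 1 / M := by positivity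
  have hsub : U ⊆ Icc (1 / M) M ×ˢ Icc (1 / M) M := by
    intro p hp
    obtain ⟨h1, h2, h3⟩ := hU hp
    obtain ⟨x1, x2, x3, x4⟩ := hbox p.1 p.2 h1 h2 h3.le
    exact ⟨⟨x1, x2⟩, ⟨x3, x4⟩⟩
  have hclb : closure U ⊆ Icc (1 / M) M ×ˢ Icc (1 / M) M :=
    closure_minimal hsub (isClosed_Icc.prod isClosed_Icc)
  have hcomp : IsCompact (closure U) :=
    (isCompact_Icc.prod isCompact_Icc).of_isClosed_subset isClosed_closure hclb
  have hcont : ContinuousOn (fun p : ℝ × ℝ => fz T p.1 p.2 1) (closure U) := by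
    intro p hp
    have := hclb hp
    exact (fz_continuousAt T p (lt_of_lt_of_le hM0 this.1.1)
      (lt_of_lt_of_le hM0 this.2.1)).continuousWithinAt
  obtain ⟨p, hp, hmin⟩ := hcomp.exists_isMinOn hne.closure hcont
  obtain ⟨b, hb⟩ := hne
  have hpb : fz T p.1 p.2 1 ≤ fz T b.1 b.2 1 := hmin (subset_closure hb)
  have hbx := hclb hp
  have hpD : p ∈ DD T := ⟨lt_of_lt_of_le hM0 hbx.1.1, lt_of_lt_of_le hM0 hbx.2.1,
    lt_of_le_of_lt hpb (hU hb).2.2⟩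
  have hpU : p ∈ U := hc p hpD hp
  have hloc : IsLocalMin (fun p : ℝ × ℝ => fz T p.1 p.2 1) p := by
    filter_upwards [ho.mem_nhds hpU] with q hq using hmin (subset_closure hq)
  rw [← hce p hpD.1 hpD.2.1 hpD.2.2 hloc]
  exact hpU

/-- the region is convex in the chart `z3 = 1` -/
theorem convex_region (T : Shape)
    (hbd : ∃ M : ℝ, 1 < M ∧ ∀ z1 z2 : ℝ, 0 < z1 → 0 < z2 →
      fz T z1 z2 1 ≤ 1 / 9 → 1 / M ≤ z1 ∧ z1 ≤ M ∧ 1 / M ≤ z2 ∧ z2 ≤ M)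
    (hce : ∀ p : ℝ × ℝ, 0 < p.1 → 0 < p.2 → fz T p.1 p.2 1 < 1 / 9 →
      IsLocalMin (fun p : ℝ × ℝ => fz T p.1 p.2 1) p → p = (1, 1)) :
    ∀ p q : ℝ × ℝ, 0 < p.1 → 0 < p.2 → 0 < q.1 → 0 < q.2 →
      fz T p.1 p.2 1 < 1 / 9 → fz T q.1 q.2 1 < 1 / 9 → ∀ t : ℝ, 0 ≤ t → t ≤ 1 →
      fz T (p.1 + t * (q.1 - p.1)) (p.2 + t * (q.2 - p.2)) 1 < 1 / 9 := by
  intro p q hp1 hp2 hq1 hq2 hp hq t ht0 ht1
  have hpD : p ∈ DD T := ⟨hp1, hp2, hp⟩
  have hqD : q ∈ DD T := ⟨hq1, hq2, hq⟩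
  have hself : p ∈ Vis T p := by
    refine ⟨hpD, fun t _ => ?_⟩
    simp only [sub_self, mul_zero, add_zero]
    exact hp
  have h1 : ((1, 1) : ℝ × ℝ) ∈ Vis T p :=
    centre_mem T hbd hce (Vis T p) (fun b hb => hb.1) (isOpen_Vis T p hpD) ⟨p, hself⟩
      (closed_Vis T p hpD)
  by_contra hcon
  have hqn : q ∉ Vis T p := fun h => hcon (h.2 t ⟨ht0, ht1⟩)
  have hopen : IsOpen (DD T \ Vis T p) := by
    have : DD T \ Vis T p = DD T \ closure (Vis T p) := by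
      ext b
      constructor
      · rintro ⟨hb1, hb2⟩
        exact ⟨hb1, fun h => hb2 (closed_Vis T p hpD b hb1 h)⟩
      · rintro ⟨hb1, hb2⟩
        exact ⟨hb1, fun h => hb2 (subset_closure h)⟩
    rw [this]
    exact (isOpen_DD T).sdiff isClosed_closure
  have h2 : ((1, 1) : ℝ × ℝ) ∈ DD T \ Vis T p := by
    refine centre_mem T hbd hce _ (fun x hx => hx.1) hopen ⟨q, hqD, hqn⟩ ?_
    intro b hb hcl
    refine ⟨hb, fun hbv => ?_⟩
    rw [_root_.mem_closure_iff] at hcl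
    obtain ⟨x, hx1, hx2⟩ := hcl (Vis T p) (isOpen_Vis T p hpD) hbv
    exact hx2.2 hx1
  exact h2.2 h1

end Pool.Agent.Helper19.Maxwell
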