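import Pool.Agent.Helper19.Maxwell.Jacobian

set_option autoImplicit false

namespace Pool.Agent.Helper19.Maxwell

open Real



/-- zeros with invertible derivative form a countable set -/
theorem countable_zeros (G F Gx Gv Fx Fv : ℝ → ℝ → ℝ) (S : Set (ℝ × ℝ))
    (hG : ∀ x v, HasFDerivAt (fun p : ℝ × ℝ => G p.1 p.2)
        (Gx x v • ContinuousLinearMap.fst ℝ ℝ ℝ + Gv x v • ContinuousLinearMap.snd ℝ ℝ ℝ)
          (x, v))
    (hF : ∀ x v, HasFDerivAt (fun p : ℝ × ℝ => F p.1 p.2)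
        (Fx x v • ContinuousLinearMap.fst ℝ ℝ ℝ + Fv x v • ContinuousLinearMap.snd ℝ ℝ ℝ)
          (x, v))
    (hS : ∀ p ∈ S, G p.1 p.2 = 0 ∧ F p.1 p.2 = 0)
    (hJ : ∀ p ∈ S, Gx p.1 p.2 * Fv p.1 p.2 - Gv p.1 p.2 * Fx p.1 p.2 ≠ 0) : S.Countable := by
  have hdisc : DiscreteTopology S := by
    rw [discreteTopology_subtype_iff]
    intro p hp
    have hd := (hG p.1 p.2).prodMk (hF p.1 p.2)
    have hinj : ∃ C, AntilipschitzWith C
        ((Gx p.1 p.2 • ContinuousLinearMap.fst ℝ ℝ ℝ + Gv p.1 p.2 • ContinuousLinearMap.snd ℝ ℝ ℝ).prod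
          (Fx p.1 p.2 • ContinuousLinearMap.fst ℝ ℝ ℝ + Fv p.1 p.2 • ContinuousLinearMap.snd ℝ ℝ ℝ)) := by
      obtain ⟨K, _, hK⟩ := LinearMap.exists_antilipschitzWith
        (((Gx p.1 p.2 • ContinuousLinearMap.fst ℝ ℝ ℝ + Gv p.1 p.2 • ContinuousLinearMap.snd ℝ ℝ ℝ).prod
          (Fx p.1 p.2 • ContinuousLinearMap.fst ℝ ℝ ℝ
            + Fv p.1 p.2 • ContinuousLinearMap.snd ℝ ℝ ℝ) : ℝ × ℝ →L[ℝ] ℝ × ℝ) : ℝ × ℝ →ₗ[ℝ] ℝ × ℝ) (by
          rw [LinearMap.ker_eq_bot']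
          rintro ⟨a, b⟩ h
          have h1 := congrArg Prod.fst h
          have h2 := congrArg Prod.snd h
          simp at h1 h2
          have hj := hJ p hp
          have ha : a = 0 := by
            have : (Gx p.1 p.2 * Fv p.1 p.2 - Gv p.1 p.2 * Fx p.1 p.2) * a = 0 := by
              linear_combination Fv p.1 p.2 * h1 - Gv p.1 p.2 * h2
            exact (mul_eq_zero.mp this).resolve_left hj
          have hb : b = 0 := by
            have : (Gx p.1 p.2 * Fv p.1 p.2 - Gv p.1 p.2 * Fx p.1 p.2) * b = 0 := by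
              linear_combination Gx p.1 p.2 * h2 - Fx p.1 p.2 * h1
            exact (mul_eq_zero.mp this).resolve_left hj
          rw [ha, hb]; rfl)
      exact ⟨K, hK⟩
    have hne := HasFDerivAt.eventually_ne (c := ((0 : ℝ), (0 : ℝ))) hd hinj
    rw [← disjoint_iff, Filter.disjoint_principal_right]
    filter_upwards [hne] with q hq hqS
    apply hq
    obtain ⟨h1, h2⟩ := hS q hqS
    exact Prod.ext h1 h2
  have h1 : Countable S := TopologicalSpace.separableSpace_iff_countable.mp inferInstance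
  exact Set.countable_coe_iff.mp h1

/-- TARGET: the core counting theorem from the pieces proved elsewhere. -/
theorem core
    (count_zeros : ∀ (G F Gx Gv Fx Fv : ℝ → ℝ → ℝ),
      (∀ x v, HasFDerivAt (fun p : ℝ × ℝ => G p.1 p.2)
        (Gx x v • ContinuousLinearMap.fst ℝ ℝ ℝ + Gv x v • ContinuousLinearMap.snd ℝ ℝ ℝ)
          (x, v)) →
      (∀ x v, HasFDerivAt (fun p : ℝ × ℝ => F p.1 p.2)
        (Fx x v • ContinuousLinearMap.fst ℝ ℝ ℝ + Fv x v • ContinuousLinearMap.snd ℝ ℝ ℝ)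
          (x, v)) →
      ∀ (m : ℝ → ℝ),
      (∀ v, StrictAntiOn (fun x => G x v) (Set.Iic (m v))) →
      (∀ v, StrictMonoOn (fun x => G x v) (Set.Ici (m v))) →
      (∀ v, ∃ x, x ≤ m v ∧ 0 < G x v) →
      (∀ v, ∃ x, m v ≤ x ∧ 0 < G x v) →
      (∀ x v, G x v = 0 → F x v = 0 → Gx x v ≠ 0) →
      (∀ x v, G x v = 0 → F x v = 0 → Gx x v * Fv x v - Gv x v * Fx x v ≠ 0) →
      (∀ x v x' v', G x v = 0 → F x v = 0 → 0 < Gx x v * Fv x v - Gv x v * Fx x v →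
        G x' v' = 0 → F x' v' = 0 → 0 < Gx x' v' * Fv x' v' - Gv x' v' * Fx x' v' →
        x = x' ∧ v = v') →
      {p : ℝ × ℝ | G p.1 p.2 = 0 ∧ F p.1 p.2 = 0}.encard ≤ 4)
    (unimodal : ∀ (T : Shape) (w2 w3 a1 : ℝ), 0 < w2 → 0 < w3 → 0 < a1 → ∀ (K v : ℝ), ∃ m : ℝ,
      StrictAntiOn (fun x => a1 * exp (x / 3) * (w2 * D2 T x v + w3 * D3 T x v) - K)
        (Set.Iic m) ∧
      StrictMonoOn (fun x => a1 * exp (x / 3) * (w2 * D2 T x v + w3 * D3 T x v) - K)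
        (Set.Ici m) ∧
      (∃ x, x ≤ m ∧ 0 < a1 * exp (x / 3) * (w2 * D2 T x v + w3 * D3 T x v) - K) ∧
      (∃ x, m ≤ x ∧ 0 < a1 * exp (x / 3) * (w2 * D2 T x v + w3 * D3 T x v) - K))
    (mem_Sol_iff : ∀ (T : Shape) (w2 w3 a1 a2 a3 : ℝ), 0 < w2 → 0 < w3 → 0 < a1 → 0 < a2 →
      0 < a3 → ∀ (x v : ℝ),
      ((x, v) ∈ Sol T a1 a2 a3 ↔ GG T w2 w3 a1 a2 a3 x v = 0 ∧ FF T a2 a3 x v = 0))
    (jacobian : ∀ (T : Shape) (a1 a2 a3 : ℝ), 0 < a1 → 0 < a2 → 0 < a3 →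
      ∀ (w2 w3 : ℝ), 0 < w2 → 0 < w3 → ∃ Gx Gv Fx Fv : ℝ → ℝ → ℝ,
      (∀ x v, HasFDerivAt (fun p : ℝ × ℝ => GG T w2 w3 a1 a2 a3 p.1 p.2)
        (Gx x v • ContinuousLinearMap.fst ℝ ℝ ℝ + Gv x v • ContinuousLinearMap.snd ℝ ℝ ℝ)
          (x, v)) ∧
      (∀ x v, HasFDerivAt (fun p : ℝ × ℝ => FF T a2 a3 p.1 p.2)
        (Fx x v • ContinuousLinearMap.fst ℝ ℝ ℝ + Fv x v • ContinuousLinearMap.snd ℝ ℝ ℝ)
          (x, v)) ∧
      (∀ x v, (x, v) ∈ Sol T a1 a2 a3 → ∃ k : ℝ, 0 < k ∧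
        Gx x v * Fv x v - Gv x v * Fx x v = k * (1 / 9 - ff T x v)) ∧
      (∀ x v, (x, v) ∈ Sol T a1 a2 a3 → ∃ k : ℝ, 0 < k ∧ Gx x v =
        k * (w2 * D2 T x v * (1 / 3 - SS T.c2 (-v - x)) +
          w3 * D3 T x v * (1 / 3 + SS T.c3 (x - v)))))
    (T : Shape) (a1 a2 a3 : ℝ) (ha1 : 0 < a1) (ha2 : 0 < a2) (ha3 : 0 < a3)
    (huniq : ∀ p q : ℝ × ℝ, p ∈ Sol T a1 a2 a3 → q ∈ Sol T a1 a2 a3 →
      ff T p.1 p.2 < 1 / 9 → ff T q.1 q.2 < 1 / 9 → p = q)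
    (hnd : ∀ p ∈ Sol T a1 a2 a3, ff T p.1 p.2 ≠ 1 / 9) :
    (Sol T a1 a2 a3).encard ≤ 4 := by
  have hcount : (Sol T a1 a2 a3).Countable := by
    obtain ⟨Gx, Gv, Fx, Fv, hG, hF, hJ, _⟩ := jacobian T a1 a2 a3 ha1 ha2 ha3 1 1 one_pos one_pos
    refine countable_zeros _ _ Gx Gv Fx Fv _ hG hF ?_ ?_
    · rintro ⟨x, v⟩ hp
      exact (mem_Sol_iff T 1 1 a1 a2 a3 one_pos one_pos ha1 ha2 ha3 x v).mp hp
    · rintro ⟨x, v⟩ hp
      obtain ⟨k, hk, h⟩ := hJ x v hp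
      simp only
      rw [h]
      have h2 := hnd _ hp
      simp only at h2
      exact mul_ne_zero hk.ne' (sub_ne_zero.mpr (Ne.symm h2))
  -- choice of the weight
  obtain ⟨w, hw, hbad⟩ : ∃ w : ℝ, 0 < w ∧ ∀ x v, (x, v) ∈ Sol T a1 a2 a3 →
      w * D2 T x v * (1 / 3 - SS T.c2 (-v - x)) + 1 * D3 T x v * (1 / 3 + SS T.c3 (x - v)) ≠ 0 := by
    set bad : Set ℝ := (fun p : ℝ × ℝ => -(D3 T p.1 p.2 * (1 / 3 + SS T.c3 (p.1 - p.2))) /
      (D2 T p.1 p.2 * (1 / 3 - SS T.c2 (-p.2 - p.1)))) '' Sol T a1 a2 a3 with hbaddef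
    have hbc : bad.Countable := hcount.image _
    obtain ⟨w, hw1, hw2⟩ := (hbc.dense_compl ℝ).exists_mem_open isOpen_Ioi
      (Set.nonempty_Ioi (a := (0 : ℝ)))
    refine ⟨w, hw2, ?_⟩
    intro x v hp h0
    have hD2 : 0 < D2 T x v := del_pos T.c2_gt _
    have hD3 : 0 < D3 T x v := del_pos T.c3_gt _
    by_cases hα : 1 / 3 - SS T.c2 (-v - x) = 0
    · rw [hα, mul_zero, zero_add, one_mul] at h0
      have h3 : 1 / 3 + SS T.c3 (x - v) = 0 := (mul_eq_zero.mp h0).resolve_left hD3.ne'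
      have h4 := hnd _ hp
      apply h4
      simp only [ff]
      have e2 : SS T.c2 (-v - x) = 1 / 3 := by linarith
      have e3 : SS T.c3 (x - v) = -1 / 3 := by linarith
      rw [e2, e3]
      ring
    · apply hw1
      refine ⟨(x, v), hp, ?_⟩
      simp only
      rw [div_eq_iff (mul_ne_zero hD2.ne' hα)]
      linarith
  obtain ⟨Gx, Gv, Fx, Fv, hG, hF, hJ, hR⟩ := jacobian T a1 a2 a3 ha1 ha2 ha3 w 1 hw one_pos
  have huni := fun v : ℝ => unimodal T w 1 a1 hw one_pos ha1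
    (D1 T 0 v * (w * (a2 * exp (v / 3)) + 1 * (a3 * exp (-v / 3)))) v
  choose m hm1 hm2 hm3 hm4 using huni
  have hmem : ∀ x v, (x, v) ∈ Sol T a1 a2 a3 ↔ GG T w 1 a1 a2 a3 x v = 0 ∧ FF T a2 a3 x v = 0 :=
    fun x v => mem_Sol_iff T w 1 a1 a2 a3 hw one_pos ha1 ha2 ha3 x v
  have hjs : ∀ x v, (x, v) ∈ Sol T a1 a2 a3 →
      0 < Gx x v * Fv x v - Gv x v * Fx x v → ff T x v < 1 / 9 := by
    intro x v hp hpos
    obtain ⟨k, hk, h⟩ := hJ x v hp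
    rw [h] at hpos
    have := (pos_iff_pos_of_mul_pos hpos).mp hk
    linarith
  have hfin := count_zeros (GG T w 1 a1 a2 a3) (FF T a2 a3) Gx Gv Fx Fv hG hF m hm1 hm2 hm3 hm4
    (by
      intro x v h1 h2
      obtain ⟨k, hk, h⟩ := hR x v ((hmem x v).mpr ⟨h1, h2⟩)
      rw [h]
      exact mul_ne_zero hk.ne' (hbad x v ((hmem x v).mpr ⟨h1, h2⟩)))
    (by
      intro x v h1 h2
      have hp := (hmem x v).mpr ⟨h1, h2⟩
      obtain ⟨k, hk, h⟩ := hJ x v hp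
      rw [h]
      have h2 := hnd _ hp
      simp only at h2
      exact mul_ne_zero hk.ne' (sub_ne_zero.mpr (Ne.symm h2)))
    (by
      intro x v x' v' h1 h2 h3 h1' h2' h3'
      have hp := (hmem x v).mpr ⟨h1, h2⟩
      have hp' := (hmem x' v').mpr ⟨h1', h2'⟩
      have h4 := huniq (x, v) (x', v') hp hp' (hjs x v hp h3) (hjs x' v' hp' h3')
      exact ⟨congrArg Prod.fst h4, congrArg Prod.snd h4⟩)
  have heq : Sol T a1 a2 a3 = {p : ℝ × ℝ | GG T w 1 a1 a2 a3 p.1 p.2 = 0 ∧ FF T a2 a3 p.1 p.2 = 0} := by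
    ext ⟨x, v⟩
    exact hmem x v
  rw [heq]
  exact hfin

end Pool.Agent.Helper19.Maxwell
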