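import Mathlib

set_option autoImplicit false

namespace Pool.Agent.Helper19.Maxwell

open Filter Topology Set

/-- a locally monotone function is monotone -/
private lemma mono_of_local (h : ℝ → ℤ) (hl : ∀ v0, ∀ᶠ v in 𝓝 v0, v < v0 → h v ≤ h v0)
    (hr : ∀ v0, ∀ᶠ v in 𝓝 v0, v0 < v → h v0 ≤ h v) {a b : ℝ} (hab : a ≤ b) : h a ≤ h b := by
  obtain ⟨S, hS⟩ : ∃ S : Set ℝ, S = {t | a ≤ t ∧ t ≤ b ∧ ∀ s, a ≤ s → s ≤ t → h a ≤ h s} := ⟨_, rfl⟩
  have haS : a ∈ S := by
    rw [hS]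
    refine ⟨le_rfl, hab, fun s h1 h2 => ?_⟩
    rw [le_antisymm h1 h2]
  have hbdd : BddAbove S := ⟨b, fun t ht => by rw [hS] at ht; exact ht.2.1⟩
  obtain ⟨c, hc⟩ : ∃ c, c = sSup S := ⟨_, rfl⟩
  have hac : a ≤ c := by rw [hc]; exact le_csSup hbdd haS
  have hcb : c ≤ b := by
    rw [hc]
    exact csSup_le ⟨a, haS⟩ (fun t ht => by rw [hS] at ht; exact ht.2.1)
  -- everything below c is fine
  have hlt : ∀ s, a ≤ s → s < c → h a ≤ h s := by
    intro s h1 h2
    rw [hc] at h2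
    obtain ⟨t, ht, hst⟩ := exists_lt_of_lt_csSup ⟨a, haS⟩ h2
    rw [hS] at ht
    exact ht.2.2 s h1 hst.le
  have hcc : h a ≤ h c := by
    rcases eq_or_lt_of_le hac with h1 | h1
    · rw [h1]
    · obtain ⟨ε, hε, hball⟩ := Metric.eventually_nhds_iff.1 (hl c)
      obtain ⟨s, hs1, hs2⟩ := exists_between (max_lt h1 (by linarith : c - ε < c))
      have h2 := hball (y := s) (by
        rw [Real.dist_eq, abs_lt]
        have := (max_lt_iff.1 hs1).2
        constructor <;> linarith) hs2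
      exact (hlt s (max_lt_iff.1 hs1).1.le hs2).trans h2
  rcases eq_or_lt_of_le hcb with h1 | h1
  · rw [← h1]; exact hcc
  · exfalso
    obtain ⟨ε, hε, hball⟩ := Metric.eventually_nhds_iff.1 (hr c)
    obtain ⟨t, ht1, ht2⟩ := exists_between (lt_min h1 (by linarith : c < c + ε))
    have htS : t ∈ S := by
      rw [hS]
      refine ⟨by linarith, (lt_min_iff.1 ht2).1.le, fun s h3 h4 => ?_⟩
      rcases lt_trichotomy s c with h5 | h5 | h5
      · exact hlt s h3 h5
      · rw [h5]; exact hcc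
      · refine hcc.trans (hball (y := s) ?_ h5)
        rw [Real.dist_eq, abs_lt]
        have := (lt_min_iff.1 ht2).2
        constructor <;> linarith
    have := le_csSup hbdd htS
    rw [← hc] at this
    linarith

/-- integer valued sign -/
private noncomputable def sg (x : ℝ) : ℤ := if 0 < x then 1 else if x < 0 then -1 else 0

private lemma sg_pos {x : ℝ} (h : 0 < x) : sg x = 1 := if_pos h
private lemma sg_neg {x : ℝ} (h : x < 0) : sg x = -1 := by
  unfold sg; rw [if_neg (not_lt.2 h.le), if_pos h]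
private lemma sg_zero : sg 0 = 0 := by
  unfold sg; simp
private lemma sg_le (x : ℝ) : sg x ≤ 1 := by
  unfold sg; split_ifs <;> norm_num
private lemma le_sg (x : ℝ) : -1 ≤ sg x := by
  unfold sg; split_ifs <;> norm_num
private lemma sg_eq_of_tendsto {f : ℝ → ℝ} {v0 y : ℝ} (hy : y ≠ 0) (hf : Tendsto f (𝓝 v0) (𝓝 y)) :
    ∀ᶠ v in 𝓝 v0, sg (f v) = sg y := by
  rcases lt_or_gt_of_ne hy with h | h
  · filter_upwards [hf.eventually (eventually_lt_nhds h)] with v hv
    rw [sg_neg hv, sg_neg h]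
  · filter_upwards [hf.eventually (eventually_gt_nhds h)] with v hv
    rw [sg_pos hv, sg_pos h]

/-- the hypotheses without uniqueness -/
private structure Hyp (G F Gx Gv Fx Fv : ℝ → ℝ → ℝ) (m : ℝ → ℝ) : Prop where
  hG : ∀ x v, HasFDerivAt (fun p : ℝ × ℝ => G p.1 p.2)
      (Gx x v • ContinuousLinearMap.fst ℝ ℝ ℝ + Gv x v • ContinuousLinearMap.snd ℝ ℝ ℝ) (x, v)
  hF : ∀ x v, HasFDerivAt (fun p : ℝ × ℝ => F p.1 p.2)
      (Fx x v • ContinuousLinearMap.fst ℝ ℝ ℝ + Fv x v • ContinuousLinearMap.snd ℝ ℝ ℝ) (x, v)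
  hanti : ∀ v, StrictAntiOn (fun x => G x v) (Set.Iic (m v))
  hmono : ∀ v, StrictMonoOn (fun x => G x v) (Set.Ici (m v))
  hbot : ∀ v, ∃ x, x ≤ m v ∧ 0 < G x v
  htop : ∀ v, ∃ x, m v ≤ x ∧ 0 < G x v
  hreg : ∀ x v, G x v = 0 → F x v = 0 → Gx x v ≠ 0
  hjac : ∀ x v, G x v = 0 → F x v = 0 → Gx x v * Fv x v - Gv x v * Fx x v ≠ 0

section
variable {G F Gx Gv Fx Fv : ℝ → ℝ → ℝ} {m : ℝ → ℝ}

/-- reflection in the first variable -/
private lemma Hyp.reflect (H : Hyp G F Gx Gv Fx Fv m) :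
    Hyp (fun x v => G (-x) v) (fun x v => F (-x) v) (fun x v => -Gx (-x) v) (fun x v => Gv (-x) v)
      (fun x v => -Fx (-x) v) (fun x v => Fv (-x) v) (fun v => - m v) := by
  have hrefl : ∀ x v : ℝ, HasFDerivAt (fun p : ℝ × ℝ => (-p.1, p.2))
      ((-ContinuousLinearMap.fst ℝ ℝ ℝ).prod (ContinuousLinearMap.snd ℝ ℝ ℝ)) (x, v) := by
    intro x v
    exact hasFDerivAt_fst.neg.prodMk hasFDerivAt_snd
  refine ⟨?_, ?_, ?_, ?_, ?_, ?_, ?_, ?_⟩
  · intro x v
    have h1 := (H.hG (-x) v).comp (x, v) (hrefl x v)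
    have h2 : (-Gx (-x) v) • ContinuousLinearMap.fst ℝ ℝ ℝ + Gv (-x) v • ContinuousLinearMap.snd ℝ ℝ ℝ =
        (Gx (-x) v • ContinuousLinearMap.fst ℝ ℝ ℝ + Gv (-x) v • ContinuousLinearMap.snd ℝ ℝ ℝ).comp
          ((-ContinuousLinearMap.fst ℝ ℝ ℝ).prod (ContinuousLinearMap.snd ℝ ℝ ℝ)) := by
      ext <;> simp
    rw [h2]
    exact h1
  · intro x v
    have h1 := (H.hF (-x) v).comp (x, v) (hrefl x v)
    have h2 : (-Fx (-x) v) • ContinuousLinearMap.fst ℝ ℝ ℝ + Fv (-x) v • ContinuousLinearMap.snd ℝ ℝ ℝ =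
        (Fx (-x) v • ContinuousLinearMap.fst ℝ ℝ ℝ + Fv (-x) v • ContinuousLinearMap.snd ℝ ℝ ℝ).comp
          ((-ContinuousLinearMap.fst ℝ ℝ ℝ).prod (ContinuousLinearMap.snd ℝ ℝ ℝ)) := by
      ext <;> simp
    rw [h2]
    exact h1
  · intro v x hx y hy hxy
    rw [Set.mem_Iic] at hx hy
    exact H.hmono v (Set.mem_Ici.2 (by linarith)) (Set.mem_Ici.2 (by linarith)) (by linarith)
  · intro v x hx y hy hxy
    rw [Set.mem_Ici] at hx hy
    exact H.hanti v (Set.mem_Iic.2 (by linarith)) (Set.mem_Iic.2 (by linarith)) (by linarith)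
  · intro v
    obtain ⟨x, hx, hx2⟩ := H.htop v
    exact ⟨-x, by linarith, by simpa using hx2⟩
  · intro v
    obtain ⟨x, hx, hx2⟩ := H.hbot v
    exact ⟨-x, by linarith, by simpa using hx2⟩
  · intro x v h1 h2 h3
    exact H.hreg (-x) v h1 h2 (by linarith)
  · intro x v h1 h2 h3
    apply H.hjac (-x) v h1 h2
    linarith

private lemma Hyp.contG (H : Hyp G F Gx Gv Fx Fv m) : Continuous (fun p : ℝ × ℝ => G p.1 p.2) :=
  continuous_iff_continuousAt.2 fun p => (H.hG p.1 p.2).continuousAt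

private lemma Hyp.contF (H : Hyp G F Gx Gv Fx Fv m) : Continuous (fun p : ℝ × ℝ => F p.1 p.2) :=
  continuous_iff_continuousAt.2 fun p => (H.hF p.1 p.2).continuousAt

private lemma Hyp.min (H : Hyp G F Gx Gv Fx Fv m) (x v : ℝ) : G (m v) v ≤ G x v := by
  rcases le_total x (m v) with h | h
  · rcases eq_or_lt_of_le h with h1 | h1
    · rw [h1]
    · exact (H.hanti v (Set.mem_Iic.2 h) (Set.mem_Iic.2 le_rfl) h1).le
  · rcases eq_or_lt_of_le h with h1 | h1
    · rw [h1]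
    · exact (H.hmono v (Set.mem_Ici.2 le_rfl) (Set.mem_Ici.2 h) h1).le

private lemma Hyp.min_lt (H : Hyp G F Gx Gv Fx Fv m) {x v : ℝ} (hx : x ≠ m v) :
    G (m v) v < G x v := by
  rcases lt_or_gt_of_ne hx with h | h
  · exact H.hanti v (Set.mem_Iic.2 h.le) (Set.mem_Iic.2 le_rfl) h
  · exact H.hmono v (Set.mem_Ici.2 le_rfl) (Set.mem_Ici.2 h.le) h

/-- comparison: if `x < y` and `G x v > G y v`... then `x < m v` -/
private lemma Hyp.lt_m (H : Hyp G F Gx Gv Fx Fv m) {x y v : ℝ} (hxy : x < y) (h : G y v < G x v) :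
    x < m v := by
  by_contra hcon
  push Not at hcon
  exact absurd (H.hmono v (Set.mem_Ici.2 hcon) (Set.mem_Ici.2 (hcon.trans hxy.le)) hxy) (not_lt.2 h.le)

private lemma Hyp.m_lt (H : Hyp G F Gx Gv Fx Fv m) {x y v : ℝ} (hxy : x < y) (h : G x v < G y v) :
    m v < y := by
  by_contra hcon
  push Not at hcon
  exact absurd (H.hanti v (Set.mem_Iic.2 (hxy.le.trans hcon)) (Set.mem_Iic.2 hcon) hxy) (not_lt.2 h.le)

/-- existence of the left zero -/
private lemma Hyp.exists_left (H : Hyp G F Gx Gv Fx Fv m) {v : ℝ} (hv : G (m v) v < 0) :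
    ∃ a, a < m v ∧ G a v = 0 := by
  obtain ⟨x, hx, hx2⟩ := H.hbot v
  have hc : ContinuousOn (fun x => G x v) (Set.Icc x (m v)) := by
    have : Continuous (fun x => G x v) := H.contG.comp (by fun_prop : Continuous fun x : ℝ => (x, v))
    exact this.continuousOn
  obtain ⟨a, ha, ha2⟩ := intermediate_value_Icc' hx hc (⟨hv.le, hx2.le⟩ : (0 : ℝ) ∈ Set.Icc (G (m v) v) (G x v))
  have ha3 : G a v = 0 := ha2
  refine ⟨a, lt_of_le_of_ne ha.2 ?_, ha3⟩
  rintro rfl
  linarith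

private lemma Hyp.left_unique (H : Hyp G F Gx Gv Fx Fv m) {v a x : ℝ} (ha : a < m v) (ha0 : G a v = 0)
    (hx : x < m v) (hx0 : G x v = 0) : x = a := by
  rcases lt_trichotomy x a with h | h | h
  · have h1 : G a v < G x v := H.hanti v (Set.mem_Iic.2 hx.le) (Set.mem_Iic.2 ha.le) h
    linarith
  · exact h
  · have h1 : G x v < G a v := H.hanti v (Set.mem_Iic.2 ha.le) (Set.mem_Iic.2 hx.le) h
    linarith

/-- continuity of the left branch -/
private lemma Hyp.left_tendsto (H : Hyp G F Gx Gv Fx Fv m) {a : ℝ → ℝ}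
    (ha : ∀ v, G (m v) v < 0 → a v < m v ∧ G (a v) v = 0) {v0 : ℝ} (hv0 : G (m v0) v0 < 0) :
    (∀ᶠ v in 𝓝 v0, G (m v) v < 0) ∧ Tendsto a (𝓝 v0) (𝓝 (a v0)) := by
  obtain ⟨h1, h2⟩ := ha v0 hv0
  have hcv : ∀ x, Continuous (fun v => G x v) := fun x =>
    H.contG.comp (by fun_prop : Continuous fun v : ℝ => (x, v))
  have key : ∀ ε > 0, a v0 + ε ≤ m v0 → ∀ᶠ v in 𝓝 v0, G (m v) v < 0 ∧ |a v - a v0| < ε := by
    intro ε hε hεm
    have e1 : 0 < G (a v0 - ε) v0 := by
      have : G (a v0) v0 < G (a v0 - ε) v0 :=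
        H.hanti v0 (Set.mem_Iic.2 (by linarith)) (Set.mem_Iic.2 h1.le) (by linarith)
      linarith
    have e2 : G (a v0 + ε) v0 < 0 := by
      have : G (a v0 + ε) v0 < G (a v0) v0 :=
        H.hanti v0 (Set.mem_Iic.2 h1.le) (Set.mem_Iic.2 hεm) (by linarith)
      linarith
    filter_upwards [(hcv (a v0 - ε)).continuousAt.eventually (eventually_gt_nhds e1),
      (hcv (a v0 + ε)).continuousAt.eventually (eventually_lt_nhds e2)] with v f1 f2
    have f3 : G (m v) v < 0 := (H.min _ _).trans_lt f2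
    obtain ⟨f4, f5⟩ := ha v f3
    refine ⟨f3, ?_⟩
    have f6 : a v0 - ε < m v := H.lt_m (y := a v0 + ε) (by linarith) (by linarith)
    have f7 : a v0 - ε < a v := by
      by_contra hcon
      push Not at hcon
      rcases eq_or_lt_of_le hcon with h | h
      · rw [h] at f5; linarith
      · have := H.hanti v (Set.mem_Iic.2 f4.le) (Set.mem_Iic.2 f6.le) h
        simp only at this
        linarith
    have f8 : a v < a v0 + ε := by
      by_contra hcon
      push Not at hcon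
      rcases eq_or_lt_of_le hcon with h | h
      · rw [← h] at f5; linarith
      · have := H.hanti v (Set.mem_Iic.2 (h.le.trans f4.le)) (Set.mem_Iic.2 f4.le) h
        simp only at this
        linarith
    rw [abs_lt]
    constructor <;> linarith
  refine ⟨(key (m v0 - a v0) (by linarith) (by linarith)).mono fun v hv => hv.1, ?_⟩
  rw [Metric.tendsto_nhds]
  intro ε hε
  have := key (Min.min ε (m v0 - a v0)) (lt_min hε (by linarith))
    (by have := min_le_right ε (m v0 - a v0); linarith)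
  filter_upwards [this] with v hv
  rw [Real.dist_eq]
  exact hv.2.trans_le (min_le_left _ _)

private lemma Hyp.Gx_neg (H : Hyp G F Gx Gv Fx Fv m) {x v : ℝ} (hx : x < m v) (h : Gx x v ≠ 0) :
    Gx x v < 0 := by
  refine lt_of_le_of_ne ?_ h
  have hd : HasDerivAt (fun y => G y v) (Gx x v) x := by
    have h1 : HasDerivAt (fun y : ℝ => (y, v)) ((1 : ℝ), (0 : ℝ)) x :=
      (hasDerivAt_id x).prodMk (hasDerivAt_const x v)
    have h2 := (H.hG x v).comp_hasDerivAt x h1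
    have h3 : (Gx x v • ContinuousLinearMap.fst ℝ ℝ ℝ + Gv x v • ContinuousLinearMap.snd ℝ ℝ ℝ)
        ((1 : ℝ), (0 : ℝ)) = Gx x v := by simp
    rw [h3] at h2
    exact h2
  have h1 : derivWithin (fun y => G y v) (Set.Iic (m v)) x ≤ 0 :=
    (H.hanti v).antitoneOn.derivWithin_nonpos
  rw [derivWithin_of_mem_nhds (Iic_mem_nhds hx), hd.deriv] at h1
  exact h1

/-- expansion along a curve of zeros of `G` -/
private lemma Hyp.expand (H : Hyp G F Gx Gv Fx Fv m) {a : ℝ → ℝ} {v0 : ℝ}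
    (ha : ∀ᶠ v in 𝓝 v0, G (a v) v = 0) (hat : Tendsto a (𝓝 v0) (𝓝 (a v0)))
    (hG0 : G (a v0) v0 = 0) (hF0 : F (a v0) v0 = 0) :
    ∀ᶠ v in 𝓝 v0, |Gx (a v0) v0 * F (a v) v -
      (Gx (a v0) v0 * Fv (a v0) v0 - Gv (a v0) v0 * Fx (a v0) v0) * (v - v0)| ≤
      |Gx (a v0) v0 * Fv (a v0) v0 - Gv (a v0) v0 * Fx (a v0) v0| / 2 * |v - v0| := by
  obtain ⟨x0, hx0⟩ : ∃ x0, x0 = a v0 := ⟨_, rfl⟩
  rw [← hx0] at hat hG0 hF0 ⊢
  have hgx := H.hreg x0 v0 hG0 hF0
  have hJ := H.hjac x0 v0 hG0 hF0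
  obtain ⟨J, hJd⟩ : ∃ J, J = Gx x0 v0 * Fv x0 v0 - Gv x0 v0 * Fx x0 v0 := ⟨_, rfl⟩
  rw [← hJd] at hJ ⊢
  have hgx' : 0 < |Gx x0 v0| := abs_pos.2 hgx
  have hJ' : 0 < |J| := abs_pos.2 hJ
  obtain ⟨K, hK⟩ : ∃ K, K = 1 + 2 * |Gv x0 v0| / |Gx x0 v0| := ⟨_, rfl⟩
  have hK1 : 1 ≤ K := by rw [hK]; have : 0 ≤ 2 * |Gv x0 v0| / |Gx x0 v0| := by positivity
                         linarith
  obtain ⟨c, hc⟩ : ∃ c, c = Min.min (|Gx x0 v0| / 2) (|J| / (2 * (|Gx x0 v0| + |Fx x0 v0|) * K)) := ⟨_, rfl⟩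
  have hc0 : 0 < c := by
    rw [hc]
    exact lt_min (by positivity) (by positivity)
  have hc1 : c ≤ |Gx x0 v0| / 2 := by rw [hc]; exact min_le_left _ _
  have hc2 : c * ((|Gx x0 v0| + |Fx x0 v0|) * K) ≤ |J| / 2 := by
    have h1 : c ≤ |J| / (2 * (|Gx x0 v0| + |Fx x0 v0|) * K) := by rw [hc]; exact min_le_right _ _
    rw [le_div_iff₀ (by positivity)] at h1
    linarith
  have htend : Tendsto (fun v => (a v, v)) (𝓝 v0) (𝓝 (x0, v0)) :=
    hat.prodMk_nhds tendsto_id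
  have hg := ((H.hG x0 v0).isLittleO.comp_tendsto htend).bound hc0
  have hf := ((H.hF x0 v0).isLittleO.comp_tendsto htend).bound hc0
  filter_upwards [ha, hg, hf] with v h1 h2 h3
  simp only [Function.comp_apply, hG0, hF0, h1, sub_zero, zero_sub, Prod.mk_sub_mk] at h2 h3
  have e1 : (Gx x0 v0 • ContinuousLinearMap.fst ℝ ℝ ℝ + Gv x0 v0 • ContinuousLinearMap.snd ℝ ℝ ℝ)
      (a v - x0, v - v0) = Gx x0 v0 * (a v - x0) + Gv x0 v0 * (v - v0) := by simp
  have e2 : (Fx x0 v0 • ContinuousLinearMap.fst ℝ ℝ ℝ + Fv x0 v0 • ContinuousLinearMap.snd ℝ ℝ ℝ)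
      (a v - x0, v - v0) = Fx x0 v0 * (a v - x0) + Fv x0 v0 * (v - v0) := by simp
  rw [e1] at h2
  rw [e2] at h3
  rw [norm_neg] at h2
  rw [Real.norm_eq_abs] at h2 h3
  obtain ⟨N, hN⟩ : ∃ N, N = ‖((a v - x0, v - v0) : ℝ × ℝ)‖ := ⟨_, rfl⟩
  rw [← hN] at h2 h3
  have hNmax : N = max |a v - x0| |v - v0| := by
    rw [hN, Prod.norm_def]; rfl
  have hN0 : 0 ≤ N := by rw [hN]; exact norm_nonneg _
  have hNK : N ≤ K * |v - v0| := by
    rcases le_total |a v - x0| |v - v0| with h4 | h4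
    · rw [hNmax, max_eq_right h4]
      have := abs_nonneg (v - v0)
      nlinarith
    · have hNe : N = |a v - x0| := by rw [hNmax, max_eq_left h4]
      rw [hNe] at h2 ⊢
      have h5 : |Gx x0 v0| * |a v - x0| ≤ |Gv x0 v0| * |v - v0| + c * |a v - x0| := by
        rw [← abs_mul, ← abs_mul]
        have h6 : Gx x0 v0 * (a v - x0) = (Gx x0 v0 * (a v - x0) + Gv x0 v0 * (v - v0)) -
          Gv x0 v0 * (v - v0) := by ring
        rw [h6]
        refine (abs_sub _ _).trans ?_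
        linarith
      have h6 : |Gx x0 v0| / 2 * |a v - x0| ≤ |Gv x0 v0| * |v - v0| := by
        have := abs_nonneg (a v - x0)
        nlinarith
      have h7 : |a v - x0| ≤ 2 * |Gv x0 v0| / |Gx x0 v0| * |v - v0| := by
        have h8 : 2 * |Gv x0 v0| / |Gx x0 v0| * |v - v0| =
          (|Gv x0 v0| * |v - v0|) / (|Gx x0 v0| / 2) := by field_simp
        rw [h8, le_div_iff₀ (by positivity)]
        linarith
      rw [hK]
      have := abs_nonneg (v - v0)
      linarith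
  have e3 : Gx x0 v0 * F (a v) v - J * (v - v0) =
      Gx x0 v0 * (F (a v) v - (Fx x0 v0 * (a v - x0) + Fv x0 v0 * (v - v0))) +
      Fx x0 v0 * (Gx x0 v0 * (a v - x0) + Gv x0 v0 * (v - v0)) := by
    rw [hJd]; ring
  rw [e3]
  refine (abs_add_le _ _).trans ?_
  rw [abs_mul, abs_mul]
  have h4 : |Gx x0 v0| * |F (a v) v - (Fx x0 v0 * (a v - x0) + Fv x0 v0 * (v - v0))| ≤
      |Gx x0 v0| * (c * N) := mul_le_mul_of_nonneg_left h3 hgx'.le
  have h5 : |Fx x0 v0| * |Gx x0 v0 * (a v - x0) + Gv x0 v0 * (v - v0)| ≤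
      |Fx x0 v0| * (c * N) := mul_le_mul_of_nonneg_left h2 (abs_nonneg _)
  calc _ ≤ |Gx x0 v0| * (c * N) + |Fx x0 v0| * (c * N) := add_le_add h4 h5
    _ = (c * (|Gx x0 v0| + |Fx x0 v0|)) * N := by ring
    _ ≤ (c * (|Gx x0 v0| + |Fx x0 v0|)) * (K * |v - v0|) :=
        mul_le_mul_of_nonneg_left hNK (by positivity)
    _ = (c * ((|Gx x0 v0| + |Fx x0 v0|) * K)) * |v - v0| := by ring
    _ ≤ _ := mul_le_mul_of_nonneg_right hc2 (abs_nonneg _)

open Classical in
/-- the jump of the sign along the left branch -/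
private lemma Hyp.left_jump (H : Hyp G F Gx Gv Fx Fv m) {a : ℝ → ℝ}
    (ha : ∀ v, G (m v) v < 0 → a v < m v ∧ G (a v) v = 0) {v0 : ℝ} (hv0 : G (m v0) v0 < 0) :
    ∀ᶠ v in 𝓝 v0,
      (v < v0 → sg (F (a v0) v0) - sg (F (a v) v) = if F (a v0) v0 = 0 then
        (if Gx (a v0) v0 * Fv (a v0) v0 - Gv (a v0) v0 * Fx (a v0) v0 < 0 then 1 else -1) else 0) ∧
      (v0 < v → sg (F (a v) v) - sg (F (a v0) v0) = if F (a v0) v0 = 0 then
        (if Gx (a v0) v0 * Fv (a v0) v0 - Gv (a v0) v0 * Fx (a v0) v0 < 0 then 1 else -1) else 0) := by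
  obtain ⟨hI, hat⟩ := H.left_tendsto ha hv0
  obtain ⟨hlt, hG0⟩ := ha v0 hv0
  by_cases hF0 : F (a v0) v0 = 0
  swap
  · have htend : Tendsto (fun v => F (a v) v) (𝓝 v0) (𝓝 (F (a v0) v0)) :=
      (H.contF.tendsto (a v0, v0)).comp (hat.prodMk_nhds tendsto_id)
    filter_upwards [sg_eq_of_tendsto hF0 htend] with v hv
    rw [if_neg hF0, hv]
    exact ⟨fun _ => sub_self _, fun _ => sub_self _⟩
  · have hexp := H.expand (hI.mono fun v hv => (ha v hv).2) hat hG0 hF0
    have hgx := H.Gx_neg hlt (H.hreg _ _ hG0 hF0)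
    have hJ := H.hjac _ _ hG0 hF0
    obtain ⟨J, hJd⟩ : ∃ J, J = Gx (a v0) v0 * Fv (a v0) v0 - Gv (a v0) v0 * Fx (a v0) v0 := ⟨_, rfl⟩
    rw [← hJd] at hexp hJ ⊢
    filter_upwards [hexp] with v hv
    rw [if_pos hF0, hF0, sg_zero]
    rw [abs_le] at hv
    obtain ⟨hv1, hv2⟩ := hv
    rcases lt_or_gt_of_ne hJ with hJ1 | hJ1
    · rw [if_pos hJ1]
      rw [abs_of_neg hJ1] at hv1 hv2
      constructor
      · intro h1
        rw [abs_of_neg (by linarith : v - v0 < 0)] at hv1 hv2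
        have h2 : 0 < J * (v - v0) := mul_pos_of_neg_of_neg hJ1 (by linarith)
        have h3 : 0 < Gx (a v0) v0 * F (a v) v := by nlinarith
        have h4 : F (a v) v < 0 := by
          by_contra hcon
          push Not at hcon
          nlinarith
        rw [sg_neg h4]; norm_num
      · intro h1
        rw [abs_of_pos (by linarith : 0 < v - v0)] at hv1 hv2
        have h2 : 0 < (-J) * (v - v0) := mul_pos (by linarith) (by linarith)
        have h3 : Gx (a v0) v0 * F (a v) v < 0 := by nlinarith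
        have h4 : 0 < F (a v) v := by
          by_contra hcon
          push Not at hcon
          nlinarith
        rw [sg_pos h4]; norm_num
    · rw [if_neg (not_lt.2 hJ1.le)]
      rw [abs_of_pos hJ1] at hv1 hv2
      constructor
      · intro h1
        rw [abs_of_neg (by linarith : v - v0 < 0)] at hv1 hv2
        have h2 : 0 < J * (-(v - v0)) := mul_pos hJ1 (by linarith)
        have h3 : Gx (a v0) v0 * F (a v) v < 0 := by nlinarith
        have h4 : 0 < F (a v) v := by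
          by_contra hcon
          push Not at hcon
          nlinarith
        rw [sg_pos h4]; norm_num
      · intro h1
        rw [abs_of_pos (by linarith : 0 < v - v0)] at hv1 hv2
        have h2 : 0 < J * (v - v0) := mul_pos hJ1 (by linarith)
        have h3 : 0 < Gx (a v0) v0 * F (a v) v := by nlinarith
        have h4 : F (a v) v < 0 := by
          by_contra hcon
          push Not at hcon
          nlinarith
        rw [sg_neg h4]; norm_num

open Classical in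
/-- the jump of the sign along the right branch -/
private lemma Hyp.right_jump (H : Hyp G F Gx Gv Fx Fv m) {b : ℝ → ℝ}
    (hb : ∀ v, G (m v) v < 0 → m v < b v ∧ G (b v) v = 0) {v0 : ℝ} (hv0 : G (m v0) v0 < 0) :
    ∀ᶠ v in 𝓝 v0,
      (v < v0 → sg (F (b v) v) - sg (F (b v0) v0) = if F (b v0) v0 = 0 then
        (if Gx (b v0) v0 * Fv (b v0) v0 - Gv (b v0) v0 * Fx (b v0) v0 < 0 then 1 else -1) else 0) ∧
      (v0 < v → sg (F (b v0) v0) - sg (F (b v) v) = if F (b v0) v0 = 0 then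
        (if Gx (b v0) v0 * Fv (b v0) v0 - Gv (b v0) v0 * Fx (b v0) v0 < 0 then 1 else -1) else 0) := by
  have hm : ∀ v, G (-(-m v)) v = G (m v) v := fun v => by rw [neg_neg]
  have h1 := H.reflect.left_jump (a := fun v => -b v) (fun v hv => by
    rw [hm] at hv
    obtain ⟨h2, h3⟩ := hb v hv
    refine ⟨by linarith, ?_⟩
    show G (-(-b v)) v = 0
    rw [neg_neg]; exact h3) (v0 := v0) (by rw [hm]; exact hv0)
  filter_upwards [h1] with v hv
  simp only [neg_neg] at hv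
  obtain ⟨hG0⟩ : Nonempty (G (b v0) v0 = 0) := ⟨(hb v0 hv0).2⟩
  by_cases hF0 : F (b v0) v0 = 0
  · simp only [if_pos hF0] at hv ⊢
    have hJ := H.hjac _ _ hG0 hF0
    rcases lt_or_gt_of_ne hJ with hJ1 | hJ1
    · rw [if_pos hJ1]
      rw [if_neg (by linarith)] at hv
      exact ⟨fun h => by have := hv.1 h; omega, fun h => by have := hv.2 h; omega⟩
    · rw [if_neg (not_lt.2 hJ1.le)]
      rw [if_pos (by linarith)] at hv
      exact ⟨fun h => by have := hv.1 h; omega, fun h => by have := hv.2 h; omega⟩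
  · simp only [if_neg hF0] at hv ⊢
    exact ⟨fun h => by have := hv.1 h; omega, fun h => by have := hv.2 h; omega⟩

/-- near `v0` with `G (m v0) v0 ≥ 0` -/
private lemma Hyp.outside (H : Hyp G F Gx Gv Fx Fv m) {a b : ℝ → ℝ}
    (ha : ∀ v, G (m v) v < 0 → a v < m v ∧ G (a v) v = 0)
    (hb : ∀ v, G (m v) v < 0 → m v < b v ∧ G (b v) v = 0) {v0 : ℝ} (hv0 : 0 ≤ G (m v0) v0) :
    (∀ x, G x v0 = 0 → F x v0 ≠ 0) ∧
    ∀ᶠ v in 𝓝 v0, G (m v) v < 0 → sg (F (a v) v) = sg (F (b v) v) := by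
  have hcv : ∀ x, Continuous (fun v => G x v) := fun x =>
    H.contG.comp (by fun_prop : Continuous fun v : ℝ => (x, v))
  have hx0 : ∀ x, G x v0 = 0 → x = m v0 ∧ G (m v0) v0 = 0 := by
    intro x hx
    have h1 : x = m v0 := by
      by_contra hne
      have := H.min_lt hne
      linarith
    exact ⟨h1, by rw [← h1]; exact hx⟩
  have hFm : G (m v0) v0 = 0 → F (m v0) v0 ≠ 0 := by
    intro h1 h2
    apply H.hreg _ _ h1 h2
    have hd : HasDerivAt (fun y => G y v0) (Gx (m v0) v0) (m v0) := by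
      have h1 : HasDerivAt (fun y : ℝ => (y, v0)) ((1 : ℝ), (0 : ℝ)) (m v0) :=
        (hasDerivAt_id (m v0)).prodMk (hasDerivAt_const (m v0) v0)
      have h2 := (H.hG (m v0) v0).comp_hasDerivAt (m v0) h1
      have h3 : (Gx (m v0) v0 • ContinuousLinearMap.fst ℝ ℝ ℝ +
          Gv (m v0) v0 • ContinuousLinearMap.snd ℝ ℝ ℝ) ((1 : ℝ), (0 : ℝ)) = Gx (m v0) v0 := by simp
      rw [h3] at h2
      exact h2
    exact IsLocalMin.hasDerivAt_eq_zero (Filter.Eventually.of_forall fun y => H.min y v0) hd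
  refine ⟨?_, ?_⟩
  · intro x hx
    obtain ⟨h1, h2⟩ := hx0 x hx
    rw [h1]
    exact hFm h2
  -- localisation of the minimum
  have hloc : ∀ ε > 0, ∀ᶠ v in 𝓝 v0, 0 < G (m v0 - ε) v ∧ 0 < G (m v0 + ε) v ∧
      m v0 - ε < m v ∧ m v < m v0 + ε := by
    intro ε hε
    have e1 : G (m v0) v0 < G (m v0 - ε) v0 := H.min_lt (by linarith)
    have e2 : G (m v0) v0 < G (m v0 + ε) v0 := H.min_lt (by linarith)
    have c1 : Continuous (fun v => G (m v0 - ε) v - G (m v0) v) := (hcv _).sub (hcv _)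
    have c2 : Continuous (fun v => G (m v0 + ε) v - G (m v0) v) := (hcv _).sub (hcv _)
    filter_upwards [(hcv (m v0 - ε)).continuousAt.eventually (eventually_gt_nhds (hv0.trans_lt e1)),
      (hcv (m v0 + ε)).continuousAt.eventually (eventually_gt_nhds (hv0.trans_lt e2)),
      c1.continuousAt.eventually (eventually_gt_nhds (sub_pos.2 e1)),
      c2.continuousAt.eventually (eventually_gt_nhds (sub_pos.2 e2))] with v h1 h2 h3 h4
    exact ⟨h1, h2, H.lt_m (y := m v0) (by linarith) (by linarith),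
      H.m_lt (x := m v0) (by linarith) (by linarith)⟩
  rcases eq_or_lt_of_le hv0 with h0 | h0
  · have hF0 := hFm h0.symm
    -- F has constant sign near (m v0, v0)
    have hcF := H.contF.tendsto (m v0, v0)
    have hFs : ∃ ε > 0, ∀ x v, |x - m v0| < ε → |v - v0| < ε → sg (F x v) = sg (F (m v0) v0) := by
      have h1 : ∀ᶠ p in 𝓝 (m v0, v0), sg (F (p : ℝ × ℝ).1 p.2) = sg (F (m v0) v0) := by
        rcases lt_or_gt_of_ne hF0 with h | h
        · filter_upwards [hcF.eventually (eventually_lt_nhds h)] with v hv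
          rw [sg_neg hv, sg_neg h]
        · filter_upwards [hcF.eventually (eventually_gt_nhds h)] with v hv
          rw [sg_pos hv, sg_pos h]
      obtain ⟨ε, hε, hball⟩ := Metric.eventually_nhds_iff.1 h1
      refine ⟨ε, hε, fun x v hx hv => ?_⟩
      exact hball (y := (x, v)) (by rw [Prod.dist_eq]; exact max_lt hx hv)
    obtain ⟨ε, hε, hball⟩ := hFs
    have h1 : ∀ᶠ v in 𝓝 v0, |v - v0| < ε := by
      have := Metric.ball_mem_nhds v0 hε
      filter_upwards [this] with v hv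
      rwa [Metric.mem_ball, Real.dist_eq] at hv
    filter_upwards [hloc ε hε, h1] with v ⟨g1, g2, g3, g4⟩ g5 hI
    obtain ⟨f1, f2⟩ := ha v hI
    obtain ⟨f3, f4⟩ := hb v hI
    have f5 : m v0 - ε < a v := by
      by_contra hcon
      push Not at hcon
      rcases eq_or_lt_of_le hcon with h | h
      · rw [h] at f2; linarith
      · have := H.hanti v (Set.mem_Iic.2 f1.le) (Set.mem_Iic.2 g3.le) h
        simp only at this
        linarith
    have f6 : b v < m v0 + ε := by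
      by_contra hcon
      push Not at hcon
      rcases eq_or_lt_of_le hcon with h | h
      · rw [← h] at f4; linarith
      · have := H.hmono v (Set.mem_Ici.2 g4.le) (Set.mem_Ici.2 f3.le) h
        simp only at this
        linarith
    rw [hball (a v) v (by rw [abs_lt]; constructor <;> linarith) g5,
      hball (b v) v (by rw [abs_lt]; constructor <;> linarith) g5]
  · -- G positive nearby
    have hK : IsCompact (Set.Icc (m v0 - 1) (m v0 + 1)) := isCompact_Icc
    have h1 : ∀ᶠ v in 𝓝 v0, ∀ x ∈ Set.Icc (m v0 - 1) (m v0 + 1), 0 < G x v := by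
      apply hK.eventually_forall_of_forall_eventually
      intro x hx
      have h2 : Continuous (fun p : ℝ × ℝ => G p.2 p.1) :=
        H.contG.comp (by fun_prop : Continuous fun p : ℝ × ℝ => (p.2, p.1))
      exact (h2.tendsto (v0, x)).eventually (eventually_gt_nhds (h0.trans_le (H.min x v0)))
    filter_upwards [hloc 1 one_pos, h1] with v ⟨g1, g2, g3, g4⟩ g5 hI
    exact absurd (g5 (m v) ⟨g3.le, g4.le⟩) (not_lt.2 hI.le)

end

private noncomputable def stp (w v : ℝ) : ℤ := (if w ≤ v then 1 else 0) + (if w < v then 1 else 0)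

private lemma stp_jump (w v0 : ℝ) : ∀ᶠ v in 𝓝 v0,
    (v < v0 → stp w v0 - stp w v = if w = v0 then 1 else 0) ∧
    (v0 < v → stp w v - stp w v0 = if w = v0 then 1 else 0) := by
  unfold stp
  rcases lt_trichotomy w v0 with h | h | h
  · filter_upwards [eventually_gt_nhds h] with v hv
    rw [if_pos h.le, if_pos h, if_pos hv.le, if_pos hv, if_neg h.ne]
    exact ⟨fun _ => by norm_num, fun _ => by norm_num⟩
  · subst h
    refine Filter.Eventually.of_forall fun v => ⟨fun hv => ?_, fun hv => ?_⟩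
    · rw [if_pos le_rfl, if_neg (lt_irrefl w), if_neg (not_le.2 hv), if_neg (not_lt.2 hv.le), if_pos rfl]
      norm_num
    · rw [if_pos le_rfl, if_neg (lt_irrefl w), if_pos hv.le, if_pos hv, if_pos rfl]
      norm_num
  · filter_upwards [eventually_lt_nhds h] with v hv
    rw [if_neg (not_le.2 h), if_neg (not_lt.2 h.le), if_neg (not_le.2 hv), if_neg (not_lt.2 hv.le),
      if_neg h.ne']
    exact ⟨fun _ => by norm_num, fun _ => by norm_num⟩

private lemma stp_sum_jump (P : Finset (ℝ × ℝ)) (v0 : ℝ) : ∀ᶠ v in 𝓝 v0,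
    (v < v0 → ∑ p ∈ P, stp p.2 v0 - ∑ p ∈ P, stp p.2 v = ∑ p ∈ P, if p.2 = v0 then 1 else 0) ∧
    (v0 < v → ∑ p ∈ P, stp p.2 v - ∑ p ∈ P, stp p.2 v0 = ∑ p ∈ P, if p.2 = v0 then 1 else 0) := by
  have h1 : ∀ᶠ v in 𝓝 v0, ∀ p ∈ P, (v < v0 → stp p.2 v0 - stp p.2 v = if p.2 = v0 then 1 else 0) ∧
      (v0 < v → stp p.2 v - stp p.2 v0 = if p.2 = v0 then 1 else 0) := by
    rw [Filter.eventually_all_finset]
    intro p _
    exact stp_jump p.2 v0
  filter_upwards [h1] with v hv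
  refine ⟨fun h => ?_, fun h => ?_⟩
  · rw [← Finset.sum_sub_distrib]
    exact Finset.sum_congr rfl fun p hp => (hv p hp).1 h
  · rw [← Finset.sum_sub_distrib]
    exact Finset.sum_congr rfl fun p hp => (hv p hp).2 h

/-- Counting lemma. -/
theorem count_zeros (G F Gx Gv Fx Fv : ℝ → ℝ → ℝ)
    (hG : ∀ x v, HasFDerivAt (fun p : ℝ × ℝ => G p.1 p.2)
      (Gx x v • ContinuousLinearMap.fst ℝ ℝ ℝ + Gv x v • ContinuousLinearMap.snd ℝ ℝ ℝ) (x, v))
    (hF : ∀ x v, HasFDerivAt (fun p : ℝ × ℝ => F p.1 p.2)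
      (Fx x v • ContinuousLinearMap.fst ℝ ℝ ℝ + Fv x v • ContinuousLinearMap.snd ℝ ℝ ℝ) (x, v))
    (m : ℝ → ℝ)
    (hanti : ∀ v, StrictAntiOn (fun x => G x v) (Set.Iic (m v)))
    (hmono : ∀ v, StrictMonoOn (fun x => G x v) (Set.Ici (m v)))
    (hbot : ∀ v, ∃ x, x ≤ m v ∧ 0 < G x v)
    (htop : ∀ v, ∃ x, m v ≤ x ∧ 0 < G x v)
    (hreg : ∀ x v, G x v = 0 → F x v = 0 → Gx x v ≠ 0)
    (hjac : ∀ x v, G x v = 0 → F x v = 0 → Gx x v * Fv x v - Gv x v * Fx x v ≠ 0)
    (huniq : ∀ x v x' v', G x v = 0 → F x v = 0 → 0 < Gx x v * Fv x v - Gv x v * Fx x v →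
      G x' v' = 0 → F x' v' = 0 → 0 < Gx x' v' * Fv x' v' - Gv x' v' * Fx x' v' →
      x = x' ∧ v = v') :
    {p : ℝ × ℝ | G p.1 p.2 = 0 ∧ F p.1 p.2 = 0}.encard ≤ 4 := by
  classical
  have H : Hyp G F Gx Gv Fx Fv m := ⟨hG, hF, hanti, hmono, hbot, htop, hreg, hjac⟩
  obtain ⟨J, hJ⟩ : ∃ J : ℝ × ℝ → ℝ, ∀ p, J p = Gx p.1 p.2 * Fv p.1 p.2 - Gv p.1 p.2 * Fx p.1 p.2 :=
    ⟨fun p => Gx p.1 p.2 * Fv p.1 p.2 - Gv p.1 p.2 * Fx p.1 p.2, fun _ => rfl⟩
  by_contra hcon
  push Not at hcon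
  have h5 : ((5 : ℕ) : ℕ∞) ≤ {p : ℝ × ℝ | G p.1 p.2 = 0 ∧ F p.1 p.2 = 0}.encard := by
    have := Order.add_one_le_of_lt hcon
    exact this
  obtain ⟨t, ht, ht5⟩ := Set.exists_subset_encard_eq h5
  have hfin : t.Finite := Set.finite_of_encard_eq_coe ht5
  obtain ⟨Z, hZ⟩ : ∃ Z : Finset (ℝ × ℝ), Z = hfin.toFinset := ⟨_, rfl⟩
  have hZ5 : Z.card = 5 := by
    have h1 := hfin.encard_eq_coe_toFinset_card
    rw [ht5, ← hZ] at h1
    exact_mod_cast h1.symm
  have hZz : ∀ p ∈ Z, G p.1 p.2 = 0 ∧ F p.1 p.2 = 0 := by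
    intro p hp
    rw [hZ, Set.Finite.mem_toFinset] at hp
    exact ht hp
  obtain ⟨P, hP⟩ : ∃ P : Finset (ℝ × ℝ), P = Z.filter (fun p => J p < 0) := ⟨_, rfl⟩
  have hPz : ∀ p ∈ P, G p.1 p.2 = 0 ∧ F p.1 p.2 = 0 ∧ J p < 0 := by
    intro p hp
    rw [hP, Finset.mem_filter] at hp
    exact ⟨(hZz p hp.1).1, (hZz p hp.1).2, hp.2⟩
  have hP4 : 4 ≤ P.card := by
    have h1 : P.card + (Z.filter (fun p => ¬ J p < 0)).card = Z.card := by
      rw [hP]; exact Finset.card_filter_add_card_filter_not _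
    have h2 : (Z.filter (fun p => ¬ J p < 0)).card ≤ 1 := by
      rw [Finset.card_le_one]
      intro p hp q hq
      rw [Finset.mem_filter] at hp hq
      obtain ⟨hp1, hp2⟩ := hZz p hp.1
      obtain ⟨hq1, hq2⟩ := hZz q hq.1
      have h3 : 0 < J p := lt_of_le_of_ne (not_lt.1 hp.2) (by rw [hJ]; exact (hjac _ _ hp1 hp2).symm)
      have h4 : 0 < J q := lt_of_le_of_ne (not_lt.1 hq.2) (by rw [hJ]; exact (hjac _ _ hq1 hq2).symm)
      rw [hJ] at h3 h4
      have h5 := huniq _ _ _ _ hp1 hp2 h3 hq1 hq2 h4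
      exact Prod.ext h5.1 h5.2
    omega
  obtain ⟨D, hD, hD1⟩ : ∃ D : Finset (ℝ × ℝ), (∀ p, p ∈ D ↔ (G p.1 p.2 = 0 ∧ F p.1 p.2 = 0 ∧ 0 < J p)) ∧
      D.card ≤ 1 := by
    by_cases hex : ∃ d : ℝ × ℝ, G d.1 d.2 = 0 ∧ F d.1 d.2 = 0 ∧ 0 < J d
    · obtain ⟨d, hd1, hd2, hd3⟩ := hex
      refine ⟨{d}, fun p => ?_, by simp⟩
      rw [Finset.mem_singleton]
      constructor
      · rintro rfl; exact ⟨hd1, hd2, hd3⟩
      · rintro ⟨hp1, hp2, hp3⟩
        rw [hJ] at hp3 hd3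
        have h5 := huniq _ _ _ _ hp1 hp2 hp3 hd1 hd2 hd3
        exact Prod.ext h5.1 h5.2
    · refine ⟨∅, fun p => ?_, by simp⟩
      constructor
      · intro h; exact absurd h (Finset.notMem_empty p)
      · intro h; exact absurd ⟨p, h⟩ hex
  have hbr : ∀ v, ∃ a b, G (m v) v < 0 → (a < m v ∧ G a v = 0) ∧ (m v < b ∧ G b v = 0) := by
    intro v
    by_cases hv : G (m v) v < 0
    · obtain ⟨a, ha⟩ := H.exists_left hv
      obtain ⟨b, hb1, hb2⟩ := H.reflect.exists_left (v := v) (by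
        show G (-(-m v)) v < 0
        rw [neg_neg]; exact hv)
      exact ⟨a, -b, fun _ => ⟨ha, by linarith, hb2⟩⟩
    · exact ⟨0, 0, fun h => absurd h hv⟩
  choose a b hab using hbr
  have ha : ∀ v, G (m v) v < 0 → a v < m v ∧ G (a v) v = 0 := fun v hv => (hab v hv).1
  have hb : ∀ v, G (m v) v < 0 → m v < b v ∧ G (b v) v = 0 := fun v hv => (hab v hv).2
  obtain ⟨g, hg⟩ : ∃ g : ℝ → ℤ, ∀ v, g v = if G (m v) v < 0 then
      sg (F (a v) v) - sg (F (b v) v) else 0 := ⟨_, fun _ => rfl⟩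
  have hg2 : ∀ v, -2 ≤ g v ∧ g v ≤ 2 := by
    intro v
    rw [hg]
    have h1 := sg_le (F (a v) v)
    have h2 := le_sg (F (a v) v)
    have h3 := sg_le (F (b v) v)
    have h4 := le_sg (F (b v) v)
    split_ifs <;> constructor <;> omega
  -- zeros on the line v0
  have hzero : ∀ p : ℝ × ℝ, G p.1 p.2 = 0 → G (m p.2) p.2 < 0 → p = (a p.2, p.2) ∨ p = (b p.2, p.2) := by
    intro p hp hv
    obtain ⟨⟨h1, h2⟩, h3, h4⟩ := hab p.2 hv
    rcases lt_trichotomy p.1 (m p.2) with h | h | h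
    · left
      exact Prod.ext (H.left_unique h1 h2 h hp) rfl
    · rw [h] at hp; linarith
    · right
      refine Prod.ext ?_ rfl
      rcases lt_trichotomy p.1 (b p.2) with h' | h' | h'
      · have : G p.1 p.2 < G (b p.2) p.2 := H.hmono p.2 (Set.mem_Ici.2 h.le) (Set.mem_Ici.2 h3.le) h'
        linarith
      · exact h'
      · have : G (b p.2) p.2 < G p.1 p.2 := H.hmono p.2 (Set.mem_Ici.2 h3.le) (Set.mem_Ici.2 h.le) h'
        linarith
  -- local behaviour of g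
  have hloc : ∀ v0, ∃ w : ℤ, (∑ p ∈ P, (if p.2 = v0 then 1 else 0)) -
      (∑ p ∈ D, (if p.2 = v0 then 1 else 0)) ≤ w ∧ ∀ᶠ v in 𝓝 v0, (v < v0 → g v0 - g v = w) ∧
        (v0 < v → g v - g v0 = w) := by
    intro v0
    by_cases hv0 : G (m v0) v0 < 0
    · have hA := H.left_jump ha hv0
      have hB := H.right_jump hb hv0
      obtain ⟨κ, hκ⟩ : ∃ κ : ℝ × ℝ → ℤ, ∀ p, κ p = if F p.1 p.2 = 0 then
        (if Gx p.1 p.2 * Fv p.1 p.2 - Gv p.1 p.2 * Fx p.1 p.2 < 0 then 1 else -1) else 0 :=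
        ⟨_, fun _ => rfl⟩
      refine ⟨κ (a v0, v0) + κ (b v0, v0), ?_, ?_⟩
      · obtain ⟨⟨h1, h2⟩, h3, h4⟩ := hab v0 hv0
        have hne : (a v0, v0) ≠ (b v0, v0) := by
          intro h
          have : a v0 = b v0 := congrArg Prod.fst h
          linarith
        have hsplit : ∀ (S : Finset (ℝ × ℝ)), (∀ p ∈ S, G p.1 p.2 = 0) →
            ∑ p ∈ S, (if p.2 = v0 then (1 : ℤ) else 0) =
            (if (a v0, v0) ∈ S then 1 else 0) + (if (b v0, v0) ∈ S then 1 else 0) := by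
          intro S hS
          rw [← Finset.sum_ite_eq' S (a v0, v0) (fun _ => (1 : ℤ)),
            ← Finset.sum_ite_eq' S (b v0, v0) (fun _ => (1 : ℤ)), ← Finset.sum_add_distrib]
          refine Finset.sum_congr rfl fun p hp => ?_
          by_cases hpv : p.2 = v0
          · rcases hzero p (hS p hp) (by rw [hpv]; exact hv0) with h | h
            · rw [hpv] at h
              rw [if_pos hpv, if_pos h, if_neg (fun h' => hne (h.symm.trans h'))]
              norm_num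
            · rw [hpv] at h
              rw [if_pos hpv, if_pos h, if_neg (fun h' => hne (h'.symm.trans h))]
              norm_num
          · rw [if_neg hpv, if_neg (fun h => hpv (by rw [h])), if_neg (fun h => hpv (by rw [h]))]
            norm_num
        rw [hsplit P (fun p hp => (hPz p hp).1), hsplit D (fun p hp => ((hD p).1 hp).1)]
        have hκ2 : ∀ q : ℝ × ℝ, G q.1 q.2 = 0 →
            (if q ∈ P then (1 : ℤ) else 0) - (if q ∈ D then 1 else 0) ≤ κ q := by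
          intro q hq
          rw [hκ, ← hJ]
          by_cases hF0 : F q.1 q.2 = 0
          · rw [if_pos hF0]
            have hJ0 : J q ≠ 0 := by rw [hJ]; exact hjac _ _ hq hF0
            rcases lt_or_gt_of_ne hJ0 with h | h
            · rw [if_pos h]
              split_ifs <;> norm_num
            · rw [if_neg (not_lt.2 h.le), if_neg (fun h' => by have := (hPz q h').2.2; linarith),
                if_pos ((hD q).2 ⟨hq, hF0, h⟩)]
              norm_num
          · rw [if_neg hF0, if_neg (fun h' => hF0 (hPz q h').2.1),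
              if_neg (fun h' => hF0 ((hD q).1 h').2.1)]
            norm_num
        have e1 := hκ2 (a v0, v0) h2
        have e2 := hκ2 (b v0, v0) h4
        omega
      · filter_upwards [hA, hB, (H.left_tendsto ha hv0).1] with v h1 h2 h3
        rw [hκ, hκ, hg, hg, if_pos hv0, if_pos h3]
        constructor
        · intro h
          have e1 := h1.1 h
          have e2 := h2.1 h
          simp only at e1 e2 ⊢
          omega
        · intro h
          have e1 := h1.2 h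
          have e2 := h2.2 h
          simp only at e1 e2 ⊢
          omega
    · obtain ⟨h1, h2⟩ := H.outside ha hb (not_lt.1 hv0)
      refine ⟨0, ?_, ?_⟩
      · have e1 : ∑ p ∈ P, (if p.2 = v0 then (1 : ℤ) else 0) = 0 := by
          refine Finset.sum_eq_zero fun p hp => if_neg fun h => ?_
          subst h
          exact h1 p.1 (hPz p hp).1 (hPz p hp).2.1
        have e2 : ∑ p ∈ D, (if p.2 = v0 then (1 : ℤ) else 0) = 0 := by
          refine Finset.sum_eq_zero fun p hp => if_neg fun h => ?_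
          subst h
          exact h1 p.1 ((hD p).1 hp).1 ((hD p).1 hp).2.1
        rw [e1, e2]
        norm_num
      · filter_upwards [h2] with v hv
        have hgv : g v = 0 := by
          rw [hg]
          split_ifs with h
          · rw [hv h]; ring
          · rfl
        have hgv0 : g v0 = 0 := by rw [hg, if_neg hv0]
        rw [hgv, hgv0]
        exact ⟨fun _ => by norm_num, fun _ => by norm_num⟩
  obtain ⟨h, hh⟩ : ∃ h : ℝ → ℤ, ∀ v, h v = g v - ∑ p ∈ P, stp p.2 v + ∑ p ∈ D, stp p.2 v :=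
    ⟨_, fun _ => rfl⟩
  have hmon : ∀ {α β : ℝ}, α ≤ β → h α ≤ h β := by
    intro α β hαβ
    refine mono_of_local h ?_ ?_ hαβ
    · intro v0
      obtain ⟨w, hw, hw2⟩ := hloc v0
      filter_upwards [hw2, stp_sum_jump P v0, stp_sum_jump D v0] with v h1 h2 h3 hv
      have e1 := h1.1 hv
      have e2 := h2.1 hv
      have e3 := h3.1 hv
      rw [hh, hh]
      omega
    · intro v0
      obtain ⟨w, hw, hw2⟩ := hloc v0
      filter_upwards [hw2, stp_sum_jump P v0, stp_sum_jump D v0] with v h1 h2 h3 hv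
      have e1 := h1.2 hv
      have e2 := h2.2 hv
      have e3 := h3.2 hv
      rw [hh, hh]
      omega
  obtain ⟨R, hR⟩ : ∃ R : ℝ, R = ∑ p ∈ P ∪ D, |p.2| + 1 := ⟨_, rfl⟩
  have hR1 : ∀ p ∈ P ∪ D, |p.2| < R := by
    intro p hp
    have := Finset.single_le_sum (f := fun p : ℝ × ℝ => |p.2|) (fun _ _ => abs_nonneg _) hp
    rw [hR]
    linarith
  have hRpos : 0 < R := by
    have : 0 ≤ ∑ p ∈ P ∪ D, |p.2| := Finset.sum_nonneg fun _ _ => abs_nonneg _
    rw [hR]; linarith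
  have key := hmon (α := -R) (β := R) (by linarith)
  have hlow : ∀ S : Finset (ℝ × ℝ), S ⊆ P ∪ D → ∑ p ∈ S, stp p.2 (-R) = 0 := by
    intro S hS
    refine Finset.sum_eq_zero fun p hp => ?_
    have := (abs_lt.1 (hR1 p (hS hp))).1
    unfold stp
    rw [if_neg (not_le.2 this), if_neg (not_lt.2 this.le)]
    norm_num
  have hup : ∀ S : Finset (ℝ × ℝ), S ⊆ P ∪ D → ∑ p ∈ S, stp p.2 R = 2 * S.card := by
    intro S hS
    have h1 : ∀ p ∈ S, stp p.2 R = 2 := by
      intro p hp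
      have := (abs_lt.1 (hR1 p (hS hp))).2
      unfold stp
      rw [if_pos this.le, if_pos this]
      norm_num
    rw [Finset.sum_congr rfl h1, Finset.sum_const, nsmul_eq_mul]
    ring
  rw [hh, hh, hlow P Finset.subset_union_left, hlow D Finset.subset_union_right,
    hup P Finset.subset_union_left, hup D Finset.subset_union_right] at key
  have e1 := (hg2 (-R)).1
  have e2 := (hg2 R).2
  have e3 : (4 : ℤ) ≤ P.card := by exact_mod_cast hP4
  have e4 : (D.card : ℤ) ≤ 1 := by exact_mod_cast hD1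
  omega

end Pool.Agent.Helper19.Maxwell
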