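import Mathlib

set_option autoImplicit false

namespace Pool.Agent.Helper19.Maxwell

/-- Shape data: three unit complex numbers `c + i s` with product `-1`, `s2, s3 > 0`, `s1 ≠ 0`.
For a triangle with angles `A1, A2, A3` these are `(cos A, sin A)` or
`(cos A1, -cos A2, -cos A3)`, `(-sin A1, sin A2, sin A3)`. -/
structure Shape where
  c1 : ℝ
  c2 : ℝ
  c3 : ℝ
  s1 : ℝ
  s2 : ℝ
  s3 : ℝ
  h1 : c1 ^ 2 + s1 ^ 2 = 1
  h2 : c2 ^ 2 + s2 ^ 2 = 1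
  h3 : c3 ^ 2 + s3 ^ 2 = 1
  hc1 : c1 = s2 * s3 - c2 * c3
  hc2 : c2 = s3 * s1 - c3 * c1
  hc3 : c3 = s1 * s2 - c1 * c2
  hs1 : s1 = s2 * c3 + c2 * s3
  hs2 : s2 = s3 * c1 + c3 * s1
  hs3 : s3 = s1 * c2 + c1 * s2
  p2 : 0 < s2
  p3 : 0 < s3
  n1 : s1 ≠ 0

/-- `cosh u + c` -/
noncomputable def Del (c u : ℝ) : ℝ := Real.cosh u + c

/-- `sinh u / (cosh u + c)` -/
noncomputable def SS (c u : ℝ) : ℝ := Real.sinh u / (Real.cosh u + c)

/-- `s / (cosh u + c)` -/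
noncomputable def EE (c s u : ℝ) : ℝ := s / (Real.cosh u + c)

/-- The three differences `u` of the logarithmic coordinates `x, v, -v`. -/
noncomputable def D1 (T : Shape) (_x v : ℝ) : ℝ := Del T.c1 (2 * v)
noncomputable def D2 (T : Shape) (x v : ℝ) : ℝ := Del T.c2 (-v - x)
noncomputable def D3 (T : Shape) (x v : ℝ) : ℝ := Del T.c3 (x - v)

/-- Solutions of the system `D_i = lam * a_i * exp (tau_i / 3)` with `tau = (x, v, -v)`. -/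
def Sol (T : Shape) (a1 a2 a3 : ℝ) : Set (ℝ × ℝ) :=
  {p | ∃ lam : ℝ, 0 < lam ∧ D1 T p.1 p.2 = lam * (a1 * Real.exp (p.1 / 3)) ∧
    D2 T p.1 p.2 = lam * (a2 * Real.exp (p.2 / 3)) ∧
    D3 T p.1 p.2 = lam * (a3 * Real.exp (-p.2 / 3))}

/-- the squared anisotropy `rho^2 = -(S1 S2 + S2 S3 + S1 S3)` -/
noncomputable def ff (T : Shape) (x v : ℝ) : ℝ :=
  -(SS T.c1 (2 * v) * SS T.c2 (-v - x) + SS T.c2 (-v - x) * SS T.c3 (x - v) +
    SS T.c1 (2 * v) * SS T.c3 (x - v))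

end Pool.Agent.Helper19.Maxwell
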