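import Mathlib

set_option autoImplicit false

namespace Pool.Agent.Helper19.Maxwell

/-- Degeneracy of the Hessian form at an equilibrium from the determinant condition. -/
theorem degenerate (a : Fin 3 → EuclideanSpace ℝ (Fin 3))
    (hcol : ¬ Collinear ℝ (Set.range a)) (q : Fin 3 → ℝ)
    (x : EuclideanSpace ℝ (Fin 3)) (hx : x ∉ Set.range a) (β : Fin 3 → ℝ) (c : ℝ)
    (hβ : ∀ j, β j ≠ 0) (hsum : ∑ j, β j = 1) (heq : ∑ j, β j • (x - a j) = 0)
    (hq : ∀ j, q j / dist x (a j) ^ 3 = c * β j)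
    (hdet : β 0 * β 1 *
        (1 - inner ℝ (x - a 0) (x - a 1) ^ 2 / (dist x (a 0) ^ 2 * dist x (a 1) ^ 2))
      + β 1 * β 2 *
        (1 - inner ℝ (x - a 1) (x - a 2) ^ 2 / (dist x (a 1) ^ 2 * dist x (a 2) ^ 2))
      + β 0 * β 2 *
        (1 - inner ℝ (x - a 0) (x - a 2) ^ 2 / (dist x (a 0) ^ 2 * dist x (a 2) ^ 2))
      = 2 / 9) :
    ∃ v : EuclideanSpace ℝ (Fin 3), v ≠ 0 ∧ ∀ w : EuclideanSpace ℝ (Fin 3),
      ∑ j, q j * (3 * inner ℝ (x - a j) v * inner ℝ (x - a j) w / dist x (a j) ^ 5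
        - inner ℝ v w / dist x (a j) ^ 3) = 0 := by
  have hD : ∀ j, 0 < dist x (a j) := by
    intro j
    rw [dist_pos]
    rintro rfl
    exact hx ⟨j, rfl⟩
  set D : Fin 3 → ℝ := fun j => dist x (a j) with hDdef
  set d : Fin 3 → EuclideanSpace ℝ (Fin 3) := fun j => x - a j with hd
  have hDd : ∀ j, inner ℝ (d j) (d j) = D j ^ 2 := by
    intro j
    rw [real_inner_self_eq_norm_sq, hDdef, hd]
    simp only [dist_eq_norm]
  set G : Fin 3 → Fin 3 → ℝ := fun i j => β j * inner ℝ (d i) (d j) / D i ^ 2 with hG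
  have hGd : ∀ i, G i i = β i := by
    intro i
    have := hD i
    simp only [hG]
    rw [hDd]
    have h2 : D i ^ 2 ≠ 0 := pow_ne_zero _ (hD i).ne'
    rw [mul_div_assoc, div_self h2, mul_one]
  have hrow : ∀ i, G i 0 + G i 1 + G i 2 = 0 := by
    intro i
    have h1 : inner ℝ (d i) (∑ j, β j • d j) = (0 : ℝ) := by
      rw [show ∑ j, β j • d j = 0 from heq, inner_zero_right]
    rw [inner_sum, Fin.sum_univ_three, inner_smul_right, inner_smul_right, inner_smul_right] at h1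
    simp only [hG]
    rw [← add_div, ← add_div, h1, zero_div]
  have hG2 : ∀ i j, G i j * G j i = β i * β j * (inner ℝ (d i) (d j) ^ 2 / (D i ^ 2 * D j ^ 2)) := by
    intro i j
    simp only [hG]
    rw [real_inner_comm (d i) (d j)]
    have h2 : D i ^ 2 ≠ 0 := pow_ne_zero _ (hD i).ne'
    have h3 : D j ^ 2 ≠ 0 := pow_ne_zero _ (hD j).ne'
    field_simp
  have hdet' : (G 0 0 * G 1 1 - G 0 1 * G 1 0) + (G 1 1 * G 2 2 - G 1 2 * G 2 1) +
      (G 0 0 * G 2 2 - G 0 2 * G 2 0) = 2 / 9 := by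
    rw [hG2, hG2, hG2, hGd, hGd, hGd]
    have : β 0 * β 1 * (1 - inner ℝ (d 0) (d 1) ^ 2 / (D 0 ^ 2 * D 1 ^ 2))
      + β 1 * β 2 * (1 - inner ℝ (d 1) (d 2) ^ 2 / (D 1 ^ 2 * D 2 ^ 2))
      + β 0 * β 2 * (1 - inner ℝ (d 0) (d 2) ^ 2 / (D 0 ^ 2 * D 2 ^ 2)) = 2 / 9 := hdet
    linear_combination this
  have htr : G 0 0 + G 1 1 + G 2 2 = 1 := by
    rw [hGd, hGd, hGd, ← Fin.sum_univ_three]
    exact hsum
  let M : Matrix (Fin 3) (Fin 3) ℝ := Matrix.of fun i j => (if i = j then 1 else 0) - 3 * G i j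
  have hM : M.det = 0 := by
    rw [Matrix.det_fin_three]
    simp only [M, Matrix.of_apply]
    have e0 := hrow 0
    have e1 := hrow 1
    have e2 := hrow 2
    have g02 : G 0 2 = -G 0 0 - G 0 1 := by linarith
    have g12 : G 1 2 = -G 1 0 - G 1 1 := by linarith
    have g22 : G 2 2 = -G 2 0 - G 2 1 := by linarith
    rw [g02, g12, g22] at hdet'
    rw [g22] at htr
    rw [g02, g12, g22]
    simp only [if_neg (show ¬ (0:Fin 3) = 1 by decide), if_neg (show ¬ (0:Fin 3) = 2 by decide),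
      if_neg (show ¬ (1:Fin 3) = 0 by decide), if_neg (show ¬ (1:Fin 3) = 2 by decide),
      if_neg (show ¬ (2:Fin 3) = 0 by decide), if_neg (show ¬ (2:Fin 3) = 1 by decide), if_true]
    linear_combination 9 * hdet' - 3 * htr
  obtain ⟨t, ht0, ht⟩ := Matrix.exists_mulVec_eq_zero_iff.mpr hM
  set v : EuclideanSpace ℝ (Fin 3) := ∑ j, (β j * t j) • d j with hv
  have hti : ∀ i, t i = 3 * (inner ℝ (d i) v / D i ^ 2) := by
    intro i
    have h1 := congrFun ht i
    simp only [Matrix.mulVec, dotProduct, M, Matrix.of_apply, Pi.zero_apply, sub_mul,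
      Finset.sum_sub_distrib, ite_mul, one_mul, zero_mul, Finset.sum_ite_eq, Finset.mem_univ,
      if_true] at h1
    rw [hv, inner_sum, Finset.sum_div, Finset.mul_sum]
    rw [sub_eq_zero] at h1
    rw [h1]
    refine Finset.sum_congr rfl fun j _ => ?_
    rw [inner_smul_right]
    simp only [hG]
    ring
  refine ⟨v, ?_, ?_⟩
  · intro h0
    apply ht0
    funext i
    rw [hti i, h0, inner_zero_right]
    simp
  · intro w
    have h1 : ∀ j, q j = c * β j * D j ^ 3 := by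
      intro j
      have h2 : D j ^ 3 ≠ 0 := pow_ne_zero _ (hD j).ne'
      have := hq j
      rw [div_eq_iff h2] at this
      exact this
    have h2 : ∀ j, q j * (3 * inner ℝ (x - a j) v * inner ℝ (x - a j) w / dist x (a j) ^ 5
        - inner ℝ v w / dist x (a j) ^ 3) = c * (β j * t j * inner ℝ (d j) w) - c * β j * inner ℝ v w := by
      intro j
      rw [h1 j, hti j]
      show c * β j * D j ^ 3 * (3 * inner ℝ (d j) v * inner ℝ (d j) w / D j ^ 5
        - inner ℝ v w / D j ^ 3) = _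
      have h3 : D j ≠ 0 := (hD j).ne'
      generalize D j = δ at *
      field_simp
    rw [Finset.sum_congr rfl fun j _ => h2 j, Finset.sum_sub_distrib, ← Finset.mul_sum]
    have h3 : ∑ j, β j * t j * inner ℝ (d j) w = inner ℝ v w := by
      rw [hv, sum_inner]
      refine Finset.sum_congr rfl fun j _ => ?_
      rw [real_inner_smul_left]
    rw [h3, ← Finset.sum_mul, ← Finset.mul_sum, hsum]
    ring

end Pool.Agent.Helper19.Maxwell
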