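import Mathlib

set_option autoImplicit false

namespace Pool.Agent.Helper19.Maxwell

open Topology

theorem half_lemma {f : ℝ × ℝ → ℝ × ℝ} (hf : Continuous f) (α : ℝ × ℝ) (c : ℝ × ℝ → ℝ × ℝ)
    (s : ℝ × ℝ → ℝ) (U : Set (ℝ × ℝ)) (η : ℝ) (hη : 0 < η) (s0 s1 : ℝ)
    (hc : ∀ x : ℝ × ℝ, |x.1 - α.1| < η → |x.2 - s0| < η →
      ContinuousAt c x ∧ (f (c x)).1 = x.1 ∧ s (c x) = x.2 ∧ c x ∈ U)
    (hs1 : |s1 - s0| < η) (h0 : (f (c (α.1, s0))).2 = α.2)
    (h1 : (f (c (α.1, s1))).2 ≠ α.2) :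
    ∃ τ : Bool, ∀ᶠ ε in 𝓝[>] (0 : ℝ), ∀ᶠ β in 𝓝 ((α.1, α.2 + (if τ then ε else -ε)) : ℝ × ℝ),
      ∃ q ∈ U, f q = β ∧ ∃ s' ∈ Set.uIcc s0 s1, s' ≠ s0 ∧ s q = s' := by
  set G : ℝ × ℝ → ℝ := fun x => (f (c x)).2 with hG
  have hGc : ∀ x : ℝ × ℝ, |x.1 - α.1| < η → |x.2 - s0| < η → ContinuousAt G x := by
    intro x h1 h2
    have := (hf.continuousAt (x := c x)).comp (hc x h1 h2).1
    exact continuous_snd.continuousAt.comp this
  have hs' : ∀ s' ∈ Set.uIcc s0 s1, |s' - s0| < η := by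
    intro s' hs'
    exact (Set.abs_sub_left_of_mem_uIcc hs').trans_lt hs1
  -- general IVT step
  have ivt : ∀ b : ℝ, ((α.2 < b ∧ b < G (α.1, s1)) ∨ (G (α.1, s1) < b ∧ b < α.2)) →
      ∀ᶠ β in 𝓝 ((α.1, b) : ℝ × ℝ),
      ∃ q ∈ U, f q = β ∧ ∃ s' ∈ Set.uIcc s0 s1, s' ≠ s0 ∧ s q = s' := by
    intro b hb
    have c0 : ContinuousAt (fun β : ℝ × ℝ => G (β.1, s0)) (α.1, b) := by
      have k1 : ContinuousAt G (α.1, s0) := hGc (α.1, s0) (by simpa using hη) (by simpa using hη)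
      exact ContinuousAt.comp (f := fun β : ℝ × ℝ => (β.1, s0)) (g := G) k1 (by fun_prop)
    have c1 : ContinuousAt (fun β : ℝ × ℝ => G (β.1, s1)) (α.1, b) := by
      have k1 : ContinuousAt G (α.1, s1) := hGc (α.1, s1) (by simpa using hη) hs1
      exact ContinuousAt.comp (f := fun β : ℝ × ℝ => (β.1, s1)) (g := G) k1 (by fun_prop)
    have cb : ContinuousAt (fun β : ℝ × ℝ => β.2) (α.1, b) := by fun_prop
    have e1 : ∀ᶠ β in 𝓝 ((α.1, b) : ℝ × ℝ), (G (β.1, s0) < β.2 ∧ β.2 < G (β.1, s1)) ∨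
        (G (β.1, s1) < β.2 ∧ β.2 < G (β.1, s0)) := by
      rcases hb with ⟨hb1, hb2⟩ | ⟨hb1, hb2⟩
      · have a1 : ∀ᶠ β in 𝓝 ((α.1, b) : ℝ × ℝ), G (β.1, s0) < β.2 :=
          c0.eventually_lt cb (by show G (α.1, s0) < b; rw [hG]; simp only; rw [h0]; exact hb1)
        have a2 : ∀ᶠ β in 𝓝 ((α.1, b) : ℝ × ℝ), β.2 < G (β.1, s1) :=
          cb.eventually_lt c1 hb2
        filter_upwards [a1, a2] with β k1 k2
        exact Or.inl ⟨k1, k2⟩
      · have a1 : ∀ᶠ β in 𝓝 ((α.1, b) : ℝ × ℝ), β.2 < G (β.1, s0) :=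
          cb.eventually_lt c0 (by show b < G (α.1, s0); rw [hG]; simp only; rw [h0]; exact hb2)
        have a2 : ∀ᶠ β in 𝓝 ((α.1, b) : ℝ × ℝ), G (β.1, s1) < β.2 :=
          c1.eventually_lt cb hb1
        filter_upwards [a1, a2] with β k1 k2
        exact Or.inr ⟨k2, k1⟩
    have e2 : ∀ᶠ β in 𝓝 ((α.1, b) : ℝ × ℝ), |β.1 - α.1| < η := by
      have : ContinuousAt (fun β : ℝ × ℝ => |β.1 - α.1|) (α.1, b) := by fun_prop
      exact this.eventually_lt continuousAt_const (by simpa using hη)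
    filter_upwards [e1, e2] with β k1 k2
    have hcont : ContinuousOn (fun t => G (β.1, t)) (Set.uIcc s0 s1) := by
      intro t ht
      have k3 : ContinuousAt G (β.1, t) := hGc (β.1, t) k2 (hs' t ht)
      exact (ContinuousAt.comp (f := fun t : ℝ => (β.1, t)) (g := G) k3
        (by fun_prop)).continuousWithinAt
    have hmem : β.2 ∈ Set.uIcc (G (β.1, s0)) (G (β.1, s1)) := by
      rw [Set.mem_uIcc]
      rcases k1 with k1 | k1
      · exact Or.inl ⟨k1.1.le, k1.2.le⟩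
      · exact Or.inr ⟨k1.1.le, k1.2.le⟩
    obtain ⟨t, ht, hGt⟩ := intermediate_value_uIcc hcont hmem
    have hct := hc (β.1, t) k2 (hs' t ht)
    refine ⟨c (β.1, t), hct.2.2.2, Prod.ext hct.2.1 hGt, t, ht, ?_, hct.2.2.1⟩
    rintro rfl
    have hGt' : G (β.1, t) = β.2 := hGt
    rcases k1 with k1 | k1
    · exact absurd hGt' k1.1.ne
    · exact absurd hGt' k1.2.ne'
  rcases lt_or_gt_of_ne h1 with h1 | h1
  · refine ⟨false, ?_⟩
    have : ∀ᶠ ε in 𝓝[>] (0 : ℝ), ε < α.2 - G (α.1, s1) := by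
      apply nhdsWithin_le_nhds
      exact Iio_mem_nhds (by simp only [hG]; linarith)
    filter_upwards [this, self_mem_nhdsWithin] with ε k1 k2
    have k2 : 0 < ε := k2
    simp only [Bool.false_eq_true, if_false]
    exact ivt _ (Or.inr ⟨by linarith, by linarith⟩)
  · refine ⟨true, ?_⟩
    have : ∀ᶠ ε in 𝓝[>] (0 : ℝ), ε < G (α.1, s1) - α.2 := by
      apply nhdsWithin_le_nhds
      exact Iio_mem_nhds (by simp only [hG]; linarith)
    filter_upwards [this, self_mem_nhdsWithin] with ε k1 k2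
    have k2 : 0 < ε := k2
    simp only [if_true]
    exact ivt _ (Or.inl ⟨by linarith, by linarith⟩)

theorem local_lemma {f : ℝ × ℝ → ℝ × ℝ} (hf : ContDiff ℝ 1 f) {p : ℝ × ℝ}
    (s : ℝ × ℝ →L[ℝ] ℝ) (hinj : ∀ v, (fderiv ℝ f p v).1 = 0 → s v = 0 → v = 0)
    {U : Set (ℝ × ℝ)} (hU : U ∈ 𝓝 p) (hiso : ∀ᶠ q in 𝓝 p, f q = f p → q = p) (b : Bool) :
    ∃ τ : Bool, ∀ᶠ ε in 𝓝[>] (0 : ℝ),
      ∀ᶠ β in 𝓝 (((f p).1, (f p).2 + (if τ then ε else -ε)) : ℝ × ℝ),
      ∃ q ∈ U, f q = β ∧ (if b then s p < s q else s q < s p) := by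
  set A : ℝ × ℝ →L[ℝ] ℝ × ℝ := ((ContinuousLinearMap.fst ℝ ℝ ℝ).comp (fderiv ℝ f p)).prod s with hA
  have hAinj : Function.Injective A := by
    rw [injective_iff_map_eq_zero]
    intro v hv
    have h1 : (fderiv ℝ f p v).1 = 0 := congrArg Prod.fst hv
    have h2 : s v = 0 := congrArg Prod.snd hv
    exact hinj v h1 h2
  set E : (ℝ × ℝ) ≃L[ℝ] (ℝ × ℝ) :=
    (LinearEquiv.ofInjectiveEndo (A : ℝ × ℝ →ₗ[ℝ] ℝ × ℝ) hAinj).toContinuousLinearEquiv with hE
  have hEA : (E : ℝ × ℝ →L[ℝ] ℝ × ℝ) = A := by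
    ext v <;> rfl
  have hstrict : HasStrictFDerivAt (fun q => ((f q).1, s q)) (E : ℝ × ℝ →L[ℝ] ℝ × ℝ) p := by
    rw [hEA, hA]
    have h1 : HasStrictFDerivAt f (fderiv ℝ f p) p :=
      (hf.contDiffAt).hasStrictFDerivAt (by norm_num)
    have h2 : HasStrictFDerivAt (fun q => (f q).1) ((ContinuousLinearMap.fst ℝ ℝ ℝ).comp
      (fderiv ℝ f p)) p := (ContinuousLinearMap.fst ℝ ℝ ℝ).hasStrictFDerivAt.comp p h1
    exact h2.prodMk s.hasStrictFDerivAt
  set e := hstrict.toOpenPartialHomeomorph (fun q => ((f q).1, s q)) with he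
  have hecoe : ∀ q, e q = ((f q).1, s q) := fun q => rfl
  have hps : p ∈ e.source := hstrict.mem_toOpenPartialHomeomorph_source
  have hpt : e p ∈ e.target := e.map_source hps
  have hsymm : e.symm (e p) = p := e.left_inv hps
  have hcs : ContinuousAt e.symm (e p) := e.continuousAt_symm hpt
  have ht : Filter.Tendsto e.symm (𝓝 (e p)) (𝓝 p) := by
    have := hcs
    rw [ContinuousAt, hsymm] at this
    exact this
  have hev : ∀ᶠ x in 𝓝 (e p), x ∈ e.target ∧ e.symm x ∈ U ∧ (f (e.symm x) = f p → e.symm x = p) :=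
    Filter.Eventually.and (e.open_target.mem_nhds hpt)
      (Filter.Eventually.and (ht.eventually hU) (ht.eventually hiso))
  obtain ⟨η, hη, hball⟩ := Metric.eventually_nhds_iff.mp hev
  have hbox : ∀ x : ℝ × ℝ, |x.1 - (f p).1| < η → |x.2 - s p| < η →
      x ∈ e.target ∧ e.symm x ∈ U ∧ (f (e.symm x) = f p → e.symm x = p) := by
    intro x h1 h2
    apply hball
    rw [hecoe, Prod.dist_eq, Real.dist_eq, Real.dist_eq]
    exact max_lt h1 h2
  have hright : ∀ x ∈ e.target, (f (e.symm x)).1 = x.1 ∧ s (e.symm x) = x.2 := by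
    intro x hx
    have := e.right_inv hx
    rw [hecoe] at this
    have k1 := congrArg Prod.fst this
    have k2 := congrArg Prod.snd this
    exact ⟨k1, k2⟩
  have hep : e.symm ((f p).1, s p) = p := by rw [← hecoe, hsymm]
  set s1 : ℝ := if b then s p + η / 2 else s p - η / 2 with hs1
  have hs1a : |s1 - s p| < η := by
    rw [hs1]
    split_ifs
    · rw [add_sub_cancel_left, abs_of_pos (by positivity)]; linarith
    · rw [sub_sub_cancel_left, abs_neg, abs_of_pos (by positivity)]; linarith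
  have hs1b : s1 ≠ s p := by
    rw [hs1]
    split_ifs
    · intro h; linarith
    · intro h; linarith
  obtain ⟨τ, hτ⟩ := half_lemma hf.continuous (f p) e.symm s U η hη (s p) s1 (fun x h1 h2 => by
      have h3 := hbox x h1 h2
      have h4 := hright x h3.1
      exact ⟨e.continuousAt_symm h3.1, h4.1, h4.2, h3.2.1⟩) hs1a (by rw [hep]) (by
      intro h
      have h3 := hbox ((f p).1, s1) (by simpa using hη) hs1a
      have h4 := hright _ h3.1
      have h5 := h3.2.2 (Prod.ext h4.1 h)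
      have h6 := h4.2
      rw [h5] at h6
      exact hs1b h6.symm)
  refine ⟨τ, ?_⟩
  filter_upwards [hτ] with ε hε
  filter_upwards [hε] with β hβ
  obtain ⟨q, hq, hfq, s', hs', hne, hsq⟩ := hβ
  refine ⟨q, hq, hfq, ?_⟩
  rw [hsq]
  rw [Set.mem_uIcc] at hs'
  cases b with
  | true =>
    simp only [if_true] at hs1 ⊢
    rcases hs' with hs' | hs'
    · exact lt_of_le_of_ne hs'.1 hne.symm
    · linarith [hs'.1, hs'.2]
  | false =>
    simp only [Bool.false_eq_true, if_false] at hs1 ⊢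
    rcases hs' with hs' | hs'
    · linarith [hs'.1, hs'.2]
    · exact lt_of_le_of_ne hs'.2 hne

theorem exists_func {f : ℝ × ℝ → ℝ × ℝ} {p : ℝ × ℝ}
    (h : (ContinuousLinearMap.fst ℝ ℝ ℝ).comp (fderiv ℝ f p) ≠ 0) :
    ∃ s : ℝ × ℝ →L[ℝ] ℝ, ∀ v, (fderiv ℝ f p v).1 = 0 → s v = 0 → v = 0 := by
  set A := fderiv ℝ f p with hA
  have hdec : ∀ v : ℝ × ℝ, (A v).1 = v.1 * (A (1, 0)).1 + v.2 * (A (0, 1)).1 := by
    intro v
    have : v = v.1 • ((1, 0) : ℝ × ℝ) + v.2 • ((0, 1) : ℝ × ℝ) := by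
      ext <;> simp
    conv_lhs => rw [this, map_add, map_smul, map_smul]
    simp
  by_cases h1 : (A (0, 1)).1 = 0
  · have h2 : (A (1, 0)).1 ≠ 0 := by
      intro h2
      apply h
      apply ContinuousLinearMap.ext
      intro v
      show (A v).1 = 0
      rw [hdec v, h1, h2]
      simp
    refine ⟨ContinuousLinearMap.snd ℝ ℝ ℝ, fun v hv1 hv2 => ?_⟩
    have hv2' : v.2 = 0 := hv2
    rw [hdec v, hv2', zero_mul, add_zero] at hv1
    exact Prod.ext ((mul_eq_zero.mp hv1).resolve_right h2) hv2'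
  · refine ⟨ContinuousLinearMap.fst ℝ ℝ ℝ, fun v hv1 hv2 => ?_⟩
    have hv2' : v.1 = 0 := hv2
    rw [hdec v, hv2', zero_mul, zero_add] at hv1
    exact Prod.ext hv2' ((mul_eq_zero.mp hv1).resolve_right h1)

theorem regular_dense {f : ℝ × ℝ → ℝ × ℝ} (hf : ContDiff ℝ 1 f) :
    Dense {β : ℝ × ℝ | ∀ p, f p = β → (fderiv ℝ f p).det ≠ 0} := by
  have h := MeasureTheory.addHaar_image_eq_zero_of_det_fderivWithin_eq_zero
    (MeasureTheory.volume : MeasureTheory.Measure (ℝ × ℝ)) (f := f) (f' := fderiv ℝ f)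
    (s := {p | (fderiv ℝ f p).det = 0})
    (fun x _ => ((hf.differentiable (by norm_num)) x).hasFDerivAt.hasFDerivWithinAt)
    (fun x hx => hx)
  have h2 : ∀ᵐ β ∂(MeasureTheory.volume : MeasureTheory.Measure (ℝ × ℝ)),
      β ∉ f '' {p | (fderiv ℝ f p).det = 0} := MeasureTheory.measure_eq_zero_iff_ae_notMem.mp h
  have h3 := MeasureTheory.Measure.dense_of_ae h2
  refine h3.mono ?_
  intro β hβ p hp hdet
  exact hβ ⟨p, hdet, hp⟩

theorem main1 (N : ℕ) (f : ℝ × ℝ → ℝ × ℝ) (hf : ContDiff ℝ 1 f)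
    (hreg : ∀ β : ℝ × ℝ, (∀ p, f p = β → (fderiv ℝ f p).det ≠ 0) →
      {p | f p = β}.encard ≤ (N : ℕ∞))
    (α : ℝ × ℝ) (P : Finset (ℝ × ℝ)) (hP : ∀ p ∈ P, f p = α)
    (hrank : ∀ p ∈ P, (ContinuousLinearMap.fst ℝ ℝ ℝ).comp (fderiv ℝ f p) ≠ 0)
    (hiso : ∀ p ∈ P, ∀ᶠ q in 𝓝 p, f q = α → q = p) : P.card ≤ N := by
  classical
  -- disjoint neighbourhoods
  obtain ⟨U, hU, hdisj⟩ := (P.finite_toSet).t2_separation
  -- functionals
  have hs := fun p : P => exists_func (hrank p.1 p.2)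
  choose s hs using hs
  have hloc := fun (p : P) (b : Bool) => local_lemma hf (s p) (hs p)
    ((hU p.1).2.mem_nhds (hU p.1).1) (by
      rw [hP p.1 p.2]; exact hiso p.1 p.2) b
  choose τ hτ using hloc
  have key : ∀ t : Bool, (Finset.univ.filter (fun x : P × Bool => τ x.1 x.2 = t)).card ≤ N := by
    intro t
    set T := Finset.univ.filter (fun x : P × Bool => τ x.1 x.2 = t) with hT
    have h1 : ∀ᶠ ε in 𝓝[>] (0 : ℝ), ∀ x ∈ T,
        ∀ᶠ β in 𝓝 ((α.1, α.2 + (if t then ε else -ε)) : ℝ × ℝ),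
          ∃ q ∈ U x.1, f q = β ∧ (if x.2 then s x.1 x.1 < s x.1 q else s x.1 q < s x.1 x.1) := by
      rw [Filter.eventually_all_finset]
      intro x hx
      have h2 := hτ x.1 x.2
      rw [hP x.1.1 x.1.2] at h2
      have h3 : τ x.1 x.2 = t := (Finset.mem_filter.mp hx).2
      rw [h3] at h2
      exact h2
    obtain ⟨ε, hε⟩ := h1.exists
    have h2 : ∀ᶠ β in 𝓝 ((α.1, α.2 + (if t then ε else -ε)) : ℝ × ℝ), ∀ x ∈ T,
          ∃ q ∈ U x.1, f q = β ∧ (if x.2 then s x.1 x.1 < s x.1 q else s x.1 q < s x.1 x.1) := by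
      rw [Filter.eventually_all_finset]
      exact hε
    obtain ⟨β, hβ1, hβ2⟩ := (regular_dense hf).inter_nhds_nonempty h2
    have hfib := hreg β hβ1
    choose! q hq1 hq2 hq3 using hβ2
    have hinj : Set.InjOn q T := by
      intro x hx y hy hxy
      have e1 : x.1.1 = y.1.1 := by
        by_contra hne
        have := hdisj x.1.2 y.1.2 hne
        exact Set.disjoint_left.mp this (hq1 x hx) (hxy ▸ hq1 y hy)
      have e1' : x.1 = y.1 := Subtype.ext e1
      have e2 : x.2 = y.2 := by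
        have k1 := hq3 x hx
        have k2 := hq3 y hy
        rw [hxy, e1'] at k1
        by_contra hne
        cases hx2 : x.2 <;> cases hy2 : y.2
        · exact hne (by rw [hx2, hy2])
        · rw [hx2] at k1; rw [hy2] at k2
          simp at k1 k2
          exact lt_asymm k1 k2
        · rw [hx2] at k1; rw [hy2] at k2
          simp at k1 k2
          exact lt_asymm k1 k2
        · exact hne (by rw [hx2, hy2])
      exact Prod.ext e1' e2
    have hsub : ((T.image q : Finset (ℝ × ℝ)) : Set (ℝ × ℝ)) ⊆ {p | f p = β} := by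
      intro z hz
      rw [Finset.coe_image] at hz
      obtain ⟨x, hx, rfl⟩ := hz
      exact hq2 x hx
    have hc1 := (Set.encard_le_encard hsub).trans hfib
    rw [Set.encard_coe_eq_coe_finsetCard, Finset.card_image_of_injOn hinj] at hc1
    exact_mod_cast hc1
  have hsum : (Finset.univ.filter (fun x : P × Bool => τ x.1 x.2 = true)).card +
      (Finset.univ.filter (fun x : P × Bool => τ x.1 x.2 = false)).card = P.card * 2 := by
    have h1 := Finset.card_filter_add_card_filter_not (s := (Finset.univ : Finset (P × Bool)))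
      (fun x => τ x.1 x.2 = true)
    simp only [Bool.not_eq_true] at h1
    rw [h1, Finset.card_univ, Fintype.card_prod, Fintype.card_coe, Fintype.card_bool]
  have := key true
  have := key false
  omega

/-- TARGET. If every regular fibre of a `C^1` map of the plane has at most `N` points, then any
fibre has at most `N` points which are isolated in the fibre and where the derivative is not zero. -/
theorem isolated_fiber_le (N : ℕ) (f : ℝ × ℝ → ℝ × ℝ) (hf : ContDiff ℝ 1 f)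
    (hreg : ∀ β : ℝ × ℝ, (∀ p, f p = β → (fderiv ℝ f p).det ≠ 0) →
      {p | f p = β}.encard ≤ (N : ℕ∞))
    (α : ℝ × ℝ) (P : Finset (ℝ × ℝ)) (hP : ∀ p ∈ P, f p = α)
    (hrank : ∀ p ∈ P, fderiv ℝ f p ≠ 0)
    (hiso : ∀ p ∈ P, ∀ᶠ q in 𝓝 p, f q = α → q = p) : P.card ≤ N := by
  classical
  have hbadfin : (⋃ p ∈ P, {θ : ℝ | ∀ v, (fderiv ℝ f p v).1 + θ * (fderiv ℝ f p v).2 = 0}).Finite := by
    refine Set.Finite.biUnion P.finite_toSet (fun p hp => ?_)
    refine Set.Subsingleton.finite (fun θ hθ θ' hθ' => ?_)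
    by_contra hne
    apply hrank p hp
    apply ContinuousLinearMap.ext
    intro v
    have h1 : (fderiv ℝ f p v).1 + θ * (fderiv ℝ f p v).2 = 0 := hθ v
    have h2 : (fderiv ℝ f p v).1 + θ' * (fderiv ℝ f p v).2 = 0 := hθ' v
    have h3 : (θ - θ') * (fderiv ℝ f p v).2 = 0 := by linear_combination h1 - h2
    have h4 : (fderiv ℝ f p v).2 = 0 := (mul_eq_zero.mp h3).resolve_left (sub_ne_zero.mpr hne)
    rw [h4, mul_zero, add_zero] at h1
    exact Prod.ext h1 h4
  obtain ⟨θ, hθ⟩ := hbadfin.infinite_compl.nonempty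
  have hθ' : ∀ p ∈ P, ∃ v, (fderiv ℝ f p v).1 + θ * (fderiv ℝ f p v).2 ≠ 0 := by
    intro p hp
    by_contra hcon
    push Not at hcon
    exact hθ (Set.mem_biUnion hp hcon)
  set L : ℝ × ℝ →L[ℝ] ℝ × ℝ := (ContinuousLinearMap.fst ℝ ℝ ℝ +
    θ • ContinuousLinearMap.snd ℝ ℝ ℝ).prod (ContinuousLinearMap.snd ℝ ℝ ℝ) with hL
  have hLv : ∀ v, L v = (v.1 + θ * v.2, v.2) := fun v => rfl
  have hdiff := hf.differentiable (n := 1) (by norm_num)
  have hfd : ∀ p, fderiv ℝ (fun q => L (f q)) p = L.comp (fderiv ℝ f p) := fun p =>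
    (L.hasFDerivAt.comp p (hdiff p).hasFDerivAt).fderiv
  refine main1 N (fun q => L (f q)) (L.contDiff.comp hf) ?_ (L α) P
    (fun p hp => by rw [hP p hp]) ?_ ?_
  · intro β hβ
    have hset : {p | L (f p) = β} = {p | f p = (β.1 - θ * β.2, β.2)} := by
      ext p
      show L (f p) = β ↔ f p = (β.1 - θ * β.2, β.2)
      rw [hLv]
      constructor
      · intro h
        rw [← h]
        ext <;> simp
      · intro h
        rw [h]
        ext <;> simp
    rw [hset]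
    apply hreg
    intro p hp
    have h1 : L (f p) = β := by
      have : p ∈ {p | L (f p) = β} := by rw [hset]; exact hp
      exact this
    have h2 := hβ p h1
    rw [hfd] at h2
    intro h3
    apply h2
    have : (L.comp (fderiv ℝ f p)).det = L.det * (fderiv ℝ f p).det := by
      unfold ContinuousLinearMap.det
      exact LinearMap.det_comp _ _
    rw [this, h3, mul_zero]
  · intro p hp
    obtain ⟨v, hv⟩ := hθ' p hp
    intro h
    apply hv
    have := DFunLike.congr_fun h v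
    rw [hfd] at this
    exact this
  · intro p hp
    filter_upwards [hiso p hp] with q hq h
    apply hq
    rw [hLv, hLv] at h
    have h1 := congrArg Prod.fst h
    have h2 := congrArg Prod.snd h
    simp only at h1 h2
    rw [h2] at h1
    exact Prod.ext (by linarith) h2

end Pool.Agent.Helper19.Maxwell
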