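import Pool.Agent.Helper19.Maxwell.Main
import Pool.Agent.Helper19.Maxwell.FiberLe
import Pool.Agent.Helper19.Maxwell.CollinearFinite
import Pool.Agent.Helper19.Maxwell.BackwardGen

set_option autoImplicit false

namespace Pool.Agent.Helper19.Maxwell

open N62f3cee0 Topology Filter

/-- the logarithmic form of the system -/
noncomputable def Psi (T : Shape) (p : ℝ × ℝ) : ℝ × ℝ :=
  (Real.log (D1 T p.1 p.2) - Real.log (D2 T p.1 p.2) - (p.1 - p.2) / 3,
   Real.log (D1 T p.1 p.2) - Real.log (D3 T p.1 p.2) - (p.1 + p.2) / 3)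

theorem D1_pos (T : Shape) (x v : ℝ) : 0 < D1 T x v := del_pos T.c1_gt _
theorem D2_pos (T : Shape) (x v : ℝ) : 0 < D2 T x v := del_pos T.c2_gt _
theorem D3_pos (T : Shape) (x v : ℝ) : 0 < D3 T x v := del_pos T.c3_gt _

theorem mem_Sol_iff_Psi (T : Shape) {a1 a2 a3 : ℝ} (ha1 : 0 < a1) (ha2 : 0 < a2) (ha3 : 0 < a3)
    (p : ℝ × ℝ) : p ∈ Sol T a1 a2 a3 ↔
      Psi T p = (Real.log a1 - Real.log a2, Real.log a1 - Real.log a3) := by
  have h1 := D1_pos T p.1 p.2
  have h2 := D2_pos T p.1 p.2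
  have h3 := D3_pos T p.1 p.2
  constructor
  · rintro ⟨lam, hl, e1, e2, e3⟩
    have k : ∀ {b t : ℝ}, 0 < b → Real.log (lam * (b * Real.exp t)) =
        Real.log lam + (Real.log b + t) := by
      intro b t hb
      rw [Real.log_mul hl.ne' (mul_pos hb (Real.exp_pos _)).ne',
        Real.log_mul hb.ne' (Real.exp_pos _).ne', Real.log_exp]
    unfold Psi
    rw [e1, e2, e3, k ha1, k ha2, k ha3]
    apply Prod.ext <;> simp only <;> ring
  · intro h
    have hA := congrArg Prod.fst h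
    have hB := congrArg Prod.snd h
    simp only [Psi] at hA hB
    have hx : 0 < a1 * Real.exp (p.1 / 3) := mul_pos ha1 (Real.exp_pos _)
    refine ⟨D1 T p.1 p.2 / (a1 * Real.exp (p.1 / 3)), div_pos h1 hx, ?_, ?_, ?_⟩
    · field_simp
    · have hr : 0 < D1 T p.1 p.2 / (a1 * Real.exp (p.1 / 3)) * (a2 * Real.exp (p.2 / 3)) := by
        positivity
      apply Real.log_injOn_pos (Set.mem_Ioi.2 h2) (Set.mem_Ioi.2 hr)
      rw [Real.log_mul (by positivity) (by positivity), Real.log_div h1.ne' hx.ne',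
        Real.log_mul ha1.ne' (Real.exp_pos _).ne', Real.log_mul ha2.ne' (Real.exp_pos _).ne',
        Real.log_exp, Real.log_exp]
      linarith
    · have hr : 0 < D1 T p.1 p.2 / (a1 * Real.exp (p.1 / 3)) * (a3 * Real.exp (-p.2 / 3)) := by
        positivity
      apply Real.log_injOn_pos (Set.mem_Ioi.2 h3) (Set.mem_Ioi.2 hr)
      rw [Real.log_mul (by positivity) (by positivity), Real.log_div h1.ne' hx.ne',
        Real.log_mul ha1.ne' (Real.exp_pos _).ne', Real.log_mul ha3.ne' (Real.exp_pos _).ne',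
        Real.log_exp, Real.log_exp]
      linarith

theorem contDiff_D1 (T : Shape) : ContDiff ℝ 1 (fun p : ℝ × ℝ => D1 T p.1 p.2) := by
  unfold D1 Del
  exact (Real.contDiff_cosh.comp (contDiff_const.mul contDiff_snd)).add contDiff_const
theorem contDiff_D2 (T : Shape) : ContDiff ℝ 1 (fun p : ℝ × ℝ => D2 T p.1 p.2) := by
  unfold D2 Del
  exact (Real.contDiff_cosh.comp (contDiff_snd.neg.sub contDiff_fst)).add contDiff_const
theorem contDiff_D3 (T : Shape) : ContDiff ℝ 1 (fun p : ℝ × ℝ => D3 T p.1 p.2) := by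
  unfold D3 Del
  exact (Real.contDiff_cosh.comp (contDiff_fst.sub contDiff_snd)).add contDiff_const

theorem contDiff_Psi (T : Shape) : ContDiff ℝ 1 (Psi T) := by
  have l1 := (contDiff_D1 T).log (fun p => (D1_pos T p.1 p.2).ne')
  have l2 := (contDiff_D2 T).log (fun p => (D2_pos T p.1 p.2).ne')
  have l3 := (contDiff_D3 T).log (fun p => (D3_pos T p.1 p.2).ne')
  have a : ContDiff ℝ 1 (fun p : ℝ × ℝ => (p.1 - p.2) / 3) :=
    (contDiff_fst.sub contDiff_snd).div_const _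
  have b : ContDiff ℝ 1 (fun p : ℝ × ℝ => (p.1 + p.2) / 3) :=
    (contDiff_fst.add contDiff_snd).div_const _
  exact ((l1.sub l2).sub a).prodMk ((l1.sub l3).sub b)

/-- matrix of the derivative -/
noncomputable def dPsi (A B C D : ℝ) : ℝ × ℝ →L[ℝ] ℝ × ℝ :=
  (A • ContinuousLinearMap.fst ℝ ℝ ℝ + B • ContinuousLinearMap.snd ℝ ℝ ℝ).prod
    (C • ContinuousLinearMap.fst ℝ ℝ ℝ + D • ContinuousLinearMap.snd ℝ ℝ ℝ)

theorem dPsi_apply (A B C D : ℝ) (z : ℝ × ℝ) :
    dPsi A B C D z = (A * z.1 + B * z.2, C * z.1 + D * z.2) := rfl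

theorem det_dPsi (A B C D : ℝ) : (dPsi A B C D).det = A * D - B * C := by
  have h : (dPsi A B C D).det = LinearMap.det ((dPsi A B C D : ℝ × ℝ →L[ℝ] ℝ × ℝ) :
      ℝ × ℝ →ₗ[ℝ] ℝ × ℝ) := rfl
  rw [h, ← LinearMap.det_toMatrix (Module.Basis.finTwoProd ℝ), Matrix.det_fin_two]
  simp [LinearMap.toMatrix_apply, dPsi_apply]

theorem hasFDerivAt_Psi (T : Shape) (p : ℝ × ℝ) :
    HasFDerivAt (Psi T) (dPsi (SS T.c2 (-p.2 - p.1) - 1 / 3)
      (2 * SS T.c1 (2 * p.2) + SS T.c2 (-p.2 - p.1) + 1 / 3)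
      (-SS T.c3 (p.1 - p.2) - 1 / 3)
      (2 * SS T.c1 (2 * p.2) + SS T.c3 (p.1 - p.2) - 1 / 3)) p := by
  have f1 : HasFDerivAt (fun p : ℝ × ℝ => p.1) (ContinuousLinearMap.fst ℝ ℝ ℝ) p :=
    hasFDerivAt_fst
  have f2 : HasFDerivAt (fun p : ℝ × ℝ => p.2) (ContinuousLinearMap.snd ℝ ℝ ℝ) p :=
    hasFDerivAt_snd
  have k : ∀ (c : ℝ), -1 < c → ∀ u : ℝ,
      HasDerivAt (fun u => Real.log (Real.cosh u + c)) (SS c u) u := by
    intro c hc u
    have := ((Real.hasDerivAt_cosh u).add_const c).log (del_pos hc u).ne'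
    exact this
  have L1 : HasFDerivAt (fun p : ℝ × ℝ => Real.log (D1 T p.1 p.2))
      (SS T.c1 (2 * p.2) • ((2 : ℝ) • ContinuousLinearMap.snd ℝ ℝ ℝ)) p :=
    HasDerivAt.comp_hasFDerivAt (h₂ := fun u => Real.log (Real.cosh u + T.c1))
      (f := fun p : ℝ × ℝ => 2 * p.2) p (k T.c1 T.c1_gt (2 * p.2)) (f2.const_mul 2)
  have L2 : HasFDerivAt (fun p : ℝ × ℝ => Real.log (D2 T p.1 p.2))
      (SS T.c2 (-p.2 - p.1) • (-ContinuousLinearMap.snd ℝ ℝ ℝ -
        ContinuousLinearMap.fst ℝ ℝ ℝ)) p :=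
    HasDerivAt.comp_hasFDerivAt (h₂ := fun u => Real.log (Real.cosh u + T.c2))
      (f := fun p : ℝ × ℝ => -p.2 - p.1) p (k T.c2 T.c2_gt (-p.2 - p.1)) (f2.neg.sub f1)
  have L3 : HasFDerivAt (fun p : ℝ × ℝ => Real.log (D3 T p.1 p.2))
      (SS T.c3 (p.1 - p.2) • (ContinuousLinearMap.fst ℝ ℝ ℝ -
        ContinuousLinearMap.snd ℝ ℝ ℝ)) p :=
    HasDerivAt.comp_hasFDerivAt (h₂ := fun u => Real.log (Real.cosh u + T.c3))
      (f := fun p : ℝ × ℝ => p.1 - p.2) p (k T.c3 T.c3_gt (p.1 - p.2)) (f1.sub f2)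
  have A1 : HasFDerivAt (fun p : ℝ × ℝ => (p.1 - p.2) / 3)
      ((3 : ℝ)⁻¹ • (ContinuousLinearMap.fst ℝ ℝ ℝ - ContinuousLinearMap.snd ℝ ℝ ℝ)) p := by
    simp only [div_eq_mul_inv]
    exact (f1.sub f2).mul_const (3 : ℝ)⁻¹
  have A2 : HasFDerivAt (fun p : ℝ × ℝ => (p.1 + p.2) / 3)
      ((3 : ℝ)⁻¹ • (ContinuousLinearMap.fst ℝ ℝ ℝ + ContinuousLinearMap.snd ℝ ℝ ℝ)) p := by
    simp only [div_eq_mul_inv]
    exact (f1.add f2).mul_const (3 : ℝ)⁻¹
  refine (((L1.sub L2).sub A1).prodMk ((L1.sub L3).sub A2)).congr_fderiv ?_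
  ext z <;> simp [dPsi] <;> ring

theorem det_fderiv_Psi (T : Shape) (p : ℝ × ℝ) :
    (fderiv ℝ (Psi T) p).det = 2 * (1 / 9 - ff T p.1 p.2) := by
  rw [(hasFDerivAt_Psi T p).fderiv, det_dPsi]
  unfold ff
  ring

theorem fderiv_Psi_ne_zero (T : Shape) (p : ℝ × ℝ) : fderiv ℝ (Psi T) p ≠ 0 := by
  rw [(hasFDerivAt_Psi T p).fderiv]
  intro h
  have h1 := congrArg (fun L : ℝ × ℝ →L[ℝ] ℝ × ℝ => L (1, 0)) h
  have h2 := congrArg (fun L : ℝ × ℝ →L[ℝ] ℝ × ℝ => L (0, 1)) h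
  simp only [dPsi_apply, ContinuousLinearMap.zero_apply, Prod.ext_iff, Prod.fst_zero,
    Prod.snd_zero] at h1 h2
  obtain ⟨a1, a2⟩ := h1
  obtain ⟨b1, b2⟩ := h2
  linarith

theorem Psi_reg (T : Shape) (β : ℝ × ℝ)
    (h : ∀ p, Psi T p = β → (fderiv ℝ (Psi T) p).det ≠ 0) :
    {p | Psi T p = β}.encard ≤ ((4 : ℕ) : ℕ∞) := by
  have e : {p | Psi T p = β} = Sol T 1 (Real.exp (-β.1)) (Real.exp (-β.2)) := by
    ext p
    rw [mem_Sol_iff_Psi T one_pos (Real.exp_pos _) (Real.exp_pos _)]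
    simp [Real.log_exp]
  rw [e]
  refine sol_le_four T _ _ _ one_pos (Real.exp_pos _) (Real.exp_pos _) ?_
  intro p hp hf
  rw [← e] at hp
  apply h p hp
  rw [det_fderiv_Psi, hf]
  ring

/-- the sum of the barycentric weights in exponential form -/
theorem sigma_ne (l1 l2 l3 g b1 b2 b3 : ℝ) (hg : g ^ 2 = 1)
    (hb : l1 * b1 + l2 * b2 + l3 * b3 = 1) (hb23 : 0 < b2 * b3) (hb12 : 0 < g * (b1 * b2)) :
    l1 * (g * Real.exp (Real.log |b1| - (Real.log |b2| + Real.log |b3|) / 2)) +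
      l2 * Real.exp ((Real.log |b2| - Real.log |b3|) / 2) +
      l3 * Real.exp (-((Real.log |b2| - Real.log |b3|) / 2)) ≠ 0 := by
  have hb2n : b2 ≠ 0 := by rintro rfl; simp at hb23
  have hb3n : b3 ≠ 0 := by rintro rfl; simp at hb23
  have hb1n : b1 ≠ 0 := by rintro rfl; simp at hb12
  intro h0
  have hK := congrArg (fun y => Real.exp ((Real.log |b2| + Real.log |b3|) / 2) * y) h0
  simp only [mul_zero] at hK
  have e1 : Real.exp ((Real.log |b2| + Real.log |b3|) / 2) *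
      Real.exp (Real.log |b1| - (Real.log |b2| + Real.log |b3|) / 2) = |b1| := by
    rw [← Real.exp_add]
    rw [show (Real.log |b2| + Real.log |b3|) / 2 + (Real.log |b1| -
      (Real.log |b2| + Real.log |b3|) / 2) = Real.log |b1| by ring]
    exact Real.exp_log (abs_pos.2 hb1n)
  have e2 : Real.exp ((Real.log |b2| + Real.log |b3|) / 2) *
      Real.exp ((Real.log |b2| - Real.log |b3|) / 2) = |b2| := by
    rw [← Real.exp_add]
    rw [show (Real.log |b2| + Real.log |b3|) / 2 + (Real.log |b2| - Real.log |b3|) / 2 =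
      Real.log |b2| by ring]
    exact Real.exp_log (abs_pos.2 hb2n)
  have e3 : Real.exp ((Real.log |b2| + Real.log |b3|) / 2) *
      Real.exp (-((Real.log |b2| - Real.log |b3|) / 2)) = |b3| := by
    rw [← Real.exp_add]
    rw [show (Real.log |b2| + Real.log |b3|) / 2 + -((Real.log |b2| - Real.log |b3|) / 2) =
      Real.log |b3| by ring]
    exact Real.exp_log (abs_pos.2 hb3n)
  have hsum : l1 * (g * |b1|) + l2 * |b2| + l3 * |b3| = 0 := by
    linear_combination hK - l1 * g * e1 - l2 * e2 - l3 * e3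
  rcases lt_or_gt_of_ne hb2n with h2 | h2
  · have h3 : b3 < 0 := by
      by_contra h
      push Not at h
      have : b2 * b3 ≤ 0 := mul_nonpos_of_nonpos_of_nonneg h2.le h
      linarith
    have h1 : g * b1 < 0 := by
      by_contra h
      push Not at h
      have : g * b1 * b2 ≤ 0 := mul_nonpos_of_nonneg_of_nonpos h h2.le
      nlinarith
    have hgb : g * |b1| = -b1 := by
      rcases abs_cases b1 with ⟨h, h'⟩ | ⟨h, h'⟩
      · rw [h]
        have hb : 0 < b1 := lt_of_le_of_ne h' (Ne.symm hb1n)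
        have hgn : g < 0 := by
          by_contra hg'
          push Not at hg'
          have := mul_nonneg hg' hb.le
          linarith
        have : g = -1 := by nlinarith
        rw [this]; ring
      · rw [h]
        have hgn : 0 < g := by
          by_contra hg'
          push Not at hg'
          have := mul_nonneg_of_nonpos_of_nonpos hg' h'.le
          linarith
        have : g = 1 := by nlinarith
        rw [this]; ring
    rw [hgb, abs_of_neg h2, abs_of_neg h3] at hsum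
    linarith
  · have h3 : 0 < b3 := by
      by_contra h
      push Not at h
      have : b2 * b3 ≤ 0 := mul_nonpos_of_nonneg_of_nonpos h2.le h
      linarith
    have h1 : 0 < g * b1 := by
      by_contra h
      push Not at h
      have : g * b1 * b2 ≤ 0 := mul_nonpos_of_nonpos_of_nonneg h h2.le
      nlinarith
    have hgb : g * |b1| = b1 := by
      rcases abs_cases b1 with ⟨h, h'⟩ | ⟨h, h'⟩
      · rw [h]
        have hgn : 0 < g := by
          by_contra hg'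
          push Not at hg'
          have := mul_nonpos_of_nonpos_of_nonneg hg' h'
          linarith
        have : g = 1 := by nlinarith
        rw [this]; ring
      · rw [h]
        have hgn : g < 0 := by
          by_contra hg'
          push Not at hg'
          have := mul_nonpos_of_nonneg_of_nonpos hg' h'.le
          linarith
        have : g = -1 := by nlinarith
        rw [this]; ring
    rw [hgb, abs_of_pos h2, abs_of_pos h3] at hsum
    linarith

theorem noncollinear_finite_aux (q : Fin 3 → ℝ) (a : Fin 3 → EuclideanSpace ℝ (Fin 3))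
    (hq : ∀ j, q j ≠ 0) (hcol : ¬ Collinear ℝ (Set.range a)) (hs : 0 < q 1 * q 2)
    (hfin : (equilibria q a).Finite) :
    (equilibria q a).encard ≤ 4 := by
  classical
  obtain ⟨D⟩ := exists_triData a hcol
  obtain ⟨g, hg, hg0⟩ : ∃ g : ℝ, g ^ 2 = 1 ∧ 0 < g * (q 0 * q 1) := by
    have h01 : q 0 * q 1 ≠ 0 := mul_ne_zero (hq 0) (hq 1)
    rcases lt_or_gt_of_ne h01 with h | h
    · exact ⟨-1, by norm_num, by linarith⟩
    · exact ⟨1, by norm_num, by linarith⟩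
  have hfwd : ∀ x ∈ equilibria q a, ∃ b : ℝ × ℝ × ℝ,
      D.l1 * b.1 + D.l2 * b.2.1 + D.l3 * b.2.2 = 1 ∧
      x = (D.l1 * b.1) • a 0 + (D.l2 * b.2.1) • a 1 + (D.l3 * b.2.2) • a 2 ∧
      0 < b.2.1 * b.2.2 ∧ 0 < g * (b.1 * b.2.1) ∧
      (Real.log |b.1| - (Real.log |b.2.1| + Real.log |b.2.2|) / 2,
        (Real.log |b.2.1| - Real.log |b.2.2|) / 2) ∈
        Sol (shapeOf D g hg) (amp (q 0) D.l1) (amp (q 1) D.l2) (amp (q 2) D.l3) := by
    intro x hx
    rw [equilibria_iff] at hx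
    obtain ⟨b1, b2, b3, h1, h2, h3, h4, h5⟩ :=
      forward D hcol q hq hs g hg hg0 x hx.1 hx.2
    exact ⟨(b1, b2, b3), h1, h2, h3, h4, h5⟩
  choose! b hb using hfwd
  obtain ⟨Φ, hΦ⟩ : ∃ Φ : EuclideanSpace ℝ (Fin 3) → ℝ × ℝ, Φ = fun x =>
    (Real.log |(b x).1| - (Real.log |(b x).2.1| + Real.log |(b x).2.2|) / 2,
        (Real.log |(b x).2.1| - Real.log |(b x).2.2|) / 2) := ⟨_, rfl⟩
  have hinj : Set.InjOn Φ (equilibria q a) := by
    intro x hx y hy hxy
    rw [hΦ] at hxy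
    obtain ⟨x1, x2, x3, x4, _⟩ := hb x hx
    obtain ⟨y1, y2, y3, y4, _⟩ := hb y hy
    have hxy' := Prod.mk_inj.1 hxy
    obtain ⟨e1, e2, e3⟩ := forward_inj D.l1 D.l2 D.l3 g _ _ _ _ _ _ hg D.pl1 D.pl2 D.pl3
      x1 y1 x3 x4 y3 y4 hxy'.1 hxy'.2
    rw [x2, y2, e1, e2, e3]
  obtain ⟨sg, hsg⟩ : ∃ sg : ℝ × ℝ → ℝ, sg = fun p => D.l1 * (g * Real.exp p.1) +
    D.l2 * Real.exp p.2 + D.l3 * Real.exp (-p.2) := ⟨_, rfl⟩
  have hsgc : Continuous sg := by rw [hsg]; fun_prop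
  obtain ⟨T, hT⟩ : ∃ T, T = shapeOf D g hg := ⟨_, rfl⟩
  obtain ⟨A1, hA1⟩ : ∃ A, A = amp (q 0) D.l1 := ⟨_, rfl⟩
  obtain ⟨A2, hA2⟩ : ∃ A, A = amp (q 1) D.l2 := ⟨_, rfl⟩
  obtain ⟨A3, hA3⟩ : ∃ A, A = amp (q 2) D.l3 := ⟨_, rfl⟩
  have pA1 : 0 < A1 := by rw [hA1]; exact amp_pos (hq 0) D.pl1
  have pA2 : 0 < A2 := by rw [hA2]; exact amp_pos (hq 1) D.pl2
  have pA3 : 0 < A3 := by rw [hA3]; exact amp_pos (hq 2) D.pl3
  have hmem : ∀ x ∈ equilibria q a, Φ x ∈ Sol T A1 A2 A3 ∧ sg (Φ x) ≠ 0 := by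
    intro x hx
    obtain ⟨x1, x2, x3, x4, x5⟩ := hb x hx
    rw [hΦ, hT, hA1, hA2, hA3, hsg]
    exact ⟨x5, sigma_ne D.l1 D.l2 D.l3 g _ _ _ hg x1 x3 x4⟩
  -- the solutions with nonzero `sg` are finitely many
  have hbw : ∀ p ∈ {p | p ∈ Sol T A1 A2 A3 ∧ sg p ≠ 0}, ∃ x ∈ equilibria q a,
      x = (D.l1 * (g * Real.exp p.1) / sg p) • a 0 + (D.l2 * Real.exp p.2 / sg p) • a 1 +
        (D.l3 * Real.exp (-p.2) / sg p) • a 2 := by
    rintro p ⟨hp, hp0⟩
    rw [hT, hA1, hA2, hA3] at hp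
    obtain ⟨x, h1, h2, h3⟩ := backward_gen D q hq hs g hg hg0 p hp (sg p) (by rw [hsg]) hp0
    refine ⟨x, ?_, h3⟩
    rw [equilibria_iff]
    exact ⟨h1, h2⟩
  choose! X hX using hbw
  have hFfin : {p | p ∈ Sol T A1 A2 A3 ∧ sg p ≠ 0}.Finite := by
    refine Set.Finite.of_injOn (f := X) (t := equilibria q a) (fun p hp => (hX p hp).1) ?_ hfin
    intro p hp r hr hpr
    refine backward_gen_inj D hcol g hg p r (sg p) (sg r) (by rw [hsg]) (by rw [hsg])
      hp.2 hr.2 ?_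
    rw [← (hX p hp).2, ← (hX r hr).2, hpr]
  have hcard : (hfin.toFinset.image Φ).card ≤ 4 := by
    refine isolated_fiber_le 4 (Psi T) (contDiff_Psi T) (Psi_reg T)
      (Real.log A1 - Real.log A2, Real.log A1 - Real.log A3) _ ?_ ?_ ?_
    · intro p hp
      obtain ⟨x, hx, rfl⟩ := Finset.mem_image.1 hp
      exact (mem_Sol_iff_Psi T pA1 pA2 pA3 _).1 (hmem x (hfin.mem_toFinset.1 hx)).1
    · intro p _
      exact fderiv_Psi_ne_zero T p
    · intro p hp
      obtain ⟨x, hx, rfl⟩ := Finset.mem_image.1 hp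
      obtain ⟨m1, m2⟩ := hmem x (hfin.mem_toFinset.1 hx)
      have e1 : ∀ᶠ r in 𝓝 (Φ x), sg r ≠ 0 := hsgc.continuousAt.eventually_ne m2
      have e2 : ∀ᶠ r in 𝓝 (Φ x), r ∉ ({p | p ∈ Sol T A1 A2 A3 ∧ sg p ≠ 0} \ {Φ x}) :=
        (hFfin.subset (fun r hr => hr.1)).isClosed.isOpen_compl.mem_nhds (fun h => h.2 rfl)
      filter_upwards [e1, e2] with r h1 h2 h3
      by_contra hne
      exact h2 ⟨⟨(mem_Sol_iff_Psi T pA1 pA2 pA3 r).2 h3, h1⟩, hne⟩
  have hcard2 : (hfin.toFinset.image Φ).card = hfin.toFinset.card :=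
    Finset.card_image_of_injOn (by
      intro x hx y hy
      exact hinj (hfin.mem_toFinset.1 hx) (hfin.mem_toFinset.1 hy))
  rw [hfin.encard_eq_coe_toFinset_card, ← hcard2]
  exact_mod_cast hcard

theorem noncollinear_finite (q : Fin 3 → ℝ) (a : Fin 3 → EuclideanSpace ℝ (Fin 3))
    (hq : ∀ j, q j ≠ 0) (hcol : ¬ Collinear ℝ (Set.range a))
    (hfin : (equilibria q a).Finite) : (equilibria q a).encard ≤ 4 := by
  have key : ∀ s : Equiv.Perm (Fin 3), 0 < q (s 1) * q (s 2) →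
      (equilibria q a).encard ≤ 4 := by
    intro s hs
    rw [← equilibria_perm q a s]
    apply noncollinear_finite_aux (q ∘ s) (a ∘ s) (fun j => hq _)
    · rw [Set.range_comp, s.surjective.range_eq, Set.image_univ]
      exact hcol
    · exact hs
    · rw [equilibria_perm]
      exact hfin
  have h0 := hq 0
  have h1 := hq 1
  have h2 := hq 2
  rcases lt_or_gt_of_ne h0 with h0 | h0 <;> rcases lt_or_gt_of_ne h1 with h1 | h1 <;>
    rcases lt_or_gt_of_ne h2 with h2 | h2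
  · exact key (Equiv.refl _) (mul_pos_of_neg_of_neg h1 h2)
  · refine key (Equiv.swap 0 2) ?_
    have e1 : (Equiv.swap 0 2 : Equiv.Perm (Fin 3)) 1 = 1 := by decide
    have e2 : (Equiv.swap 0 2 : Equiv.Perm (Fin 3)) 2 = 0 := by decide
    rw [e1, e2]
    exact mul_pos_of_neg_of_neg h1 h0
  · refine key (Equiv.swap 0 1) ?_
    have e1 : (Equiv.swap 0 1 : Equiv.Perm (Fin 3)) 1 = 0 := by decide
    have e2 : (Equiv.swap 0 1 : Equiv.Perm (Fin 3)) 2 = 2 := by decide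
    rw [e1, e2]
    exact mul_pos_of_neg_of_neg h0 h2
  · exact key (Equiv.refl _) (mul_pos h1 h2)
  · exact key (Equiv.refl _) (mul_pos_of_neg_of_neg h1 h2)
  · refine key (Equiv.swap 0 1) ?_
    have e1 : (Equiv.swap 0 1 : Equiv.Perm (Fin 3)) 1 = 0 := by decide
    have e2 : (Equiv.swap 0 1 : Equiv.Perm (Fin 3)) 2 = 2 := by decide
    rw [e1, e2]
    exact mul_pos h0 h2
  · refine key (Equiv.swap 0 2) ?_
    have e1 : (Equiv.swap 0 2 : Equiv.Perm (Fin 3)) 1 = 1 := by decide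
    have e2 : (Equiv.swap 0 2 : Equiv.Perm (Fin 3)) 2 = 0 := by decide
    rw [e1, e2]
    exact mul_pos h1 h0
  · exact key (Equiv.refl _) (mul_pos h1 h2)

/-- three charges with finitely many equilibria have at most four of them -/
theorem maxwell_three_finite (q : Fin 3 → ℝ) (a : Fin 3 → EuclideanSpace ℝ (Fin 3))
    (ha : Function.Injective a) (hq : ∀ j, q j ≠ 0) (hfin : (equilibria q a).Finite) :
    (equilibria q a).encard ≤ 4 := by
  by_cases hcol : Collinear ℝ (Set.range a)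
  · exact collinear_finite (fun p q h1 h2 => MaxwellReal.count' p q h1 h2)
      (fun q a x => equilibria_iff q a x) q a ha hq hcol hfin
  · exact noncollinear_finite q a hq hcol hfin

end Pool.Agent.Helper19.Maxwell
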