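import Pool.Agent.Helper19.Maxwell.TriDefs

set_option autoImplicit false

namespace Pool.Agent.Helper19.Maxwell


lemma nsq {E : Type*} [NormedAddCommGroup E] [InnerProductSpace ℝ E] (u v : E)
    (s t L1 L2 k : ℝ) (hu : ‖u‖ = L1) (hv : ‖v‖ = L2) (hk : inner ℝ u v = L1 * L2 * k) :
    ‖s • u + t • v‖ ^ 2 = s ^ 2 * L1 ^ 2 + t ^ 2 * L2 ^ 2 + 2 * s * t * L1 * L2 * k := by
  rw [norm_add_sq_real, inner_smul_left, inner_smul_right, norm_smul, norm_smul, hu, hv, hk,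
    mul_pow, mul_pow, Real.norm_eq_abs, Real.norm_eq_abs, sq_abs, sq_abs]
  simp
  ring

lemma cosh_log (b c : ℝ) (hb : b ≠ 0) (hc : c ≠ 0) :
    b ^ 2 + c ^ 2 = 2 * |b * c| * Real.cosh (Real.log |b| - Real.log |c|) := by
  have hb' : 0 < |b| := abs_pos.2 hb
  have hc' : 0 < |c| := abs_pos.2 hc
  rw [Real.cosh_eq, neg_sub, Real.exp_sub, Real.exp_sub, Real.exp_log hb', Real.exp_log hc',
    abs_mul, ← sq_abs b, ← sq_abs c]
  field_simp

lemma cube_rel (li lj lk bi bj bk W q d Δ N : ℝ) (h1 : li * bi * d ^ 3 * W = q)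
    (h2 : d ^ 2 = 2 * lj ^ 2 * lk ^ 2 * |bj * bk| * Δ)
    (hN : N * (8 * W ^ 2 * (li * lj * lk) ^ 6 * (|bi| * |bj| * |bk|) ^ 3) = 1) :
    Δ ^ 3 = N * (|q| * li ^ 2) ^ 2 * |bi| := by
  have hq : |q| ^ 2 = li ^ 2 * |bi| ^ 2 * (2 * lj ^ 2 * lk ^ 2 * (|bj| * |bk|) * Δ) ^ 3 * W ^ 2 := by
    rw [sq_abs, ← h1, sq_abs, ← abs_mul, ← h2]
    ring
  rw [mul_pow, hq]
  calc Δ ^ 3 = (N * (8 * W ^ 2 * (li * lj * lk) ^ 6 * (|bi| * |bj| * |bk|) ^ 3)) * Δ ^ 3 := by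
        rw [hN, one_mul]
    _ = _ := by ring

lemma cube_inj {x y : ℝ} (h : x ^ 3 = y ^ 3) : x = y :=
  (Odd.strictMono_pow (by decide : Odd 3)).injective h

lemma amp_cube (Q l : ℝ) : amp Q l ^ 3 = (|Q| * l ^ 2) ^ 2 := by
  unfold amp
  have h0 : 0 ≤ |Q| * l ^ 2 := by positivity
  rw [← Real.rpow_natCast, ← Real.rpow_mul h0]
  norm_num

lemma sign_aux {g b c : ℝ} (hg : g ^ 2 = 1) (h : 0 < g * (b * c)) : b * c = g * |b * c| := by
  have h1 : |g| = 1 := by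
    have : |g| ^ 2 = 1 := by rw [sq_abs]; exact hg
    nlinarith [abs_nonneg g]
  have h2 : g * (b * c) = |b * c| := by
    rw [← abs_of_pos h, abs_mul, h1, one_mul]
  rw [← h2]
  linear_combination (-(b * c)) * hg

/-- From an equilibrium of three non-collinear charges to a solution of the system. -/
theorem forward {a : Fin 3 → EuclideanSpace ℝ (Fin 3)} (D : TriData a)
    (hcol : ¬ Collinear ℝ (Set.range a)) (q : Fin 3 → ℝ) (hq : ∀ j, q j ≠ 0)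
    (hs : 0 < q 1 * q 2) (g : ℝ) (hg : g ^ 2 = 1) (hg0 : 0 < g * (q 0 * q 1))
    (x : EuclideanSpace ℝ (Fin 3)) (hx : x ∉ Set.range a)
    (heq : ∑ j, (q j / dist x (a j) ^ 3) • (x - a j) = 0) :
    ∃ b1 b2 b3 : ℝ, D.l1 * b1 + D.l2 * b2 + D.l3 * b3 = 1 ∧
      x = (D.l1 * b1) • a 0 + (D.l2 * b2) • a 1 + (D.l3 * b3) • a 2 ∧
      0 < b2 * b3 ∧ 0 < g * (b1 * b2) ∧
      (Real.log |b1| - (Real.log |b2| + Real.log |b3|) / 2,
        (Real.log |b2| - Real.log |b3|) / 2) ∈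
        Sol (shapeOf D g hg) (amp (q 0) D.l1) (amp (q 1) D.l2) (amp (q 2) D.l3) := by
  obtain ⟨w, hw⟩ : ∃ w : Fin 3 → ℝ, ∀ j, w j = q j / dist x (a j) ^ 3 := ⟨_, fun _ => rfl⟩
  have hd : ∀ j, 0 < dist x (a j) := by
    intro j
    rw [dist_pos]
    rintro rfl
    exact hx ⟨j, rfl⟩
  have hw0 : ∀ j, w j ≠ 0 := fun j => by
    rw [hw]; exact div_ne_zero (hq j) (pow_ne_zero _ (hd j).ne')
  have heq' : w 0 • (x - a 0) + w 1 • (x - a 1) + w 2 • (x - a 2) = 0 := by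
    rw [← heq, Fin.sum_univ_three, hw, hw, hw]
  obtain ⟨W, hW⟩ : ∃ W : ℝ, W = w 0 + w 1 + w 2 := ⟨_, rfl⟩
  have hWx : W • x = w 0 • a 0 + w 1 • a 1 + w 2 • a 2 := by
    have : W • x - (w 0 • a 0 + w 1 • a 1 + w 2 • a 2) = 0 := by
      rw [← heq', hW]; module
    exact sub_eq_zero.1 this
  have hW0 : W ≠ 0 := by
    intro h0
    apply hcol
    rw [h0, zero_smul] at hWx
    have h1 : w 1 • (a 1 - a 0) = -(w 2) • (a 2 - a 0) := by
      have h2 : w 0 = -w 1 - w 2 := by linarith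
      rw [h2] at hWx
      have h3 : w 1 • (a 1 - a 0) - -(w 2) • (a 2 - a 0) = 0 := by
        rw [hWx]; module
      exact sub_eq_zero.1 h3
    have h4 : a 1 - a 0 = (-(w 2) / w 1) • (a 2 - a 0) := by
      rw [div_eq_inv_mul, mul_smul, ← h1, smul_smul, inv_mul_cancel₀ (hw0 1), one_smul]
    rw [collinear_iff_of_mem (Set.mem_range_self 0)]
    refine ⟨a 2 - a 0, ?_⟩
    rintro p ⟨j, rfl⟩
    fin_cases j
    · exact ⟨0, by simp⟩
    · refine ⟨-(w 2) / w 1, ?_⟩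
      rw [← h4]; simp
    · exact ⟨1, by simp⟩
  have hx_eq : x = (w 0 / W) • a 0 + (w 1 / W) • a 1 + (w 2 / W) • a 2 := by
    have h1 : x = W⁻¹ • (W • x) := by rw [smul_smul, inv_mul_cancel₀ hW0, one_smul]
    rw [h1, hWx]
    simp only [div_eq_inv_mul, mul_smul, smul_add]
  have l1 := D.pl1
  have l2 := D.pl2
  have l3 := D.pl3
  obtain ⟨b1, hb1⟩ : ∃ b1 : ℝ, b1 = w 0 / W / D.l1 := ⟨_, rfl⟩
  obtain ⟨b2, hb2⟩ : ∃ b2 : ℝ, b2 = w 1 / W / D.l2 := ⟨_, rfl⟩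
  obtain ⟨b3, hb3⟩ : ∃ b3 : ℝ, b3 = w 2 / W / D.l3 := ⟨_, rfl⟩
  have e1 : w 0 / W = D.l1 * b1 := by rw [hb1]; field_simp
  have e2 : w 1 / W = D.l2 * b2 := by rw [hb2]; field_simp
  have e3 : w 2 / W = D.l3 * b3 := by rw [hb3]; field_simp
  have hsum : D.l1 * b1 + D.l2 * b2 + D.l3 * b3 = 1 := by
    rw [← e1, ← e2, ← e3, ← add_div, ← add_div, ← hW, div_self hW0]
  rw [e1, e2, e3] at hx_eq
  have hb1n : b1 ≠ 0 := by rw [hb1]; exact div_ne_zero (div_ne_zero (hw0 0) hW0) l1.ne'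
  have hb2n : b2 ≠ 0 := by rw [hb2]; exact div_ne_zero (div_ne_zero (hw0 1) hW0) l2.ne'
  have hb3n : b3 ≠ 0 := by rw [hb3]; exact div_ne_zero (div_ne_zero (hw0 2) hW0) l3.ne'
  have hd0 := hd 0
  have hd1 := hd 1
  have hd2 := hd 2
  have s23 : 0 < b2 * b3 := by
    have h1 : b2 * b3 = (q 1 * q 2) * (1 / (dist x (a 1) ^ 3 * dist x (a 2) ^ 3 * W ^ 2 *
        (D.l2 * D.l3))) := by
      rw [hb2, hb3, hw, hw]; field_simp
    rw [h1]
    positivity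
  have s12 : 0 < g * (b1 * b2) := by
    have h1 : g * (b1 * b2) = (g * (q 0 * q 1)) * (1 / (dist x (a 0) ^ 3 * dist x (a 1) ^ 3 * W ^ 2 *
        (D.l1 * D.l2))) := by
      rw [hb1, hb2, hw, hw]; field_simp
    rw [h1]
    positivity
  have s13 : 0 < g * (b1 * b3) := by
    have h1 : 0 < (g * (b1 * b2)) * (b2 * b3) := mul_pos s12 s23
    have h2 : (g * (b1 * b2)) * (b2 * b3) = (g * (b1 * b3)) * b2 ^ 2 := by ring
    rw [h2] at h1
    exact (mul_pos_iff_of_pos_right (by positivity)).1 h1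
  -- distances
  have hβ0 : D.l1 * b1 = 1 - D.l2 * b2 - D.l3 * b3 := by linarith
  have v0 : x - a 0 = (D.l2 * b2) • (a 1 - a 0) + (D.l3 * b3) • (a 2 - a 0) := by
    rw [hx_eq, hβ0]; module
  have v1 : x - a 1 = (D.l1 * b1) • (a 0 - a 1) + (D.l3 * b3) • (a 2 - a 1) := by
    have : D.l2 * b2 = 1 - D.l1 * b1 - D.l3 * b3 := by linarith
    rw [hx_eq, this]; module
  have v2 : x - a 2 = (D.l1 * b1) • (a 0 - a 2) + (D.l2 * b2) • (a 1 - a 2) := by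
    have : D.l3 * b3 = 1 - D.l1 * b1 - D.l2 * b2 := by linarith
    rw [hx_eq, this]; module
  have n10 : ‖a 1 - a 0‖ = D.l3 := by rw [← dist_eq_norm, dist_comm]; exact D.e3
  have n20 : ‖a 2 - a 0‖ = D.l2 := by rw [← dist_eq_norm, dist_comm]; exact D.e2
  have n01 : ‖a 0 - a 1‖ = D.l3 := by rw [← dist_eq_norm]; exact D.e3
  have n21 : ‖a 2 - a 1‖ = D.l1 := by rw [← dist_eq_norm, dist_comm]; exact D.e1
  have n02 : ‖a 0 - a 2‖ = D.l2 := by rw [← dist_eq_norm]; exact D.e2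
  have n12 : ‖a 1 - a 2‖ = D.l1 := by rw [← dist_eq_norm]; exact D.e1
  have c23 := cosh_log b2 b3 hb2n hb3n
  have c31 := cosh_log b3 b1 hb3n hb1n
  have c12 := cosh_log b1 b2 hb1n hb2n
  have g23 : b2 * b3 = |b2 * b3| := (abs_of_pos s23).symm
  have g13 := sign_aux hg s13
  have g12 := sign_aux hg s12
  have X0 : dist x (a 0) ^ 2 = 2 * D.l2 ^ 2 * D.l3 ^ 2 * |b2 * b3| *
      (Real.cosh (Real.log |b2| - Real.log |b3|) + D.k1) := by
    rw [dist_eq_norm, v0, nsq _ _ _ _ _ _ _ n10 n20 D.i1]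
    linear_combination (D.l2 ^ 2 * D.l3 ^ 2) * c23 + 2 * D.l2 ^ 2 * D.l3 ^ 2 * D.k1 * g23
  have X1 : dist x (a 1) ^ 2 = 2 * D.l3 ^ 2 * D.l1 ^ 2 * |b3 * b1| *
      (Real.cosh (Real.log |b3| - Real.log |b1|) + g * D.k2) := by
    rw [dist_eq_norm, v1, nsq _ _ _ _ _ _ _ n01 n21 D.i2]
    rw [mul_comm b1 b3] at g13
    linear_combination (D.l1 ^ 2 * D.l3 ^ 2) * c31 + 2 * D.l1 ^ 2 * D.l3 ^ 2 * D.k2 * g13
  have X2 : dist x (a 2) ^ 2 = 2 * D.l1 ^ 2 * D.l2 ^ 2 * |b1 * b2| *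
      (Real.cosh (Real.log |b1| - Real.log |b2|) + g * D.k3) := by
    rw [dist_eq_norm, v2, nsq _ _ _ _ _ _ _ n02 n12 D.i3]
    linear_combination (D.l1 ^ 2 * D.l2 ^ 2) * c12 + 2 * D.l1 ^ 2 * D.l2 ^ 2 * D.k3 * g12
  have F0 : D.l1 * b1 * dist x (a 0) ^ 3 * W = q 0 := by
    rw [← e1, hw]; field_simp
  have F1 : D.l2 * b2 * dist x (a 1) ^ 3 * W = q 1 := by
    rw [← e2, hw]; field_simp
  have F2 : D.l3 * b3 * dist x (a 2) ^ 3 * W = q 2 := by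
    rw [← e3, hw]; field_simp
  have p1 : 0 < |b1| := abs_pos.2 hb1n
  have p2 : 0 < |b2| := abs_pos.2 hb2n
  have p3 : 0 < |b3| := abs_pos.2 hb3n
  have hWp : 0 < W ^ 2 := by positivity
  obtain ⟨N, hN⟩ : ∃ N : ℝ, N = 1 / (8 * W ^ 2 * (D.l1 * D.l2 * D.l3) ^ 6 *
    (|b1| * |b2| * |b3|) ^ 3) := ⟨_, rfl⟩
  have hNp : 0 < N := by rw [hN]; positivity
  have hN1 : N * (8 * W ^ 2 * (D.l1 * D.l2 * D.l3) ^ 6 * (|b1| * |b2| * |b3|) ^ 3) = 1 := by
    rw [hN, one_div, inv_mul_cancel₀ (by positivity)]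
  have R0 := cube_rel D.l1 D.l2 D.l3 b1 b2 b3 W (q 0) _ _ N F0 X0 hN1
  have R1 := cube_rel D.l2 D.l3 D.l1 b2 b3 b1 W (q 1) _ _ N F1 X1 (by rw [← hN1]; ring)
  have R2 := cube_rel D.l3 D.l1 D.l2 b3 b1 b2 W (q 2) _ _ N F2 X2 (by rw [← hN1]; ring)
  refine ⟨b1, b2, b3, hsum, hx_eq, s23, s12, ?_⟩
  obtain ⟨s, hs⟩ : ∃ s : ℝ, s = Real.exp ((Real.log |b2| + Real.log |b3|) / 2) := ⟨_, rfl⟩
  have hsp : 0 < s := by rw [hs]; exact Real.exp_pos _
  have t1 : |b1| = s * Real.exp (Real.log |b1| - (Real.log |b2| + Real.log |b3|) / 2) := by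
    rw [hs, ← Real.exp_add]
    conv_lhs => rw [← Real.exp_log p1]
    congr 1; ring
  have t2 : |b2| = s * Real.exp ((Real.log |b2| - Real.log |b3|) / 2) := by
    rw [hs, ← Real.exp_add]
    conv_lhs => rw [← Real.exp_log p2]
    congr 1; ring
  have t3 : |b3| = s * Real.exp (-((Real.log |b2| - Real.log |b3|) / 2)) := by
    rw [hs, ← Real.exp_add]
    conv_lhs => rw [← Real.exp_log p3]
    congr 1; ring
  have hlam : ((N * s) ^ (1 / 3 : ℝ)) ^ 3 = N * s := by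
    rw [← Real.rpow_natCast, ← Real.rpow_mul (by positivity)]
    norm_num
  have hexp : ∀ y : ℝ, Real.exp (y / 3) ^ 3 = Real.exp y := by
    intro y
    rw [← Real.exp_nat_mul]
    congr 1
    push_cast
    ring
  refine ⟨(N * s) ^ (1 / 3 : ℝ), Real.rpow_pos_of_pos (by positivity) _, ?_, ?_, ?_⟩
  · apply cube_inj
    rw [mul_pow, mul_pow, hlam, amp_cube, hexp]
    simp only [D1, Del, shapeOf]
    rw [show 2 * ((Real.log |b2| - Real.log |b3|) / 2) = Real.log |b2| - Real.log |b3| by ring, R0]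
    linear_combination (N * (|q 0| * D.l1 ^ 2) ^ 2) * t1
  · apply cube_inj
    rw [mul_pow, mul_pow, hlam, amp_cube, hexp]
    simp only [D2, Del, shapeOf]
    rw [show -((Real.log |b2| - Real.log |b3|) / 2) -
      (Real.log |b1| - (Real.log |b2| + Real.log |b3|) / 2) = Real.log |b3| - Real.log |b1| by ring,
      R1]
    linear_combination (N * (|q 1| * D.l2 ^ 2) ^ 2) * t2
  · apply cube_inj
    rw [mul_pow, mul_pow, hlam, amp_cube, hexp]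
    simp only [D3, Del, shapeOf]
    rw [show (Real.log |b1| - (Real.log |b2| + Real.log |b3|) / 2) -
      ((Real.log |b2| - Real.log |b3|) / 2) = Real.log |b1| - Real.log |b2| by ring,
      R2]
    linear_combination (N * (|q 2| * D.l3 ^ 2) ^ 2) * t3


lemma ratio_eq {r s : ℝ} (h : |r| = |s|) (hp : 0 < r * s) : r = s := by
  rcases abs_eq_abs.1 h with h1 | h1
  · exact h1
  · exfalso
    rw [h1] at hp
    nlinarith [sq_nonneg s]

lemma abs_of_log {b c K : ℝ} (hb : b ≠ 0) (hc : c ≠ 0) (h : Real.log |b| - Real.log |c| = K) :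
    |b / c| = Real.exp K := by
  rw [← h, Real.exp_sub, Real.exp_log (abs_pos.2 hb), Real.exp_log (abs_pos.2 hc), abs_div]

/-- The map to the plane is injective on equilibria. -/
theorem forward_inj (l1 l2 l3 g b1 b2 b3 c1 c2 c3 : ℝ) (hg : g ^ 2 = 1)
    (hl1 : 0 < l1) (hl2 : 0 < l2) (hl3 : 0 < l3)
    (hb : l1 * b1 + l2 * b2 + l3 * b3 = 1) (hc : l1 * c1 + l2 * c2 + l3 * c3 = 1)
    (hb23 : 0 < b2 * b3) (hb12 : 0 < g * (b1 * b2))
    (hc23 : 0 < c2 * c3) (hc12 : 0 < g * (c1 * c2))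
    (h1 : Real.log |b1| - (Real.log |b2| + Real.log |b3|) / 2 =
      Real.log |c1| - (Real.log |c2| + Real.log |c3|) / 2)
    (h2 : (Real.log |b2| - Real.log |b3|) / 2 = (Real.log |c2| - Real.log |c3|) / 2) :
    b1 = c1 ∧ b2 = c2 ∧ b3 = c3 := by
  have hb2n : b2 ≠ 0 := by rintro rfl; simp at hb23
  have hb3n : b3 ≠ 0 := by rintro rfl; simp at hb23
  have hb1n : b1 ≠ 0 := by rintro rfl; simp at hb12
  have hc2n : c2 ≠ 0 := by rintro rfl; simp at hc23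
  have hc3n : c3 ≠ 0 := by rintro rfl; simp at hc23
  have hc1n : c1 ≠ 0 := by rintro rfl; simp at hc12
  obtain ⟨K, hK⟩ : ∃ K : ℝ, K = Real.log |b2| - Real.log |c2| := ⟨_, rfl⟩
  have k2 := abs_of_log hb2n hc2n hK.symm
  have k3 := abs_of_log hb3n hc3n (K := K) (by linarith)
  have k1 := abs_of_log hb1n hc1n (K := K) (by linarith)
  have m23 : 0 < (b3 / c3) * (b2 / c2) := by
    have : (b3 / c3) * (b2 / c2) = (b2 * b3) / (c2 * c3) := by field_simp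
    rw [this]; positivity
  have m12 : 0 < (b1 / c1) * (b2 / c2) := by
    have hg0 : g ≠ 0 := by rintro rfl; simp at hg
    have : (b1 / c1) * (b2 / c2) = (g * (b1 * b2)) / (g * (c1 * c2)) := by field_simp
    rw [this]; positivity
  have r3 := ratio_eq (k3.trans k2.symm) m23
  have r1 := ratio_eq (k1.trans k2.symm) m12
  obtain ⟨r, hr⟩ : ∃ r : ℝ, r = b2 / c2 := ⟨_, rfl⟩
  have f2 : b2 = r * c2 := by rw [hr]; field_simp
  have f3 : b3 = r * c3 := by rw [hr, ← r3]; field_simp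
  have f1 : b1 = r * c1 := by rw [hr, ← r1]; field_simp
  have hr1 : r = 1 := by
    rw [f1, f2, f3] at hb
    linear_combination hb - r * hc
  rw [hr1] at f1 f2 f3
  exact ⟨by linarith, by linarith, by linarith⟩

end Pool.Agent.Helper19.Maxwell
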