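import Mathlib
import Pool.Prelude.Def_F_d420a142

set_option autoImplicit false

namespace Pool.Agent.Helper19.Maxwell

open N62f3cee0


/-- the inner product as a bilinear map -/
noncomputable def BB : EuclideanSpace ℝ (Fin 3) →L[ℝ] (EuclideanSpace ℝ (Fin 3) →L[ℝ] ℝ) :=
  LinearMap.toContinuousLinearMap
    { toFun := fun y => innerSL ℝ y
      map_add' := fun y z => by simp
      map_smul' := fun c y => by ext w; simp [inner_smul_left] }

theorem BB_apply (y w : EuclideanSpace ℝ (Fin 3)) : BB y w = inner ℝ y w := rfl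

theorem hasFDerivAt_dist' {x a : EuclideanSpace ℝ (Fin 3)} (h : x ≠ a) :
    HasFDerivAt (fun y => dist y a) ((dist x a)⁻¹ • BB (x - a)) x := by
  have hd : 0 < dist x a := dist_pos.2 h
  have h1 : HasFDerivAt (fun y : EuclideanSpace ℝ (Fin 3) => y - a)
      (ContinuousLinearMap.id ℝ _) x := (hasFDerivAt_id x).sub_const a
  have h2 := h1.norm_sq
  have h3 : ‖x - a‖ ^ 2 ≠ 0 := by
    have : 0 < ‖x - a‖ := by rw [← dist_eq_norm]; exact hd
    positivity
  have h4 := h2.sqrt h3
  have h5 : (fun y : EuclideanSpace ℝ (Fin 3) => √(‖y - a‖ ^ 2)) = fun y => dist y a := by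
    funext y
    rw [Real.sqrt_sq (norm_nonneg _), dist_eq_norm]
  rw [h5] at h4
  refine h4.congr_fderiv ?_
  ext w
  rw [Real.sqrt_sq (norm_nonneg _), ← dist_eq_norm]
  simp only [ContinuousLinearMap.smul_apply, ContinuousLinearMap.comp_apply, BB_apply,
    ContinuousLinearMap.id_apply, innerSL_apply_apply, smul_eq_mul, nsmul_eq_mul]
  push_cast
  field_simp

theorem hasFDerivAt_inv_dist {x a : EuclideanSpace ℝ (Fin 3)} (h : x ≠ a) (q : ℝ) :
    HasFDerivAt (fun y => q / dist y a) (-(q / dist x a ^ 3) • BB (x - a)) x := by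
  have hd : 0 < dist x a := dist_pos.2 h
  have h1 := (hasDerivAt_inv hd.ne').comp_hasFDerivAt x (hasFDerivAt_dist' h)
  have h2 := h1.const_mul q
  refine (h2.congr_fderiv ?_).congr_of_eventuallyEq (Filter.Eventually.of_forall fun y => ?_)
  · ext w
    simp only [ContinuousLinearMap.smul_apply, BB_apply, smul_eq_mul]
    field_simp
  · simp [div_eq_mul_inv]

theorem hasFDerivAt_inv_dist3 {x a : EuclideanSpace ℝ (Fin 3)} (h : x ≠ a) (q : ℝ) :
    HasFDerivAt (fun y => -(q / dist y a ^ 3)) ((3 * q / dist x a ^ 5) • BB (x - a)) x := by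
  have hd : 0 < dist x a := dist_pos.2 h
  have h0 := (hasFDerivAt_dist' h).pow 3
  have hd3 : dist x a ^ 3 ≠ 0 := by positivity
  have h1 := (hasDerivAt_inv hd3).comp_hasFDerivAt x h0
  have h2 := h1.const_mul (-q)
  refine (h2.congr_fderiv ?_).congr_of_eventuallyEq (Filter.Eventually.of_forall fun y => ?_)
  · ext w
    simp only [ContinuousLinearMap.smul_apply, BB_apply, smul_eq_mul]
    field_simp
    push_cast
    ring
  · simp [div_eq_mul_inv]

theorem hasFDerivAt_pot {n : ℕ} (q : Fin n → ℝ) (a : Fin n → EuclideanSpace ℝ (Fin 3))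
    {x : EuclideanSpace ℝ (Fin 3)} (hx : x ∉ Set.range a) :
    HasFDerivAt (potential q a) (∑ j, -(q j / dist x (a j) ^ 3) • BB (x - a j)) x := by
  unfold potential
  apply HasFDerivAt.fun_sum
  intro j _
  exact hasFDerivAt_inv_dist (fun h => hx ⟨j, h.symm⟩) (q j)

theorem equilibria_iff {n : ℕ} (q : Fin n → ℝ) (a : Fin n → EuclideanSpace ℝ (Fin 3))
    (x : EuclideanSpace ℝ (Fin 3)) :
    x ∈ equilibria q a ↔ x ∉ Set.range a ∧ ∑ j, (q j / dist x (a j) ^ 3) • (x - a j) = 0 := by
  unfold equilibria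
  show (x ∉ Set.range a ∧ gradient (potential q a) x = 0) ↔ _
  apply and_congr_right
  intro hx
  have h1 := hasFDerivAt_pot q a hx
  have h2 : HasGradientAt (potential q a) (-∑ j, (q j / dist x (a j) ^ 3) • (x - a j)) x := by
    rw [hasGradientAt_iff_hasFDerivAt]
    refine h1.congr_fderiv ?_
    ext w
    simp only [InnerProductSpace.toDual_apply_apply, ContinuousLinearMap.sum_apply,
      ContinuousLinearMap.smul_apply, BB_apply, smul_eq_mul, inner_neg_left, sum_inner,
      inner_smul_left, Finset.sum_neg_distrib, neg_mul]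
    simp
  rw [h2.gradient, neg_eq_zero]

theorem hess_formula {n : ℕ} (q : Fin n → ℝ) (a : Fin n → EuclideanSpace ℝ (Fin 3))
    (x : EuclideanSpace ℝ (Fin 3)) (hx : x ∉ Set.range a) (v w : EuclideanSpace ℝ (Fin 3)) :
    iteratedFDeriv ℝ 2 (potential q a) x ![v, w] =
      ∑ j, q j * (3 * inner ℝ (x - a j) v * inner ℝ (x - a j) w / dist x (a j) ^ 5
        - inner ℝ v w / dist x (a j) ^ 3) := by
  rw [iteratedFDeriv_two_apply]
  have hopen : IsOpen (Set.range a)ᶜ := (Set.finite_range a).isClosed.isOpen_compl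
  have hev : fderiv ℝ (potential q a) =ᶠ[nhds x]
      fun y => ∑ j, -(q j / dist y (a j) ^ 3) • BB (y - a j) := by
    filter_upwards [hopen.mem_nhds hx] with y hy
    exact (hasFDerivAt_pot q a hy).fderiv
  rw [hev.fderiv_eq]
  have hder : HasFDerivAt (fun y => ∑ j, -(q j / dist y (a j) ^ 3) • BB (y - a j))
      (∑ j, (-(q j / dist x (a j) ^ 3) • BB +
        ((3 * q j / dist x (a j) ^ 5) • BB (x - a j)).smulRight (BB (x - a j)))) x := by
    apply HasFDerivAt.fun_sum
    intro j _
    have hne : x ≠ a j := fun h => hx ⟨j, h.symm⟩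
    have h1 : HasFDerivAt (fun y => BB (y - a j)) BB x := by
      have h2 : HasFDerivAt (fun y : EuclideanSpace ℝ (Fin 3) => y - a j)
        (ContinuousLinearMap.id ℝ _) x := (hasFDerivAt_id x).sub_const (a j)
      exact BB.hasFDerivAt.comp x h2
    exact (hasFDerivAt_inv_dist3 hne (q j)).smul h1
  rw [hder.fderiv]
  simp only [ContinuousLinearMap.sum_apply, ContinuousLinearMap.add_apply,
    ContinuousLinearMap.smul_apply, ContinuousLinearMap.smulRight_apply, BB_apply, smul_eq_mul,
    Matrix.cons_val_zero, Matrix.cons_val_one]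
  apply Finset.sum_congr rfl
  intro j _
  ring

end Pool.Agent.Helper19.Maxwell
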