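import Pool.Agent.Helper19.Maxwell.Defs

set_option autoImplicit false

namespace Pool.Agent.Helper19.Maxwell

open Real

theorem Shape.c1_gt (T : Shape) : -1 < T.c1 := by
  have h := T.h1
  have h2 : 0 < T.s1 ^ 2 := by have := T.n1; positivity
  nlinarith

theorem Shape.c2_gt (T : Shape) : -1 < T.c2 := by
  have h := T.h2
  have h2 : 0 < T.s2 ^ 2 := by have := T.p2; positivity
  nlinarith

theorem Shape.c3_gt (T : Shape) : -1 < T.c3 := by
  have h := T.h3
  have h2 : 0 < T.s3 ^ 2 := by have := T.p3; positivity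
  nlinarith

theorem del_pos {c : ℝ} (hc : -1 < c) (u : ℝ) : 0 < cosh u + c := by
  have := one_le_cosh u
  linarith

/-- the two real parts of the tangent identity -/
theorem tan_ident (T : Shape) (u1 u2 u3 : ℝ) (hu : u1 + u2 + u3 = 0) :
    (EE T.c1 T.s1 u1 * EE T.c2 T.s2 u2 + EE T.c2 T.s2 u2 * EE T.c3 T.s3 u3 +
      EE T.c1 T.s1 u1 * EE T.c3 T.s3 u3) -
    (SS T.c1 u1 * SS T.c2 u2 + SS T.c2 u2 * SS T.c3 u3 + SS T.c1 u1 * SS T.c3 u3) = 1 := by
  have e1 : u1 = -(u2 + u3) := by linarith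
  have hd1 := (del_pos T.c1_gt u1).ne'
  have hd2 := (del_pos T.c2_gt u2).ne'
  have hd3 := (del_pos T.c3_gt u3).ne'
  have hC : cosh u1 = cosh u2 * cosh u3 + sinh u2 * sinh u3 := by
    rw [e1, cosh_neg, cosh_add]
  have hS : sinh u1 = -(sinh u2 * cosh u3 + cosh u2 * sinh u3) := by
    rw [e1, sinh_neg, sinh_add]
  have q2 := cosh_sq u2
  have q3 := cosh_sq u3
  unfold EE SS
  field_simp
  rw [hC, hS]
  have h2 := T.h2
  have h3 := T.h3
  have hc1 := T.hc1
  have hs1 := T.hs1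
  rw [hc1, hs1]
  generalize cosh u2 = C2 at *
  generalize cosh u3 = C3 at *
  generalize sinh u2 = S2 at *
  generalize sinh u3 = S3 at *
  generalize T.c2 = c2 at *
  generalize T.c3 = c3 at *
  generalize T.s2 = s2 at *
  generalize T.s3 = s3 at *
  clear hd1 hd2 hd3 hC hS hc1 hs1 e1 hu
  grind

theorem tan_ident2 (T : Shape) (u1 u2 u3 : ℝ) (hu : u1 + u2 + u3 = 0) :
    EE T.c1 T.s1 u1 * (SS T.c2 u2 + SS T.c3 u3) + EE T.c2 T.s2 u2 * (SS T.c1 u1 + SS T.c3 u3) +
      EE T.c3 T.s3 u3 * (SS T.c1 u1 + SS T.c2 u2) = 0 := by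
  have e1 : u1 = -(u2 + u3) := by linarith
  have hd1 := (del_pos T.c1_gt u1).ne'
  have hd2 := (del_pos T.c2_gt u2).ne'
  have hd3 := (del_pos T.c3_gt u3).ne'
  have hC : cosh u1 = cosh u2 * cosh u3 + sinh u2 * sinh u3 := by
    rw [e1, cosh_neg, cosh_add]
  have hS : sinh u1 = -(sinh u2 * cosh u3 + cosh u2 * sinh u3) := by
    rw [e1, sinh_neg, sinh_add]
  have q2 := cosh_sq u2
  have q3 := cosh_sq u3
  unfold EE SS
  field_simp
  rw [hC, hS]
  have h2 := T.h2
  have h3 := T.h3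
  have hc1 := T.hc1
  have hs1 := T.hs1
  rw [hc1, hs1]
  generalize cosh u2 = C2 at *
  generalize cosh u3 = C3 at *
  generalize sinh u2 = S2 at *
  generalize sinh u3 = S3 at *
  generalize T.c2 = c2 at *
  generalize T.c3 = c3 at *
  generalize T.s2 = s2 at *
  generalize T.s3 = s3 at *
  clear hd1 hd2 hd3 hC hS hc1 hs1 e1 hu
  grind

/-- derivative of `SS` -/
theorem hasDerivAt_SS {c s : ℝ} (hc : -1 < c) (h : c ^ 2 + s ^ 2 = 1) (u : ℝ) :
    HasDerivAt (SS c) ((1 + EE c s u ^ 2 - SS c u ^ 2) / 2) u := by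
  have hd := (del_pos hc u).ne'
  have h1 : HasDerivAt (fun u => sinh u / (cosh u + c))
      ((cosh u * (cosh u + c) - sinh u * sinh u) / (cosh u + c) ^ 2) u := by
    have := (hasDerivAt_sinh u).div ((hasDerivAt_cosh u).add_const c) hd
    exact this
  have h2 : (1 + EE c s u ^ 2 - SS c u ^ 2) / 2 =
      (cosh u * (cosh u + c) - sinh u * sinh u) / (cosh u + c) ^ 2 := by
    unfold EE SS
    have q := cosh_sq u
    field_simp
    nlinarith
  rw [h2]
  exact h1

theorem hasDerivAt_EE {c s : ℝ} (hc : -1 < c) (u : ℝ) :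
    HasDerivAt (EE c s) (-(EE c s u * SS c u)) u := by
  have hd := (del_pos hc u).ne'
  have h1 : HasDerivAt (fun u => s / (cosh u + c))
      ((0 * (cosh u + c) - s * sinh u) / (cosh u + c) ^ 2) u := by
    have := (hasDerivAt_const u s).div ((hasDerivAt_cosh u).add_const c) hd
    exact this
  have h2 : -(EE c s u * SS c u) = (0 * (cosh u + c) - s * sinh u) / (cosh u + c) ^ 2 := by
    unfold EE SS
    field_simp
    ring
  rw [h2]
  exact h1

theorem EE_pos {c s : ℝ} (hc : -1 < c) (hs : 0 < s) (u : ℝ) : 0 < EE c s u :=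
  div_pos hs (del_pos hc u)

/-- pair sums of a timelike vector -/
theorem pair_pos {E1 E2 E3 : ℝ} (h : 0 < E1 * E2 + E2 * E3 + E1 * E3) (h2 : 0 < E2) (h3 : 0 < E3) :
    0 < E1 + E3 ∧ 0 < E1 + E2 := by
  constructor
  · have : 0 < (E1 + E3) * (E2 + E3) := by nlinarith [sq_nonneg E3]
    exact (pos_iff_pos_of_mul_pos this).2 (by linarith)
  · have : 0 < (E1 + E2) * (E2 + E3) := by nlinarith [sq_nonneg E2]
    exact (pos_iff_pos_of_mul_pos this).2 (by linarith)

end Pool.Agent.Helper19.Maxwell
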