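import Pool.Agent.Helper19.Maxwell.Ident

set_option autoImplicit false

namespace Pool.Agent.Helper19.Maxwell

open Real


noncomputable def GG (T : Shape) (w2 w3 a1 a2 a3 x v : ℝ) : ℝ :=
  a1 * exp (x / 3) * (w2 * D2 T x v + w3 * D3 T x v) -
    D1 T x v * (w2 * (a2 * exp (v / 3)) + w3 * (a3 * exp (-v / 3)))

noncomputable def FF (T : Shape) (a2 a3 x v : ℝ) : ℝ :=
  a2 * exp (v / 3) * D3 T x v - a3 * exp (-v / 3) * D2 T x v

theorem mem_Sol_iff (T : Shape) (w2 w3 a1 a2 a3 : ℝ) (hw2 : 0 < w2) (hw3 : 0 < w3)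
    (ha1 : 0 < a1) (ha2 : 0 < a2) (ha3 : 0 < a3) (x v : ℝ) :
    (x, v) ∈ Sol T a1 a2 a3 ↔ GG T w2 w3 a1 a2 a3 x v = 0 ∧ FF T a2 a3 x v = 0 := by
  have hD1 : 0 < D1 T x v := del_pos T.c1_gt _
  have hD2 : 0 < D2 T x v := del_pos T.c2_gt _
  have hD3 : 0 < D3 T x v := del_pos T.c3_gt _
  have z1 := exp_pos (x / 3)
  have z2 := exp_pos (v / 3)
  have z3 := exp_pos (-v / 3)
  unfold GG FF Sol
  simp only [Set.mem_ofPred_eq]
  generalize D1 T x v = d1 at *
  generalize D2 T x v = d2 at *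
  generalize D3 T x v = d3 at *
  generalize exp (x / 3) = e1 at *
  generalize exp (v / 3) = e2 at *
  generalize exp (-v / 3) = e3 at *
  constructor
  · rintro ⟨lam, hl, h1, h2, h3⟩
    rw [h1, h2, h3]
    constructor <;> ring
  · rintro ⟨hG, hF⟩
    refine ⟨d2 / (a2 * e2), by positivity, ?_, ?_, ?_⟩
    · have hb : 0 < w2 * (a2 * e2) + w3 * (a3 * e3) := by positivity
      have h3 : d3 = d2 / (a2 * e2) * (a3 * e3) := by
        field_simp
        linarith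
      have h2 : d2 = d2 / (a2 * e2) * (a2 * e2) := by field_simp
      set lam := d2 / (a2 * e2) with hlam
      have : (w2 * (a2 * e2) + w3 * (a3 * e3)) * (d1 - lam * (a1 * e1)) = 0 := by
        have e : w2 * d2 + w3 * d3 = lam * (w2 * (a2 * e2) + w3 * (a3 * e3)) := by
          rw [h3]
          nth_rewrite 1 [h2]
          ring
        rw [e] at hG
        linarith
      rcases mul_eq_zero.1 this with h | h
      · exact absurd h hb.ne'
      · linarith
    · field_simp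
    · field_simp
      linarith

/-- TARGET 2: derivatives and the sign of the Jacobian. -/
theorem jacobian (T : Shape) (a1 a2 a3 : ℝ)
    (ha1 : 0 < a1) (ha2 : 0 < a2) (ha3 : 0 < a3) (w2 w3 : ℝ) (hw2 : 0 < w2) (hw3 : 0 < w3) :
    ∃ Gx Gv Fx Fv : ℝ → ℝ → ℝ,
    (∀ x v, HasFDerivAt (fun p : ℝ × ℝ => GG T w2 w3 a1 a2 a3 p.1 p.2)
      (Gx x v • ContinuousLinearMap.fst ℝ ℝ ℝ + Gv x v • ContinuousLinearMap.snd ℝ ℝ ℝ) (x, v)) ∧
    (∀ x v, HasFDerivAt (fun p : ℝ × ℝ => FF T a2 a3 p.1 p.2)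
      (Fx x v • ContinuousLinearMap.fst ℝ ℝ ℝ + Fv x v • ContinuousLinearMap.snd ℝ ℝ ℝ) (x, v)) ∧
    (∀ x v, (x, v) ∈ Sol T a1 a2 a3 → ∃ k : ℝ, 0 < k ∧
      Gx x v * Fv x v - Gv x v * Fx x v = k * (1 / 9 - ff T x v)) ∧
    (∀ x v, (x, v) ∈ Sol T a1 a2 a3 → ∃ k : ℝ, 0 < k ∧ Gx x v =
      k * (w2 * D2 T x v * (1 / 3 - SS T.c2 (-v - x)) +
        w3 * D3 T x v * (1 / 3 + SS T.c3 (x - v)))) := by
  have hE1 : ∀ x v : ℝ, HasFDerivAt (fun p : ℝ × ℝ => exp (p.1 / 3))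
      ((exp (x / 3) / 3) • ContinuousLinearMap.fst ℝ ℝ ℝ) (x, v) := by
    intro x v
    have h1 : HasFDerivAt (fun p : ℝ × ℝ => p.1) (ContinuousLinearMap.fst ℝ ℝ ℝ) (x, v) :=
      hasFDerivAt_fst
    have h := (h1.mul_const (1 / 3 : ℝ)).exp
    have h' : HasFDerivAt (fun p : ℝ × ℝ => exp (p.1 / 3)) _ (x, v) :=
      h.congr_of_eventuallyEq (Filter.Eventually.of_forall (fun p => by simp [div_eq_mul_inv]))
    refine h'.congr_fderiv ?_
    ext <;> simp [div_eq_mul_inv]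
  have hZ2 : ∀ x v : ℝ, HasFDerivAt (fun p : ℝ × ℝ => exp (p.2 / 3))
      ((exp (v / 3) / 3) • ContinuousLinearMap.snd ℝ ℝ ℝ) (x, v) := by
    intro x v
    have h1 : HasFDerivAt (fun p : ℝ × ℝ => p.2) (ContinuousLinearMap.snd ℝ ℝ ℝ) (x, v) :=
      hasFDerivAt_snd
    have h := (h1.mul_const (1 / 3 : ℝ)).exp
    have h' : HasFDerivAt (fun p : ℝ × ℝ => exp (p.2 / 3)) _ (x, v) :=
      h.congr_of_eventuallyEq (Filter.Eventually.of_forall (fun p => by simp [div_eq_mul_inv]))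
    refine h'.congr_fderiv ?_
    ext <;> simp [div_eq_mul_inv]
  have hZ3 : ∀ x v : ℝ, HasFDerivAt (fun p : ℝ × ℝ => exp (-p.2 / 3))
      ((-(exp (-v / 3) / 3)) • ContinuousLinearMap.snd ℝ ℝ ℝ) (x, v) := by
    intro x v
    have h1 : HasFDerivAt (fun p : ℝ × ℝ => p.2) (ContinuousLinearMap.snd ℝ ℝ ℝ) (x, v) :=
      hasFDerivAt_snd
    have h := (h1.mul_const (-1 / 3 : ℝ)).exp
    have h' : HasFDerivAt (fun p : ℝ × ℝ => exp (-p.2 / 3)) _ (x, v) :=
      h.congr_of_eventuallyEq (Filter.Eventually.of_forall (fun p => by simp only [exp_eq_exp]; ring))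
    refine h'.congr_fderiv ?_
    ext
    · simp
    · simp
      rw [show v * (-1 / 3) = -v / 3 by ring]; ring
  have hD1 : ∀ x v : ℝ, HasFDerivAt (fun p : ℝ × ℝ => D1 T p.1 p.2)
      ((2 * sinh (2 * v)) • ContinuousLinearMap.snd ℝ ℝ ℝ) (x, v) := by
    intro x v
    have h1 : HasFDerivAt (fun p : ℝ × ℝ => p.2) (ContinuousLinearMap.snd ℝ ℝ ℝ) (x, v) :=
      hasFDerivAt_snd
    have h := ((h1.const_mul (2 : ℝ)).cosh).add_const T.c1
    refine h.congr_fderiv ?_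
    ext
    · simp
    · simp; ring
  have hD2 : ∀ x v : ℝ, HasFDerivAt (fun p : ℝ × ℝ => D2 T p.1 p.2)
      ((-sinh (-v - x)) • ContinuousLinearMap.fst ℝ ℝ ℝ +
        (-sinh (-v - x)) • ContinuousLinearMap.snd ℝ ℝ ℝ) (x, v) := by
    intro x v
    have h1 : HasFDerivAt (fun p : ℝ × ℝ => p.1) (ContinuousLinearMap.fst ℝ ℝ ℝ) (x, v) :=
      hasFDerivAt_fst
    have h2 : HasFDerivAt (fun p : ℝ × ℝ => p.2) (ContinuousLinearMap.snd ℝ ℝ ℝ) (x, v) :=
      hasFDerivAt_snd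
    have h := ((h2.neg.sub h1).cosh).add_const T.c2
    refine h.congr_fderiv ?_
    ext <;> simp
  have hD3 : ∀ x v : ℝ, HasFDerivAt (fun p : ℝ × ℝ => D3 T p.1 p.2)
      ((sinh (x - v)) • ContinuousLinearMap.fst ℝ ℝ ℝ +
        (-sinh (x - v)) • ContinuousLinearMap.snd ℝ ℝ ℝ) (x, v) := by
    intro x v
    have h1 : HasFDerivAt (fun p : ℝ × ℝ => p.1) (ContinuousLinearMap.fst ℝ ℝ ℝ) (x, v) :=
      hasFDerivAt_fst
    have h2 : HasFDerivAt (fun p : ℝ × ℝ => p.2) (ContinuousLinearMap.snd ℝ ℝ ℝ) (x, v) :=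
      hasFDerivAt_snd
    have h := ((h1.sub h2).cosh).add_const T.c3
    refine h.congr_fderiv ?_
    ext <;> simp
  refine ⟨fun x v => a1 * (exp (x / 3) / 3) * (w2 * D2 T x v + w3 * D3 T x v) +
      a1 * exp (x / 3) * (w2 * (-sinh (-v - x)) + w3 * sinh (x - v)),
    fun x v => a1 * exp (x / 3) * (w2 * (-sinh (-v - x)) + w3 * (-sinh (x - v))) -
      (2 * sinh (2 * v) * (w2 * (a2 * exp (v / 3)) + w3 * (a3 * exp (-v / 3))) +
        D1 T x v * (w2 * (a2 * (exp (v / 3) / 3)) + w3 * (a3 * (-(exp (-v / 3) / 3))))),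
    fun x v => a2 * exp (v / 3) * sinh (x - v) - a3 * exp (-v / 3) * (-sinh (-v - x)),
    fun x v => a2 * (exp (v / 3) / 3) * D3 T x v + a2 * exp (v / 3) * (-sinh (x - v)) -
      (a3 * (-(exp (-v / 3) / 3)) * D2 T x v + a3 * exp (-v / 3) * (-sinh (-v - x))), ?_, ?_, ?_, ?_⟩
  · intro x v
    have h := (((hE1 x v).const_mul a1).mul (((hD2 x v).const_mul w2).add ((hD3 x v).const_mul w3))).sub
      ((hD1 x v).mul ((((hZ2 x v).const_mul a2).const_mul w2).add (((hZ3 x v).const_mul a3).const_mul w3)))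
    refine h.congr_fderiv ?_
    ext
    · simp; ring
    · simp; ring
  · intro x v
    have h := (((hZ2 x v).const_mul a2).mul (hD3 x v)).sub (((hZ3 x v).const_mul a3).mul (hD2 x v))
    refine h.congr_fderiv ?_
    ext
    · simp
    · simp; ring
  · intro x v hsol
    obtain ⟨lam, hl, h1, h2, h3⟩ := hsol
    have p1 : 0 < D1 T x v := del_pos T.c1_gt _
    have p2 : 0 < D2 T x v := del_pos T.c2_gt _
    have p3 : 0 < D3 T x v := del_pos T.c3_gt _
    have z1 := exp_pos (x / 3)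
    have z2 := exp_pos (v / 3)
    have z3 := exp_pos (-v / 3)
    have s1 : sinh (2 * v) = SS T.c1 (2 * v) * D1 T x v := by
      have hd := (del_pos T.c1_gt (2 * v)).ne'
      unfold SS D1 Del; field_simp
    have s2 : sinh (-v - x) = SS T.c2 (-v - x) * D2 T x v := by
      have hd := (del_pos T.c2_gt (-v - x)).ne'
      unfold SS D2 Del; field_simp
    have s3 : sinh (x - v) = SS T.c3 (x - v) * D3 T x v := by
      have hd := (del_pos T.c3_gt (x - v)).ne'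
      unfold SS D3 Del; field_simp
    simp only at h1 h2 h3
    unfold ff
    simp only [s1, s2, s3]
    generalize SS T.c1 (2 * v) = S1 at *
    generalize SS T.c2 (-v - x) = S2 at *
    generalize SS T.c3 (x - v) = S3 at *
    rw [h1, h2, h3]
    refine ⟨2 * (a1 * exp (x / 3) * lam * (w2 * (a2 * exp (v / 3)) + w3 * (a3 * exp (-v / 3)))) *
      (lam * (a2 * exp (v / 3)) * (a3 * exp (-v / 3))), by positivity, ?_⟩
    ring
  · intro x v hsol
    have s2 : sinh (-v - x) = SS T.c2 (-v - x) * D2 T x v := by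
      have hd := (del_pos T.c2_gt (-v - x)).ne'
      unfold SS D2 Del; field_simp
    have s3 : sinh (x - v) = SS T.c3 (x - v) * D3 T x v := by
      have hd := (del_pos T.c3_gt (x - v)).ne'
      unfold SS D3 Del; field_simp
    refine ⟨a1 * exp (x / 3), by have := exp_pos (x / 3); positivity, ?_⟩
    simp only [s2, s3]
    ring

end Pool.Agent.Helper19.Maxwell

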