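import Pool.Agent.Helper19.Maxwell.Ident

set_option autoImplicit false

namespace Pool.Agent.Helper19.Maxwell

open Real

/-- difference of logarithmic coordinates `u = 3 (log z - log z')` -/
noncomputable def uu (z z' : ℝ) : ℝ := 3 * (log z - log z')

/-- `rho^2` in the coordinates `z` -/
noncomputable def fz (T : Shape) (z1 z2 z3 : ℝ) : ℝ :=
  -(SS T.c1 (uu z2 z3) * SS T.c2 (uu z3 z1) + SS T.c2 (uu z3 z1) * SS T.c3 (uu z1 z2) +
    SS T.c1 (uu z2 z3) * SS T.c3 (uu z1 z2))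

theorem uu_sum (z1 z2 z3 : ℝ) : uu z2 z3 + uu z3 z1 + uu z1 z2 = 0 := by
  unfold uu; ring

theorem fz_scale (T : Shape) {k z1 z2 z3 : ℝ} (hk : 0 < k) (h1 : 0 < z1) (h2 : 0 < z2)
    (h3 : 0 < z3) : fz T (k * z1) (k * z2) (k * z3) = fz T z1 z2 z3 := by
  have hu : ∀ z z' : ℝ, 0 < z → 0 < z' → uu (k * z) (k * z') = uu z z' := by
    intro z z' hz hz'
    unfold uu
    rw [log_mul hk.ne' hz.ne', log_mul hk.ne' hz'.ne']
    ring
  unfold fz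
  rw [hu _ _ h2 h3, hu _ _ h3 h1, hu _ _ h1 h2]

/-- a straight line in `z` space -/
structure Ray where
  a1 : ℝ
  b1 : ℝ
  a2 : ℝ
  b2 : ℝ
  a3 : ℝ
  b3 : ℝ

namespace Ray

variable (L : Ray) (T : Shape)

def z1 (t : ℝ) : ℝ := L.a1 + L.b1 * t
def z2 (t : ℝ) : ℝ := L.a2 + L.b2 * t
def z3 (t : ℝ) : ℝ := L.a3 + L.b3 * t
noncomputable def w1 (t : ℝ) : ℝ := L.b1 / L.z1 t
noncomputable def w2 (t : ℝ) : ℝ := L.b2 / L.z2 t
noncomputable def w3 (t : ℝ) : ℝ := L.b3 / L.z3 t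

def Pos (t : ℝ) : Prop := 0 < L.z1 t ∧ 0 < L.z2 t ∧ 0 < L.z3 t

noncomputable def E1 (t : ℝ) : ℝ := EE T.c1 T.s1 (uu (L.z2 t) (L.z3 t))
noncomputable def E2 (t : ℝ) : ℝ := EE T.c2 T.s2 (uu (L.z3 t) (L.z1 t))
noncomputable def E3 (t : ℝ) : ℝ := EE T.c3 T.s3 (uu (L.z1 t) (L.z2 t))
noncomputable def S1 (t : ℝ) : ℝ := SS T.c1 (uu (L.z2 t) (L.z3 t))
noncomputable def S2 (t : ℝ) : ℝ := SS T.c2 (uu (L.z3 t) (L.z1 t))
noncomputable def S3 (t : ℝ) : ℝ := SS T.c3 (uu (L.z1 t) (L.z2 t))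
noncomputable def P1 (t : ℝ) : ℝ := (1 + L.E1 T t ^ 2 - L.S1 T t ^ 2) / 2
noncomputable def P2 (t : ℝ) : ℝ := (1 + L.E2 T t ^ 2 - L.S2 T t ^ 2) / 2
noncomputable def P3 (t : ℝ) : ℝ := (1 + L.E3 T t ^ 2 - L.S3 T t ^ 2) / 2

/-- value of `rho^2` along the line -/
noncomputable def f (t : ℝ) : ℝ := fz T (L.z1 t) (L.z2 t) (L.z3 t)

/-- its derivative -/
noncomputable def g (t : ℝ) : ℝ :=
  -3 * (L.P1 T t * (L.S2 T t + L.S3 T t) * (L.w2 t - L.w3 t) +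
    L.P2 T t * (L.S1 T t + L.S3 T t) * (L.w3 t - L.w1 t) +
    L.P3 T t * (L.S1 T t + L.S2 T t) * (L.w1 t - L.w2 t))

/-- its second derivative -/
noncomputable def h (t : ℝ) : ℝ :=
  9 * ((L.S2 T t + L.S3 T t) * L.S1 T t * (L.P1 T t + L.E1 T t ^ 2) * (L.w2 t - L.w3 t) ^ 2
    + (L.S1 T t + L.S3 T t) * L.S2 T t * (L.P2 T t + L.E2 T t ^ 2) * (L.w3 t - L.w1 t) ^ 2
    + (L.S1 T t + L.S2 T t) * L.S3 T t * (L.P3 T t + L.E3 T t ^ 2) * (L.w1 t - L.w2 t) ^ 2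
    - 2 * (L.P1 T t * L.P2 T t * (L.w2 t - L.w3 t) * (L.w3 t - L.w1 t)
      + L.P2 T t * L.P3 T t * (L.w3 t - L.w1 t) * (L.w1 t - L.w2 t)
      + L.P1 T t * L.P3 T t * (L.w2 t - L.w3 t) * (L.w1 t - L.w2 t)))
  + 3 * (L.P1 T t * (L.S2 T t + L.S3 T t) * (L.w2 t - L.w3 t) * (L.w2 t + L.w3 t) +
    L.P2 T t * (L.S1 T t + L.S3 T t) * (L.w3 t - L.w1 t) * (L.w3 t + L.w1 t) +
    L.P3 T t * (L.S1 T t + L.S2 T t) * (L.w1 t - L.w2 t) * (L.w1 t + L.w2 t))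

variable {L}

theorem hasDerivAt_z1 (t : ℝ) : HasDerivAt L.z1 L.b1 t := by
  have := ((hasDerivAt_id t).const_mul L.b1).const_add L.a1
  exact this.congr_deriv (mul_one _)
theorem hasDerivAt_z2 (t : ℝ) : HasDerivAt L.z2 L.b2 t := by
  have := ((hasDerivAt_id t).const_mul L.b2).const_add L.a2
  exact this.congr_deriv (mul_one _)
theorem hasDerivAt_z3 (t : ℝ) : HasDerivAt L.z3 L.b3 t := by
  have := ((hasDerivAt_id t).const_mul L.b3).const_add L.a3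
  exact this.congr_deriv (mul_one _)

theorem hasDerivAt_w1 {t : ℝ} (ht : L.Pos t) : HasDerivAt L.w1 (-(L.w1 t) ^ 2) t := by
  have := (hasDerivAt_const t L.b1).div (hasDerivAt_z1 t) ht.1.ne'
  refine this.congr_deriv ?_
  unfold w1
  have := ht.1.ne'
  field_simp
  ring
theorem hasDerivAt_w2 {t : ℝ} (ht : L.Pos t) : HasDerivAt L.w2 (-(L.w2 t) ^ 2) t := by
  have := (hasDerivAt_const t L.b2).div (hasDerivAt_z2 t) ht.2.1.ne'
  refine this.congr_deriv ?_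
  unfold w2
  have := ht.2.1.ne'
  field_simp
  ring
theorem hasDerivAt_w3 {t : ℝ} (ht : L.Pos t) : HasDerivAt L.w3 (-(L.w3 t) ^ 2) t := by
  have := (hasDerivAt_const t L.b3).div (hasDerivAt_z3 t) ht.2.2.ne'
  refine this.congr_deriv ?_
  unfold w3
  have := ht.2.2.ne'
  field_simp
  ring

theorem hasDerivAt_u1 {t : ℝ} (ht : L.Pos t) :
    HasDerivAt (fun t => uu (L.z2 t) (L.z3 t)) (3 * (L.w2 t - L.w3 t)) t := by
  have := (((hasDerivAt_z2 (L := L) t).log ht.2.1.ne').sub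
    ((hasDerivAt_z3 (L := L) t).log ht.2.2.ne')).const_mul 3
  exact this
theorem hasDerivAt_u2 {t : ℝ} (ht : L.Pos t) :
    HasDerivAt (fun t => uu (L.z3 t) (L.z1 t)) (3 * (L.w3 t - L.w1 t)) t := by
  have := (((hasDerivAt_z3 (L := L) t).log ht.2.2.ne').sub
    ((hasDerivAt_z1 (L := L) t).log ht.1.ne')).const_mul 3
  exact this
theorem hasDerivAt_u3 {t : ℝ} (ht : L.Pos t) :
    HasDerivAt (fun t => uu (L.z1 t) (L.z2 t)) (3 * (L.w1 t - L.w2 t)) t := by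
  have := (((hasDerivAt_z1 (L := L) t).log ht.1.ne').sub
    ((hasDerivAt_z2 (L := L) t).log ht.2.1.ne')).const_mul 3
  exact this

theorem hasDerivAt_S1 {t : ℝ} (ht : L.Pos t) :
    HasDerivAt (L.S1 T) (L.P1 T t * (3 * (L.w2 t - L.w3 t))) t :=
  (hasDerivAt_SS T.c1_gt T.h1 (uu (L.z2 t) (L.z3 t))).comp t (hasDerivAt_u1 ht)
theorem hasDerivAt_S2 {t : ℝ} (ht : L.Pos t) :
    HasDerivAt (L.S2 T) (L.P2 T t * (3 * (L.w3 t - L.w1 t))) t :=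
  (hasDerivAt_SS T.c2_gt T.h2 (uu (L.z3 t) (L.z1 t))).comp t (hasDerivAt_u2 ht)
theorem hasDerivAt_S3 {t : ℝ} (ht : L.Pos t) :
    HasDerivAt (L.S3 T) (L.P3 T t * (3 * (L.w1 t - L.w2 t))) t :=
  (hasDerivAt_SS T.c3_gt T.h3 (uu (L.z1 t) (L.z2 t))).comp t (hasDerivAt_u3 ht)
theorem hasDerivAt_E1 {t : ℝ} (ht : L.Pos t) :
    HasDerivAt (L.E1 T) (-(L.E1 T t * L.S1 T t) * (3 * (L.w2 t - L.w3 t))) t :=
  (hasDerivAt_EE T.c1_gt (uu (L.z2 t) (L.z3 t))).comp t (hasDerivAt_u1 ht)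
theorem hasDerivAt_E2 {t : ℝ} (ht : L.Pos t) :
    HasDerivAt (L.E2 T) (-(L.E2 T t * L.S2 T t) * (3 * (L.w3 t - L.w1 t))) t :=
  (hasDerivAt_EE T.c2_gt (uu (L.z3 t) (L.z1 t))).comp t (hasDerivAt_u2 ht)
theorem hasDerivAt_E3 {t : ℝ} (ht : L.Pos t) :
    HasDerivAt (L.E3 T) (-(L.E3 T t * L.S3 T t) * (3 * (L.w1 t - L.w2 t))) t :=
  (hasDerivAt_EE T.c3_gt (uu (L.z1 t) (L.z2 t))).comp t (hasDerivAt_u3 ht)

theorem hasDerivAt_P1 {t : ℝ} (ht : L.Pos t) :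
    HasDerivAt (L.P1 T)
      (-(3 * (L.w2 t - L.w3 t) * L.S1 T t * (L.P1 T t + L.E1 T t ^ 2))) t := by
  have h1 := ((((hasDerivAt_E1 T ht).pow 2).const_add 1).sub
    ((hasDerivAt_S1 T ht).pow 2)).div_const 2
  refine (h1.congr_deriv ?_)
  simp only [Nat.cast_ofNat, Nat.add_one_sub_one, pow_one]
  ring
theorem hasDerivAt_P2 {t : ℝ} (ht : L.Pos t) :
    HasDerivAt (L.P2 T)
      (-(3 * (L.w3 t - L.w1 t) * L.S2 T t * (L.P2 T t + L.E2 T t ^ 2))) t := by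
  have h1 := ((((hasDerivAt_E2 T ht).pow 2).const_add 1).sub
    ((hasDerivAt_S2 T ht).pow 2)).div_const 2
  refine (h1.congr_deriv ?_)
  simp only [Nat.cast_ofNat, Nat.add_one_sub_one, pow_one]
  ring
theorem hasDerivAt_P3 {t : ℝ} (ht : L.Pos t) :
    HasDerivAt (L.P3 T)
      (-(3 * (L.w1 t - L.w2 t) * L.S3 T t * (L.P3 T t + L.E3 T t ^ 2))) t := by
  have h1 := ((((hasDerivAt_E3 T ht).pow 2).const_add 1).sub
    ((hasDerivAt_S3 T ht).pow 2)).div_const 2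
  refine (h1.congr_deriv ?_)
  simp only [Nat.cast_ofNat, Nat.add_one_sub_one, pow_one]
  ring

theorem hasDerivAt_f {t : ℝ} (ht : L.Pos t) : HasDerivAt (L.f T) (L.g T t) t := by
  have a := hasDerivAt_S1 T ht
  have b := hasDerivAt_S2 T ht
  have c := hasDerivAt_S3 T ht
  have := (((a.mul b).add (b.mul c)).add (a.mul c)).neg
  refine this.congr_deriv ?_
  unfold g
  ring

theorem hasDerivAt_g {t : ℝ} (ht : L.Pos t) : HasDerivAt (L.g T) (L.h T t) t := by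
  have a := hasDerivAt_S1 T ht
  have b := hasDerivAt_S2 T ht
  have c := hasDerivAt_S3 T ht
  have p := hasDerivAt_P1 T ht
  have q := hasDerivAt_P2 T ht
  have r := hasDerivAt_P3 T ht
  have x := hasDerivAt_w1 ht
  have y := hasDerivAt_w2 ht
  have z := hasDerivAt_w3 ht
  have := ((((p.mul (b.add c)).mul (y.sub z)).add ((q.mul (a.add c)).mul (z.sub x))).add
    ((r.mul (a.add b)).mul (x.sub y))).const_mul (-3)
  refine this.congr_deriv ?_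
  unfold h
  simp only [Pi.add_apply, Pi.sub_apply, Pi.mul_apply]
  ring

end Ray

end Pool.Agent.Helper19.Maxwell
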