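import Pool.Agent.Helper19.Maxwell.Ident

set_option autoImplicit false

namespace Pool.Agent.Helper19.Maxwell

open Real


theorem um_alg (al be gam : ℝ) (hal : 0 < al) (hbe : 0 < be) :
    ∃ w0 w1 : ℝ, 0 < w0 ∧ 0 < w1 ∧ ∀ w, 4 * al * w ^ 2 + gam * w - 2 * be =
      4 * al * ((w - w0) * (w + w1)) := by
  set s := Real.sqrt (gam ^ 2 + 32 * al * be) with hs
  have hpos : 0 < 32 * al * be := by positivity
  have hs2 : s ^ 2 = gam ^ 2 + 32 * al * be := Real.sq_sqrt (by positivity)
  have hsg : |gam| < s := by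
    rw [hs, ← Real.sqrt_sq_eq_abs]
    exact Real.sqrt_lt_sqrt (sq_nonneg _) (by linarith)
  have h1 : 0 < s - gam := by linarith [le_abs_self gam]
  have h2 : 0 < s + gam := by linarith [neg_abs_le gam]
  refine ⟨(s - gam) / (8 * al), (s + gam) / (8 * al), by positivity, by positivity, fun w => ?_⟩
  field_simp
  linear_combination (4:ℝ) * hs2

theorem um_fun (T : Shape) (w2 w3 a1 K v x : ℝ) :
    a1 * exp (x / 3) * (w2 * D2 T x v + w3 * D3 T x v) - K =
    a1 * (((w2 * exp v + w3 * exp (-v)) / 2) * exp (4 * x / 3) +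
      (w2 * T.c2 + w3 * T.c3) * exp (x / 3) +
      ((w2 * exp (-v) + w3 * exp v) / 2) * exp (-2 * x / 3)) - K := by
  unfold D2 D3 Del
  rw [cosh_eq, cosh_eq]
  have e1 : exp (-v - x) = exp (-v) * exp (-x) := by rw [← exp_add]; ring_nf
  have e2 : exp (-(-v - x)) = exp v * exp x := by rw [← exp_add]; ring_nf
  have e3 : exp (x - v) = exp x * exp (-v) := by rw [← exp_add]; ring_nf
  have e4 : exp (-(x - v)) = exp (-x) * exp v := by rw [← exp_add]; ring_nf
  have e5 : exp (4 * x / 3) = exp (x / 3) * exp x := by rw [← exp_add]; ring_nf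
  have e6 : exp (-2 * x / 3) = exp (x / 3) * exp (-x) := by rw [← exp_add]; ring_nf
  rw [e1, e2, e3, e4, e5, e6]
  ring

theorem um_deriv (al be gam a1 K x : ℝ) :
    HasDerivAt (fun x => a1 * (al * exp (4 * x / 3) + gam * exp (x / 3) +
      be * exp (-2 * x / 3)) - K)
      ((a1 / 3 * exp (-2 * x / 3)) * (4 * al * (exp x) ^ 2 + gam * exp x - 2 * be)) x := by
  have d1 : HasDerivAt (fun x : ℝ => exp (4 * x / 3)) (exp (4 * x / 3) * (4 / 3)) x := by
    have := ((hasDerivAt_id x).const_mul 4).div_const 3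
    simpa using this.exp
  have d2 : HasDerivAt (fun x : ℝ => exp (x / 3)) (exp (x / 3) * (1 / 3)) x := by
    have := (hasDerivAt_id x).div_const 3
    simpa using this.exp
  have d3 : HasDerivAt (fun x : ℝ => exp (-2 * x / 3)) (exp (-2 * x / 3) * (-2 / 3)) x := by
    have := ((hasDerivAt_id x).const_mul (-2)).div_const 3
    simpa using this.exp
  have h := ((((d1.const_mul al).add (d2.const_mul gam)).add (d3.const_mul be)).const_mul a1).sub_const K
  refine h.congr_deriv ?_
  have e5 : exp (4 * x / 3) = exp (-2 * x / 3) * (exp x) ^ 2 := by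
    rw [← exp_nat_mul, ← exp_add]; congr 1; push_cast; ring
  have e6 : exp (x / 3) = exp (-2 * x / 3) * exp x := by rw [← exp_add]; congr 1; ring
  rw [e5, e6]
  ring

theorem um_left (al be gam a1 K m : ℝ) (ha1 : 0 < a1) (hbe : 0 < be) :
    ∃ x, x ≤ m ∧ 0 < a1 * (al * exp (4 * x / 3) + gam * exp (x / 3) +
      be * exp (-2 * x / 3)) - K := by
  have h1 : Filter.Tendsto (fun x : ℝ => exp (-2 * x / 3)) Filter.atBot Filter.atTop := by
    refine tendsto_exp_atTop.comp ?_
    have : (fun x : ℝ => -2 * x / 3) = fun x : ℝ => (-(2/3:ℝ)) * x := by funext x; ring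
    rw [this]
    exact Filter.Tendsto.const_mul_atBot_of_neg (by norm_num) Filter.tendsto_id
  have h2 : Filter.Tendsto (fun x : ℝ => a1 * (al * (exp x) ^ 2 + gam * exp x + be))
      Filter.atBot (nhds (a1 * (al * 0 ^ 2 + gam * 0 + be))) := by
    have := tendsto_exp_atBot
    exact (((this.pow 2).const_mul al).add (this.const_mul gam)).add_const be |>.const_mul a1
  have h3 := h1.atTop_mul_pos (C := a1 * (al * 0 ^ 2 + gam * 0 + be)) (by
    have : a1 * (al * 0 ^ 2 + gam * 0 + be) = a1 * be := by ring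
    rw [this]; positivity) h2
  obtain ⟨x, hx1, hx2⟩ := ((h3.eventually_gt_atTop K).and (Filter.eventually_le_atBot m)).exists
  refine ⟨x, hx2, ?_⟩
  have e5 : exp (4 * x / 3) = exp (-2 * x / 3) * (exp x) ^ 2 := by
    rw [← exp_nat_mul, ← exp_add]; congr 1; push_cast; ring
  have e6 : exp (x / 3) = exp (-2 * x / 3) * exp x := by rw [← exp_add]; congr 1; ring
  rw [e5, e6]
  have : a1 * (al * (exp (-2 * x / 3) * (exp x) ^ 2) + gam * (exp (-2 * x / 3) * exp x) +
      be * exp (-2 * x / 3)) = exp (-2 * x / 3) * (a1 * (al * (exp x) ^ 2 + gam * exp x + be)) := by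
    ring
  rw [this]
  linarith

theorem um_right (al be gam a1 K m : ℝ) (ha1 : 0 < a1) (hal : 0 < al) :
    ∃ x, m ≤ x ∧ 0 < a1 * (al * exp (4 * x / 3) + gam * exp (x / 3) +
      be * exp (-2 * x / 3)) - K := by
  have h1 : Filter.Tendsto (fun x : ℝ => exp (4 * x / 3)) Filter.atTop Filter.atTop := by
    refine tendsto_exp_atTop.comp ?_
    have : (fun x : ℝ => 4 * x / 3) = fun x : ℝ => (4/3:ℝ) * x := by funext x; ring
    rw [this]
    exact Filter.Tendsto.const_mul_atTop (by norm_num) Filter.tendsto_id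
  have h0 : Filter.Tendsto (fun x : ℝ => exp (-x)) Filter.atTop (nhds 0) :=
    tendsto_exp_neg_atTop_nhds_zero
  have h2 : Filter.Tendsto (fun x : ℝ => a1 * (al + gam * exp (-x) + be * (exp (-x)) ^ 2))
      Filter.atTop (nhds (a1 * (al + gam * 0 + be * 0 ^ 2))) := by
    exact (((h0.const_mul gam).const_add al).add ((h0.pow 2).const_mul be)).const_mul a1
  have h3 := h1.atTop_mul_pos (C := a1 * (al + gam * 0 + be * 0 ^ 2)) (by
    have : a1 * (al + gam * 0 + be * 0 ^ 2) = a1 * al := by ring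
    rw [this]; positivity) h2
  obtain ⟨x, hx1, hx2⟩ := ((h3.eventually_gt_atTop K).and (Filter.eventually_ge_atTop m)).exists
  refine ⟨x, hx2, ?_⟩
  have e5 : exp (-2 * x / 3) = exp (4 * x / 3) * (exp (-x)) ^ 2 := by
    rw [← exp_nat_mul, ← exp_add]; congr 1; push_cast; ring
  have e6 : exp (x / 3) = exp (4 * x / 3) * exp (-x) := by rw [← exp_add]; congr 1; ring
  rw [e5, e6]
  have : a1 * (al * exp (4 * x / 3) + gam * (exp (4 * x / 3) * exp (-x)) +
      be * (exp (4 * x / 3) * (exp (-x)) ^ 2)) =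
      exp (4 * x / 3) * (a1 * (al + gam * exp (-x) + be * (exp (-x)) ^ 2)) := by
    ring
  rw [this]
  linarith

/-- TARGET: unimodality in `x`. -/
theorem unimodal (T : Shape) (w2 w3 a1 : ℝ) (hw2 : 0 < w2) (hw3 : 0 < w3) (ha1 : 0 < a1)
    (K v : ℝ) : ∃ m : ℝ,
    StrictAntiOn (fun x => a1 * exp (x / 3) * (w2 * D2 T x v + w3 * D3 T x v) - K) (Set.Iic m) ∧
    StrictMonoOn (fun x => a1 * exp (x / 3) * (w2 * D2 T x v + w3 * D3 T x v) - K) (Set.Ici m) ∧
    (∃ x, x ≤ m ∧ 0 < a1 * exp (x / 3) * (w2 * D2 T x v + w3 * D3 T x v) - K) ∧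
    (∃ x, m ≤ x ∧ 0 < a1 * exp (x / 3) * (w2 * D2 T x v + w3 * D3 T x v) - K) := by
  simp_rw [um_fun T w2 w3 a1 K v]
  set al := (w2 * exp v + w3 * exp (-v)) / 2 with hal
  set be := (w2 * exp (-v) + w3 * exp v) / 2 with hbe
  set gam := w2 * T.c2 + w3 * T.c3 with hgam
  have hal0 : 0 < al := by rw [hal]; positivity
  have hbe0 : 0 < be := by rw [hbe]; positivity
  obtain ⟨w0, w1, hw0, hw1, hq⟩ := um_alg al be gam hal0 hbe0
  have hcont : Continuous (fun x => a1 * (al * exp (4 * x / 3) + gam * exp (x / 3) +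
      be * exp (-2 * x / 3)) - K) := by fun_prop
  refine ⟨Real.log w0, ?_, ?_, um_left al be gam a1 K _ ha1 hbe0,
    um_right al be gam a1 K _ ha1 hal0⟩
  · refine strictAntiOn_of_deriv_neg (convex_Iic _) hcont.continuousOn fun x hx => ?_
    rw [interior_Iic, Set.mem_Iio] at hx
    rw [(um_deriv al be gam a1 K x).deriv, hq]
    have h1 : exp x < w0 := by
      rw [← Real.exp_log hw0]; exact exp_lt_exp.mpr hx
    have h2 : (exp x - w0) * (exp x + w1) < 0 :=
      mul_neg_of_neg_of_pos (by linarith) (by positivity)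
    have h3 : 4 * al * ((exp x - w0) * (exp x + w1)) < 0 :=
      mul_neg_of_pos_of_neg (by positivity) h2
    exact mul_neg_of_pos_of_neg (by positivity) h3
  · refine strictMonoOn_of_deriv_pos (convex_Ici _) hcont.continuousOn fun x hx => ?_
    rw [interior_Ici, Set.mem_Ioi] at hx
    rw [(um_deriv al be gam a1 K x).deriv, hq]
    have h1 : w0 < exp x := by
      rw [← Real.exp_log hw0]; exact exp_lt_exp.mpr hx
    have h2 : 0 < (exp x - w0) * (exp x + w1) :=
      mul_pos (by linarith) (by positivity)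
    positivity

end Pool.Agent.Helper19.Maxwell
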