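import Pool.Agent.Helper19.Maxwell.Line

set_option autoImplicit false

namespace Pool.Agent.Helper19.Maxwell

open Real




/-- quadratic form bound -/
theorem jU_form {E1 E2 E3 S1 S2 S3 f y1 y2 y3 : ℝ}
    (hE : E1 * E2 + E2 * E3 + E1 * E3 = 1 - f)
    (hS : f = -(S1 * S2 + S2 * S3 + S1 * S3))
    (hB : E1 * (S2 + S3) + E2 * (S1 + S3) + E3 * (S1 + S2) = 0)
    (hf : f < 1 / 9) (h2 : 0 < E2) (h3 : 0 < E3) (hy : y1 + y2 + y3 = 0)
    (hne : ¬ (y1 = 0 ∧ y2 = 0 ∧ y3 = 0)) :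
    3 * (y1 * y2 * (S1 * E2 - S2 * E1) + y2 * y3 * (S2 * E3 - S3 * E2) +
      y3 * y1 * (S3 * E1 - S1 * E3)) - (E1 * y1 ^ 2 + E2 * y2 ^ 2 + E3 * y3 ^ 2) < 0 := by
  set x1 := S2 * E3 - S3 * E2 with hx1
  set x2 := S3 * E1 - S1 * E3 with hx2
  set x3 := S1 * E2 - S2 * E1 with hx3
  set Y1 := E1 + 3 / 2 * (x2 + x3 - x1) with hY1
  set Y2 := E2 + 3 / 2 * (x1 + x3 - x2) with hY2
  set Y3 := E3 + 3 / 2 * (x1 + x2 - x3) with hY3
  have hy3 : y3 = -y1 - y2 := by linarith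
  have e0 : 3 * (y1 * y2 * x3 + y2 * y3 * x1 + y3 * y1 * x2) -
      (E1 * y1 ^ 2 + E2 * y2 ^ 2 + E3 * y3 ^ 2) =
      -((Y1 + Y3) * y1 ^ 2 + 2 * Y3 * y1 * y2 + (Y2 + Y3) * y2 ^ 2) := by
    rw [hy3, hY1, hY2, hY3]; ring
  have hx1sq : x1 ^ 2 = f * (E2 + E3) ^ 2 - (1 - f) * (S2 + S3) ^ 2 := by
    have : x1 ^ 2 + (S1 * S2 + S2 * S3 + S1 * S3) * (E2 + E3) ^ 2 +
      (E1 * E2 + E2 * E3 + E1 * E3) * (S2 + S3) ^ 2 -
      (E1 * (S2 + S3) + E2 * (S1 + S3) + E3 * (S1 + S2)) * ((E2 + E3) * (S2 + S3)) = 0 := by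
      rw [hx1]; ring
    rw [hB, hE] at this
    rw [hS] at this ⊢
    linarith
  have hpos : 0 < E2 + E3 := by linarith
  have hY23 : 0 < Y2 + Y3 := by
    have e : Y2 + Y3 = E2 + E3 + 3 * x1 := by rw [hY2, hY3]; ring
    rw [e]
    have h9 : (3 * x1) ^ 2 < (E2 + E3) ^ 2 := by
      have h1 : 0 ≤ (1 - f) * (S2 + S3) ^ 2 := mul_nonneg (by linarith) (sq_nonneg _)
      have h2 : 0 < (E2 + E3) ^ 2 := by positivity
      have h3 : (9 * f) * (E2 + E3) ^ 2 < 1 * (E2 + E3) ^ 2 :=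
        mul_lt_mul_of_pos_right (by linarith) h2
      nlinarith
    have := abs_lt_of_sq_lt_sq h9 hpos.le
    have := (abs_lt.1 this).1
    linarith
  have hdet : (Y1 + Y3) * (Y2 + Y3) - Y3 ^ 2 = (1 - f) * (1 - 9 * f) := by
    have e1 : (Y1 + Y3) * (Y2 + Y3) - Y3 ^ 2 =
        (E1 * E2 + E2 * E3 + E1 * E3) * (1 + 9 * (S1 * S2 + S2 * S3 + S1 * S3)) -
        (9 / 4) * (E1 * (S2 + S3) + E2 * (S1 + S3) + E3 * (S1 + S2)) ^ 2 := by
      rw [hY1, hY2, hY3, hx1, hx2, hx3]; ring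
    rw [e1, hB, hE]
    rw [hS]; ring
  have hdet' : 0 < (Y1 + Y3) * (Y2 + Y3) - Y3 ^ 2 := by
    rw [hdet]
    apply mul_pos <;> linarith
  have hQ : 0 < (Y1 + Y3) * y1 ^ 2 + 2 * Y3 * y1 * y2 + (Y2 + Y3) * y2 ^ 2 := by
    have hk : (Y2 + Y3) * ((Y1 + Y3) * y1 ^ 2 + 2 * Y3 * y1 * y2 + (Y2 + Y3) * y2 ^ 2) =
        ((Y2 + Y3) * y2 + Y3 * y1) ^ 2 + ((Y1 + Y3) * (Y2 + Y3) - Y3 ^ 2) * y1 ^ 2 := by ring
    have hk2 : 0 < ((Y2 + Y3) * y2 + Y3 * y1) ^ 2 + ((Y1 + Y3) * (Y2 + Y3) - Y3 ^ 2) * y1 ^ 2 := by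
      by_cases h1 : y1 = 0
      · have h2' : y2 ≠ 0 := by
          intro h2'
          apply hne
          refine ⟨h1, h2', by rw [hy3, h1, h2']; ring⟩
        rw [h1]
        have h5 : 0 < ((Y2 + Y3) * y2) ^ 2 := by
          have : (Y2 + Y3) * y2 ≠ 0 := mul_ne_zero hY23.ne' h2'
          positivity
        have h6 : ((Y2 + Y3) * y2 + Y3 * 0) ^ 2 + ((Y1 + Y3) * (Y2 + Y3) - Y3 ^ 2) * (0 : ℝ) ^ 2 =
          ((Y2 + Y3) * y2) ^ 2 := by ring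
        rw [h6]
        exact h5
      · have h5 : 0 < y1 ^ 2 := by positivity
        exact add_pos_of_nonneg_of_pos (sq_nonneg _) (mul_pos hdet' h5)
    rw [← hk] at hk2
    exact (pos_iff_pos_of_mul_pos hk2).1 hY23
  rw [e0]
  linarith

/-- a function whose derivative is negative at its zeros cannot vanish at both ends -/
theorem jU_zeros {n n' : ℝ → ℝ} (hn : ∀ t ∈ Set.Icc (0 : ℝ) 1, HasDerivAt n (n' t) t)
    (h0 : n 0 = 0) (h1 : n 1 = 0) (hneg : ∀ t ∈ Set.Icc (0 : ℝ) 1, n t = 0 → n' t < 0) : False := by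
  have hle : ∀ ⦃x⦄, x ∈ Set.Icc (0 : ℝ) 1 → n x ≤ (fun _ => (0 : ℝ)) x := by
    apply image_le_of_deriv_right_lt_deriv_boundary' (f' := n') (B := fun _ => (0 : ℝ))
      (B' := fun _ => 0)
    · intro t ht
      exact (hn t ht).continuousAt.continuousWithinAt
    · intro t ht
      exact (hn t ⟨ht.1, ht.2.le⟩).hasDerivWithinAt
    · simp [h0]
    · exact continuousOn_const
    · intro t _
      exact hasDerivWithinAt_const _ _ _
    · intro t ht h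
      exact hneg t ⟨ht.1, ht.2.le⟩ h
  have hd := hn 1 (by norm_num)
  have hd1 := hneg 1 (by norm_num) h1
  have hs := (hasDerivAt_iff_tendsto_slope.1 hd).eventually (gt_mem_nhds hd1)
  have hs2 : ∀ᶠ t in nhdsWithin (1 : ℝ) (Set.Iio 1), slope n 1 t < 0 :=
    hs.filter_mono (nhdsWithin_mono _ (fun t ht => ne_of_lt ht))
  have hs3 : ∀ᶠ t in nhdsWithin (1 : ℝ) (Set.Iio 1), t ∈ Set.Ioo (0 : ℝ) 1 :=
    Ioo_mem_nhdsLT (by norm_num)
  obtain ⟨t, ht1, ht2⟩ := (hs2.and hs3).exists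
  have h3 := hle ⟨ht2.1.le, ht2.2.le⟩
  rw [slope_def_field, h1] at ht1
  have h4 : 0 ≤ (n t - 0) / (t - 1) := by
    apply div_nonneg_of_nonpos
    · simpa using h3
    · linarith [ht2.2]
  linarith

namespace Ray

variable (L : Ray) (T : Shape)

/-- the test function -/
noncomputable def nn (t : ℝ) : ℝ :=
  L.w1 t * (L.E1 T t)⁻¹ + L.w2 t * (L.E2 T t)⁻¹ + L.w3 t * (L.E3 T t)⁻¹

noncomputable def nn' (t : ℝ) : ℝ :=
  (-(L.w1 t) ^ 2 * (L.E1 T t)⁻¹ + L.w1 t * (L.S1 T t * (3 * (L.w2 t - L.w3 t)) * (L.E1 T t)⁻¹)) +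
  (-(L.w2 t) ^ 2 * (L.E2 T t)⁻¹ + L.w2 t * (L.S2 T t * (3 * (L.w3 t - L.w1 t)) * (L.E2 T t)⁻¹)) +
  (-(L.w3 t) ^ 2 * (L.E3 T t)⁻¹ + L.w3 t * (L.S3 T t * (3 * (L.w1 t - L.w2 t)) * (L.E3 T t)⁻¹))

variable {L}

theorem E1_ne (t : ℝ) : L.E1 T t ≠ 0 := div_ne_zero T.n1 (del_pos T.c1_gt _).ne'
theorem E2_pos (t : ℝ) : 0 < L.E2 T t := EE_pos T.c2_gt T.p2 _
theorem E3_pos (t : ℝ) : 0 < L.E3 T t := EE_pos T.c3_gt T.p3 _

theorem hasDerivAt_nn {t : ℝ} (ht : L.Pos t) : HasDerivAt (L.nn T) (L.nn' T t) t := by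
  have h1 := (hasDerivAt_w1 ht).mul ((hasDerivAt_E1 T ht).inv (E1_ne T t))
  have h2 := (hasDerivAt_w2 ht).mul ((hasDerivAt_E2 T ht).inv (E2_pos T t).ne')
  have h3 := (hasDerivAt_w3 ht).mul ((hasDerivAt_E3 T ht).inv (E3_pos T t).ne')
  have := (h1.add h2).add h3
  refine this.congr_deriv ?_
  unfold nn'
  have e1 := E1_ne (L := L) T t
  have e2 := (E2_pos (L := L) T t).ne'
  have e3 := (E3_pos (L := L) T t).ne'
  simp only [Pi.inv_apply]
  field_simp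

theorem nn'_neg {t : ℝ} (hf : L.f T t < 1 / 9) (hn : L.nn T t = 0)
    (hne : ¬ (L.w1 t = 0 ∧ L.w2 t = 0 ∧ L.w3 t = 0)) : L.nn' T t < 0 := by
  have e1 := E1_ne (L := L) T t
  have e2 := (E2_pos (L := L) T t)
  have e3 := (E3_pos (L := L) T t)
  have hid1 := tan_ident T (uu (L.z2 t) (L.z3 t)) (uu (L.z3 t) (L.z1 t)) (uu (L.z1 t) (L.z2 t))
    (uu_sum _ _ _)
  have hid2 := tan_ident2 T (uu (L.z2 t) (L.z3 t)) (uu (L.z3 t) (L.z1 t)) (uu (L.z1 t) (L.z2 t))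
    (uu_sum _ _ _)
  have hfS : L.f T t = -(L.S1 T t * L.S2 T t + L.S2 T t * L.S3 T t + L.S1 T t * L.S3 T t) := rfl
  have hE : L.E1 T t * L.E2 T t + L.E2 T t * L.E3 T t + L.E1 T t * L.E3 T t = 1 - L.f T t := by
    rw [hfS]
    have h := hid1
    change (L.E1 T t * L.E2 T t + L.E2 T t * L.E3 T t + L.E1 T t * L.E3 T t) -
      (L.S1 T t * L.S2 T t + L.S2 T t * L.S3 T t + L.S1 T t * L.S3 T t) = 1 at h
    linarith
  have hB : L.E1 T t * (L.S2 T t + L.S3 T t) + L.E2 T t * (L.S1 T t + L.S3 T t) +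
      L.E3 T t * (L.S1 T t + L.S2 T t) = 0 := hid2
  have hy : L.w1 t * (L.E1 T t)⁻¹ + L.w2 t * (L.E2 T t)⁻¹ + L.w3 t * (L.E3 T t)⁻¹ = 0 := hn
  have hne' : ¬ (L.w1 t * (L.E1 T t)⁻¹ = 0 ∧ L.w2 t * (L.E2 T t)⁻¹ = 0 ∧
      L.w3 t * (L.E3 T t)⁻¹ = 0) := by
    rintro ⟨q1, q2, q3⟩
    apply hne
    refine ⟨?_, ?_, ?_⟩
    · exact (mul_eq_zero.1 q1).resolve_right (inv_ne_zero e1)
    · exact (mul_eq_zero.1 q2).resolve_right (inv_ne_zero e2.ne')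
    · exact (mul_eq_zero.1 q3).resolve_right (inv_ne_zero e3.ne')
  have key := jU_form hE hfS hB hf e2 e3 hy hne'
  refine lt_of_eq_of_lt ?_ key
  unfold nn'
  have e2' := e2.ne'
  have e3' := e3.ne'
  field_simp
  ring

end Ray

/-- TARGET: at most one solution with `ff < 1/9`. -/
theorem unique_D (T : Shape)
    (hconv : ∀ p q : ℝ × ℝ, 0 < p.1 → 0 < p.2 → 0 < q.1 → 0 < q.2 →
      fz T p.1 p.2 1 < 1 / 9 → fz T q.1 q.2 1 < 1 / 9 → ∀ t : ℝ, 0 ≤ t → t ≤ 1 →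
      fz T (p.1 + t * (q.1 - p.1)) (p.2 + t * (q.2 - p.2)) 1 < 1 / 9)
    (a1 a2 a3 : ℝ) (ha1 : 0 < a1) (ha2 : 0 < a2) (ha3 : 0 < a3) (p q : ℝ × ℝ)
    (hp : p ∈ Sol T a1 a2 a3) (hq : q ∈ Sol T a1 a2 a3)
    (hfp : ff T p.1 p.2 < 1 / 9) (hfq : ff T q.1 q.2 < 1 / 9) : p = q := by
  by_contra hpq
  obtain ⟨lam, hlam, hD1, hD2, hD3⟩ := hp
  obtain ⟨lam', hlam', hD1', hD2', hD3'⟩ := hq
  set z1 := exp (p.1 / 3) with hz1
  set z2 := exp (p.2 / 3) with hz2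
  set z3 := exp (-p.2 / 3) with hz3
  set y1 := exp (q.1 / 3) with hy1
  set y2 := exp (q.2 / 3) with hy2
  set y3 := exp (-q.2 / 3) with hy3
  have z1p : 0 < z1 := exp_pos _
  have z2p : 0 < z2 := exp_pos _
  have z3p : 0 < z3 := exp_pos _
  have y1p : 0 < y1 := exp_pos _
  have y2p : 0 < y2 := exp_pos _
  have y3p : 0 < y3 := exp_pos _
  have u1 : uu z2 z3 = 2 * p.2 := by
    unfold uu; rw [hz2, hz3, log_exp, log_exp]; ring
  have u2 : uu z3 z1 = -p.2 - p.1 := by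
    unfold uu; rw [hz3, hz1, log_exp, log_exp]; ring
  have u3 : uu z1 z2 = p.1 - p.2 := by
    unfold uu; rw [hz1, hz2, log_exp, log_exp]; ring
  have v1 : uu y2 y3 = 2 * q.2 := by
    unfold uu; rw [hy2, hy3, log_exp, log_exp]; ring
  have v2 : uu y3 y1 = -q.2 - q.1 := by
    unfold uu; rw [hy3, hy1, log_exp, log_exp]; ring
  have v3 : uu y1 y2 = q.1 - q.2 := by
    unfold uu; rw [hy1, hy2, log_exp, log_exp]; ring
  have hscale : ∀ k z z' : ℝ, 0 < k → 0 < z → 0 < z' → uu (k * z) (k * z') = uu z z' := by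
    intro k z z' hk hz hz'
    unfold uu
    rw [log_mul hk.ne' hz.ne', log_mul hk.ne' hz'.ne']
    ring
  have fp : fz T z1 z2 z3 < 1 / 9 := by
    have : fz T z1 z2 z3 = ff T p.1 p.2 := by
      unfold fz ff; rw [u1, u2, u3]
    rw [this]; exact hfp
  have fq : fz T y1 y2 y3 < 1 / 9 := by
    have : fz T y1 y2 y3 = ff T q.1 q.2 := by
      unfold fz ff; rw [v1, v2, v3]
    rw [this]; exact hfq
  have s1 := T.n1
  have s2 := T.p2.ne'
  have s3 := T.p3.ne'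
  -- the sum of the inverse E's
  have hL : ∀ (lam w1 w2 w3 : ℝ), 0 < lam → fz T w1 w2 w3 < 1 / 9 →
      Del T.c1 (uu w2 w3) = lam * (a1 * w1) → Del T.c2 (uu w3 w1) = lam * (a2 * w2) →
      Del T.c3 (uu w1 w2) = lam * (a3 * w3) →
      0 < T.s1 * (a1 * w1 / T.s1 + a2 * w2 / T.s2 + a3 * w3 / T.s3) := by
    intro lam w1 w2 w3 hl hf d1 d2 d3
    have hid := tan_ident T (uu w2 w3) (uu w3 w1) (uu w1 w2) (uu_sum _ _ _)
    have hfz : fz T w1 w2 w3 = -(SS T.c1 (uu w2 w3) * SS T.c2 (uu w3 w1) +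
      SS T.c2 (uu w3 w1) * SS T.c3 (uu w1 w2) + SS T.c1 (uu w2 w3) * SS T.c3 (uu w1 w2)) := rfl
    have p1 : 0 < Del T.c1 (uu w2 w3) := del_pos T.c1_gt _
    have p2 : 0 < Del T.c2 (uu w3 w1) := del_pos T.c2_gt _
    have p3 : 0 < Del T.c3 (uu w1 w2) := del_pos T.c3_gt _
    have he2 : 0 < EE T.c1 T.s1 (uu w2 w3) * EE T.c2 T.s2 (uu w3 w1) +
        EE T.c2 T.s2 (uu w3 w1) * EE T.c3 T.s3 (uu w1 w2) +
        EE T.c1 T.s1 (uu w2 w3) * EE T.c3 T.s3 (uu w1 w2) := by linarith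
    have e1 : EE T.c1 T.s1 (uu w2 w3) = T.s1 / Del T.c1 (uu w2 w3) := rfl
    have e2 : EE T.c2 T.s2 (uu w3 w1) = T.s2 / Del T.c2 (uu w3 w1) := rfl
    have e3 : EE T.c3 T.s3 (uu w1 w2) = T.s3 / Del T.c3 (uu w1 w2) := rfl
    rw [e1, e2, e3] at he2
    set d1' := Del T.c1 (uu w2 w3)
    set d2' := Del T.c2 (uu w3 w1)
    set d3' := Del T.c3 (uu w1 w2)
    have key : lam * (T.s1 * (a1 * w1 / T.s1 + a2 * w2 / T.s2 + a3 * w3 / T.s3)) =
        (T.s1 / d1' * (T.s2 / d2') + T.s2 / d2' * (T.s3 / d3') + T.s1 / d1' * (T.s3 / d3')) *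
          (d1' * d2' * d3' / (T.s2 * T.s3)) := by
      have k1 : lam * (T.s1 * (a1 * w1 / T.s1 + a2 * w2 / T.s2 + a3 * w3 / T.s3)) =
          T.s1 * (d1' / T.s1 + d2' / T.s2 + d3' / T.s3) := by
        rw [d1, d2, d3]; ring
      rw [k1]
      have q1 := p1.ne'
      have q2 := p2.ne'
      have q3 := p3.ne'
      clear_value d1' d2' d3'
      field_simp
      ring
    have hpos : 0 < lam * (T.s1 * (a1 * w1 / T.s1 + a2 * w2 / T.s2 + a3 * w3 / T.s3)) := by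
      rw [key]
      apply mul_pos he2
      have := T.p2
      have := T.p3
      positivity
    exact (pos_iff_pos_of_mul_pos hpos).1 hl
  have D1e : Del T.c1 (uu z2 z3) = lam * (a1 * z1) := by rw [u1]; exact hD1
  have D2e : Del T.c2 (uu z3 z1) = lam * (a2 * z2) := by rw [u2]; exact hD2
  have D3e : Del T.c3 (uu z1 z2) = lam * (a3 * z3) := by rw [u3]; exact hD3
  have D1e' : Del T.c1 (uu y2 y3) = lam' * (a1 * y1) := by rw [v1]; exact hD1'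
  have D2e' : Del T.c2 (uu y3 y1) = lam' * (a2 * y2) := by rw [v2]; exact hD2'
  have D3e' : Del T.c3 (uu y1 y2) = lam' * (a3 * y3) := by rw [v3]; exact hD3'
  have hLp := hL lam z1 z2 z3 hlam fp D1e D2e D3e
  have hLq := hL lam' y1 y2 y3 hlam' fq D1e' D2e' D3e'
  set Lz := a1 * z1 / T.s1 + a2 * z2 / T.s2 + a3 * z3 / T.s3 with hLz
  set Ly := a1 * y1 / T.s1 + a2 * y2 / T.s2 + a3 * y3 / T.s3 with hLy
  have hLy0 : Ly ≠ 0 := by
    intro h; rw [h, mul_zero] at hLq; exact lt_irrefl _ hLq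
  have hmu : 0 < Lz / Ly := by
    have : Lz / Ly = (T.s1 * Lz) / (T.s1 * Ly) := by field_simp
    rw [this]; exact div_pos hLp hLq
  set mu := Lz / Ly with hmudef
  have hmuL : mu * Ly - Lz = 0 := by rw [hmudef]; field_simp; ring
  let L : Ray := ⟨z1, mu * y1 - z1, z2, mu * y2 - z2, z3, mu * y3 - z3⟩
  have hz1t : ∀ t, L.z1 t = (1 - t) * z1 + t * (mu * y1) := fun t => by
    simp only [L, Ray.z1]; ring
  have hz2t : ∀ t, L.z2 t = (1 - t) * z2 + t * (mu * y2) := fun t => by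
    simp only [L, Ray.z2]; ring
  have hz3t : ∀ t, L.z3 t = (1 - t) * z3 + t * (mu * y3) := fun t => by
    simp only [L, Ray.z3]; ring
  have hcomb : ∀ a b t : ℝ, 0 < a → 0 < b → 0 ≤ t → t ≤ 1 → 0 < (1 - t) * a + t * (mu * b) := by
    intro a b t ha hb h0 h1
    have hb' : 0 < mu * b := mul_pos hmu hb
    rcases h0.eq_or_lt with h | h
    · rw [← h]; simpa using ha
    · have k1 : 0 ≤ (1 - t) * a := mul_nonneg (by linarith) ha.le
      have k2 : 0 < t * (mu * b) := mul_pos h hb'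
      linarith
  have hPos : ∀ t ∈ Set.Icc (0 : ℝ) 1, L.Pos t := by
    intro t ht
    refine ⟨?_, ?_, ?_⟩
    · rw [hz1t]; exact hcomb _ _ _ z1p y1p ht.1 ht.2
    · rw [hz2t]; exact hcomb _ _ _ z2p y2p ht.1 ht.2
    · rw [hz3t]; exact hcomb _ _ _ z3p y3p ht.1 ht.2
  have hft : ∀ t ∈ Set.Icc (0 : ℝ) 1, L.f T t < 1 / 9 := by
    intro t ht
    obtain ⟨q1, q2, q3⟩ := hPos t ht
    have q3' := q3.ne'
    have z3' := z3p.ne'
    have y3' := y3p.ne'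
    have e : L.f T t = fz T (L.z1 t / L.z3 t) (L.z2 t / L.z3 t) 1 := by
      have := fz_scale T q3 (div_pos q1 q3) (div_pos q2 q3) one_pos
      rw [← this]
      rw [mul_div_cancel₀ _ q3', mul_div_cancel₀ _ q3', mul_one]
      rfl
    have ep : fz T (z1 / z3) (z2 / z3) 1 < 1 / 9 := by
      have := fz_scale T z3p (div_pos z1p z3p) (div_pos z2p z3p) one_pos
      rw [mul_div_cancel₀ _ z3', mul_div_cancel₀ _ z3', mul_one] at this
      rw [← this]; exact fp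
    have eq' : fz T (y1 / y3) (y2 / y3) 1 < 1 / 9 := by
      have := fz_scale T y3p (div_pos y1p y3p) (div_pos y2p y3p) one_pos
      rw [mul_div_cancel₀ _ y3', mul_div_cancel₀ _ y3', mul_one] at this
      rw [← this]; exact fq
    have hτ0 : 0 ≤ t * (mu * y3) / L.z3 t :=
      div_nonneg (mul_nonneg ht.1 (mul_pos hmu y3p).le) q3.le
    have hτ1 : t * (mu * y3) / L.z3 t ≤ 1 := by
      rw [div_le_one q3, hz3t]
      have : 0 ≤ (1 - t) * z3 := mul_nonneg (by linarith [ht.2]) z3p.le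
      linarith
    have hc := hconv (z1 / z3, z2 / z3) (y1 / y3, y2 / y3) (div_pos z1p z3p) (div_pos z2p z3p)
      (div_pos y1p y3p) (div_pos y2p y3p) ep eq' _ hτ0 hτ1
    rw [e]
    have c1 : L.z1 t / L.z3 t = z1 / z3 + t * (mu * y3) / L.z3 t * (y1 / y3 - z1 / z3) := by
      have h3t := hz3t t
      rw [hz1t, div_eq_iff q3']
      have : (z1 / z3 + t * (mu * y3) / L.z3 t * (y1 / y3 - z1 / z3)) * L.z3 t =
        z1 / z3 * L.z3 t + t * (mu * y3) * (y1 / y3 - z1 / z3) := by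
        field_simp
      rw [this, h3t]
      field_simp
      ring
    have c2 : L.z2 t / L.z3 t = z2 / z3 + t * (mu * y3) / L.z3 t * (y2 / y3 - z2 / z3) := by
      have h3t := hz3t t
      rw [hz2t, div_eq_iff q3']
      have : (z2 / z3 + t * (mu * y3) / L.z3 t * (y2 / y3 - z2 / z3)) * L.z3 t =
        z2 / z3 * L.z3 t + t * (mu * y3) * (y2 / y3 - z2 / z3) := by
        field_simp
      rw [this, h3t]
      field_simp
      ring
    rw [c1, c2]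
    exact hc
  have hwne : ∀ t ∈ Set.Icc (0 : ℝ) 1, ¬ (L.w1 t = 0 ∧ L.w2 t = 0 ∧ L.w3 t = 0) := by
    rintro t ht ⟨q1, q2, q3⟩
    obtain ⟨r1, r2, r3⟩ := hPos t ht
    have b1 : mu * y1 - z1 = 0 := (div_eq_zero_iff.1 q1).resolve_right r1.ne'
    have b2 : mu * y2 - z2 = 0 := (div_eq_zero_iff.1 q2).resolve_right r2.ne'
    have b3 : mu * y3 - z3 = 0 := (div_eq_zero_iff.1 q3).resolve_right r3.ne'
    have b1' : z1 = mu * y1 := by linarith
    have b2' : z2 = mu * y2 := by linarith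
    have b3' : z3 = mu * y3 := by linarith
    have t1 : uu z2 z3 = uu y2 y3 := by rw [b2', b3']; exact hscale _ _ _ hmu y2p y3p
    have t3 : uu z1 z2 = uu y1 y2 := by rw [b1', b2']; exact hscale _ _ _ hmu y1p y2p
    rw [u1, v1] at t1
    rw [u3, v3] at t3
    apply hpq
    ext
    · linarith
    · linarith
  have hEinv : ∀ c s u : ℝ, (EE c s u)⁻¹ = Del c u / s := by
    intro c s u; unfold EE Del; rw [inv_div]
  apply jU_zeros (n := L.nn T) (n' := L.nn' T)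
  · intro t ht
    exact Ray.hasDerivAt_nn T (hPos t ht)
  · have g1 : L.z1 0 = z1 := by rw [hz1t]; ring
    have g2 : L.z2 0 = z2 := by rw [hz2t]; ring
    have g3 : L.z3 0 = z3 := by rw [hz3t]; ring
    unfold Ray.nn Ray.w1 Ray.w2 Ray.w3 Ray.E1 Ray.E2 Ray.E3
    rw [hEinv, hEinv, hEinv, g1, g2, g3, D1e, D2e, D3e]
    have h1 : L.b1 = mu * y1 - z1 := rfl
    have h2 : L.b2 = mu * y2 - z2 := rfl
    have h3 : L.b3 = mu * y3 - z3 := rfl
    rw [h1, h2, h3]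
    have z1' := z1p.ne'
    have z2' := z2p.ne'
    have z3' := z3p.ne'
    have : (mu * y1 - z1) / z1 * (lam * (a1 * z1) / T.s1) +
      (mu * y2 - z2) / z2 * (lam * (a2 * z2) / T.s2) +
      (mu * y3 - z3) / z3 * (lam * (a3 * z3) / T.s3) = lam * (mu * Ly - Lz) := by
      rw [hLy, hLz]
      field_simp
      ring
    rw [this, hmuL, mul_zero]
  · have g1 : L.z1 1 = mu * y1 := by rw [hz1t]; ring
    have g2 : L.z2 1 = mu * y2 := by rw [hz2t]; ring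
    have g3 : L.z3 1 = mu * y3 := by rw [hz3t]; ring
    unfold Ray.nn Ray.w1 Ray.w2 Ray.w3 Ray.E1 Ray.E2 Ray.E3
    rw [hEinv, hEinv, hEinv, g1, g2, g3, hscale _ _ _ hmu y2p y3p, hscale _ _ _ hmu y3p y1p,
      hscale _ _ _ hmu y1p y2p, D1e', D2e', D3e']
    have h1 : L.b1 = mu * y1 - z1 := rfl
    have h2 : L.b2 = mu * y2 - z2 := rfl
    have h3 : L.b3 = mu * y3 - z3 := rfl
    rw [h1, h2, h3]
    have y1' := y1p.ne'
    have y2' := y2p.ne'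
    have y3' := y3p.ne'
    have mu' := hmu.ne'
    have : (mu * y1 - z1) / (mu * y1) * (lam' * (a1 * y1) / T.s1) +
      (mu * y2 - z2) / (mu * y2) * (lam' * (a2 * y2) / T.s2) +
      (mu * y3 - z3) / (mu * y3) * (lam' * (a3 * y3) / T.s3) = lam' / mu * (mu * Ly - Lz) := by
      rw [hLy, hLz]
      clear_value mu
      field_simp
      ring
    rw [this, hmuL, mul_zero]
  · intro t ht h
    exact Ray.nn'_neg T (hft t ht) h (hwne t ht)

end Pool.Agent.Helper19.Maxwell
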