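import Pool.Prelude.Def_F_d420a142
import Pool.Agent.Helper19.Maxwell.Convex
import Pool.Agent.Helper19.Maxwell.Bounded
import Pool.Agent.Helper19.Maxwell.Centre
import Pool.Agent.Helper19.Maxwell.Unique
import Pool.Agent.Helper19.Maxwell.Unimodal
import Pool.Agent.Helper19.Maxwell.Core
import Pool.Agent.Helper19.Maxwell.Count
import Pool.Agent.Helper19.Maxwell.Forward
import Pool.Agent.Helper19.Maxwell.Backward
import Pool.Agent.Helper19.Maxwell.Degenerate
import Pool.Agent.Helper19.Maxwell.TriExists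
import Pool.Agent.Helper19.Maxwell.Hess
import Pool.Agent.Helper19.Maxwell.Collinear

set_option autoImplicit false

namespace Pool.Agent.Helper19.Maxwell

open N62f3cee0

theorem amp_pos {Q l : ℝ} (hQ : Q ≠ 0) (hl : 0 < l) : 0 < amp Q l := by
  unfold amp
  have : 0 < |Q| * l ^ 2 := mul_pos (abs_pos.2 hQ) (by positivity)
  exact Real.rpow_pos_of_pos this _

/-- the system has at most four solutions when no solution has `ff = 1/9` -/
theorem sol_le_four (T : Shape) (a1 a2 a3 : ℝ) (ha1 : 0 < a1) (ha2 : 0 < a2) (ha3 : 0 < a3)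
    (hnd : ∀ p ∈ Sol T a1 a2 a3, ff T p.1 p.2 ≠ 1 / 9) :
    (Sol T a1 a2 a3).encard ≤ 4 := by
  refine core (fun G F Gx Gv Fx Fv h1 h2 m h3 h4 h5 h6 h7 h8 h9 =>
      count_zeros G F Gx Gv Fx Fv h1 h2 m h3 h4 h5 h6 h7 h8 h9)
    (fun T w2 w3 a1 h2 h3 h1 K v => unimodal T w2 w3 a1 h2 h3 h1 K v)
    (fun T w2 w3 a1 a2 a3 g1 g2 g3 g4 g5 x v =>
      mem_Sol_iff T w2 w3 a1 a2 a3 g1 g2 g3 g4 g5 x v)
    (fun T a1 a2 a3 g1 g2 g3 w2 w3 g4 g5 => jacobian T a1 a2 a3 g1 g2 g3 w2 w3 g4 g5)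
    T a1 a2 a3 ha1 ha2 ha3 ?_ hnd
  intro p q hp hq hfp hfq
  exact unique_D T (convex_region T (bounded_region T) (fun p h1 h2 h3 h4 =>
    localMin_center T p h1 h2 h3 h4)) a1 a2 a3 ha1 ha2 ha3 p q hp hq hfp hfq

theorem noncollinear_aux (q : Fin 3 → ℝ) (a : Fin 3 → EuclideanSpace ℝ (Fin 3))
    (hq : ∀ j, q j ≠ 0) (hcol : ¬ Collinear ℝ (Set.range a)) (hs : 0 < q 1 * q 2)
    (hnd : ∀ x ∈ equilibria q a, HasNondegenerateHessianAt (potential q a) x) :
    (equilibria q a).encard ≤ 4 := by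
  obtain ⟨D⟩ := exists_triData a hcol
  obtain ⟨g, hg, hg0⟩ : ∃ g : ℝ, g ^ 2 = 1 ∧ 0 < g * (q 0 * q 1) := by
    have h01 : q 0 * q 1 ≠ 0 := mul_ne_zero (hq 0) (hq 1)
    rcases lt_or_gt_of_ne h01 with h | h
    · exact ⟨-1, by norm_num, by linarith⟩
    · exact ⟨1, by norm_num, by linarith⟩
  have hS : (Sol (shapeOf D g hg) (amp (q 0) D.l1) (amp (q 1) D.l2)
      (amp (q 2) D.l3)).encard ≤ 4 := by
    apply sol_le_four _ _ _ _ (amp_pos (hq 0) D.pl1) (amp_pos (hq 1) D.pl2)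
      (amp_pos (hq 2) D.pl3)
    intro p hp hf
    obtain ⟨x, β, c, hx, _, hβ, hsum, heq, hqc, hdet⟩ :=
      backward D hcol q hq hs g hg hg0 p hp hf
    have hxe : x ∈ equilibria q a := by
      rw [equilibria_iff]
      refine ⟨hx, ?_⟩
      have : ∑ j, (q j / dist x (a j) ^ 3) • (x - a j) = c • ∑ j, β j • (x - a j) := by
        rw [Finset.smul_sum]
        refine Finset.sum_congr rfl fun j _ => ?_
        rw [hqc j, mul_smul]
      rw [this, heq, smul_zero]
    obtain ⟨v, hv0, hv⟩ := degenerate a hcol q x hx β c hβ hsum heq hqc hdet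
    obtain ⟨w, hw⟩ := hnd x hxe v hv0
    apply hw
    rw [hess_formula q a x hx v w]
    exact hv w
  have hfwd : ∀ x ∈ equilibria q a, ∃ b : ℝ × ℝ × ℝ,
      D.l1 * b.1 + D.l2 * b.2.1 + D.l3 * b.2.2 = 1 ∧
      x = (D.l1 * b.1) • a 0 + (D.l2 * b.2.1) • a 1 + (D.l3 * b.2.2) • a 2 ∧
      0 < b.2.1 * b.2.2 ∧ 0 < g * (b.1 * b.2.1) ∧
      (Real.log |b.1| - (Real.log |b.2.1| + Real.log |b.2.2|) / 2,
        (Real.log |b.2.1| - Real.log |b.2.2|) / 2) ∈
        Sol (shapeOf D g hg) (amp (q 0) D.l1) (amp (q 1) D.l2) (amp (q 2) D.l3) := by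
    intro x hx
    rw [equilibria_iff] at hx
    obtain ⟨b1, b2, b3, h1, h2, h3, h4, h5⟩ :=
      forward D hcol q hq hs g hg hg0 x hx.1 hx.2
    exact ⟨(b1, b2, b3), h1, h2, h3, h4, h5⟩
  choose! b hb using hfwd
  refine le_trans (Set.encard_le_encard_of_injOn
    (f := fun x => (Real.log |(b x).1| - (Real.log |(b x).2.1| + Real.log |(b x).2.2|) / 2,
        (Real.log |(b x).2.1| - Real.log |(b x).2.2|) / 2)) ?_ ?_) hS
  · intro x hx
    exact (hb x hx).2.2.2.2
  · intro x hx y hy hxy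
    obtain ⟨x1, x2, x3, x4, _⟩ := hb x hx
    obtain ⟨y1, y2, y3, y4, _⟩ := hb y hy
    have hxy' := Prod.mk_inj.1 hxy
    obtain ⟨e1, e2, e3⟩ := forward_inj D.l1 D.l2 D.l3 g _ _ _ _ _ _ hg D.pl1 D.pl2 D.pl3
      x1 y1 x3 x4 y3 y4 hxy'.1 hxy'.2
    rw [x2, y2, e1, e2, e3]

theorem potential_perm (q : Fin 3 → ℝ) (a : Fin 3 → EuclideanSpace ℝ (Fin 3))
    (s : Equiv.Perm (Fin 3)) : potential (q ∘ s) (a ∘ s) = potential q a := by
  funext x
  unfold potential
  exact Equiv.sum_comp s (fun j => q j / dist x (a j))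

theorem equilibria_perm (q : Fin 3 → ℝ) (a : Fin 3 → EuclideanSpace ℝ (Fin 3))
    (s : Equiv.Perm (Fin 3)) : equilibria (q ∘ s) (a ∘ s) = equilibria q a := by
  unfold equilibria
  rw [potential_perm, Set.range_comp, s.surjective.range_eq, Set.image_univ]

theorem noncollinear_case (q : Fin 3 → ℝ) (a : Fin 3 → EuclideanSpace ℝ (Fin 3))
    (hq : ∀ j, q j ≠ 0) (hcol : ¬ Collinear ℝ (Set.range a))
    (hnd : ∀ x ∈ equilibria q a, HasNondegenerateHessianAt (potential q a) x) :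
    (equilibria q a).encard ≤ 4 := by
  have key : ∀ s : Equiv.Perm (Fin 3), 0 < q (s 1) * q (s 2) →
      (equilibria q a).encard ≤ 4 := by
    intro s hs
    rw [← equilibria_perm q a s]
    apply noncollinear_aux (q ∘ s) (a ∘ s) (fun j => hq _)
    · rw [Set.range_comp, s.surjective.range_eq, Set.image_univ]
      exact hcol
    · exact hs
    · intro x hx
      rw [equilibria_perm] at hx
      rw [potential_perm]
      exact hnd x hx
  have h0 := hq 0
  have h1 := hq 1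
  have h2 := hq 2
  rcases lt_or_gt_of_ne h0 with h0 | h0 <;> rcases lt_or_gt_of_ne h1 with h1 | h1 <;>
    rcases lt_or_gt_of_ne h2 with h2 | h2
  · exact key (Equiv.refl _) (mul_pos_of_neg_of_neg h1 h2)
  · refine key (Equiv.swap 0 2) ?_
    have e1 : (Equiv.swap 0 2 : Equiv.Perm (Fin 3)) 1 = 1 := by decide
    have e2 : (Equiv.swap 0 2 : Equiv.Perm (Fin 3)) 2 = 0 := by decide
    rw [e1, e2]
    exact mul_pos_of_neg_of_neg h1 h0
  · refine key (Equiv.swap 0 1) ?_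
    have e1 : (Equiv.swap 0 1 : Equiv.Perm (Fin 3)) 1 = 0 := by decide
    have e2 : (Equiv.swap 0 1 : Equiv.Perm (Fin 3)) 2 = 2 := by decide
    rw [e1, e2]
    exact mul_pos_of_neg_of_neg h0 h2
  · exact key (Equiv.refl _) (mul_pos h1 h2)
  · exact key (Equiv.refl _) (mul_pos_of_neg_of_neg h1 h2)
  · refine key (Equiv.swap 0 1) ?_
    have e1 : (Equiv.swap 0 1 : Equiv.Perm (Fin 3)) 1 = 0 := by decide
    have e2 : (Equiv.swap 0 1 : Equiv.Perm (Fin 3)) 2 = 2 := by decide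
    rw [e1, e2]
    exact mul_pos h0 h2
  · refine key (Equiv.swap 0 2) ?_
    have e1 : (Equiv.swap 0 2 : Equiv.Perm (Fin 3)) 1 = 1 := by decide
    have e2 : (Equiv.swap 0 2 : Equiv.Perm (Fin 3)) 2 = 0 := by decide
    rw [e1, e2]
    exact mul_pos h1 h0
  · exact key (Equiv.refl _) (mul_pos h1 h2)

/-- Maxwell's conjecture for three point charges. -/
theorem maxwell_three (q : Fin 3 → ℝ) (a : Fin 3 → EuclideanSpace ℝ (Fin 3))
    (ha : Function.Injective a) (hq : ∀ j, q j ≠ 0)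
    (hnd : ∀ x ∈ equilibria q a, HasNondegenerateHessianAt (potential q a) x) :
    (equilibria q a).encard ≤ 4 := by
  by_cases hcol : Collinear ℝ (Set.range a)
  · exact collinear_case (fun q a x => equilibria_iff q a x)
      (fun q a x hx v w => hess_formula q a x hx v w) q a ha hq hcol hnd
  · exact noncollinear_case q a hq hcol hnd

end Pool.Agent.Helper19.Maxwell
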