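import Pool.Agent.Helper19.Maxwell.Defs

set_option autoImplicit false

namespace Pool.Agent.Helper19.Maxwell

/-- Side lengths `l_i` and cosines / sines `k_i, t_i` of the angles of the triangle `a`. -/
structure TriData (a : Fin 3 → EuclideanSpace ℝ (Fin 3)) where
  l1 : ℝ
  l2 : ℝ
  l3 : ℝ
  k1 : ℝ
  k2 : ℝ
  k3 : ℝ
  t1 : ℝ
  t2 : ℝ
  t3 : ℝ
  e1 : dist (a 1) (a 2) = l1
  e2 : dist (a 0) (a 2) = l2
  e3 : dist (a 0) (a 1) = l3
  pl1 : 0 < l1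
  pl2 : 0 < l2
  pl3 : 0 < l3
  pt1 : 0 < t1
  pt2 : 0 < t2
  pt3 : 0 < t3
  q1 : k1 ^ 2 + t1 ^ 2 = 1
  q2 : k2 ^ 2 + t2 ^ 2 = 1
  q3 : k3 ^ 2 + t3 ^ 2 = 1
  ck1 : k1 = t2 * t3 - k2 * k3
  ck2 : k2 = t3 * t1 - k3 * k1
  ck3 : k3 = t1 * t2 - k1 * k2
  ct1 : t1 = t2 * k3 + k2 * t3
  ct2 : t2 = t3 * k1 + k3 * t1
  ct3 : t3 = t1 * k2 + k1 * t2
  i1 : inner ℝ (a 1 - a 0) (a 2 - a 0) = l3 * l2 * k1
  i2 : inner ℝ (a 0 - a 1) (a 2 - a 1) = l3 * l1 * k2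
  i3 : inner ℝ (a 0 - a 2) (a 1 - a 2) = l2 * l1 * k3
  sn1 : l1 * t2 = l2 * t1
  sn2 : l2 * t3 = l3 * t2

/-- The shape attached to a triangle and a sign `g = ±1`. -/
noncomputable def shapeOf {a : Fin 3 → EuclideanSpace ℝ (Fin 3)} (D : TriData a) (g : ℝ)
    (hg : g ^ 2 = 1) : Shape where
  c1 := D.k1
  c2 := g * D.k2
  c3 := g * D.k3
  s1 := g * D.t1
  s2 := D.t2
  s3 := D.t3
  h1 := by have := D.q1; nlinarith
  h2 := by have := D.q2; nlinarith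
  h3 := by have := D.q3; nlinarith
  hc1 := by have := D.ck1; linear_combination this + D.k2 * D.k3 * hg
  hc2 := by have := D.ck2; linear_combination g * this
  hc3 := by have := D.ck3; linear_combination g * this
  hs1 := by have := D.ct1; linear_combination g * this
  hs2 := by have := D.ct2; linear_combination this - D.k3 * D.t1 * hg
  hs3 := by have := D.ct3; linear_combination this - D.t1 * D.k2 * hg
  p2 := D.pt2
  p3 := D.pt3
  n1 := by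
    have h := D.pt1
    intro h0
    rcases mul_eq_zero.1 h0 with h1 | h1
    · rw [h1] at hg; norm_num at hg
    · exact h.ne' h1

/-- the parameters `a_i = (|q_i| l_i^2)^(2/3)` -/
noncomputable def amp (Q l : ℝ) : ℝ := (|Q| * l ^ 2) ^ (2 / 3 : ℝ)

end Pool.Agent.Helper19.Maxwell
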