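import Pool.Agent.Helper19.Maxwell.TriDefs

set_option autoImplicit false

namespace Pool.Agent.Helper19.Maxwell

theorem exists_triData (a : Fin 3 → EuclideanSpace ℝ (Fin 3))
    (hcol : ¬ Collinear ℝ (Set.range a)) : Nonempty (TriData a) := by
  have hr : Set.range a = {a 0, a 1, a 2} := by
    ext x
    simp only [Set.mem_range, Set.mem_insert_iff, Set.mem_singleton_iff]
    constructor
    · rintro ⟨i, rfl⟩
      fin_cases i <;> simp
    · rintro (h | h | h)
      · exact ⟨0, h.symm⟩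
      · exact ⟨1, h.symm⟩
      · exact ⟨2, h.symm⟩
  rw [hr] at hcol
  have n01 : a 0 ≠ a 1 := ne₁₂_of_not_collinear hcol
  have n02 : a 0 ≠ a 2 := ne₁₃_of_not_collinear hcol
  have n12 : a 1 ≠ a 2 := ne₂₃_of_not_collinear hcol
  have hcol1 : ¬ Collinear ℝ ({a 1, a 0, a 2} : Set (EuclideanSpace ℝ (Fin 3))) := by
    rwa [Set.insert_comm]
  have hcol3 : ¬ Collinear ℝ ({a 0, a 2, a 1} : Set (EuclideanSpace ℝ (Fin 3))) := by
    rwa [Set.pair_comm (a 2) (a 1)]
  have hsum := EuclideanGeometry.angle_add_angle_add_angle_eq_pi (a 2) n01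
  rw [EuclideanGeometry.angle_comm (a 2) (a 1) (a 0)] at hsum
  have l1 := EuclideanGeometry.law_sin (a 0) (a 1) (a 2)
  rw [EuclideanGeometry.angle_comm (a 2) (a 0) (a 1), dist_comm (a 2) (a 0)] at l1
  have l2 := EuclideanGeometry.law_sin (a 1) (a 2) (a 0)
  rw [EuclideanGeometry.angle_comm (a 1) (a 2) (a 0), dist_comm (a 2) (a 0)] at l2
  have p1 := EuclideanGeometry.sin_pos_of_not_collinear hcol1
  have p2 := EuclideanGeometry.sin_pos_of_not_collinear hcol
  have p3 := EuclideanGeometry.sin_pos_of_not_collinear hcol3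
  have i1 := InnerProductGeometry.cos_angle_mul_norm_mul_norm (a 1 - a 0) (a 2 - a 0)
  have i2 := InnerProductGeometry.cos_angle_mul_norm_mul_norm (a 0 - a 1) (a 2 - a 1)
  have i3 := InnerProductGeometry.cos_angle_mul_norm_mul_norm (a 0 - a 2) (a 1 - a 2)
  rw [← dist_eq_norm, ← dist_eq_norm] at i1 i2 i3
  rw [dist_comm (a 1) (a 0), dist_comm (a 2) (a 0)] at i1
  rw [dist_comm (a 2) (a 1)] at i2
  change Real.cos (EuclideanGeometry.angle (a 1) (a 0) (a 2)) * _ = _ at i1
  change Real.cos (EuclideanGeometry.angle (a 0) (a 1) (a 2)) * _ = _ at i2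
  change Real.cos (EuclideanGeometry.angle (a 0) (a 2) (a 1)) * _ = _ at i3
  generalize EuclideanGeometry.angle (a 1) (a 0) (a 2) = A1 at *
  generalize EuclideanGeometry.angle (a 0) (a 1) (a 2) = A2 at *
  generalize EuclideanGeometry.angle (a 0) (a 2) (a 1) = A3 at *
  have d1 : A1 = Real.pi - (A2 + A3) := by linarith
  have d2 : A2 = Real.pi - (A3 + A1) := by linarith
  have d3 : A3 = Real.pi - (A1 + A2) := by linarith
  refine ⟨{ l1 := dist (a 1) (a 2), l2 := dist (a 0) (a 2), l3 := dist (a 0) (a 1),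
            k1 := Real.cos A1, k2 := Real.cos A2, k3 := Real.cos A3,
            t1 := Real.sin A1, t2 := Real.sin A2, t3 := Real.sin A3,
            e1 := rfl, e2 := rfl, e3 := rfl,
            pl1 := dist_pos.2 n12, pl2 := dist_pos.2 n02, pl3 := dist_pos.2 n01,
            pt1 := p1, pt2 := p2, pt3 := p3,
            q1 := Real.cos_sq_add_sin_sq A1, q2 := Real.cos_sq_add_sin_sq A2,
            q3 := Real.cos_sq_add_sin_sq A3,
            ck1 := ?_, ck2 := ?_, ck3 := ?_, ct1 := ?_, ct2 := ?_, ct3 := ?_,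
            i1 := ?_, i2 := ?_, i3 := ?_, sn1 := ?_, sn2 := ?_ }⟩
  · conv_lhs => rw [d1, Real.cos_pi_sub, Real.cos_add]
    ring
  · conv_lhs => rw [d2, Real.cos_pi_sub, Real.cos_add]
    ring
  · conv_lhs => rw [d3, Real.cos_pi_sub, Real.cos_add]
    ring
  · conv_lhs => rw [d1, Real.sin_pi_sub, Real.sin_add]
  · conv_lhs => rw [d2, Real.sin_pi_sub, Real.sin_add]
  · conv_lhs => rw [d3, Real.sin_pi_sub, Real.sin_add]
  · rw [← i1]; ring
  · rw [← i2]; ring
  · rw [← i3]; ring
  · linarith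
  · linarith

end Pool.Agent.Helper19.Maxwell
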